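import Pool.Agent.H62.PR.Lat2
import Pool.Graph.R_pool_sql_team_seeded_63374d34.N227.PQ.Det

/-!
# Project PR (helper62): the unimodular lattice
-/

set_option autoImplicit false
set_option linter.all false

open IsDedekindDomain NumberField WithZero Polynomial
open scoped Classical

namespace Pool.Agent.H62.PR

open Pool.Agent.N874.PP (Tup chA chB gq tau Two Ev Sq1 U0)
open Pool.Agent.N922.PQ
open Pool.Agent.N301.PQ (co_crd crd_inj crd_add crd_smul crd_C crd_theta mapO exO theta_ex mem_P1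
  mem_P2 mem_both poly_mem int_iff)

/-- The product of the other primes. -/
noncomputable def D1 (J : Finset ℤ) (Q : ℤ) : ℤ := ∏ Q' ∈ J.erase Q, Q'

theorem D1_mul {J : Finset ℤ} {Q : ℤ} (hQ : Q ∈ J) : Q * D1 J Q = ∏ Q ∈ J, Q :=
  Finset.mul_prod_erase J (fun Q => Q) hQ

theorem not_dvd_prod {J : Finset ℤ} {Q : ℤ} (hJ : ∀ Q ∈ J, IsPr Q) (hQ : IsPr Q) (h : Q ∉ J) :
    ¬ Q ∣ ∏ Q ∈ J, Q := by
  intro hd
  obtain ⟨P, hP, hd'⟩ := (hQ.2.dvd_finset_prod_iff _).1 hd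
  have h1 : Associated Q P := hQ.2.irreducible.associated_of_dvd (hJ P hP).2.irreducible hd'
  rw [Int.associated_iff] at h1
  rcases h1 with h1 | h1
  · exact h (h1 ▸ hP)
  · have := hQ.1
    have := (hJ P hP).1
    omega

theorem not_dvd_D1 {J : Finset ℤ} {Q : ℤ} (hJ : ∀ Q ∈ J, IsPr Q) (hQ : Q ∈ J) :
    ¬ Q ∣ D1 J Q :=
  not_dvd_prod (fun P hP => hJ P (Finset.mem_of_mem_erase hP)) (hJ Q hQ)
    (Finset.notMem_erase Q J)

theorem prod_dvd_of {J : Finset ℤ} (hJ : ∀ Q ∈ J, IsPr Q) {m : ℤ} (h : ∀ Q ∈ J, Q ∣ m) :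
    (∏ Q ∈ J, Q) ∣ m := by
  apply Finset.prod_dvd_of_coprime
  · intro Q hQ Q' hQ' hne
    exact isCoprime_of (hJ Q hQ) (hJ Q' hQ') hne
  · exact h

/-- The data at the ramified primes. -/
structure TwD {L O : Type} [Field L] [NumberField L] [CommRing O] [IsDedekindDomain O] [Algebra O L]
    [IsFractionRing O L] (a b : ℤ) (θ α : L) (J : Finset ℤ) (𝔭 𝔮 : ℤ → HeightOneSpectrum O)
    (g : ℤ → L) : Prop where
  two : ∀ Q ∈ J, TwoP a b θ Q (𝔭 Q) (𝔮 Q)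
  ev : ∀ 𝔓 : HeightOneSpectrum O, (∀ Q ∈ J, 𝔓 ≠ 𝔮 Q) → Ev 𝔓 α
  ne : α ≠ 0
  gm : ∀ Q ∈ J, g Q ∈ M0 O α
  gq : ∀ Q ∈ J, ∃ x : L, IsIntegral ℤ x ∧
    g Q ^ 2 / α = (Q : L) * (D1 J Q : L) * θ + (Q : L) ^ 2 * x

/-- The ramified primes. -/
def RR {O : Type} [CommRing O] (J : Finset ℤ) (𝔮 : ℤ → HeightOneSpectrum O) :
    Set (HeightOneSpectrum O) := {𝔓 | ∃ Q ∈ J, 𝔓 = 𝔮 Q}

section lat

variable {L O : Type} [Field L] [NumberField L] [CommRing O] [IsDedekindDomain O] [Algebra O L]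
  [IsFractionRing O L] [IsIntegralClosure O ℤ L] {a b : ℤ} {θ α : L} {J : Finset ℤ}
  {𝔭 𝔮 : ℤ → HeightOneSpectrum O} {g : ℤ → L}
  (hI : S_INT) (hc : IsCub a b θ) (hsq : Squarefree (dsc a b))
  (hT : TwD a b θ α J 𝔭 𝔮 g)

include hT in
theorem TwD.ev' (𝔓 : HeightOneSpectrum O) (h : 𝔓 ∉ RR J 𝔮) : Ev 𝔓 α :=
  hT.ev 𝔓 fun Q hQ he => h ⟨Q, hQ, he⟩

include hT in
theorem TwD.pr {Q : ℤ} (hQ : Q ∈ J) : IsPr Q := (hT.two Q hQ).pr

include hT in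
theorem TwD.notR {Q : ℤ} (hQ : Q ∈ J) : 𝔭 Q ∉ RR J 𝔮 := by
  rintro ⟨Q', hQ', he⟩
  have h1 := (hT.two Q hQ).op
  rw [he] at h1
  have h2 := below_unique (hT.pr hQ) (hT.pr hQ') h1 (hT.two Q' hQ').oq
  subst h2
  exact (hT.two Q hQ).ne he

theorem theta_int (hc : IsCub a b θ) : IsIntegral ℤ θ := by
  obtain ⟨t, ht⟩ := theta_ex (𝓞 L) hc
  exact (int_iff (𝓞 L) _).2 ⟨t, ht⟩

include hc hT in
theorem TwD.small {Q : ℤ} (hQ : Q ∈ J) {𝔓 : HeightOneSpectrum O} (h𝔓 : Ov Q 𝔓) :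
    𝔓.valuation L (g Q ^ 2 / α) < 1 := by
  obtain ⟨x, hx, e⟩ := hT.gq Q hQ
  have e' : g Q ^ 2 / α = (Q : L) * ((D1 J Q : L) * θ + (Q : L) * x) := by rw [e]; ring
  rw [e', map_mul]
  have h1 : IsIntegral ℤ ((D1 J Q : L) * θ + (Q : L) * x) :=
    ((isIntegral_algebraMap (R := ℤ) (x := D1 J Q)).mul (theta_int hc)).add
      ((isIntegral_algebraMap (R := ℤ) (x := Q)).mul hx)
  calc _ ≤ 𝔓.valuation L (Q : L) * 1 := mul_le_mul_right (val_of_int h1 𝔓) _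
    _ < 1 := by rw [mul_one]; exact ov_lt h𝔓

theorem val_sq (hα : α ≠ 0) (𝔓 : HeightOneSpectrum O) (x y : L) :
    𝔓.valuation L (x * y / α) ^ 2 = 𝔓.valuation L (x ^ 2 / α) * 𝔓.valuation L (y ^ 2 / α) := by
  have hv : 𝔓.valuation L α ≠ 0 := (Valuation.ne_zero_iff _).2 hα
  rw [map_div₀, map_mul, map_div₀, map_div₀, map_pow, map_pow]
  field_simp

theorem II_le (hα : α ≠ 0) {y : L} (hy : y ∈ II (RR J 𝔮) α) {𝔓 : HeightOneSpectrum O}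
    (h : 𝔓 ∉ RR J 𝔮) : 𝔓.valuation L (y ^ 2 / α) ≤ 1 := by
  have h1 := hy 𝔓
  change _ ≤ 𝔓.valuation L α * (if 𝔓 ∈ RR J 𝔮 then exp 1 else 1) at h1
  rw [if_neg h, mul_one] at h1
  rw [map_div₀, map_pow]
  exact div_le_one_of_le₀ h1 zero_le

theorem II_le' (hα : α ≠ 0) {y : L} (hy : y ∈ II (RR J 𝔮) α) (𝔓 : HeightOneSpectrum O) :
    𝔓.valuation L (y ^ 2 / α) ≤ exp 1 := by
  have hv : 𝔓.valuation L α ≠ 0 := (Valuation.ne_zero_iff _).2 hα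
  have h1 := hy 𝔓
  change _ ≤ 𝔓.valuation L α * (if 𝔓 ∈ RR J 𝔮 then exp 1 else 1) at h1
  rw [map_div₀, map_pow, div_le_iff₀ (zero_lt_iff.2 hv), mul_comm]
  refine h1.trans (mul_le_mul_right ?_ _)
  split_ifs
  · exact le_rfl
  · rw [← exp_zero, exp_le_exp]; norm_num

theorem M0_le1 (hα : α ≠ 0) {y : L} (hy : y ∈ M0 O α) (𝔓 : HeightOneSpectrum O) :
    𝔓.valuation L (y ^ 2 / α) ≤ 1 := val_of_int ((mem_M0 hα).1 hy) 𝔓

theorem lt_of_sq_lt {c : ℤᵐ⁰} (h : c ^ 2 < 1) : c < 1 := by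
  by_contra h1
  push Not at h1
  exact absurd (one_le_pow₀ h1) (not_le.2 h)

include hI hc hsq hT in
/-- `g m / α` is divisible by `Q`. -/
theorem TwD.f2 {Q : ℤ} (hQ : Q ∈ J) {m : L} (hm : m ∈ M0 O α) :
    ∃ z : L, IsIntegral ℤ z ∧ g Q * m / α = (Q : L) * z := by
  have hint : IsIntegral ℤ (g Q * m / α) := F1 hT.ne (M0_le (R := RR J 𝔮) (hT.gm Q hQ)) hm
  refine (hT.two Q hQ).div hI hc hsq hint ?_ ?_
  · apply lt_of_sq_lt
    rw [val_sq hT.ne]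
    calc _ ≤ (𝔭 Q).valuation L (g Q ^ 2 / α) * 1 := mul_le_mul_right (M0_le1 hT.ne hm _) _
      _ < 1 := by rw [mul_one]; exact hT.small hc hQ (hT.two Q hQ).op
  · apply lt_of_sq_lt
    rw [val_sq hT.ne]
    calc _ ≤ (𝔮 Q).valuation L (g Q ^ 2 / α) * 1 := mul_le_mul_right (M0_le1 hT.ne hm _) _
      _ < 1 := by rw [mul_one]; exact hT.small hc hQ (hT.two Q hQ).oq

include hc hT in
theorem TwD.f3 {Q : ℤ} (hQ : Q ∈ J) {y : L} (hy : y ∈ II (RR J 𝔮) α) :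
    IsIntegral ℤ (g Q * y / α) ∧ (𝔭 Q).valuation L (g Q * y / α) < 1 := by
  constructor
  · rw [mul_comm]
    exact F1 hT.ne hy (hT.gm Q hQ)
  · apply lt_of_sq_lt
    rw [val_sq hT.ne]
    calc _ ≤ (𝔭 Q).valuation L (g Q ^ 2 / α) * 1 :=
          mul_le_mul_right (II_le hT.ne hy (hT.notR hQ)) _
      _ < 1 := by rw [mul_one]; exact hT.small hc hQ (hT.two Q hQ).op

include hT in
theorem TwD.f4 {y y' : L} (hy : y ∈ II (RR J 𝔮) α) (hy' : y' ∈ II (RR J 𝔮) α) :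
    IsIntegral ℤ (((∏ Q ∈ J, Q : ℤ) : L) * (y * y' / α)) ∧
    ∀ Q ∈ J, (𝔭 Q).valuation L (((∏ Q ∈ J, Q : ℤ) : L) * (y * y' / α)) < 1 := by
  have hDQ : ∀ Q ∈ J, ∀ 𝔓 : HeightOneSpectrum O, Ov Q 𝔓 →
      𝔓.valuation L ((∏ Q ∈ J, Q : ℤ) : L) < 1 := by
    intro Q hQ 𝔓 h𝔓
    rw [← D1_mul hQ, Int.cast_mul, map_mul]
    calc _ ≤ 𝔓.valuation L (Q : L) * 1 :=
          mul_le_mul_right (Pool.Agent.N966.PQ.val_le 𝔓 _) _
      _ < 1 := by rw [mul_one]; exact ov_lt h𝔓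
  constructor
  · refine int_of_val O fun 𝔓 => ?_
    by_cases h : 𝔓 ∈ RR J 𝔮
    · have h' := h
      obtain ⟨Q, hQ, rfl⟩ := h'
      have h1 : (𝔮 Q).valuation L (y * y' / α) ^ 2 ≤ exp 1 * exp 1 := by
        rw [val_sq hT.ne]
        exact mul_le_mul' (II_le' hT.ne hy _) (II_le' hT.ne hy' _)
      have h2 := le_exp_neg (hDQ Q hQ _ (hT.two Q hQ).oq)
      have h3 : (𝔮 Q).valuation L (y * y' / α) ≤ exp 1 := by
        by_cases h0 : (𝔮 Q).valuation L (y * y' / α) = 0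
        · rw [h0]; exact zero_le
        obtain ⟨n, hn⟩ := exp_of_ne h0
        rw [hn] at h1 ⊢
        rw [← exp_nsmul, ← exp_add, exp_le_exp] at h1
        rw [exp_le_exp]
        simp at h1
        omega
      rw [map_mul]
      calc _ ≤ exp (-1) * exp 1 := mul_le_mul' h2 h3
        _ = 1 := by rw [← exp_add]; simp
    · have h1 : 𝔓.valuation L (y * y' / α) ^ 2 ≤ 1 * 1 := by
        rw [val_sq hT.ne]
        exact mul_le_mul' (II_le hT.ne hy h) (II_le hT.ne hy' h)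
      have h2 : 𝔓.valuation L (y * y' / α) ≤ 1 := by
        apply sq_le_exp_one
        refine h1.trans ?_
        rw [mul_one, ← exp_zero, exp_le_exp]
        norm_num
      rw [map_mul]
      exact mul_le_one' (Pool.Agent.N966.PQ.val_le 𝔓 _) h2
  · intro Q hQ
    have h := hT.notR hQ
    have h1 : (𝔭 Q).valuation L (y * y' / α) ^ 2 ≤ 1 * 1 := by
      rw [val_sq hT.ne]
      exact mul_le_mul' (II_le hT.ne hy h) (II_le hT.ne hy' h)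
    have h2 : (𝔭 Q).valuation L (y * y' / α) ≤ 1 := by
      apply sq_le_exp_one
      refine h1.trans ?_
      rw [mul_one, ← exp_zero, exp_le_exp]
      norm_num
    rw [map_mul]
    calc _ ≤ (𝔭 Q).valuation L ((∏ Q ∈ J, Q : ℤ) : L) * 1 := mul_le_mul_right h2 _
      _ < 1 := by rw [mul_one]; exact hDQ Q hQ _ (hT.two Q hQ).op

/-- The unimodular lattice. -/
noncomputable def MU (hc : IsCub a b θ) (α : L) (J : Finset ℤ) (𝔮 : ℤ → HeightOneSpectrum O)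
    (g : ℤ → L) : Submodule ℤ L where
  carrier := {y | y ∈ II (RR J 𝔮) α ∧ ∀ Q ∈ J, ∃ c : ℤ, hc.co 2 (g Q * y / α) = (Q : ℚ) * c}
  add_mem' := by
    rintro x y ⟨hx, hx'⟩ ⟨hy, hy'⟩
    refine ⟨Submodule.add_mem _ hx hy, fun Q hQ => ?_⟩
    obtain ⟨c, h1⟩ := hx' Q hQ
    obtain ⟨d, h2⟩ := hy' Q hQ
    refine ⟨c + d, ?_⟩
    have e : g Q * (x + y) / α = g Q * x / α + g Q * y / α := by ring
    rw [e, map_add, h1, h2]
    push_cast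
    ring
  zero_mem' := ⟨Submodule.zero_mem _, fun Q hQ => ⟨0, by simp⟩⟩
  smul_mem' := by
    rintro n x ⟨hx, hx'⟩
    refine ⟨?_, fun Q hQ => ?_⟩
    · have e : n • x = (n : O) • x := by
        rw [zsmul_eq_mul, Algebra.smul_def, mapO]
      rw [e]
      exact Submodule.smul_mem _ _ hx
    · obtain ⟨c, h1⟩ := hx' Q hQ
      refine ⟨n * c, ?_⟩
      have e : g Q * (n • x) / α = n • (g Q * x / α) := by
        rw [zsmul_eq_mul, zsmul_eq_mul]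
        ring
      rw [e, map_zsmul, h1, zsmul_eq_mul]
      push_cast
      ring

theorem mem_MU {y : L} : y ∈ MU hc α J 𝔮 g ↔ y ∈ II (RR J 𝔮) α ∧
    ∀ Q ∈ J, ∃ c : ℤ, hc.co 2 (g Q * y / α) = (Q : ℚ) * c := Iff.rfl

include hI hc hsq in
/-- Integral elements have integral coordinates. -/
theorem co_int {x : L} (hx : IsIntegral ℤ x) : ∃ v : Fin 3 → ℤ, Crd θ v x ∧
    ∀ i, hc.co i x = (v i : ℚ) := by
  obtain ⟨v, hv⟩ := (hI L a b θ hc hsq x).1 hx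
  exact ⟨v, hv, fun i => co_crd hc hv i⟩

include hI hc hsq hT in
theorem TwD.M0_le_MU : ∀ m ∈ M0 O α, m ∈ MU hc α J 𝔮 g := by
  intro m hm
  refine ⟨M0_le hm, fun Q hQ => ?_⟩
  obtain ⟨z, hz, e⟩ := hT.f2 hI hc hsq hQ hm
  obtain ⟨v, -, hv⟩ := co_int hI hc hsq hz
  refine ⟨v 2, ?_⟩
  rw [e, Pool.Agent.N227.PQ.co_int_smul, hv]

include hI hc hsq hT in
/-- For `y` in the lattice `g y / α = k θ` modulo `Q`. -/
theorem TwD.f5 {Q : ℤ} (hQ : Q ∈ J) {y : L} (hy : y ∈ MU hc α J 𝔮 g) :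
    ∃ (k : ℤ) (x : L), IsIntegral ℤ x ∧ g Q * y / α = (k : L) * θ + (Q : L) * x ∧
      hc.co 1 (g Q * y / α) = (k : ℚ) := by
  obtain ⟨hint, hlt⟩ := hT.f3 hc hQ hy.1
  obtain ⟨v, hv, hv'⟩ := co_int hI hc hsq hint
  obtain ⟨c, h1⟩ := hy.2 Q hQ
  obtain ⟨d, h2⟩ := (hT.two Q hQ).div0 hI hc hsq hv hlt
  have h3 : v 2 = Q * c := by
    rw [hv' 2] at h1
    exact_mod_cast h1
  refine ⟨v 1, (d : L) + (c : L) * θ ^ 2, ?_, ?_, hv' 1⟩
  · exact (hI L a b θ hc hsq _).2 ⟨![d, 0, c], by simp [Crd]⟩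
  · rw [show g Q * y / α = _ from hv, h2, h3]
    push_cast
    ring

include hI hc hsq hT in
/-- The products. -/
theorem TwD.f6 {Q : ℤ} (hQ : Q ∈ J) {y y' : L} (hy : y ∈ MU hc α J 𝔮 g)
    (hy' : y' ∈ MU hc α J 𝔮 g) {k k' : ℤ} {x x' : L} (hx : IsIntegral ℤ x)
    (hx' : IsIntegral ℤ x') (e : g Q * y / α = (k : L) * θ + (Q : L) * x)
    (e' : g Q * y' / α = (k' : L) * θ + (Q : L) * x') {v : Fin 3 → ℤ}
    (hv : Crd θ v (((∏ Q ∈ J, Q : ℤ) : L) * (y * y' / α))) :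
    Q ∣ v 0 ∧ Q ∣ v 1 - k * k' ∧ Q ∣ v 2 := by
  have hQ0 : (Q : L) ≠ 0 := by exact_mod_cast (hT.pr hQ).1.ne'
  have h0 : Q ∣ v 0 := (hT.two Q hQ).div0 hI hc hsq hv ((hT.f4 hy.1 hy'.1).2 Q hQ)
  obtain ⟨x0, hx0, e0⟩ := hT.gq Q hQ
  -- the main identity
  have key : ((∏ Q ∈ J, Q : ℤ) : L) * (y * y' / α) * ((D1 J Q : L) * θ + (Q : L) * x0) =
      (D1 J Q : L) * (((k : L) * θ + (Q : L) * x) * ((k' : L) * θ + (Q : L) * x')) := by
    apply mul_left_cancel₀ hQ0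
    have hα := hT.ne
    calc (Q : L) * (((∏ Q ∈ J, Q : ℤ) : L) * (y * y' / α) * ((D1 J Q : L) * θ + (Q : L) * x0))
        = ((∏ Q ∈ J, Q : ℤ) : L) * (y * y' / α) *
          ((Q : L) * (D1 J Q : L) * θ + (Q : L) ^ 2 * x0) := by ring
      _ = ((∏ Q ∈ J, Q : ℤ) : L) * (y * y' / α) * (g Q ^ 2 / α) := by rw [e0]
      _ = ((∏ Q ∈ J, Q : ℤ) : L) * ((g Q * y / α) * (g Q * y' / α)) := by ring
      _ = (((Q * D1 J Q : ℤ)) : L) * (((k : L) * θ + (Q : L) * x) * ((k' : L) * θ + (Q : L) * x')) := by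
          rw [e, e', D1_mul hQ]
      _ = _ := by push_cast; ring
  obtain ⟨w, hw⟩ := (hI L a b θ hc hsq _).1 hx
  obtain ⟨w', hw'⟩ := (hI L a b θ hc hsq _).1 hx'
  obtain ⟨w0, hw0⟩ := (hI L a b θ hc hsq _).1 hx0
  obtain ⟨W, hW⟩ : ∃ W : L, W = ((∏ Q ∈ J, Q : ℤ) : L) * (y * y' / α) := ⟨_, rfl⟩
  rw [← hW] at key hv
  -- `D1 (W θ - k k' θ ^ 2) = Q (...)`
  have key2 : (D1 J Q : L) * (θ * W + ((-(k * k') : ℤ) : L) * (θ ^ 2)) =
      (Q : L) * ((D1 J Q : L) * ((k : L) * (θ * x') + ((k' : L) * (θ * x) + (Q : L) * (x * x'))) +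
        ((-1 : ℤ) : L) * (W * x0)) := by
    push_cast
    linear_combination key
  have c1 : Crd θ (fun i => D1 J Q * (![-b * v 2, v 0 - a * v 2, v 1] +
      (fun i => (-(k * k')) * (![0, 0, 1] : Fin 3 → ℤ) i) : Fin 3 → ℤ) i)
      ((D1 J Q : L) * (θ * W + ((-(k * k') : ℤ) : L) * (θ ^ 2))) := by
    refine crd_smul _ (crd_add (crd_theta hc hv) (crd_smul _ ?_))
    simp [Crd]
  have c2 : IsIntegral ℤ ((D1 J Q : L) * ((k : L) * (θ * x') + ((k' : L) * (θ * x) +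
      (Q : L) * (x * x'))) + ((-1 : ℤ) : L) * (W * x0)) := by
    have hcast : ∀ n : ℤ, IsIntegral ℤ (n : L) := fun n => isIntegral_algebraMap (R := ℤ) (x := n)
    have hth := theta_int hc
    have hWi : IsIntegral ℤ W := (hI L a b θ hc hsq _).2 ⟨v, hv⟩
    exact ((hcast _).mul (((hcast _).mul (hth.mul hx')).add (((hcast _).mul (hth.mul hx)).add
      ((hcast _).mul (hx.mul hx'))))).add ((hcast _).mul (hWi.mul hx0))
  obtain ⟨u, hu⟩ := (hI L a b θ hc hsq _).1 c2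
  have c3 := crd_smul Q hu
  rw [← key2] at c3
  have c4 := crd_inj hc c1 c3
  have e1 := congrFun c4 1
  have e2 := congrFun c4 2
  simp only [Pi.add_apply, Matrix.cons_val_one, Matrix.cons_val] at e1 e2
  have hcop := not_dvd_D1 (fun P hP => hT.pr hP) hQ
  have hp := (hT.pr hQ).2
  have d1 : Q ∣ v 0 - a * v 2 := by
    have h3 : Q ∣ D1 J Q * (v 0 - a * v 2) := ⟨u 1, by linarith⟩
    exact (hp.dvd_or_dvd h3).resolve_left hcop
  have d2 : Q ∣ v 1 - k * k' := by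
    have h3 : Q ∣ D1 J Q * (v 1 - k * k') := ⟨u 2, by linarith⟩
    exact (hp.dvd_or_dvd h3).resolve_left hcop
  refine ⟨h0, d2, ?_⟩
  have h4 : Q ∣ a * v 2 := by
    have := dvd_sub h0 d1
    rwa [sub_sub_cancel] at this
  exact (hp.dvd_or_dvd h4).resolve_left (hT.two Q hQ).not_dvd_a

end lat

end Pool.Agent.H62.PR
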