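import Pool.Agent.H62.PR.Stm

/-!
# Project PR (helper62): counting, definitions and statements of parts

`TT`, `InBox` are in `N922/PQ/Def.lean`, `JJ` in `N922/PQ/Lat.lean`, `Tup`, `chA`, `chB`, `gq`,
`tau` in `N874/PP/Def.lean`.
-/

set_option autoImplicit false
set_option linter.all false

open Matrix
open scoped Classical

namespace Pool.Agent.H62.PR

open Pool.Agent.N874.PP (Tup chA chB gq tau Two)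
open Pool.Agent.N922.PQ

/-- The symmetric matrix of a tuple. -/
def mat (B : Tup ℤ) : Matrix (Fin 3) (Fin 3) ℤ :=
  !![B.x, B.y, B.c; B.y, -2 * B.c, B.z; B.c, B.z, B.w]

/-- The reduction of a tuple. -/
def tred (m : ℕ) (B : Tup ℤ) : Tup (ZMod m) :=
  ⟨(B.x : ZMod m), (B.y : ZMod m), (B.c : ZMod m), (B.z : ZMod m), (B.w : ZMod m)⟩

/-- The number of residue classes which meet `C`. -/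
noncomputable def NC (m : ℕ) (C : Tup ℤ → Prop) : ℕ :=
  Nat.card {R : Tup (ZMod m) // ∃ B : Tup ℤ, C B ∧ tred m B = R}

/-- Type 0: the class is trivial at `Q`. -/
def C0 (Q s : ℤ) (B : Tup ℤ) : Prop := TT Q B ∧ Q ∣ chA B - s ∧ Q ∣ chB B

/-- Type 1: the class is unramified and not trivial at `Q`. -/
def C1 (Q s : ℤ) (B : Tup ℤ) : Prop := ∃ ξ ζ : Fin 3 → ℤ, Q ∣ ξ ⬝ᵥ JJ *ᵥ ξ ∧ Q ∣ ζ ⬝ᵥ JJ *ᵥ ζ ∧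
  ¬ Q ∣ ξ ⬝ᵥ JJ *ᵥ ζ ∧ (∀ i, Q ∣ (mat B *ᵥ ξ) i - (JJ *ᵥ ζ) i) ∧
  ∀ i, Q ∣ (mat B *ᵥ ζ) i + s * (JJ *ᵥ ξ) i

/-- Type 2: the class is ramified at `Q`. -/
def C2 (Q s : ℤ) (B : Tup ℤ) : Prop := ∃ ξ : Fin 3 → ℤ, (∃ i, ¬ Q ∣ ξ i) ∧
  Q ^ 2 ∣ ξ ⬝ᵥ JJ *ᵥ ξ ∧ (∀ i j, Q ∣ mat B i j - (JJ *ᵥ ξ) i * (JJ *ᵥ ξ) j) ∧
  (∀ i, Q ^ 2 ∣ (mat B *ᵥ ξ) i) ∧ Q ^ 3 ∣ chA B - s * Q ^ 2

/-- Part TY0. (Library: `N50/PQ/Box.lean`, `card_GQ`, and `N50/PQ/Orb.lean`, `tt_tau`.) -/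
def S_TY0 : Prop := ∀ Q : ℤ, IsPr Q → Q % 8 = 1 → ∀ s : ℤ, (∀ z : ℤ, ¬ Q ∣ z ^ 2 + s) →
  (∀ (u : ℤ) (B : Tup ℤ), C0 Q s B → C0 Q s (tau u B)) ∧
  2 * NC Q.natAbs (C0 Q s) ≤ Q.natAbs ^ 3

/-- Part TY1. Modulo `Q`: `mat B = (ρ / t) (JJ v') (JJ v')ᵀ - (s / (ρ t)) (JJ v) (JJ v)ᵀ` for the
standard vectors `v`, `v'` of two different points of the conic, `t = v ⬝ JJ v'`, `ρ ≠ 0`; exchange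
`(v, v', ρ)` and `(v', v, - s / ρ)`: at most `(Q + 1) Q (Q - 1) / 2` tuples. -/
def S_TY1 : Prop := ∀ Q : ℤ, IsPr Q → Q % 8 = 1 → ∀ s : ℤ, ¬ Q ∣ s →
  (∀ (u : ℤ) (B : Tup ℤ), C1 Q s B → C1 Q s (tau u B)) ∧
  2 * NC Q.natAbs (C1 Q s) ≤ Q.natAbs ^ 3

/-- Part TY2. If `ξ = l (-2 u ^ 2, 2 u, 1)` modulo `Q ^ 2` (with `0 ≤ u < Q` after changing `ξ`)
then `B' = tau u B` has `Q ^ 2 ∣ c', z', w'`, `Q ∣ y'`, `x'` a non-zero square modulo `Q` and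
`w' / Q ^ 2 = - s / x'` modulo `Q`; if `ξ = l (1, 0, 0)` modulo `Q` then `Q ^ 2 ∣ x, y, c`,
`Q ∣ z`, `w` is a non-zero square modulo `Q`, `x / Q ^ 2 = - s / w` modulo `Q`: at most
`(Q + 1) ((Q - 1) / 2) Q ^ 6` tuples modulo `Q ^ 3`. -/
def S_TY2 : Prop := ∀ Q : ℤ, IsPr Q → Q % 8 = 1 → ∀ s : ℤ, ¬ Q ∣ s →
  (∀ (u : ℤ) (B : Tup ℤ), C2 Q s B → C2 Q s (tau u B)) ∧
  2 * NC (Q.natAbs ^ 3) (C2 Q s) ≤ Q.natAbs ^ 8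

/-- Part CNT. The number of curves which come from tuples with given local conditions (library:
generalise `N50/PQ/Box.lean`, `N50/PQ/Orb.lean`, `N415/PQ/Bad.lean`). -/
def S_CNT : Prop := ∀ κ : ℕ, ∃ K : ℕ, ∀ (S : Finset ℤ) (mo : ℤ → ℕ) (C : ℤ → Tup ℤ → Prop)
  (D A : ℕ), 1 ≤ D → 1 ≤ A → (∀ Q ∈ S, 1 ≤ mo Q) →
  (∀ Q ∈ S, ∀ Q' ∈ S, Q ≠ Q' → (mo Q).Coprime (mo Q')) →
  (∀ Q ∈ S, ∀ (u : ℤ) (B : Tup ℤ), C Q B → C Q (tau u B)) →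
  A * D ^ 5 * ∏ Q ∈ S, NC (mo Q) (C Q) ≤ ∏ Q ∈ S, mo Q ^ 5 →
  ∃ X₀ : ℕ, ∀ X ≥ X₀,
    {p : ℤ × ℤ | ∃ (m : ℕ) (B : Tup ℤ), InBox κ (X * D) (2 ^ m) B ∧ B.x ≠ 0 ∧
      (∀ Q ∈ S, C Q B) ∧ chA B = p.1 ∧ chB B = p.2}.Finite ∧
    A * {p : ℤ × ℤ | ∃ (m : ℕ) (B : Tup ℤ), InBox κ (X * D) (2 ^ m) B ∧ B.x ≠ 0 ∧
      (∀ Q ∈ S, C Q B) ∧ chA B = p.1 ∧ chB B = p.2}.ncard ≤ K * X ^ 5

end Pool.Agent.H62.PR
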