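import Pool.Agent.H62.PR.Lat4
import Pool.Agent.H62.PR.Cnt0
import Pool.Graph.R_pool_sql_team_seeded_63374d34.N441.PQ.LB

/-!
# Project PR (helper62): the Gram matrices, the twisted cubic, the normalised basis
-/

set_option autoImplicit false
set_option linter.all false

open IsDedekindDomain NumberField WithZero Polynomial Matrix
open scoped Classical

namespace Pool.Agent.H62.PR

open Pool.Agent.N874.PP (Tup chA chB gq tau Two Ev Sq1 U0)
open Pool.Agent.N922.PQ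

section det

variable {L : Type} [Field L] [NumberField L] {a b : ℤ} {θ α : L} {e : Fin 3 → L} {D : ℤ}

theorem UL.det {hc : IsCub a b θ} (hU : UL hc e α D) (hα : α ≠ 0)
    (hN : IsSquare (Algebra.norm ℚ α)) :
    ∃ G B : Matrix (Fin 3) (Fin 3) ℤ, G.det = -1 ∧
      (∀ i j, (G i j : ℚ) = hc.co 2 (e i * e j / α)) ∧
      ∀ i j, (B i j : ℚ) = (D : ℚ) * hc.co 1 (e i * e j / α) := by
  choose G hG using hU.g
  choose B hB using hU.b
  refine ⟨Matrix.of G, Matrix.of B, ?_, fun i j => hG i j, fun i j => hB i j⟩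
  -- the determinant
  set Gq : Matrix (Fin 3) (Fin 3) ℚ := Matrix.of fun i j => hc.co 2 (e i * e j / α) with hGq
  have hGqe : Gq = (Matrix.of G).map (Int.cast : ℤ → ℚ) := by
    ext i j
    rw [hGq, Matrix.of_apply, Matrix.map_apply, Matrix.of_apply, hG]
  have hdet : Gq.det = (((Matrix.of G).det : ℤ) : ℚ) := by
    rw [hGqe]
    exact (Int.cast_det (Matrix.of G)).symm
  obtain ⟨s, hs⟩ := hN
  have hNα : Algebra.norm ℚ α ≠ 0 := Algebra.norm_ne_zero_iff.2 hα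
  have hs0 : s ≠ 0 := by rintro rfl; exact hNα (by rw [hs]; ring)
  set P : Matrix (Fin 3) (Fin 3) ℚ := Matrix.of fun i k => hc.basis.repr (e i) k with hP
  have hPe : ∀ i, e i = ∑ k, P i k • hc.basis k := by
    intro i
    rw [← hc.basis.sum_repr (e i)]
    rfl
  have hfac : Gq = P * (Matrix.of fun i j : Fin 3 => hc.co 2 (hc.basis i * hc.basis j * α⁻¹)) * Pᵀ := by
    ext i j
    rw [Matrix.mul_apply, hGq, Matrix.of_apply, div_eq_mul_inv]
    conv_lhs => rw [hPe j, Finset.mul_sum, Finset.sum_mul, map_sum]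
    refine Finset.sum_congr rfl fun l _ => ?_
    rw [Matrix.mul_apply, Finset.sum_mul]
    conv_lhs => rw [hPe i, Finset.sum_mul, Finset.sum_mul, map_sum]
    refine Finset.sum_congr rfl fun k _ => ?_
    rw [Matrix.of_apply, Matrix.transpose_apply, smul_mul_smul_comm, smul_mul_assoc, map_smul,
      smul_eq_mul]
    ring
  have hdetq : Gq.det = - (P.det / s) ^ 2 := by
    have hinvn : Algebra.norm ℚ α⁻¹ = (s * s)⁻¹ := by
      apply eq_inv_of_mul_eq_one_left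
      rw [← hs, ← map_mul, inv_mul_cancel₀ hα, map_one]
    rw [hfac, Matrix.det_mul, Matrix.det_mul, Pool.Agent.N227.PQ.det_T, Matrix.det_transpose, hinvn]
    field_simp
  -- `P` is invertible
  have hPdet : P.det ≠ 0 := by
    intro h0
    obtain ⟨v, hv0, hv⟩ := Matrix.exists_vecMul_eq_zero_iff.2 h0
    have : ∑ i, v i • e i = 0 := by
      have e1 : ∑ i, v i • e i = ∑ k, (v ᵥ* P) k • hc.basis k := by
        calc ∑ i, v i • e i = ∑ i, ∑ k, (v i * P i k) • hc.basis k := by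
              refine Finset.sum_congr rfl fun i _ => ?_
              rw [hPe i, Finset.smul_sum]
              simp_rw [smul_smul]
          _ = ∑ k, ∑ i, (v i * P i k) • hc.basis k := Finset.sum_comm
          _ = ∑ k, (v ᵥ* P) k • hc.basis k := by
              refine Finset.sum_congr rfl fun k _ => ?_
              rw [← Finset.sum_smul]
              rfl
      rw [e1, hv]
      simp
    apply hv0
    ext i
    exact Fintype.linearIndependent_iff.1 hU.li v this i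
  have hneg : Gq.det < 0 := by
    rw [hdetq]
    have : P.det / s ≠ 0 := div_ne_zero hPdet hs0
    have := sq_pos_of_ne_zero this
    linarith
  have hunit : IsUnit Gq.det := hneg.ne.isUnit
  have hinv : ∀ i, ∃ c : Fin 3 → ℤ, ∀ k, (c k : ℚ) = Gq⁻¹ i k := by
    intro i
    obtain ⟨c, hc'⟩ := hU.dual (∑ k, Gq⁻¹ i k • e k) (by
      intro j
      refine ⟨if i = j then 1 else 0, ?_⟩
      have e1 : e j * (∑ k, Gq⁻¹ i k • e k) / α = ∑ k, Gq⁻¹ i k • (e k * e j / α) := by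
        rw [Finset.mul_sum, Finset.sum_div]
        refine Finset.sum_congr rfl fun k _ => ?_
        rw [mul_smul_comm, smul_div_assoc, mul_comm (e j)]
      rw [e1, map_sum]
      have e2 : ∑ k, hc.co 2 (Gq⁻¹ i k • (e k * e j / α)) = (Gq⁻¹ * Gq) i j := by
        rw [Matrix.mul_apply]
        refine Finset.sum_congr rfl fun k _ => ?_
        rw [map_smul, smul_eq_mul, hGq, Matrix.of_apply]
      rw [e2, Matrix.nonsing_inv_mul _ hunit, Matrix.one_apply]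
      split_ifs <;> simp)
    refine ⟨c, fun k => ?_⟩
    have e3 : ∑ k, ((c k : ℚ) - Gq⁻¹ i k) • e k = 0 := by
      simp_rw [sub_smul]
      rw [Finset.sum_sub_distrib, hc', sub_eq_zero]
      refine Finset.sum_congr rfl fun k _ => ?_
      rw [Rat.smul_def]
      push_cast
      rfl
    have := Fintype.linearIndependent_iff.1 hU.li _ e3 k
    linarith
  choose K hK using hinv
  have hdetK : Gq⁻¹.det = (((Matrix.of K).det : ℤ) : ℚ) := by
    have : Gq⁻¹ = (Matrix.of K).map (Int.cast : ℤ → ℚ) := by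
      ext i k
      rw [Matrix.map_apply, Matrix.of_apply, hK]
    rw [this]
    exact (Int.cast_det (Matrix.of K)).symm
  have hprod : (Matrix.of G).det * (Matrix.of K).det = 1 := by
    have : Gq.det * Gq⁻¹.det = 1 := by
      rw [← Matrix.det_mul, Matrix.mul_nonsing_inv _ hunit, Matrix.det_one]
    rw [hdet, hdetK] at this
    exact_mod_cast this
  have hlt : (Matrix.of G).det < 0 := by
    rw [hdet] at hneg
    exact_mod_cast hneg
  rcases Int.isUnit_iff.1 (IsUnit.of_mul_eq_one _ hprod) with h1 | h1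
  · omega
  · exact h1

end det

section tw

variable {L : Type} [Field L] [CharZero L] {a b : ℤ} {θ : L}

/-- The twisted cubic. -/
theorem IsCub.tw (hc : IsCub a b θ) {D : ℤ} (hD : D ≠ 0) :
    IsCub (a * D ^ 2) (b * D ^ 3) ((D : L) * θ) := by
  have hDL : (D : L) ≠ 0 := by exact_mod_cast hD
  refine ⟨?_, hc.rank, fun x => ?_⟩
  · push_cast
    linear_combination (D : L) ^ 3 * hc.root
  · obtain ⟨r, s, t, rfl⟩ := hc.gen x
    refine ⟨r, s / D, t / D ^ 2, ?_⟩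
    push_cast
    field_simp

theorem IsCub.tw_co (hc : IsCub a b θ) {D : ℤ} (hD : D ≠ 0) (x : L) :
    hc.co 2 x = (D : ℚ) ^ 2 * (IsCub.tw hc hD).co 2 x ∧
      hc.co 1 x = (D : ℚ) * (IsCub.tw hc hD).co 1 x := by
  have h := Pool.Agent.N227.PQ.eq_co (IsCub.tw hc hD) x
  set r := (IsCub.tw hc hD).co 0 x
  set s := (IsCub.tw hc hD).co 1 x
  set t := (IsCub.tw hc hD).co 2 x
  have e : x = (r : L) + (((D : ℚ) * s : ℚ) : L) * θ + (((D : ℚ) ^ 2 * t : ℚ) : L) * θ ^ 2 := by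
    rw [h]
    push_cast
    ring
  have h1 := Pool.Agent.N227.PQ.co_crd hc r ((D : ℚ) * s) ((D : ℚ) ^ 2 * t)
  rw [← e] at h1
  exact ⟨h1.2.2, h1.2.1⟩

end tw

/-- A normalised basis. -/
structure NB {L : Type} [Field L] [CharZero L] {a b : ℤ} {θ : L} (hc : IsCub a b θ) (α : L)
    (D : ℤ) (e : Fin 3 → L) (B : Fin 3 → Fin 3 → ℤ) : Prop where
  li : LinearIndependent ℚ e
  g : ∀ i j, hc.co 2 (e i * e j / α) = (JJ i j : ℚ)
  b : ∀ i j, (D : ℚ) * hc.co 1 (e i * e j / α) = (B i j : ℚ)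
  tr : B 1 1 = -2 * B 0 2

/-- The tuple of a matrix. -/
def tup (B : Fin 3 → Fin 3 → ℤ) : Tup ℤ := ⟨B 0 0, B 0 1, B 0 2, B 1 2, B 2 2⟩

/-- **From the lattice to the tuple.** -/
theorem lb' (h2 : S_MAJ) (h3 : S_RED) (h4 : S_NF) (h5 : S_CHI) (h6 : S_NZ) :
    ∃ κ : ℕ, ∀ (L : Type) [Field L] [NumberField L] (a b : ℤ) (θ : L) (hc : IsCub a b θ)
      (X D : ℕ), 0 < a → a ≤ X ^ 2 → |b| ≤ X ^ 3 → 1 ≤ D → ∀ (α : L) (e : Fin 3 → L), α ≠ 0 →
      IsSquare (Algebra.norm ℚ α) → ¬ IsSquare α → UL hc e α D →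
      ∃ (m : ℕ) (W : Matrix (Fin 3) (Fin 3) ℤ) (e' : Fin 3 → L) (B : Fin 3 → Fin 3 → ℤ),
        IsUnit W.det ∧ (∀ i, e' i = ∑ j, (W i j : L) * e j) ∧ NB hc α D e' B ∧
        InBox κ (X * D) (2 ^ m) (tup B) ∧ (tup B).x ≠ 0 ∧ chA (tup B) = a * D ^ 2 ∧
        chB (tup B) = b * D ^ 3 := by
  obtain ⟨κ₀, hκ0, h4⟩ := h4
  refine ⟨⌈2 * κ₀ ^ 2⌉₊, ?_⟩
  intro L _ _ a b θ hc X D ha haX hbX hD α e hα hsq hns hU
  have hDZ : (D : ℤ) ≠ 0 := by exact_mod_cast (by omega : D ≠ 0)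
  have hDQ : (D : ℚ) ≠ 0 := by exact_mod_cast (by omega : D ≠ 0)
  have hDL : (D : L) ≠ 0 := by exact_mod_cast (by omega : D ≠ 0)
  obtain ⟨G, B0, hdet, hG0, hB00⟩ := hU.det hα hsq
  -- the twisted cubic
  have h := IsCub.tw hc hDZ
  have hco := fun x => IsCub.tw_co hc hDZ x
  obtain ⟨α', hα'⟩ : ∃ α' : L, α' = α / (D : L) ^ 2 := ⟨_, rfl⟩
  have hα'0 : α' ≠ 0 := by rw [hα']; exact div_ne_zero hα (pow_ne_zero 2 hDL)
  have hdiv : ∀ x : L, x / α = (((D : ℚ) ^ 2)⁻¹ : ℚ) • (x / α') := by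
    intro x
    rw [hα', Rat.smul_def]
    push_cast
    field_simp
  have c2 : ∀ x : L, hc.co 2 (x / α) = (IsCub.tw hc hDZ).co 2 (x / α') := by
    intro x
    rw [(hco _).1, hdiv, map_smul, smul_eq_mul]
    push_cast
    field_simp
  have c1 : ∀ x : L, (D : ℚ) * hc.co 1 (x / α) = (IsCub.tw hc hDZ).co 1 (x / α') := by
    intro x
    rw [(hco _).2, hdiv, map_smul, smul_eq_mul]
    push_cast
    field_simp
  have hG : ∀ i j, (G i j : ℚ) = (IsCub.tw hc hDZ).co 2 (e i * e j / α') := fun i j => by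
    rw [hG0, c2]
  have hB0 : ∀ i j, (B0 i j : ℚ) = (IsCub.tw hc hDZ).co 1 (e i * e j / α') := fun i j => by
    rw [hB00, ← c1]
    push_cast
    rfl
  have hsq' : IsSquare (Algebra.norm ℚ α') := by
    obtain ⟨r, hr⟩ := hsq
    have e1 : α = α' * algebraMap ℚ L ((D : ℚ) ^ 2) := by
      rw [hα']
      simp only [map_pow, map_natCast]
      field_simp
    rw [e1, map_mul, Algebra.norm_algebraMap, hc.rank] at hr
    refine ⟨r / (D : ℚ) ^ 3, ?_⟩
    field_simp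
    linear_combination hr
  have hns' : ¬ IsSquare α' := by
    rintro ⟨r, hr⟩
    apply hns
    refine ⟨r * D, ?_⟩
    have : α = α' * (D : L) ^ 2 := by rw [hα']; field_simp
    rw [this, hr]
    ring
  have hnorm : 0 < Algebra.norm ℚ α' := by
    obtain ⟨r, hr⟩ := hsq'
    have hr0 : r ≠ 0 := by
      rintro rfl
      rw [mul_zero] at hr
      exact hα'0 (Algebra.norm_eq_zero_iff.1 hr)
    rw [hr]
    exact mul_self_pos.2 hr0
  have hD2 : (0 : ℤ) < (D : ℤ) ^ 2 := by positivity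
  obtain ⟨H, hH, hHdet, hC2, hC1, v0, hv0⟩ := h2 L (a * (D : ℤ) ^ 2) (b * (D : ℤ) ^ 3)
    (((D : ℤ) : L) * θ) h (X * D) (by positivity) (by
      push_cast
      rw [mul_pow]
      exact mul_le_mul_of_nonneg_right haX (by positivity)) (by
      push_cast
      rw [mul_pow, abs_mul, abs_of_nonneg (by positivity : (0 : ℤ) ≤ (D : ℤ) ^ 3)]
      exact mul_le_mul_of_nonneg_right hbX (by positivity)) α' e hα'0 hnorm hU.li
  have hofG : (Matrix.of fun i j => h.co 2 (e i * e j / α')) = G.map (Int.castRingHom ℚ) := by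
    ext i j
    rw [Matrix.of_apply, Matrix.map_apply, ← hG i j]
    rfl
  have hH1 : H.det = 1 := by
    rw [hHdet, hofG, ← RingHom.mapMatrix_apply, ← RingHom.map_det, hdet]
    simp
  obtain ⟨U1, hh, hU1, hpos, hmono, hprod, hrow⟩ := h3 H hH hH1
  have hGsymm : G.IsSymm := by
    ext i j
    rw [Matrix.transpose_apply]
    have h8 : (G j i : ℚ) = (G i j : ℚ) := by rw [hG, hG, mul_comm (e j)]
    exact_mod_cast h8
  have hU1sq : U1.det * U1.det = 1 := by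
    rcases Int.isUnit_iff.1 hU1 with h8 | h8 <;> rw [h8] <;> rfl
  -- the first change of basis
  obtain ⟨G1, hG1⟩ : ∃ G1, G1 = U1 * G * U1ᵀ := ⟨_, rfl⟩
  obtain ⟨B1, hB1⟩ : ∃ B1, B1 = U1 * B0 * U1ᵀ := ⟨_, rfl⟩
  have hG1b : ∀ i j, |(G1 i j : ℝ)| ≤ hh i * hh j := by
    intro i j
    have h8 := Pool.Agent.N441.PQ.cs_change G U1 (fun i j => h.co 2 (e i * e j / α')) hG H hh hpos
      hrow 1 zero_le_one (fun u v => by rw [one_pow, one_mul]; exact hC2 u v) i j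
    rw [one_mul, ← hG1] at h8
    exact h8
  have hB1b : ∀ i j, |(B1 i j : ℝ)| ≤ (2 * ((X * D : ℕ) : ℝ)) * (hh i * hh j) := by
    intro i j
    have h8 := Pool.Agent.N441.PQ.cs_change B0 U1 (fun i j => h.co 1 (e i * e j / α')) hB0 H hh hpos
      hrow (2 * ((X * D : ℕ) : ℝ)) (by positivity) hC1 i j
    rw [← hB1] at h8
    exact h8
  have hG1s : G1.IsSymm := by
    rw [hG1, Matrix.IsSymm, Matrix.transpose_mul, Matrix.transpose_mul, Matrix.transpose_transpose,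
      hGsymm.eq, Matrix.mul_assoc]
  have hG1d : G1.det = -1 := by
    rw [hG1, Matrix.det_mul, Matrix.det_mul, Matrix.det_transpose, hdet]
    linear_combination -hU1sq
  have hG1p : ∃ v : Fin 3 → ℤ, 0 < v ⬝ᵥ G1 *ᵥ v := by
    refine ⟨v0 ᵥ* U1⁻¹, ?_⟩
    have h8 : (v0 ᵥ* U1⁻¹) ᵥ* U1 = v0 := by
      rw [Matrix.vecMul_vecMul, Matrix.nonsing_inv_mul _ hU1, Matrix.vecMul_one]
    have h9 : (v0 ᵥ* U1⁻¹) ⬝ᵥ G1 *ᵥ (v0 ᵥ* U1⁻¹) = v0 ⬝ᵥ G *ᵥ v0 := by
      rw [hG1, ← Matrix.mulVec_mulVec, ← Matrix.mulVec_mulVec, Matrix.mulVec_transpose, h8,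
        Matrix.dotProduct_mulVec, h8]
    rw [h9]
    have h10 : ((v0 ⬝ᵥ G *ᵥ v0 : ℤ) : ℚ) = ∑ i, ∑ j, (v0 i : ℚ) * (v0 j : ℚ) *
        h.co 2 (e i * e j / α') := by
      simp only [← hG]
      simp only [dotProduct, Matrix.mulVec, Fin.sum_univ_three]
      push_cast
      ring
    have h11 : (0 : ℚ) < ((v0 ⬝ᵥ G *ᵥ v0 : ℤ) : ℚ) := by rw [h10]; exact hv0
    exact_mod_cast h11
  obtain ⟨m, U2, hU2, hJJ, hr0, hr1, hr2⟩ := h4 G1 hh hG1s hG1d hG1p hpos hmono hprod hG1b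
  -- the second change of basis
  obtain ⟨W, hW⟩ : ∃ W, W = U2 * U1 := ⟨_, rfl⟩
  have hWu : IsUnit W.det := by
    rw [hW, Matrix.det_mul]
    exact hU2.mul hU1
  have hWG : W * G * Wᵀ = JJ := by
    rw [← hJJ, hG1, hW, Matrix.transpose_mul]
    simp only [Matrix.mul_assoc]
  obtain ⟨B2, hB2⟩ : ∃ B2, B2 = W * B0 * Wᵀ := ⟨_, rfl⟩
  have hB2' : B2 = U2 * B1 * U2ᵀ := by
    rw [hB2, hB1, hW, Matrix.transpose_mul]
    simp only [Matrix.mul_assoc]
  obtain ⟨e', he'⟩ : ∃ e' : Fin 3 → L, ∀ i, e' i = ∑ j, (W i j : L) * e j :=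
    ⟨fun i => ∑ j, (W i j : L) * e j, fun i => rfl⟩
  have hli : LinearIndependent ℚ e' := Pool.Agent.N441.PQ.li_change e e' W hWu hU.li he'
  have hc2 : ∀ i j, h.co 2 (e' i * e' j / α') = (JJ i j : ℚ) := by
    intro i j
    rw [Pool.Agent.N441.PQ.gram_change (h.co 2) α' e e' G W hG he' i j, hWG]
  have hc1 : ∀ i j, h.co 1 (e' i * e' j / α') = (B2 i j : ℚ) := by
    intro i j
    rw [Pool.Agent.N441.PQ.gram_change (h.co 1) α' e e' B0 W hB0 he' i j, ← hB2]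
  obtain ⟨hm, hchA, hchB⟩ := h5 L _ _ _ h α' e' hα'0 hli hc2 B2 hc1
  have hb : ∀ i j, |(B2 i j : ℝ)| ≤ (2 * ((X * D : ℕ) : ℝ)) * ((∑ k, |(U2 i k : ℝ)| * hh k) *
      (∑ k, |(U2 j k : ℝ)| * hh k)) := by
    intro i j
    rw [hB2']
    exact Pool.Agent.N441.PQ.size_change B1 U2 hh (2 * ((X * D : ℕ) : ℝ)) hB1b i j
  have hs0 : ∀ i, 0 ≤ ∑ k, |(U2 i k : ℝ)| * hh k := fun i =>
    Finset.sum_nonneg fun k _ => mul_nonneg (abs_nonneg _) (hpos k).le
  have hκ : 2 * κ₀ ^ 2 ≤ (⌈2 * κ₀ ^ 2⌉₊ : ℝ) := Nat.le_ceil _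
  have hX : (0 : ℝ) ≤ ((X * D : ℕ) : ℝ) := Nat.cast_nonneg _
  have hT2 : (0 : ℝ) < (2 : ℝ) ^ m := by positivity
  -- a bound for the products
  have hbd : ∀ (r s' u v : ℝ), 0 ≤ r → 0 ≤ s' → r ≤ u → s' ≤ v → ∀ t : ℝ, 0 ≤ t →
      u * v * t = κ₀ ^ 2 → ∀ w : ℝ, |w| ≤ (2 * ((X * D : ℕ) : ℝ)) * (r * s') →
      |w| * t ≤ (⌈2 * κ₀ ^ 2⌉₊ : ℝ) * ((X * D : ℕ) : ℝ) := by
    intro r s' u v hr hs' hu hv t ht huv w hw
    have h8 : r * s' ≤ u * v := mul_le_mul hu hv hs' (hr.trans hu)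
    calc |w| * t ≤ (2 * ((X * D : ℕ) : ℝ)) * (r * s') * t := mul_le_mul_of_nonneg_right hw ht
      _ ≤ (2 * ((X * D : ℕ) : ℝ)) * (u * v) * t :=
          mul_le_mul_of_nonneg_right (mul_le_mul_of_nonneg_left h8 (by positivity)) ht
      _ = (2 * κ₀ ^ 2) * ((X * D : ℕ) : ℝ) := by rw [← huv]; ring
      _ ≤ _ := mul_le_mul_of_nonneg_right hκ hX
  refine ⟨m, W, e', fun i j => B2 i j, hWu, he', ⟨hli, fun i j => ?_, fun i j => ?_, hm⟩, ?_, ?_,
    ?_, ?_⟩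
  · rw [c2]; exact hc2 i j
  · rw [← hc1 i j, ← c1]
    push_cast
    rfl
  · refine ⟨?_, ?_, ?_, ?_, ?_⟩
    · have h8 := hbd _ _ _ _ (hs0 0) (hs0 0) hr0 hr0 (((2 : ℝ) ^ m) ^ 2) (by positivity)
        (by field_simp) _ (hb 0 0)
      show |B2 0 0| * _ ≤ _
      exact_mod_cast h8
    · have h8 := hbd _ _ _ _ (hs0 0) (hs0 1) hr0 hr1 ((2 : ℝ) ^ m) (by positivity)
        (by field_simp) _ (hb 0 1)
      show |B2 0 1| * _ ≤ _
      exact_mod_cast h8
    · have h8 := hbd _ _ _ _ (hs0 0) (hs0 2) hr0 hr2 1 zero_le_one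
        (by field_simp) _ (hb 0 2)
      rw [mul_one] at h8
      show |B2 0 2| ≤ _
      exact_mod_cast h8
    · have h8 := hbd _ _ _ _ (hs0 1) (hs0 2) hr1 hr2 (((2 : ℝ) ^ m)⁻¹) (by positivity)
        (by field_simp) _ (hb 1 2)
      rw [mul_inv_le_iff₀ hT2] at h8
      show |B2 1 2| ≤ _
      exact_mod_cast h8
    · have h8 := hbd _ _ _ _ (hs0 2) (hs0 2) hr2 hr2 ((((2 : ℝ) ^ m) ^ 2)⁻¹) (by positivity)
        (by field_simp) _ (hb 2 2)
      rw [mul_inv_le_iff₀ (by positivity)] at h8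
      show |B2 2 2| ≤ _
      exact_mod_cast h8
  · show B2 0 0 ≠ 0
    intro h8
    refine hns' (h6 L _ _ _ h α' (e' 0) hα'0 (hli.ne_zero 0) hsq' ?_ ?_)
    · rw [hc2 0 0]
      simp [JJ]
    · rw [hc1 0 0, h8]
      simp
  · exact hchA
  · exact hchB

end Pool.Agent.H62.PR
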