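import Pool.Agent.H62.PR.Fm2
import Pool.Agent.H62.QM.Sel
import Pool.Graph.R_pool_sql_team_seeded_63374d34.N922.PQ.Final2
import Pool.Agent.H25.PR.Coc
import Pool.Agent.H25.PR.Rev
import Pool.Agent.H25.PR.Loc0
import Pool.Agent.H6.PR.Exg
import Pool.Agent.H6.PR.Lam
import Pool.Agent.H6.PR.Loc1
import Pool.Agent.H6.PR.Sela
import Pool.Agent.H70.PR.Eul
import Pool.Agent.H70.GM.Main
import Pool.Agent.H72.PR.MC
import Pool.Agent.H75.PR.Cnt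
import Pool.Agent.H66.PR.L2I
import Pool.Agent.H88.PR.SunFin
import Pool.Agent.H93.PR.Fwd
import Pool.Agent.H93.PR.Ty01
import Pool.Agent.H93.PR.Ty2

/-!
# Project PR (helper62): the subspace attached to a good curve
-/

set_option autoImplicit false
set_option linter.all false

open Polynomial IsDedekindDomain WeierstrassCurve WeierstrassCurve.Affine NumberField
open Pool.Agent.TH115.GD
open scoped Classical IntermediateField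

namespace Pool.Agent.H62.PR

open Pool.Agent.N874.PP (Tup chA chB gq tau Two Ev Sq1 U0 sW IsBeta Rt)
open Pool.Agent.N874.PM (PLoc Lies SelR ShaR)
open Pool.Agent.N922.PQ

/-- The integers of a set of elements of `S`. -/
noncomputable def vl {S : Finset ℤ} (J : Finset {Q : ℤ // Q ∈ S}) : Finset ℤ :=
  J.image Subtype.val

theorem mem_vl {S : Finset ℤ} {J : Finset {Q : ℤ // Q ∈ S}} {Q : ℤ} :
    Q ∈ vl J ↔ ∃ h : Q ∈ S, (⟨Q, h⟩ : {Q : ℤ // Q ∈ S}) ∈ J := by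
  unfold vl
  rw [Finset.mem_image]
  constructor
  · rintro ⟨⟨Q', h⟩, h1, rfl⟩
    exact ⟨h, h1⟩
  · rintro ⟨h, h1⟩
    exact ⟨⟨Q, h⟩, h1, rfl⟩

theorem vl_sub {S : Finset ℤ} (J : Finset {Q : ℤ // Q ∈ S}) : vl J ⊆ S := by
  intro Q hQ
  exact (mem_vl.1 hQ).1

/-- The order of the 2-Selmer group of the twist of `y ^ 2 = x ^ 3 + a x + b` by `D`. -/
noncomputable def selN (a b D : ℤ) : ℕ :=
  Nat.card (Sel2 (sW (((a * D ^ 2 : ℤ)) : ℚ) (((b * D ^ 3 : ℤ)) : ℚ)))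

/-- The properties of the subspace attached to a curve. -/
structure GoodL (S : Finset ℤ) (a b : ℤ)
    (Λ : AddSubgroup ({Q : ℤ // Q ∈ S} → ZMod 2 × ZMod 2)) : Prop where
  iso : ∀ l ∈ Λ, ∑ Q, (l Q).1 * (l Q).2 = 0
  big : 2 ^ S.card ≤ Nat.card Λ
  sel : ∀ J : Finset {Q : ℤ // Q ∈ S}, selN a b (∏ Q ∈ J, (Q : ℤ)) =
    Nat.card {l : {Q : ℤ // Q ∈ S} → ZMod 2 × ZMod 2 // l ∈ Λ ∧ l ∈ LJ J}
  bad : ∀ J Z : Finset {Q : ℤ // Q ∈ S},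
    (∃ l ∈ Λ, l ∈ LJ J ∧ l ≠ 0 ∧ ∀ i, l i = 0 ↔ i ∈ Z) → Bd S (vl (J \ Z)) (vl Z) a b

theorem cl_one_iff {L : Type} [Field L] [NumberField L] {𝔓 : HeightOneSpectrum (𝓞 L)} {ϖ x : L} :
    (cl 𝔓 ϖ x).1 = 0 ↔ Ev 𝔓 x := by
  unfold cl
  constructor
  · intro h
    by_contra hn
    rw [show (if Ev 𝔓 x then (0 : ZMod 2) else 1, if U0 𝔓 ϖ x then (0 : ZMod 2) else 1).1 =
      (if Ev 𝔓 x then (0 : ZMod 2) else 1) from rfl, if_neg hn] at h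
    exact one_ne_zero h
  · intro h
    exact if_pos h

theorem cl_two_iff {L : Type} [Field L] [NumberField L] {𝔓 : HeightOneSpectrum (𝓞 L)} {ϖ x : L} :
    (cl 𝔓 ϖ x).2 = 0 ↔ U0 𝔓 ϖ x := by
  unfold cl
  constructor
  · intro h
    by_contra hn
    rw [show (if Ev 𝔓 x then (0 : ZMod 2) else 1, if U0 𝔓 ϖ x then (0 : ZMod 2) else 1).2 =
      (if U0 𝔓 ϖ x then (0 : ZMod 2) else 1) from rfl, if_neg hn] at h
    exact one_ne_zero h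
  · intro h
    exact if_pos h

theorem psi_sq {L : Type} [Field L] [NumberField L] (θ : L) (S : Finset ℤ)
    (𝔮 : ℤ → HeightOneSpectrum (𝓞 L)) {r : L} (hr : r ≠ 0) : psi θ S 𝔮 (r * r) = 0 := by
  funext Q
  have hev : Ev (𝔮 Q) (r * r) := ⟨r, by rw [map_mul, pow_two]⟩
  have hs : Sq1 (𝔮 Q) (r * r) := ⟨r, by
    rw [pow_two, sub_self, map_zero, zero_lt_iff]
    exact (Valuation.ne_zero_iff _).2 (mul_ne_zero hr hr)⟩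
  refine Prod.ext ?_ ?_
  · exact cl_one_iff.2 hev
  · exact cl_two_iff.2 ⟨fun _ => hs, fun h => absurd hev h⟩

theorem typ_of {L : Type} [Field L] [NumberField L] {a b : ℤ} {θ : L} {S : Finset ℤ}
    {𝔮 : ℤ → HeightOneSpectrum (𝓞 L)} {α : L} (hα : α ∈ Mt S 𝔮)
    {J Z : Finset {Q : ℤ // Q ∈ S}} (hns : ¬ IsSquare α) (hJ : psi θ S 𝔮 α ∈ LJ J)
    (hZ : ∀ i, psi θ S 𝔮 α i = 0 ↔ i ∈ Z) : Typ a b θ S (vl (J \ Z)) (vl Z) 𝔮 α := by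
  have e : ∀ Q (h : Q ∈ S), psi θ S 𝔮 α ⟨Q, h⟩ = cl (𝔮 Q) ((Q : L) * θ) α := fun _ _ => rfl
  refine ⟨hα, hns, fun Q hQ => ?_, fun Q hQ => ?_, fun Q hQ hQJ => ?_, fun Q hQ hQJ hQZ => ?_⟩
  · obtain ⟨h, h1⟩ := mem_vl.1 hQ
    obtain ⟨h2, h3⟩ := Finset.mem_sdiff.1 h1
    have h4 := hJ.1 _ h2
    rw [e] at h4
    have hev : ¬ Ev (𝔮 Q) α := by
      intro hev
      apply h3
      rw [← hZ, e]
      exact Prod.ext (cl_one_iff.2 hev) h4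
    exact ⟨hev, (cl_two_iff.1 h4).2 hev⟩
  · obtain ⟨h, h1⟩ := mem_vl.1 hQ
    have h2 := (hZ _).2 h1
    rw [e] at h2
    have h3 := cl_one_iff.1 (congrArg Prod.fst h2)
    exact (cl_two_iff.1 (congrArg Prod.snd h2)).1 h3
  · by_cases h1 : (⟨Q, hQ⟩ : {Q : ℤ // Q ∈ S}) ∈ J
    · have h2 : (⟨Q, hQ⟩ : {Q : ℤ // Q ∈ S}) ∈ Z := by
        by_contra h2
        exact hQJ (mem_vl.2 ⟨hQ, Finset.mem_sdiff.2 ⟨h1, h2⟩⟩)
      have h3 := (hZ _).2 h2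
      rw [e] at h3
      exact cl_one_iff.1 (congrArg Prod.fst h3)
    · have h3 := hJ.2 _ h1
      rw [e] at h3
      exact cl_one_iff.1 h3
  · have hZ' : (⟨Q, hQ⟩ : {Q : ℤ // Q ∈ S}) ∉ Z := fun h => hQZ (mem_vl.2 ⟨hQ, h⟩)
    have hJ' : (⟨Q, hQ⟩ : {Q : ℤ // Q ∈ S}) ∉ J := fun h =>
      hQJ (mem_vl.2 ⟨hQ, Finset.mem_sdiff.2 ⟨h, hZ'⟩⟩)
    have h3 := hJ.2 _ hJ'
    rw [e] at h3
    intro hsq
    apply hZ'
    rw [← hZ, e]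
    have hev := cl_one_iff.1 h3
    exact Prod.ext h3 (cl_two_iff.2 ⟨fun _ => hsq, fun h => absurd hev h⟩)

theorem mset_mt {L : Type} [Field L] [NumberField L] {a b : ℤ} {θ : L} {S : Finset ℤ}
    {𝔮 : ℤ → HeightOneSpectrum (𝓞 L)} {α : L} (hα : α ∈ Mset a b θ S 𝔮) : α ∈ Mt S 𝔮 :=
  ⟨hα.1, hα.2.1, hα.2.2.2⟩

theorem vl_univ {S : Finset ℤ} : vl (Finset.univ : Finset {Q : ℤ // Q ∈ S}) = S := by
  ext Q
  rw [mem_vl]
  exact ⟨fun ⟨h, _⟩ => h, fun h => ⟨h, Finset.mem_univ _⟩⟩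

/-- The field and the primes attached to a curve which is not bad. -/
theorem exists_dat {a b : ℤ} {X : ℕ} {S T : Finset ℤ} {s A B : ℤ → ℤ} (hS : GoodS S s)
    (hT : GoodT T A B) (hF : Fam X S s T A B a b) (hnb : ¬ Bd S ∅ S a b) :
    ∃ (L : Type) (_ : Field L) (_ : NumberField L) (θ : L) (𝔮 : ℤ → HeightOneSpectrum (𝓞 L)),
      IsCub a b θ ∧ (∀ Q ∈ S, Ov Q (𝔮 Q) ∧ (𝔮 Q).valuation L θ = 1) ∧
      ∀ α ∈ Mt S 𝔮, psi θ S 𝔮 α = 0 → IsSquare α := by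
  have hnt2 : ∀ z : ℤ, ¬ (2 : ℤ) ∣ z ^ 3 + a * z + b := fam_nt hT hF hT.1
  have hq : ∀ u : ℚ, u ^ 3 + (a : ℚ) * u + (b : ℚ) ≠ 0 := by
    intro u hu
    apply no_root2 hnt2 (algebraMap ℚ ℚ_[2] u)
    have h1 := congrArg (algebraMap ℚ ℚ_[2]) hu
    rw [map_zero, map_add, map_add, map_mul, map_pow, map_intCast, map_intCast] at h1
    exact h1
  have hirr : Irreducible (ff ℚ a b) := irr_tw' hq
  obtain ⟨L, iF, iN, θ, hc, hu⟩ := exists_cub hirr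
  haveI hne : Nonempty (HeightOneSpectrum (𝓞 L)) := by
    obtain ⟨w, -⟩ := exists_over (𝓞 L)
    exact ⟨w⟩
  have hex : ∀ Q : ℤ, ∃ 𝔮 : HeightOneSpectrum (𝓞 L), Q ∈ S → Ov Q 𝔮 ∧ 𝔮.valuation L θ = 1 := by
    intro Q
    by_cases hQ : Q ∈ S
    · obtain ⟨𝔓₁, 𝔮', h1, h2, h3, h4, h5, h6⟩ := Pool.Agent.N922.PQ.parts2.p.exq L (𝓞 L) a b θ hc hF.sq Q (hS Q hQ).1.2
        (hF.rb Q hQ) (fam_ns hS hF hQ)
      exact ⟨𝔮', fun _ => ⟨h2, h4⟩⟩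
    · exact ⟨Classical.arbitrary _, fun h => absurd h hQ⟩
  choose 𝔮 h𝔮 using hex
  refine ⟨L, iF, iN, θ, 𝔮, hc, h𝔮, fun α hα h0 => ?_⟩
  by_contra hns
  apply hnb
  have h1 := typ_of (a := a) (b := b) (J := ∅) (Z := Finset.univ) hα hns
    (by rw [h0]; exact ⟨fun _ _ => rfl, fun _ _ => rfl⟩) (by intro i; rw [h0]; simp)
  have h2 : vl ((∅ : Finset {Q : ℤ // Q ∈ S}) \ Finset.univ) = ∅ := by
    simp [vl]
  rw [h2, vl_univ] at h1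
  exact ⟨L, iF, iN, θ, 𝔮, α, hc, h𝔮, h1⟩

/-- The subspace attached to a curve which is not bad. -/
theorem exists_lam {a b : ℤ} {X : ℕ} {S T : Finset ℤ} {s A B : ℤ → ℤ} (hS : GoodS S s)
    (hT : GoodT T A B) (hF : Fam X S s T A B a b) (h4 : (4 : ℤ) ∣ a - b ∨ a % 4 = 3)
    (hnb : ¬ Bd S ∅ S a b) :
    ∃ Λ : AddSubgroup ({Q : ℤ // Q ∈ S} → ZMod 2 × ZMod 2), GoodL S a b Λ := by
  obtain ⟨L, iF, iN, θ, 𝔮, hc, h𝔮, hinj⟩ := exists_dat hS hT hF hnb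
  have hD : Dt a b θ X S T s A B 𝔮 :=
    ⟨hc, hS, hT, hF, h4, h𝔮, fun α hα h0 => hinj α (mset_mt hα) h0⟩
  obtain ⟨Λ, h1, h2, h3⟩ := Pool.Agent.H6.PR.lam Pool.Agent.H88.PR.sun_fin Pool.Agent.H66.PR.L2I.l2i L
    a b θ X S T s A B 𝔮 hD
  have hSEL : S_SEL := Pool.Agent.H6.PR.sela Pool.Agent.H93.PR.fwd
    (Pool.Agent.H25.PR.Rev.rev Pool.Agent.H70.GM.gm) Pool.Agent.H25.PR.eqv
  refine ⟨Λ, h2, h3, fun J => ?_, fun J Z hl => ?_⟩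
  · rw [selN, hSEL L a b θ X S T s A B 𝔮 hD J _ rfl]
    refine Nat.card_congr (Equiv.subtypeEquivRight fun l => ?_)
    rw [h1]
  · obtain ⟨l, hl, hlJ, hl0, hlZ⟩ := hl
    obtain ⟨α, hα, rfl⟩ := (h1 l).1 hl
    refine ⟨L, iF, iN, θ, 𝔮, α, hc, h𝔮, typ_of (mset_mt hα) ?_ hlJ hlZ⟩
    rintro ⟨r, rfl⟩
    apply hl0
    refine psi_sq θ S 𝔮 ?_
    rintro rfl
    exact hα.1 (mul_zero _)

end Pool.Agent.H62.PR
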