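import Pool.Agent.H62.PR.Fin1

/-!
# Project PR (helper62): the main counting argument
-/

set_option autoImplicit false
set_option linter.all false

open Polynomial IsDedekindDomain WeierstrassCurve WeierstrassCurve.Affine NumberField
open Pool.Agent.TH115.GD
open scoped Classical IntermediateField

namespace Pool.Agent.H62.PR

open Pool.Agent.N874.PP (Tup chA chB gq tau Two Ev Sq1 U0 sW IsBeta Rt)
open Pool.Agent.N874.PM (PLoc Lies SelR ShaR)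
open Pool.Agent.N922.PQ

/-- The family, with an additional condition `R` (at `2`). -/
def FF (R : ℤ × ℤ → Prop) (X : ℕ) (S : Finset ℤ) (s : ℤ → ℤ) (T : Finset ℤ) (A B : ℤ → ℤ) :
    Set (ℤ × ℤ) :=
  {p | Fam X S s T A B p.1 p.2 ∧ R p}

/-- The condition at `2`, first version. -/
def R4 (p : ℤ × ℤ) : Prop := (4 : ℤ) ∣ p.1 - p.2

/-- The condition at `2`, second version. -/
def R3 (p : ℤ × ℤ) : Prop := p.1 % 4 = 3

/-- Lower bound for the family. -/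
def Low (R : ℤ × ℤ → Prop) (T : Finset ℤ) (A B : ℤ → ℤ) : Prop := ∃ c : ℝ, 0 < c ∧
  ∀ (S : Finset ℤ) (s : ℤ → ℤ), GoodS S s → Disjoint S T → ∃ X₀ : ℕ, ∀ X ≥ X₀,
    c * (X : ℝ) ^ 5 ≤ ((∏ Q ∈ S, (Q : ℝ) ^ 2)) * ((FF R X S s T A B).ncard : ℝ)

theorem ff_fin (R : ℤ × ℤ → Prop) (X : ℕ) (S : Finset ℤ) (s : ℤ → ℤ) (T : Finset ℤ) (A B : ℤ → ℤ) :
    (FF R X S s T A B).Finite := by
  refine ((Finset.Icc (0 : ℤ) (X ^ 2) ×ˢ Finset.Icc (-(X : ℤ) ^ 3) (X ^ 3)).finite_toSet).subset ?_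
  rintro ⟨a, b⟩ ⟨h, -⟩
  have h1 := h.pa
  have h2 := h.da
  have h3 := abs_le.1 h.db
  simp only [Finset.coe_product, Finset.coe_Icc, Set.mem_prod, Set.mem_Icc]
  exact ⟨⟨h1.le, h2⟩, h3⟩

theorem fmParts : FmParts where
  int := Pool.Agent.N849.PQ.int
  exq := parts2.p.exq
  ns := parts2.p.ns
  maj := Pool.Agent.N50.PQ.Maj.maj
  red := Pool.Agent.N945.PQ.RED.main
  nf := Pool.Agent.N368.PQ.nf Pool.Agent.N592.PQ.nrm
  chi := Pool.Agent.N738.PQ.chi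
  nz := Pool.Agent.N738.PQ.nz
  exg := Pool.Agent.H6.PR.exg
  loc0 := Pool.Agent.H25.PR.Loc0.loc0
  loc1 := Pool.Agent.H6.PR.loc1

/-- The first moment. -/
theorem fm' : ∃ K : ℕ, ∀ (S : Finset ℤ) (s : ℤ → ℤ), GoodS S s → ∀ J ⊆ S, ∀ Z ⊆ S, ∃ X₀ : ℕ,
    ∀ X ≥ X₀, ∀ (T : Finset ℤ) (A B : ℤ → ℤ),
      {p : ℤ × ℤ | Fam X S s T A B p.1 p.2 ∧ Bd S J Z p.1 p.2}.Finite ∧
      2 ^ S.card * (∏ Q ∈ S, Q.natAbs) ^ 2 *
        {p : ℤ × ℤ | Fam X S s T A B p.1 p.2 ∧ Bd S J Z p.1 p.2}.ncard ≤ K * X ^ 5 :=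
  fm fmParts Pool.Agent.H75.PR.Cnt.cnt Pool.Agent.H93.PR.ty0 Pool.Agent.H93.PR.ty1
    Pool.Agent.H93.PR.ty2

/-- **The main counting argument.** -/
theorem core {R : ℤ × ℤ → Prop} (hR : ∀ p, R p → (4 : ℤ) ∣ p.1 - p.2 ∨ p.1 % 4 = 3)
    {T : Finset ℤ} {A B : ℤ → ℤ} (hT : GoodT T A B) (hlow : Low R T A B) : ∃ K' : ℝ, ∀ ε : ℝ, 0 < ε →
    ∃ n₀ : ℕ, ∀ (S : Finset ℤ) (s : ℤ → ℤ), GoodS S s → Disjoint S T → n₀ ≤ S.card →
    ∃ X₀ : ℕ, ∀ X ≥ X₀, ∃ G : Finset (ℤ × ℤ), (∀ p ∈ G, p ∈ FF R X S s T A B ∧ ¬ Bd S ∅ S p.1 p.2) ∧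
      (1 - ε) * ((FF R X S s T A B).ncard : ℝ) ≤ (G.card : ℝ) ∧
      ∃ Λ : {p : ℤ × ℤ // p ∈ G} → AddSubgroup ({Q : ℤ // Q ∈ S} → ZMod 2 × ZMod 2),
        (∀ ω, GoodL S ω.1.1 ω.1.2 (Λ ω)) ∧
        ∀ J Z : Finset {Q : ℤ // Q ∈ S}, (2 : ℝ) ^ Fintype.card {Q : ℤ // Q ∈ S} *
          (Nat.card {ω : {p : ℤ × ℤ // p ∈ G} //
            ∃ l ∈ Λ ω, l ∈ LJ J ∧ l ≠ 0 ∧ ∀ i, l i = 0 ↔ i ∈ Z} : ℝ) ≤
              K' * Fintype.card {p : ℤ × ℤ // p ∈ G} := by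
  obtain ⟨c, hc, hfam⟩ := hlow
  obtain ⟨K, hK⟩ := fm'
  refine ⟨2 * K / c, fun ε hε => ?_⟩
  obtain ⟨n₀, hn₀⟩ : ∃ n : ℕ, (K / c) / min (1 / 2) ε < (2 : ℝ) ^ n :=
    pow_unbounded_of_one_lt _ (by norm_num)
  refine ⟨n₀, fun S s hS hdis hcard => ?_⟩
  obtain ⟨X₁, hX₁⟩ := hfam S s hS hdis
  -- the maximum of the bounds
  have hJZ : ∀ q : Finset ℤ × Finset ℤ, ∃ X₀ : ℕ, q ∈ S.powerset ×ˢ S.powerset →
      ∀ X ≥ X₀, ∀ (T : Finset ℤ) (A B : ℤ → ℤ),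
      {p : ℤ × ℤ | Fam X S s T A B p.1 p.2 ∧ Bd S q.1 q.2 p.1 p.2}.Finite ∧
      2 ^ S.card * (∏ Q ∈ S, Q.natAbs) ^ 2 *
        {p : ℤ × ℤ | Fam X S s T A B p.1 p.2 ∧ Bd S q.1 q.2 p.1 p.2}.ncard ≤ K * X ^ 5 := by
    intro q
    by_cases hq : q ∈ S.powerset ×ˢ S.powerset
    · rw [Finset.mem_product, Finset.mem_powerset, Finset.mem_powerset] at hq
      obtain ⟨X₀, h⟩ := hK S s hS q.1 hq.1 q.2 hq.2
      exact ⟨X₀, fun _ => h⟩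
    · exact ⟨0, fun h => absurd h hq⟩
  choose Y hY using hJZ
  refine ⟨max X₁ ((S.powerset ×ˢ S.powerset).sup Y), fun X hX => ?_⟩
  have hXY : ∀ J ⊆ S, ∀ Z ⊆ S,
      {p : ℤ × ℤ | Fam X S s T A B p.1 p.2 ∧ Bd S J Z p.1 p.2}.Finite ∧
      2 ^ S.card * (∏ Q ∈ S, Q.natAbs) ^ 2 *
        {p : ℤ × ℤ | Fam X S s T A B p.1 p.2 ∧ Bd S J Z p.1 p.2}.ncard ≤ K * X ^ 5 := by
    intro J hJ Z hZ
    have hm : (J, Z) ∈ S.powerset ×ˢ S.powerset := by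
      rw [Finset.mem_product, Finset.mem_powerset, Finset.mem_powerset]
      exact ⟨hJ, hZ⟩
    refine hY (J, Z) hm X ?_ T A B
    exact (Finset.le_sup (f := Y) hm).trans ((le_max_right _ _).trans hX)
  obtain ⟨P, hP⟩ : ∃ P : ℝ, P = ∏ Q ∈ S, (Q : ℝ) ^ 2 := ⟨_, rfl⟩
  have hP0 : 0 < P := by
    rw [hP]
    exact Finset.prod_pos fun Q hQ => by
      have : (0 : ℝ) < Q := by exact_mod_cast (hS Q hQ).1.1
      positivity
  have hPN : (((∏ Q ∈ S, Q.natAbs) ^ 2 : ℕ) : ℝ) = P := by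
    rw [hP, ← Finset.prod_pow]
    push_cast
    refine Finset.prod_congr rfl fun Q hQ => ?_
    rw [← Int.cast_natCast, Int.natCast_natAbs, abs_of_pos (hS Q hQ).1.1]
  have hFF : c * (X : ℝ) ^ 5 ≤ P * ((FF R X S s T A B).ncard : ℝ) := by
    rw [hP]
    exact hX₁ X ((le_max_left _ _).trans hX)
  have hfin := ff_fin R X S s T A B
  obtain ⟨F, hF⟩ : ∃ F : ℝ, F = ((FF R X S s T A B).ncard : ℝ) := ⟨_, rfl⟩
  rw [← hF] at hFF ⊢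
  have hF0 : 0 ≤ F := by rw [hF]; positivity
  have hK0 : (0 : ℝ) ≤ K := Nat.cast_nonneg _
  -- the number of the bad curves
  have hbd : ∀ J ⊆ S, ∀ Z ⊆ S, (2 : ℝ) ^ S.card *
      ({p : ℤ × ℤ | Fam X S s T A B p.1 p.2 ∧ Bd S J Z p.1 p.2}.ncard : ℝ) ≤ K / c * F := by
    intro J hJ Z hZ
    have h1 := (hXY J hJ Z hZ).2
    have h2 : (2 : ℝ) ^ S.card * P *
        ({p : ℤ × ℤ | Fam X S s T A B p.1 p.2 ∧ Bd S J Z p.1 p.2}.ncard : ℝ) ≤ K * (X : ℝ) ^ 5 := by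
      rw [← hPN]
      exact_mod_cast h1
    have h3 : (K : ℝ) * (X : ℝ) ^ 5 ≤ K / c * (P * F) := by
      calc (K : ℝ) * (X : ℝ) ^ 5 = K / c * (c * (X : ℝ) ^ 5) := by field_simp
        _ ≤ K / c * (P * F) := mul_le_mul_of_nonneg_left hFF (by positivity)
    have h4 := h2.trans h3
    refine le_of_mul_le_mul_right ?_ hP0
    calc _ = (2 : ℝ) ^ S.card * P *
        ({p : ℤ × ℤ | Fam X S s T A B p.1 p.2 ∧ Bd S J Z p.1 p.2}.ncard : ℝ) := by ring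
      _ ≤ K / c * (P * F) := h4
      _ = K / c * F * P := by ring
  -- the good curves
  obtain ⟨G, hG⟩ : ∃ G : Finset (ℤ × ℤ), G = hfin.toFinset.filter fun p => ¬ Bd S ∅ S p.1 p.2 :=
    ⟨_, rfl⟩
  have hmG : ∀ p, p ∈ G ↔ p ∈ FF R X S s T A B ∧ ¬ Bd S ∅ S p.1 p.2 := by
    intro p
    rw [hG, Finset.mem_filter, Set.Finite.mem_toFinset]
  have hb0 : (({p ∈ hfin.toFinset | Bd S ∅ S p.1 p.2}.card : ℕ) : ℝ) ≤ min (1 / 2) ε * F := by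
    have h1 := hbd ∅ (Finset.empty_subset _) S (Finset.Subset.refl _)
    have h2 : (({p ∈ hfin.toFinset | Bd S ∅ S p.1 p.2}.card : ℕ) : ℝ) ≤
        ({p : ℤ × ℤ | Fam X S s T A B p.1 p.2 ∧ Bd S ∅ S p.1 p.2}.ncard : ℝ) := by
      have h3 : {p ∈ hfin.toFinset | Bd S ∅ S p.1 p.2}.card ≤
          {p : ℤ × ℤ | Fam X S s T A B p.1 p.2 ∧ Bd S ∅ S p.1 p.2}.ncard := by
        rw [← Set.ncard_coe_finset]
        refine Set.ncard_le_ncard ?_ (hXY ∅ (Finset.empty_subset _) S (Finset.Subset.refl _)).1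
        intro p hp
        rw [Finset.mem_coe, Finset.mem_filter, Set.Finite.mem_toFinset] at hp
        exact ⟨hp.1.1, hp.2⟩
      exact_mod_cast h3
    have h5 : (0 : ℝ) < min (1 / 2) ε := lt_min (by norm_num) hε
    have h4 : K / c ≤ min (1 / 2) ε * (2 : ℝ) ^ S.card := by
      have h6 : K / c < (2 : ℝ) ^ n₀ * min (1 / 2) ε := (div_lt_iff₀ h5).1 hn₀
      have h7 : (2 : ℝ) ^ n₀ ≤ (2 : ℝ) ^ S.card := pow_le_pow_right₀ (by norm_num) hcard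
      calc K / c ≤ (2 : ℝ) ^ n₀ * min (1 / 2) ε := h6.le
        _ ≤ (2 : ℝ) ^ S.card * min (1 / 2) ε := mul_le_mul_of_nonneg_right h7 h5.le
        _ = _ := mul_comm _ _
    have h8 : (0 : ℝ) < 2 ^ S.card := by positivity
    refine h2.trans (le_of_mul_le_mul_left (h1.trans ?_) h8)
    calc K / c * F ≤ min (1 / 2) ε * (2 : ℝ) ^ S.card * F := mul_le_mul_of_nonneg_right h4 hF0
      _ = _ := by ring
  have hGc : (1 - min (1 / 2) ε) * F ≤ G.card := by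
    have h1 := Finset.card_filter_add_card_filter_not (s := hfin.toFinset)
      (fun p : ℤ × ℤ => Bd S ∅ S p.1 p.2)
    rw [← hG] at h1
    have h2 : F = (hfin.toFinset.card : ℝ) := by
      rw [hF, Set.ncard_eq_toFinset_card _ hfin]
    have h3 : ((hfin.toFinset.filter fun p => Bd S ∅ S p.1 p.2).card : ℝ) + (G.card : ℝ) = F := by
      rw [h2]
      exact_mod_cast h1
    linarith
  have hFG : F ≤ 2 * G.card := by
    have h1 : min (1 / 2) ε * F ≤ 1 / 2 * F := mul_le_mul_of_nonneg_right (min_le_left _ _) hF0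
    linarith
  have hex : ∀ ω : {p : ℤ × ℤ // p ∈ G}, ∃ Λ : AddSubgroup ({Q : ℤ // Q ∈ S} → ZMod 2 × ZMod 2),
      GoodL S ω.1.1 ω.1.2 Λ := by
    intro ω
    obtain ⟨h1, h2⟩ := (hmG _).1 ω.2
    exact exists_lam hS hT h1.1 (hR _ h1.2) h2
  choose Λ hΛ using hex
  refine ⟨G, fun p hp => (hmG p).1 hp, ?_, Λ, hΛ, fun J Z => ?_⟩
  · refine le_trans (mul_le_mul_of_nonneg_right ?_ hF0) hGc
    have := min_le_right (1 / 2 : ℝ) ε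
    linarith
  · have hcS : Fintype.card {Q : ℤ // Q ∈ S} = S.card := Fintype.card_coe S
    rw [hcS, Fintype.card_coe]
    have h1 := hbd (vl (J \ Z)) (vl_sub _) (vl Z) (vl_sub _)
    have h2 : Nat.card {ω : {p : ℤ × ℤ // p ∈ G} //
        ∃ l ∈ Λ ω, l ∈ LJ J ∧ l ≠ 0 ∧ ∀ i, l i = 0 ↔ i ∈ Z} ≤
        {p : ℤ × ℤ | Fam X S s T A B p.1 p.2 ∧ Bd S (vl (J \ Z)) (vl Z) p.1 p.2}.ncard := by
      rw [← Nat.card_coe_set_eq]
      haveI := (hXY (vl (J \ Z)) (vl_sub _) (vl Z) (vl_sub _)).1.to_subtype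
      refine Nat.card_le_card_of_injective (fun ω => ⟨ω.1.1, ((hmG _).1 ω.1.2).1.1,
        (hΛ ω.1).bad J Z ω.2⟩) ?_
      intro ω ω' h
      simp only [Subtype.mk.injEq] at h
      exact Subtype.ext (Subtype.ext h)
    calc (2 : ℝ) ^ S.card * _ ≤ (2 : ℝ) ^ S.card * ({p : ℤ × ℤ | Fam X S s T A B p.1 p.2 ∧
          Bd S (vl (J \ Z)) (vl Z) p.1 p.2}.ncard : ℝ) :=
        mul_le_mul_of_nonneg_left (by exact_mod_cast h2) (by positivity)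
      _ ≤ K / c * F := h1
      _ ≤ K / c * (2 * G.card) := mul_le_mul_of_nonneg_left hFG (by positivity)
      _ = _ := by ring

end Pool.Agent.H62.PR
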