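import Pool.Agent.H62.PR.Fin2

/-!
# Project PR (helper62): the distribution among the twists, and positive proportion for every rank
-/

set_option autoImplicit false
set_option linter.all false

open Polynomial IsDedekindDomain WeierstrassCurve WeierstrassCurve.Affine NumberField
open Pool.Agent.TH115.GD
open scoped Classical IntermediateField

namespace Pool.Agent.H62.PR

open Pool.Agent.N874.PP (Tup chA chB gq tau Two Ev Sq1 U0 sW IsBeta Rt)
open Pool.Agent.N874.PM (PLoc Lies SelR ShaR)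
open Pool.Agent.N922.PQ

/-- Subsets of `S` and of the subtype. -/
theorem card_J {S : Finset ℤ} (R : ℕ → ℤ → Prop) :
    Nat.card {J : Finset {Q : ℤ // Q ∈ S} // R J.card (∏ Q ∈ J, (Q : ℤ))} =
      (S.powerset.filter fun J => R J.card (∏ Q ∈ J, Q)).card := by
  rw [← Fintype.card_coe, ← Nat.card_eq_fintype_card]
  have hprod : ∀ J : Finset {Q : ℤ // Q ∈ S}, ∏ Q ∈ vl J, Q = ∏ Q ∈ J, (Q : ℤ) := fun J =>
    Finset.prod_image fun x _ y _ h => Subtype.ext h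
  have hcard : ∀ J : Finset {Q : ℤ // Q ∈ S}, (vl J).card = J.card := fun J =>
    Finset.card_image_of_injective _ Subtype.val_injective
  refine Nat.card_congr (Equiv.ofBijective (fun J => ⟨vl J.1, ?_⟩) ⟨?_, ?_⟩)
  · rw [Finset.mem_filter, Finset.mem_powerset, hprod, hcard]
    exact ⟨vl_sub _, J.2⟩
  · intro J J' h
    simp only [Subtype.mk.injEq] at h
    exact Subtype.ext (Finset.image_injective Subtype.val_injective h)
  · rintro ⟨J, hJ⟩
    rw [Finset.mem_filter, Finset.mem_powerset] at hJ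
    have h1 : vl (Finset.univ.filter fun Q : {Q : ℤ // Q ∈ S} => (Q : ℤ) ∈ J) = J := by
      ext Q
      rw [mem_vl]
      constructor
      · rintro ⟨h, h2⟩
        exact (Finset.mem_filter.1 h2).2
      · intro h
        exact ⟨hJ.1 h, Finset.mem_filter.2 ⟨Finset.mem_univ _, h⟩⟩
    refine ⟨⟨Finset.univ.filter fun Q : {Q : ℤ // Q ∈ S} => (Q : ℤ) ∈ J, ?_⟩, ?_⟩
    · rw [← hprod, ← hcard, h1]
      exact hJ.2
    · exact Subtype.ext h1

/-- The ranks of the twists of `(a, b)` by the `∏ Q ∈ J, Q`, `J ⊆ S`, have the distribution of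
Poonen and Rains up to `ε`. -/
def Dist (S : Finset ℤ) (ε : ℝ) (p : ℤ × ℤ) : Prop :=
  ∀ d : ℕ, |((S.powerset.filter fun J => selN p.1 p.2 (∏ Q ∈ J, Q) = 2 ^ d).card : ℝ) -
    Cd d * 2 ^ S.card| ≤ ε * 2 ^ S.card

theorem mc : S_MC := Pool.Agent.H72.PR.MC.main Pool.Agent.H70.PR.eul_S

theorem distB {R : ℤ × ℤ → Prop} (hR : ∀ p, R p → (4 : ℤ) ∣ p.1 - p.2 ∨ p.1 % 4 = 3)
    {T : Finset ℤ} {A B : ℤ → ℤ} (hT : GoodT T A B) (hlow : Low R T A B) (ε : ℝ) (hε : 0 < ε) :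
    ∃ n₀ : ℕ, ∀ (S : Finset ℤ) (s : ℤ → ℤ), GoodS S s → Disjoint S T → n₀ ≤ S.card →
    ∃ X₀ : ℕ, ∀ X ≥ X₀, (1 - ε) * ((FF R X S s T A B).ncard : ℝ) ≤
      ({p ∈ FF R X S s T A B | Dist S ε p}.ncard : ℝ) := by
  obtain ⟨K', hK'⟩ := core hR hT hlow
  obtain ⟨n₁, hn₁⟩ := hK' (min ε 1 / 2) (by
    have : 0 < min ε 1 := lt_min hε one_pos
    positivity)
  obtain ⟨n₂, hn₂⟩ := mc (min ε 1 / 2) K' (by
    have : 0 < min ε 1 := lt_min hε one_pos
    positivity)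
  refine ⟨max n₁ n₂, fun S s hS hdis hcard => ?_⟩
  obtain ⟨X₀, hX₀⟩ := hn₁ S s hS hdis ((le_max_left _ _).trans hcard)
  refine ⟨X₀, fun X hX => ?_⟩
  obtain ⟨G, hG, hGc, Λ, hΛ, hfm⟩ := hX₀ X hX
  have hcS : Fintype.card {Q : ℤ // Q ∈ S} = S.card := Fintype.card_coe S
  have h1 := hn₂ {Q : ℤ // Q ∈ S} {p : ℤ × ℤ // p ∈ G} (by
    rw [hcS]; exact (le_max_right _ _).trans hcard) Λ (fun ω => (hΛ ω).iso)
    (fun ω => by rw [hcS]; exact (hΛ ω).big) hfm
  rw [hcS, Fintype.card_coe] at h1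
  have h0 : 0 < min ε 1 := lt_min hε one_pos
  have he1 : min ε 1 ≤ ε := min_le_left _ _
  have he2 : min ε 1 ≤ 1 := min_le_right _ _
  have h2 : (Nat.card {ω : {p : ℤ × ℤ // p ∈ G} // ∀ d : ℕ,
      |(Nat.card {J : Finset {Q : ℤ // Q ∈ S} // Nat.card {l : {Q : ℤ // Q ∈ S} → ZMod 2 × ZMod 2 //
        l ∈ Λ ω ∧ l ∈ LJ J} = 2 ^ d} : ℝ) - Cd d * 2 ^ S.card| ≤ min ε 1 / 2 * 2 ^ S.card}) ≤
      {p ∈ FF R X S s T A B | Dist S ε p}.ncard := by
    rw [← Nat.card_coe_set_eq]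
    haveI : Finite {p ∈ FF R X S s T A B | Dist S ε p} :=
      ((ff_fin R X S s T A B).subset fun p hp => hp.1).to_subtype
    refine Nat.card_le_card_of_injective (fun ω => ⟨ω.1.1, (hG _ ω.1.2).1, fun d => ?_⟩) ?_
    · have h3 := ω.2 d
      have h4 : Nat.card {J : Finset {Q : ℤ // Q ∈ S} //
          Nat.card {l : {Q : ℤ // Q ∈ S} → ZMod 2 × ZMod 2 // l ∈ Λ ω.1 ∧ l ∈ LJ J} = 2 ^ d} =
          (S.powerset.filter fun J => selN ω.1.1.1 ω.1.1.2 (∏ Q ∈ J, Q) = 2 ^ d).card := by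
        have h5 := card_J (S := S) fun _ D => selN ω.1.1.1 ω.1.1.2 D = 2 ^ d
        refine Eq.trans (Nat.card_congr (Equiv.subtypeEquivRight fun J => ?_)) (h5.trans (by congr))
        rw [(hΛ ω.1).sel J]
      rw [h4] at h3
      refine h3.trans (mul_le_mul_of_nonneg_right ?_ (by positivity))
      linarith
    · intro ω ω' h
      simp only [Subtype.mk.injEq] at h
      exact Subtype.ext (Subtype.ext h)
  have h3 : (1 - min ε 1 / 2) * (G.card : ℝ) ≤ ({p ∈ FF R X S s T A B | Dist S ε p}.ncard : ℝ) :=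
    h1.trans (by exact_mod_cast h2)
  refine le_trans ?_ h3
  have h5 : (0 : ℝ) ≤ ((FF R X S s T A B).ncard : ℝ) := Nat.cast_nonneg _
  calc (1 - ε) * ((FF R X S s T A B).ncard : ℝ)
      ≤ ((1 - min ε 1 / 2) * (1 - min ε 1 / 2)) * ((FF R X S s T A B).ncard : ℝ) := by
        refine mul_le_mul_of_nonneg_right ?_ h5
        nlinarith
    _ = (1 - min ε 1 / 2) * ((1 - min ε 1 / 2) * ((FF R X S s T A B).ncard : ℝ)) := by ring
    _ ≤ _ := mul_le_mul_of_nonneg_left hGc (by linarith)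

end Pool.Agent.H62.PR
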