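import Pool.Agent.H62.PR.Fin3
import Pool.Agent.H62.QM.Main

/-!
# Project PR (helper62): a positive proportion of all curves for every rank
-/

set_option autoImplicit false
set_option linter.all false

open Polynomial IsDedekindDomain WeierstrassCurve WeierstrassCurve.Affine NumberField
open Pool.Agent.TH115.GD
open scoped Classical IntermediateField

namespace Pool.Agent.H62.PR

open Pool.Agent.N874.PP (Tup chA chB gq tau Two Ev Sq1 U0 sW IsBeta Rt)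
open Pool.Agent.N874.PM (PLoc Lies SelR ShaR)
open Pool.Agent.N922.PQ

theorem cd_pos (h0 : 0 < ⨅ N : ℕ, ∏ j ∈ Finset.range N, (1 + (1 / 2 : ℝ) ^ j)⁻¹) (d : ℕ) :
    0 < Cd d := by
  unfold Cd
  refine mul_pos h0 (Finset.prod_pos fun i _ => div_pos two_pos ?_)
  have : (2 : ℝ) ≤ 2 ^ (i + 1) := by
    calc (2 : ℝ) = 2 ^ 1 := (pow_one _).symm
      _ ≤ 2 ^ (i + 1) := pow_le_pow_right₀ (by norm_num) (by omega)
  linarith

theorem inf_pos : 0 < ⨅ N : ℕ, ∏ j ∈ Finset.range N, (1 + (1 / 2 : ℝ) ^ j)⁻¹ := by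
  by_contra hcon
  push Not at hcon
  have hnn : 0 ≤ ⨅ N : ℕ, ∏ j ∈ Finset.range N, (1 + (1 / 2 : ℝ) ^ j)⁻¹ :=
    Real.iInf_nonneg fun N => Finset.prod_nonneg fun j _ => by positivity
  have h0 := le_antisymm hcon hnn
  have h1 := Pool.Agent.H70.PR.eul_S
  have h2 : Cd = fun _ => (0 : ℝ) := by
    funext d
    unfold Cd
    rw [h0, zero_mul]
  unfold S_EUL at h1
  rw [h2] at h1
  exact zero_ne_one (h1.unique hasSum_zero).symm

/-- Many primes. -/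
theorem exists_S (T : Finset ℤ) (r : ℕ) : ∃ (S : Finset ℤ) (s : ℤ → ℤ), GoodS S s ∧ S.card = r ∧
    Disjoint S T := by
  haveI hgal : @IsGalois ℚ _ ℚ _ DivisionRing.toRatAlgebra := by
    have e : (DivisionRing.toRatAlgebra : Algebra ℚ ℚ) = Algebra.id ℚ := Subsingleton.elim _ _
    rw [e]
    infer_instance
  obtain ⟨γ, g, δ, hG, hdeg⟩ := Pool.Agent.N40.PQ.gen ℚ
  obtain ⟨S, s, h1, h2, h3, -⟩ := Pool.Agent.N40.PQ.spl ℚ γ g δ hG hdeg T r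
  exact ⟨S, s, h1, h2, h3⟩

theorem low4 {T : Finset ℤ} {A B : ℤ → ℤ} (hT : GoodT T A B) : Low R4 T A B :=
  Pool.Agent.N615.PV.fam2 T A B hT

/-- **Every rank occurs for a positive proportion of all elliptic curves.** -/
theorem posA (d : ℕ) : ∃ c : ℝ, 0 < c ∧ ∃ H₀ : ℕ, ∀ H ≥ H₀,
    {p : ℤ × ℤ | Crv H p.1 p.2}.Finite ∧
    c * ({p : ℤ × ℤ | Crv H p.1 p.2}.ncard : ℝ) ≤
      ({p : ℤ × ℤ | Crv H p.1 p.2 ∧
        Nat.card (Sel2 (sW ((p.1 : ℤ) : ℚ) ((p.2 : ℤ) : ℚ))) = 2 ^ d}.ncard : ℝ) := by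
  obtain ⟨T, A, B, -, hT⟩ := Pool.Agent.N954.PQ.tch ∅ (by simp)
  have hCd := cd_pos inf_pos d
  obtain ⟨n₀, hn₀⟩ := distB (R := R4) (fun p hp => Or.inl hp) hT (low4 hT) (min (Cd d / 2) (1 / 2)) (lt_min (by linarith) (by norm_num))
  obtain ⟨S, s, hS, hcard, hdis⟩ := exists_S T n₀
  obtain ⟨X₁, hX₁⟩ := hn₀ S s hS hdis hcard.ge
  obtain ⟨c, hc, hfam⟩ := Pool.Agent.N615.PV.fam2 T A B hT
  obtain ⟨X₂, hX₂⟩ := hfam S s hS hdis
  obtain ⟨P, hP⟩ : ∃ P : ℝ, P = ∏ Q ∈ S, (Q : ℝ) ^ 2 := ⟨_, rfl⟩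
  have hP0 : 0 < P := by
    rw [hP]
    exact Finset.prod_pos fun Q hQ => by
      have : (0 : ℝ) < Q := by exact_mod_cast (hS Q hQ).1.1
      positivity
  have hSpos : 0 < ∏ Q ∈ S, Q := Finset.prod_pos fun Q hQ => (hS Q hQ).1.1
  refine Pool.Agent.N607.PQ.cnt
    (fun p => Nat.card (Sel2 (sW ((p.1 : ℤ) : ℚ) ((p.2 : ℤ) : ℚ))) = 2 ^ d)
    (∏ Q ∈ S, Q).toNat (max X₁ X₂) (c / (2 * P) / 2 ^ S.card) (by positivity) (by omega)
    fun X hX Hh hHh => ?_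
  have h1 := hX₁ X ((le_max_left _ _).trans hX)
  have h2 := hX₂ X ((le_max_right _ _).trans hX)
  rw [← hP] at h2
  set Hs := {p : ℤ × ℤ | Crv Hh p.1 p.2 ∧
    Nat.card (Sel2 (sW ((p.1 : ℤ) : ℚ) ((p.2 : ℤ) : ℚ))) = 2 ^ d} with hH
  set G := {p ∈ FF R4 X S s T A B | Dist S (min (Cd d / 2) (1 / 2)) p} with hG'
  have hHf : Hs.Finite := (crv_fin Hh).subset fun p hp => hp.1
  have hbd : 27 * ((X : ℤ) * ∏ Q ∈ S, Q) ^ 6 ≤ Hh := by
    have h1 : ((27 * (X * (∏ Q ∈ S, Q).toNat) ^ 6 : ℕ) : ℤ) ≤ Hh := by exact_mod_cast hHh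
    have e1 : (((∏ Q ∈ S, Q).toNat : ℕ) : ℤ) = ∏ Q ∈ S, Q := Int.toNat_of_nonneg hSpos.le
    rw [Nat.cast_mul, Nat.cast_pow, Nat.cast_mul, e1] at h1
    exact_mod_cast h1
  have hcard := card_fib hHf S
    (fun (J : Finset ℤ) (p : ℤ × ℤ) => (p.1 * (∏ Q ∈ J, Q) ^ 2, p.2 * (∏ Q ∈ J, Q) ^ 3)) (G := G) (by
      rintro p ⟨⟨hpF, hp4⟩, hdist⟩
      have h3 := (abs_le.1 (hdist d)).1
      have h4 : (0 : ℝ) < 2 ^ S.card := by positivity
      have h5 : (0 : ℝ) < ((S.powerset.filter fun J =>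
          selN p.1 p.2 (∏ Q ∈ J, Q) = 2 ^ d).card : ℝ) := by
        have h6 : min (Cd d / 2) (1 / 2) * (2 : ℝ) ^ S.card ≤ Cd d / 2 * 2 ^ S.card :=
          mul_le_mul_of_nonneg_right (min_le_left _ _) h4.le
        have h7 : 0 < Cd d / 2 * (2 : ℝ) ^ S.card := by positivity
        linarith
      have h8 : 0 < (S.powerset.filter fun J => selN p.1 p.2 (∏ Q ∈ J, Q) = 2 ^ d).card := by
        exact_mod_cast h5
      obtain ⟨J, hJ⟩ := Finset.card_pos.1 h8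
      rw [Finset.mem_filter, Finset.mem_powerset] at hJ
      exact ⟨J, hJ.1, Pool.Agent.N707.PQ.crv X Hh S T s A B p.1 p.2 hS hT hpF J hJ.1 hbd, hJ.2⟩) (by
      intro J hJ x hx y hy hxy
      have hD0 : (∏ Q ∈ J, Q) ≠ 0 := by
        rw [Finset.prod_ne_zero_iff]
        exact fun Q hQ => (hS Q (hJ hQ)).1.2.ne_zero
      rw [Prod.mk.injEq] at hxy
      exact twist_inj hD0 hxy.1 hxy.2)
  have hcard' : (G.ncard : ℝ) ≤ 2 ^ S.card * Hs.ncard := by exact_mod_cast hcard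
  have hG1 : c / (2 * P) * (X : ℝ) ^ 5 ≤ G.ncard := by
    have h3 : (1 / 2 : ℝ) * ((FF R4 X S s T A B).ncard : ℝ) ≤ G.ncard := by
      refine le_trans (mul_le_mul_of_nonneg_right ?_ (Nat.cast_nonneg _)) h1
      have := min_le_right (Cd d / 2) (1 / 2)
      linarith
    have h4 : c * (X : ℝ) ^ 5 ≤ P * ((FF R4 X S s T A B).ncard : ℝ) := h2
    calc c / (2 * P) * (X : ℝ) ^ 5 = (c * (X : ℝ) ^ 5) / (2 * P) := by ring
      _ ≤ (P * ((FF R4 X S s T A B).ncard : ℝ)) / (2 * P) := by gcongr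
      _ = (1 / 2 : ℝ) * ((FF R4 X S s T A B).ncard : ℝ) := by field_simp
      _ ≤ _ := h3
  calc c / (2 * P) / 2 ^ S.card * (X : ℝ) ^ 5
      = c / (2 * P) * (X : ℝ) ^ 5 / 2 ^ S.card := by ring
    _ ≤ (G.ncard : ℝ) / 2 ^ S.card := by gcongr
    _ ≤ (2 ^ S.card * Hs.ncard) / 2 ^ S.card := by gcongr
    _ = Hs.ncard := by field_simp

end Pool.Agent.H62.PR
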