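import Pool.Agent.H62.PR.Sel0
import Pool.Agent.H62.PR.Cnt0

/-!
# Project PR (helper62): parity (twist by `-1`) and natural ordering, statements of parts

The family now has the condition `a % 4 = 3` instead of `4 ∣ a - b` (field `h4` of `Dt`, and the
hypothesis of `S_L2I`, are now `4 ∣ a - b ∨ a % 4 = 3`; the first case is done in version 1, only
the second one is needed in version 2). For `a = 3` modulo `4`, `b` odd, the images of the points over `ℚ_2` of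
`y ^ 2 = x ^ 3 + a x + b` and of the twist `y ^ 2 = x ^ 3 + a x - b` by `-1` are different groups of
order two. In the normal form `α = c ^ 2 pol(g₁, g₂, r, s, t)` of `S_NF2` (`N922/PQ/Stm2.lean`) the
non-trivial class of the image is `(g₁, g₂) = (1, 0)` modulo `2` if `b = 3` modulo `4` (library,
`S_CAL`, `S_PT2`) and `(1, 1)` if `b = 1` modulo `4`. The point: `x₀ = 0` or `4` (`b = 3` modulo `4`,
then `a x₀ + b = 7` modulo `8` for the curve twisted by `-1`).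
-/

set_option autoImplicit false
set_option linter.all false

open Polynomial IsDedekindDomain WeierstrassCurve WeierstrassCurve.Affine NumberField
open Pool.Agent.TH115.GD
open scoped Classical IntermediateField

namespace Pool.Agent.H62.PR

open Pool.Agent.N874.PP (Tup chA chB gq tau Two Ev Sq1 U0 sW IsBeta Rt)
open Pool.Agent.N874.PM (PLoc Lies SelR ShaR)
open Pool.Agent.N922.PQ

/-- No condition at `2`. -/
def Mt {L : Type} [Field L] [NumberField L] (S : Finset ℤ)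
    (𝔮 : ℤ → HeightOneSpectrum (𝓞 L)) : Set L :=
  {α | α ≠ 0 ∧ IsSquare (Algebra.norm ℚ α) ∧
    ∀ 𝔓 : HeightOneSpectrum (𝓞 L), (∀ Q ∈ S, 𝔓 ≠ 𝔮 Q) → Ev 𝔓 α}

/-- The element is a square in `L ⊗ ℚ_2`. -/
def Sq2 {L : Type} [Field L] [CharZero L] (a b : ℤ) (θ α : L) : Prop :=
  ∀ h : ℚ[X], aeval θ h = α → ∃ g : ℚ_[2][X], ff ℚ_[2] a b ∣ h.map (algebraMap ℚ ℚ_[2]) - g ^ 2

/-- Part L2D. The local images at `2` of the curve and of its twist by `-1` meet trivially. -/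
def S_L2D : Prop := ∀ (L : Type) [Field L] [NumberField L] (a b : ℤ) (θ : L), IsCub a b θ →
  (∀ z : ℤ, ¬ (2 : ℤ) ∣ z ^ 3 + a * z + b) → a % 4 = 3 →
  ∀ x : L, x ≠ 0 → IsSquare (Algebra.norm ℚ x) → Loc2 a b θ x → Loc2 a (-b) (-θ) x → Sq2 a b θ x

/-- Part ISQ. Isotropy depends on the class modulo squares only. -/
def S_ISQ : Prop := ∀ (L : Type) [Field L] [NumberField L] (a b : ℤ) (θ : L) (h : IsCub a b θ),
  (∀ z : ℤ, ¬ (2 : ℤ) ∣ z ^ 3 + a * z + b) → ∀ x y : L, x ≠ 0 → y ≠ 0 → Sq2 a b θ y →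
    (IsoAt h 2 (x * y) ↔ IsoAt h 2 x)

/-- Part REC2. The reciprocity law, without condition at `2` (adapt the proof of `S_REC`). -/
def S_REC2 : Prop := ∀ (L : Type) [Field L] [NumberField L] (a b : ℤ) (θ : L) (X : ℕ)
  (S T : Finset ℤ) (s A B : ℤ → ℤ) (h : IsCub a b θ), GoodS S s → GoodT T A B →
  Fam X S s T A B a b →
  ∀ 𝔮 : ℤ → HeightOneSpectrum (𝓞 L), (∀ Q ∈ S, Ov Q (𝔮 Q) ∧ (𝔮 Q).valuation L θ = 1) →
  ∀ α ∈ Mt S 𝔮,
    (Even (S.filter fun Q => ¬ Ev (𝔮 Q) α ∧ ¬ Sq1 (𝔮 Q) (α * ((Q : L) * θ))).card ↔ IsoAt h 2 α)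

/-- Part NEG. `-1` is a square modulo the primes in `S`. -/
def S_NEG : Prop := ∀ (L : Type) [Field L] [NumberField L] (θ : L) (S : Finset ℤ),
  (∀ Q ∈ S, IsPr Q ∧ Q % 8 = 1) → ∀ 𝔮 : ℤ → HeightOneSpectrum (𝓞 L), (∀ Q ∈ S, Ov Q (𝔮 Q)) →
  ∀ α : L, psi (-θ) S 𝔮 α = psi θ S 𝔮 α

/-- Part PARL. Linear algebra: two different maximal isotropic subspaces, whose intersection has
index two in both of them, meet every coordinate Lagrangian in subspaces of different parity. -/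
def S_PARL : Prop := ∀ (ι : Type) [Fintype ι] (Λ Λ' : AddSubgroup (ι → ZMod 2 × ZMod 2)),
  (∀ l ∈ Λ, ∑ i, (l i).1 * (l i).2 = 0) → (∀ l ∈ Λ', ∑ i, (l i).1 * (l i).2 = 0) →
  2 ^ Fintype.card ι ≤ Nat.card Λ → 2 ^ Fintype.card ι ≤ Nat.card Λ' → Λ ≠ Λ' →
  2 ^ Fintype.card ι ≤ 2 * Nat.card (Λ ⊓ Λ' : AddSubgroup (ι → ZMod 2 × ZMod 2)) →
  ∀ (J : Finset ι) (d d' : ℕ),
    Nat.card {l : ι → ZMod 2 × ZMod 2 // l ∈ Λ ∧ l ∈ LJ J} = 2 ^ d →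
    Nat.card {l : ι → ZMod 2 × ZMod 2 // l ∈ Λ' ∧ l ∈ LJ J} = 2 ^ d' → d % 2 ≠ d' % 2

/-- Part PARA. The dimensions of the 2-Selmer groups of the twists by `D` and by `-D` have different
parity. Proof: let `M̃ = Mt`, `M` (`M'`) the subgroup of `Loc2 a b θ` (`Loc2 a (-b) (-θ)`), `Λ̃`, `Λ`,
`Λ'` the images under `psi` (injective modulo squares by hypothesis; `psi (-θ) = psi θ`, `S_NEG`).
`|Λ̃| ≥ 2 ^ (n + 1)` (`S_SUN`), `|Λ| = |Λ'| = 2 ^ n`, index at most two (`S_L2I`), both isotropic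
(`S_LAM` for `(a, b, θ)` and `(a, -b, -θ)`). `Λ ≠ Λ'`: otherwise `M = M'`, so all the `y ∈ M` are
squares at `2` (`S_L2D`); there is `x ∈ M̃` with `q(psi x) ≠ 0` (`Λ̃` is too big to be isotropic), and
`q(psi (x y)) = q(psi x)` for all `y ∈ M` (`S_REC2`, `S_ISQ`), so `psi x` is orthogonal to `Λ`, and
`Λ ∪ (psi x + Λ)` is a totally isotropic subgroup of order `2 ^ (n + 1)` for the bilinear form:
impossible. Then `S_PARL` and `S_SEL`. -/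
def S_PARA : Prop := ∀ (L : Type) [Field L] [NumberField L] (a b : ℤ) (θ : L) (X : ℕ)
  (S T : Finset ℤ) (s A B B' : ℤ → ℤ) (𝔮 : ℤ → HeightOneSpectrum (𝓞 L)),
  IsCub a b θ → GoodS S s → GoodT T A B → GoodT T A B' → Fam X S s T A B a b →
  Fam X S s T A B' a (-b) → a % 4 = 3 →
  (∀ Q ∈ S, Ov Q (𝔮 Q) ∧ (𝔮 Q).valuation L θ = 1) →
  (∀ α ∈ Mt S 𝔮, psi θ S 𝔮 α = 0 → IsSquare α) →
  ∀ (J : Finset {Q : ℤ // Q ∈ S}) (D : ℤ), D = ∏ Q ∈ J, (Q : ℤ) → ∀ d d' : ℕ,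
    Nat.card (Sel2 (sW (((a * D ^ 2 : ℤ)) : ℚ) (((b * D ^ 3 : ℤ)) : ℚ))) = 2 ^ d →
    Nat.card (Sel2 (sW (((a * D ^ 2 : ℤ)) : ℚ) (((-b * D ^ 3 : ℤ)) : ℚ))) = 2 ^ d' →
    d % 2 ≠ d' % 2

/-! ### Counting -/

/-- Part FAM3. Many curves in the family with `a = 3` modulo `4` (adapt `N615/PV/Fam2.lean`). -/
def S_FAM3 : Prop := ∀ (T : Finset ℤ) (A B : ℤ → ℤ), GoodT T A B → ∃ c : ℝ, 0 < c ∧
  ∀ (S : Finset ℤ) (s : ℤ → ℤ), GoodS S s → Disjoint S T → ∃ X₀ : ℕ, ∀ X ≥ X₀,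
    c * (X : ℝ) ^ 5 ≤ ((∏ Q ∈ S, (Q : ℝ) ^ 2)) *
      ({p : ℤ × ℤ | Fam X S s T A B p.1 p.2 ∧ p.1 % 4 = 3}.ncard : ℝ)

/-- Part BOXD. Few curves between two boxes (only the congruences modulo the primes in `S` are
used, in an interval of length `l` there are at most `l / M + 1` elements of a class modulo
`M = ∏ Q ∈ S, Q`). -/
def S_BOXD : Prop := ∃ C : ℝ, 0 < C ∧ ∀ (S : Finset ℤ) (s : ℤ → ℤ), GoodS S s → ∀ η : ℝ, 0 < η →
  η < 1 → ∃ X₀ : ℕ, ∀ X ≥ X₀, ∀ Y : ℕ, (1 - η) * (X : ℝ) ≤ (Y : ℝ) → Y ≤ X →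
  ∀ (T : Finset ℤ) (A B : ℤ → ℤ), (∏ Q ∈ S, (Q : ℝ) ^ 2) *
    ({p : ℤ × ℤ | Fam X S s T A B p.1 p.2 ∧ ¬ (p.1 ≤ (Y : ℤ) ^ 2 ∧ |p.2| ≤ (Y : ℤ) ^ 3)}.ncard : ℝ)
      ≤ C * η * (X : ℝ) ^ 5

/-- Part PRI. Many primes `1` modulo `8` which are nearly equal (Mathlib:
`ArithmeticFunction.vonMangoldt.not_summable_residueClass_prime_div`, the sum of
`log p / p` over the primes in a residue class diverges; if all the intervals
`[(1 + δ) ^ i, (1 + δ) ^ (i + 1))` had fewer than `r` of them it would converge). -/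
def S_PRI : Prop := ∀ (N : ℤ) (r : ℕ) (δ : ℝ), 0 < δ → ∃ S : Finset ℤ, S.card = r ∧
  (∀ Q ∈ S, IsPr Q ∧ Q % 8 = 1 ∧ N < Q) ∧ ∀ Q ∈ S, ∀ Q' ∈ S, (Q : ℝ) ≤ (1 + δ) * (Q' : ℝ)

end Pool.Agent.H62.PR
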