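import Pool.Agent.H62.PR.Loc2
import Pool.Agent.H62.PR.Par0

/-!
# Project PR (helper62): from a class of given type to a tuple with given local conditions
-/

set_option autoImplicit false
set_option linter.all false

open IsDedekindDomain NumberField WithZero Polynomial Matrix
open scoped Classical

namespace Pool.Agent.H62.PR

open Pool.Agent.N874.PP (Tup chA chB gq tau Two Ev Sq1 U0)
open Pool.Agent.N922.PQ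
open Pool.Agent.N301.PQ (co_crd crd_inj crd_add crd_smul crd_C crd_theta mapO exO theta_ex mem_P1
  mem_P2 mem_both poly_mem int_iff)

/-- The local conditions of type `(J, Z)`. -/
noncomputable def CC (s : ℤ → ℤ) (J Z : Finset ℤ) (Q : ℤ) : Tup ℤ → Prop :=
  if Q ∈ J then C2 Q (s Q * D1 J Q ^ 2)
  else if Q ∈ Z then C0 Q (s Q * (∏ Q ∈ J, Q) ^ 2)
  else C1 Q (s Q * (∏ Q ∈ J, Q) ^ 2)

/-- The two primes over the primes in `S`. -/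
theorem two_of {L : Type} [Field L] [NumberField L] (hEXQ : S_EXQ) {a b : ℤ} {θ : L} {X : ℕ}
    {S T : Finset ℤ} {s A B : ℤ → ℤ} (hc : IsCub a b θ) (hS : GoodS S s)
    (hF : Fam X S s T A B a b) {𝔮 : ℤ → HeightOneSpectrum (𝓞 L)}
    (hq : ∀ Q ∈ S, Ov Q (𝔮 Q) ∧ (𝔮 Q).valuation L θ = 1) :
    ∃ 𝔭 : ℤ → HeightOneSpectrum (𝓞 L), ∀ Q ∈ S, TwoP a b θ Q (𝔭 Q) (𝔮 Q) := by
  have h : ∀ Q : ℤ, ∃ 𝔭 : HeightOneSpectrum (𝓞 L), Q ∈ S → TwoP a b θ Q 𝔭 (𝔮 Q) := by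
    intro Q
    by_cases hQ : Q ∈ S
    · obtain ⟨𝔓₁, 𝔮', h1, h2, h3, h4, h5, h6⟩ := hEXQ L (𝓞 L) a b θ hc hF.sq Q (hS Q hQ).1.2
        (hF.rb Q hQ) (fam_ns hS hF hQ)
      have h7 : 𝔮 Q = 𝔮' := by
        rcases h6 (𝔮 Q) (hq Q hQ).1 with h | h
        · exfalso
          have := (hq Q hQ).2
          rw [h] at this
          exact h3.ne this
        · exact h
      refine ⟨𝔓₁, fun _ => ⟨(hS Q hQ).1, h1, (hq Q hQ).1, h3, (hq Q hQ).2, ?_, hF.rb Q hQ,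
        fam_ns hS hF hQ⟩⟩
      rw [h7]
      exact h6
    · exact ⟨𝔮 Q, fun h => absurd h hQ⟩
  choose 𝔭 h𝔭 using h
  exact ⟨𝔭, h𝔭⟩

/-- The conditions on `α`. -/
structure Typ {L : Type} [Field L] [NumberField L] (a b : ℤ) (θ : L) (S J Z : Finset ℤ)
    (𝔮 : ℤ → HeightOneSpectrum (𝓞 L)) (α : L) : Prop where
  m : α ∈ Mt S 𝔮
  ns : ¬ IsSquare α
  j : ∀ Q ∈ J, ¬ Ev (𝔮 Q) α ∧ Sq1 (𝔮 Q) (α * ((Q : L) * θ))
  z : ∀ Q ∈ Z, Sq1 (𝔮 Q) α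
  e : ∀ Q ∈ S, Q ∉ J → Ev (𝔮 Q) α
  o : ∀ Q ∈ S, Q ∉ J → Q ∉ Z → ¬ Sq1 (𝔮 Q) α

/-- The parts. -/
structure FmParts : Prop where
  int : S_INT
  exq : S_EXQ
  ns : S_NS
  maj : S_MAJ
  red : S_RED
  nf : S_NF
  chi : S_CHI
  nz : S_NZ
  exg : S_EXG
  loc0 : S_LOC0
  loc1 : S_LOC1

/-- A unimodular change of basis. -/
theorem span_change {L : Type} [Field L] [CharZero L] {M : Submodule ℤ L} {e e' : Fin 3 → L}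
    {W : Matrix (Fin 3) (Fin 3) ℤ} (hW : IsUnit W.det) (he : ∀ i, e' i = ∑ j, (W i j : L) * e j)
    (h : ∀ y ∈ M, ∃ c : Fin 3 → ℤ, y = ∑ i, (c i : L) * e i) :
    ∀ y ∈ M, ∃ c : Fin 3 → ℤ, y = ∑ i, (c i : L) * e' i := by
  intro y hy
  obtain ⟨c, hc⟩ := h y hy
  refine ⟨c ᵥ* W⁻¹, ?_⟩
  have h1 : (c ᵥ* W⁻¹) ᵥ* W = c := by
    rw [Matrix.vecMul_vecMul, Matrix.nonsing_inv_mul _ hW, Matrix.vecMul_one]
  generalize (c ᵥ* W⁻¹) = η at h1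
  subst h1
  rw [hc]
  have h3 : ∀ i, ((((η ᵥ* W) i : ℤ)) : L) = ∑ j, (η j : L) * (W j i : L) := by
    intro i
    simp [Matrix.vecMul, dotProduct]
  simp_rw [h3, he, Finset.mul_sum, Finset.sum_mul]
  rw [Finset.sum_comm]
  refine Finset.sum_congr rfl fun i _ => Finset.sum_congr rfl fun j _ => ?_
  ring

theorem mem_change {L : Type} [Field L] [CharZero L] {M : Submodule ℤ L} {e e' : Fin 3 → L}
    {W : Matrix (Fin 3) (Fin 3) ℤ} (he : ∀ i, e' i = ∑ j, (W i j : L) * e j)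
    (h : ∀ i, e i ∈ M) (i : Fin 3) : e' i ∈ M := by
  rw [he]
  refine Submodule.sum_mem _ fun j _ => ?_
  rw [← zsmul_eq_mul]
  exact Submodule.smul_mem _ _ (h j)

/-- **From a class to a tuple.** -/
theorem to_tuple (H : FmParts) : ∃ κ : ℕ, ∀ (L : Type) [Field L] [NumberField L] (a b : ℤ) (θ : L)
    (X : ℕ) (S T : Finset ℤ) (s A B : ℤ → ℤ), IsCub a b θ → GoodS S s → Fam X S s T A B a b →
    ∀ 𝔮 : ℤ → HeightOneSpectrum (𝓞 L), (∀ Q ∈ S, Ov Q (𝔮 Q) ∧ (𝔮 Q).valuation L θ = 1) →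
    ∀ (J Z : Finset ℤ) (α : L), J ⊆ S → Z ⊆ S → Typ a b θ S J Z 𝔮 α →
    ∀ D : ℕ, (D : ℤ) = ∏ Q ∈ J, Q →
    ∃ (m : ℕ) (B : Tup ℤ), InBox κ (X * D) (2 ^ m) B ∧ B.x ≠ 0 ∧ (∀ Q ∈ S, CC s J Z Q B) ∧
      chA B = a * D ^ 2 ∧ chB B = b * D ^ 3 := by
  obtain ⟨κ, hLB⟩ := lb' H.maj H.red H.nf H.chi H.nz
  refine ⟨κ, ?_⟩
  intro L _ _ a b θ X S T s A B hc hS hF 𝔮 hq J Z α hJS hZS hα D hD
  obtain ⟨𝔭, h𝔭⟩ := two_of H.exq hc hS hF hq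
  have hI := H.int
  have hsq := hF.sq
  have hα0 := hα.m.1
  have hQ8 : ∀ Q ∈ S, Q % 8 = 1 := fun Q hQ => (hS Q hQ).2.1
  have hJpr : ∀ Q ∈ J, IsPr Q := fun Q hQ => (hS Q (hJS hQ)).1
  -- the vectors `g`
  have hg : ∀ Q : ℤ, ∃ g : L, Q ∈ J → g ∈ M0 (𝓞 L) α ∧ ∃ x : L, IsIntegral ℤ x ∧
      g ^ 2 / α = (Q : L) * (D1 J Q : L) * θ + (Q : L) ^ 2 * x := by
    intro Q
    by_cases hQ : Q ∈ J
    · obtain ⟨g, hg1, hg2⟩ := H.exg L (𝓞 L) a b θ hc hsq Q (𝔭 Q) (𝔮 Q) (h𝔭 Q (hJS hQ))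
        (hQ8 Q (hJS hQ)) α (D1 J Q) hα0 (not_dvd_D1 hJpr hQ) (hα.j Q hQ).2
      exact ⟨g, fun _ => ⟨hg1, hg2⟩⟩
    · exact ⟨0, fun h => absurd h hQ⟩
  choose g hg using hg
  have hT : TwD a b θ α J 𝔭 𝔮 g := by
    refine ⟨fun Q hQ => h𝔭 Q (hJS hQ), fun 𝔓 h𝔓 => ?_, hα0, fun Q hQ => (hg Q hQ).1,
      fun Q hQ => (hg Q hQ).2⟩
    by_cases h : ∀ Q ∈ S, 𝔓 ≠ 𝔮 Q
    · exact hα.m.2.2 𝔓 h
    · push Not at h
      obtain ⟨Q, hQ, rfl⟩ := h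
      exact hα.e Q hQ fun hQJ => h𝔓 Q hQJ rfl
  obtain ⟨e, hU, hem, hsp⟩ := hT.basis hI hc hsq
  have hD1 : 1 ≤ D := by
    have : 0 < ∏ Q ∈ J, Q := Finset.prod_pos fun Q hQ => (hJpr Q hQ).1
    omega
  rw [← hD] at hU
  obtain ⟨m, W, e', B', hW, he', hNB, hbox, hx, hchA, hchB⟩ := hLB L a b θ hc X D hF.pa hF.da hF.db
    hD1 α e hα0 hα.m.2.1 hα.ns hU
  have hsp' := span_change hW he' hsp
  have hem' := mem_change he' hem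
  rw [hD] at hNB
  refine ⟨m, tup B', hbox, hx, fun Q hQ => ?_, hchA, hchB⟩
  rw [hD] at hchA hchB
  have hdiv : Q ∣ a * (∏ Q ∈ J, Q) ^ 2 - s Q * (∏ Q ∈ J, Q) ^ 2 := by
    rw [← sub_mul]
    exact Dvd.dvd.mul_right (hF.ra Q hQ) _
  unfold CC
  split_ifs with hQJ hQZ
  · refine loc2 hI hc hsq hT hNB hsp' hem' hchA hQJ ?_
    rw [← sub_mul]
    exact Dvd.dvd.mul_right (hF.ra Q hQ) _
  · refine H.loc0 L (𝓞 L) a b θ hc hsq α J 𝔭 𝔮 g hT e' B' hNB hsp' hem' hchA hchB Q (𝔭 Q) (𝔮 Q)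
      (h𝔭 Q hQ) (hQ8 Q hQ) hQJ ?_ _ hdiv
    refine H.ns L (𝓞 L) a b θ hc hsq Q (hS Q hQ).1.2 (hF.rb Q hQ) (fam_ns hS hF hQ) α hα0 hα.m.2.1
      (fun 𝔓 hO hv => ?_) (fun 𝔓 hO hv => ?_)
    · rcases (h𝔭 Q hQ).all 𝔓 hO with rfl | rfl
      · refine hT.ev _ fun Q' hQ' he => ?_
        have h1 := (h𝔭 Q' (hJS hQ')).oq
        rw [← he] at h1
        have h2 := below_unique (hS Q hQ).1 (hJpr Q' hQ') hO h1
        exact hQJ (h2 ▸ hQ')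
      · exact hα.e Q hQ hQJ
    · rcases (h𝔭 Q hQ).all 𝔓 hO with rfl | rfl
      · exact absurd hv (h𝔭 Q hQ).tp.ne
      · exact hα.z Q hQZ
  · refine H.loc1 L (𝓞 L) a b θ hc hsq α J 𝔭 𝔮 g hT e' B' hNB hsp' hem' Q (𝔭 Q) (𝔮 Q)
      (h𝔭 Q hQ) (hQ8 Q hQ) hQJ (fun 𝔓 hO => ?_) (hα.o Q hQ hQJ hQZ) _ hdiv
    refine hT.ev _ fun Q' hQ' he => ?_
    have h1 := (h𝔭 Q' (hJS hQ')).oq
    rw [← he] at h1
    have h2 := below_unique (hS Q hQ).1 (hJpr Q' hQ') hO h1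
    exact hQJ (h2 ▸ hQ')

end Pool.Agent.H62.PR
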