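import Pool.Agent.H62.PR.Fm1

/-!
# Project PR (helper62): the first moment
-/

set_option autoImplicit false
set_option linter.all false

open IsDedekindDomain NumberField WithZero Polynomial Matrix
open scoped Classical

namespace Pool.Agent.H62.PR

open Pool.Agent.N874.PP (Tup chA chB gq tau Two Ev Sq1 U0)
open Pool.Agent.N922.PQ

/-- There is a class of type `(J, Z)`. -/
def Bd (S J Z : Finset ℤ) (a b : ℤ) : Prop :=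
  ∃ (L : Type) (_ : Field L) (_ : NumberField L) (θ : L) (𝔮 : ℤ → HeightOneSpectrum (𝓞 L)) (α : L),
    IsCub a b θ ∧ (∀ Q ∈ S, Ov Q (𝔮 Q) ∧ (𝔮 Q).valuation L θ = 1) ∧ Typ a b θ S J Z 𝔮 α

theorem ns_mul {Q s D : ℤ} (hQ : Prime Q) (hD : ¬ Q ∣ D) (hs : ∀ z : ℤ, ¬ Q ∣ z ^ 2 + s) (z : ℤ) :
    ¬ Q ∣ z ^ 2 + s * D ^ 2 := by
  intro h
  obtain ⟨u, w, huw⟩ := hQ.irreducible.coprime_iff_not_dvd.2 hD
  apply hs (z * w)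
  have h5 : Q ∣ w ^ 2 * (z ^ 2 + s * D ^ 2) := h.mul_left _
  have h7 : w * D = 1 - u * Q := by rw [← huw]; ring
  have h6 : w ^ 2 * (z ^ 2 + s * D ^ 2) = (z * w) ^ 2 + s + Q * (s * u * (u * Q - 2)) := by
    linear_combination s * (w * D + 1 - u * Q) * h7
  rw [h6] at h5
  exact (dvd_add_left (dvd_mul_right _ _)).1 h5

theorem not_dvd_of_ns {Q s : ℤ} (hs : ∀ z : ℤ, ¬ Q ∣ z ^ 2 + s) : ¬ Q ∣ s := by
  intro h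
  apply hs 0
  simpa using h

/-- **The first moment.** -/
theorem fm (H : FmParts) (hCNT : S_CNT) (h0 : S_TY0) (h1 : S_TY1) (h2 : S_TY2) :
    ∃ K : ℕ, ∀ (S : Finset ℤ) (s : ℤ → ℤ), GoodS S s → ∀ J ⊆ S, ∀ Z ⊆ S, ∃ X₀ : ℕ, ∀ X ≥ X₀,
      ∀ (T : Finset ℤ) (A B : ℤ → ℤ),
      {p : ℤ × ℤ | Fam X S s T A B p.1 p.2 ∧ Bd S J Z p.1 p.2}.Finite ∧
      2 ^ S.card * (∏ Q ∈ S, Q.natAbs) ^ 2 *
        {p : ℤ × ℤ | Fam X S s T A B p.1 p.2 ∧ Bd S J Z p.1 p.2}.ncard ≤ K * X ^ 5 := by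
  obtain ⟨κ, hκ⟩ := to_tuple H
  obtain ⟨K, hK⟩ := hCNT κ
  refine ⟨K, fun S s hS J hJS Z hZS => ?_⟩
  have hpr : ∀ Q ∈ S, IsPr Q := fun Q hQ => (hS Q hQ).1
  have hJpr : ∀ Q ∈ J, IsPr Q := fun Q hQ => hpr Q (hJS hQ)
  obtain ⟨D, hD⟩ : ∃ D : ℕ, D = ∏ Q ∈ J, Q.natAbs := ⟨_, rfl⟩
  have hDZ : (D : ℤ) = ∏ Q ∈ J, Q := by
    rw [hD]
    push_cast
    exact Finset.prod_congr rfl fun Q hQ => abs_of_pos (hJpr Q hQ).1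
  have hna : ∀ Q ∈ S, 1 ≤ Q.natAbs := fun Q hQ => Int.natAbs_pos.2 (hpr Q hQ).1.ne'
  have hD1 : 1 ≤ D := by
    rw [hD]
    exact Nat.one_le_iff_ne_zero.2 (Finset.prod_ne_zero_iff.2 fun Q hQ =>
      (Nat.one_le_iff_ne_zero.1 (hna Q (hJS hQ))))
  have hndD : ∀ Q ∈ S, Q ∉ J → ¬ Q ∣ ∏ Q ∈ J, Q := fun Q hQ hQJ => not_dvd_prod hJpr (hpr Q hQ) hQJ
  have hpow : ∀ Q ∈ S, ∀ E : ℤ, ¬ Q ∣ E → ¬ Q ∣ s Q * E ^ 2 := by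
    intro Q hQ E hE h
    rcases (hpr Q hQ).2.dvd_or_dvd h with h | h
    · exact not_dvd_of_ns (hS Q hQ).2.2 h
    · exact hE ((hpr Q hQ).2.dvd_of_dvd_pow h)
  have hinv : ∀ Q ∈ S, ∀ (u : ℤ) (B : Tup ℤ), CC s J Z Q B → CC s J Z Q (tau u B) := by
    intro Q hQ u B
    unfold CC
    split_ifs with hQJ hQZ
    · exact (h2 Q (hpr Q hQ) (hS Q hQ).2.1 _ (hpow Q hQ _ (not_dvd_D1 hJpr hQJ))).1 u B
    · exact (h0 Q (hpr Q hQ) (hS Q hQ).2.1 _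
        (ns_mul (hpr Q hQ).2 (hndD Q hQ hQJ) (hS Q hQ).2.2)).1 u B
    · exact (h1 Q (hpr Q hQ) (hS Q hQ).2.1 _ (hpow Q hQ _ (hndD Q hQ hQJ))).1 u B
  obtain ⟨mo, hmo⟩ : ∃ mo : ℤ → ℕ, mo = fun Q => if Q ∈ J then Q.natAbs ^ 3 else Q.natAbs := ⟨_, rfl⟩
  have hmo1 : ∀ Q ∈ S, 1 ≤ mo Q := by
    intro Q hQ
    rw [hmo]
    dsimp only
    split_ifs
    · exact Nat.one_le_pow _ _ (hna Q hQ)
    · exact hna Q hQ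
  have hcop : ∀ Q ∈ S, ∀ Q' ∈ S, Q ≠ Q' → (mo Q).Coprime (mo Q') := by
    intro Q hQ Q' hQ' hne
    have h3 : Q.natAbs.Coprime Q'.natAbs := by
      exact Int.isCoprime_iff_gcd_eq_one.1 (isCoprime_of (hpr Q hQ) (hpr Q' hQ') hne)
    rw [hmo]
    dsimp only
    split_ifs
    · exact Nat.Coprime.pow _ _ h3
    · exact Nat.Coprime.pow_left _ h3
    · exact Nat.Coprime.pow_right _ h3
    · exact h3
  have hNC : ∀ Q ∈ S, 2 * Q.natAbs ^ 2 * (if Q ∈ J then Q.natAbs else 1) ^ 5 *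
      NC (mo Q) (CC s J Z Q) ≤ mo Q ^ 5 := by
    intro Q hQ
    rw [hmo]
    dsimp only
    unfold CC
    split_ifs with hQJ hQZ
    · have h3 := (h2 Q (hpr Q hQ) (hS Q hQ).2.1 _ (hpow Q hQ _ (not_dvd_D1 hJpr hQJ))).2
      calc 2 * Q.natAbs ^ 2 * Q.natAbs ^ 5 * NC (Q.natAbs ^ 3) (C2 Q (s Q * D1 J Q ^ 2))
          = Q.natAbs ^ 7 * (2 * NC (Q.natAbs ^ 3) (C2 Q (s Q * D1 J Q ^ 2))) := by ring
        _ ≤ Q.natAbs ^ 7 * Q.natAbs ^ 8 := Nat.mul_le_mul_left _ h3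
        _ = _ := by ring
    · have h3 := (h0 Q (hpr Q hQ) (hS Q hQ).2.1 _
        (ns_mul (hpr Q hQ).2 (hndD Q hQ hQJ) (hS Q hQ).2.2)).2
      calc 2 * Q.natAbs ^ 2 * 1 ^ 5 * NC Q.natAbs (C0 Q (s Q * (∏ Q ∈ J, Q) ^ 2))
          = Q.natAbs ^ 2 * (2 * NC Q.natAbs (C0 Q (s Q * (∏ Q ∈ J, Q) ^ 2))) := by ring
        _ ≤ Q.natAbs ^ 2 * Q.natAbs ^ 3 := Nat.mul_le_mul_left _ h3
        _ = _ := by ring
    · have h3 := (h1 Q (hpr Q hQ) (hS Q hQ).2.1 _ (hpow Q hQ _ (hndD Q hQ hQJ))).2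
      calc 2 * Q.natAbs ^ 2 * 1 ^ 5 * NC Q.natAbs (C1 Q (s Q * (∏ Q ∈ J, Q) ^ 2))
          = Q.natAbs ^ 2 * (2 * NC Q.natAbs (C1 Q (s Q * (∏ Q ∈ J, Q) ^ 2))) := by ring
        _ ≤ Q.natAbs ^ 2 * Q.natAbs ^ 3 := Nat.mul_le_mul_left _ h3
        _ = _ := by ring
  obtain ⟨M, hM⟩ : ∃ M : ℕ, M = 2 ^ S.card * (∏ Q ∈ S, Q.natAbs) ^ 2 := ⟨_, rfl⟩
  have hM1 : 1 ≤ M := by
    rw [hM]
    refine Nat.one_le_iff_ne_zero.2 (mul_ne_zero (by positivity) (pow_ne_zero _ ?_))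
    exact Finset.prod_ne_zero_iff.2 fun Q hQ => Nat.one_le_iff_ne_zero.1 (hna Q hQ)
  have hDS : D = ∏ Q ∈ S, (if Q ∈ J then Q.natAbs else 1) := by
    rw [hD, Finset.prod_ite_mem, Finset.inter_eq_right.2 hJS]
  have hcond : M * D ^ 5 * ∏ Q ∈ S, NC (mo Q) (CC s J Z Q) ≤ ∏ Q ∈ S, mo Q ^ 5 := by
    have e : M * D ^ 5 * ∏ Q ∈ S, NC (mo Q) (CC s J Z Q) =
        ∏ Q ∈ S, (2 * Q.natAbs ^ 2 * (if Q ∈ J then Q.natAbs else 1) ^ 5 *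
          NC (mo Q) (CC s J Z Q)) := by
      rw [hM, hDS, Finset.prod_mul_distrib, Finset.prod_mul_distrib, Finset.prod_mul_distrib,
        Finset.prod_const, Finset.prod_pow, Finset.prod_pow]
    rw [e]
    exact Finset.prod_le_prod' hNC
  obtain ⟨X₀, hX₀⟩ := hK S mo (CC s J Z) D M hD1 hM1 hmo1 hcop hinv hcond
  refine ⟨X₀, fun X hX T A B => ?_⟩
  obtain ⟨hfin, hle⟩ := hX₀ X hX
  rw [← hM]
  have hD0 : (D : ℤ) ≠ 0 := by exact_mod_cast (by omega : D ≠ 0)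
  have hmap : ∀ p ∈ {p : ℤ × ℤ | Fam X S s T A B p.1 p.2 ∧ Bd S J Z p.1 p.2},
      (p.1 * (D : ℤ) ^ 2, p.2 * (D : ℤ) ^ 3) ∈ {p : ℤ × ℤ | ∃ (m : ℕ) (B : Tup ℤ),
        InBox κ (X * D) (2 ^ m) B ∧ B.x ≠ 0 ∧
        (∀ Q ∈ S, CC s J Z Q B) ∧ chA B = p.1 ∧ chB B = p.2} := by
    rintro p ⟨hF, L, iF, iN, θ, 𝔮, α, hc, hq, hα⟩
    exact hκ L p.1 p.2 θ X S T s A B hc hS hF 𝔮 hq J Z α hJS hZS hα D hDZ
  have hinj : Set.InjOn (fun p : ℤ × ℤ => (p.1 * (D : ℤ) ^ 2, p.2 * (D : ℤ) ^ 3))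
      {p : ℤ × ℤ | Fam X S s T A B p.1 p.2 ∧ Bd S J Z p.1 p.2} := by
    intro p _ p' _ h
    simp only [Prod.mk.injEq] at h
    exact Prod.ext (mul_right_cancel₀ (pow_ne_zero 2 hD0) h.1)
      (mul_right_cancel₀ (pow_ne_zero 3 hD0) h.2)
  refine ⟨Set.Finite.of_finite_image (hfin.subset (by
    rintro _ ⟨p, hp, rfl⟩
    exact hmap p hp)) hinj, ?_⟩
  refine le_trans (Nat.mul_le_mul_left _ ?_) hle
  exact Set.ncard_le_ncard_of_injOn _ hmap hinj hfin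

end Pool.Agent.H62.PR
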