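import Pool.Agent.H62.PR.Nat8
import Pool.Graph.R_pool_sql_team_seeded_63374d34.N650.PM.GFR
import Pool.Graph.R_pool_sql_team_seeded_63374d34.N273.PQ.FinM

/-!
# Project PR (helper62): the rank is at most the dimension of the 2-Selmer group
-/

set_option autoImplicit false
set_option linter.all false

open Polynomial IsDedekindDomain WeierstrassCurve WeierstrassCurve.Affine NumberField
open Pool.Agent.TH115.GD
open scoped Classical IntermediateField

namespace Pool.Agent.H62.PR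

open Pool.Agent.N874.PP (Tup chA chB gq tau Two Ev Sq1 U0 sW IsBeta Rt)
open Pool.Agent.N874.PM (PLoc Lies SelR ShaR)
open Pool.Agent.N922.PQ

theorem cobReal (W : WeierstrassCurve ℚ) (Q : Pt W (Sep ℚ)) :
    LocTriv W ℝ (Sep ℝ) (fun σ : Sep ℚ ≃ₐ[ℚ] Sep ℚ => act W (rs ℚ σ) Q - Q) := by
  haveI : Algebra.IsSeparable ℚ (Sep ℚ) := IsSepClosure.separable
  let ι : Sep ℚ →ₐ[ℚ] Sep ℝ := IsSepClosed.lift
  refine ⟨ι, act W (ι.restrictScalars ℚ) Q, fun τ σ hτ => ?_⟩
  have h5 : (ι.restrictScalars ℚ).comp (rs ℚ σ) = (rs ℚ τ).comp (ι.restrictScalars ℚ) :=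
    AlgHom.ext fun x => (hτ x).symm
  rw [map_sub, act_act, act_act, h5]

/-- The cocycle of a point. -/
theorem kum {A B : ℚ} (hd : 4 * A ^ 3 + 27 * B ^ 2 ≠ 0) (P : Pt (sW A B) ℚ) :
    ∃ R : Pt (sW A B) (Sep ℚ), R + R = act (sW A B) (incl ℚ ℚ (Sep ℚ)) P ∧
      SelCoc (sW A B) (fun σ => act (sW A B) (rs ℚ σ) R - R) := by
  obtain ⟨R, hR⟩ := Pool.Agent.N721.PP.half (by norm_num) hd (act (sW A B) (incl ℚ ℚ (Sep ℚ)) P)
  have hfix : ∀ σ : Sep ℚ ≃ₐ[ℚ] Sep ℚ, act (sW A B) (rs ℚ σ) (R + R) = R + R := fun σ => by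
    rw [hR]; exact rs_act_incl _ σ P
  exact ⟨R, hR, cob_isCoc _ R, fun σ => by
    rw [two_nsmul, sub_add_sub_comm, ← map_add, hfix, sub_self],
    fun v => Pool.Agent.N650.PM.cobLocR _ v R, cobReal _ R⟩

/-- The difference of two points with cohomologous cocycles is divisible by two. -/
theorem div_of {K : Type} [Field K] {A B : K} {P P' : Pt (sW A B) K} {R R' T : Pt (sW A B) (Sep K)}
    (hR : R + R = act (sW A B) (incl K K (Sep K)) P)
    (hR' : R' + R' = act (sW A B) (incl K K (Sep K)) P') (hT2 : (2 : ℕ) • T = 0)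
    (hT : ∀ σ : Sep K ≃ₐ[K] Sep K, (act (sW A B) (rs K σ) R - R) - (act (sW A B) (rs K σ) R' - R') =
      act (sW A B) (rs K σ) T - T) : ∃ Q : Pt (sW A B) K, P - P' = (2 : ℕ) • Q := by
  haveI : Algebra.IsSeparable K (Sep K) := IsSepClosure.separable
  haveI : IsGalois K (Sep K) := inferInstance
  obtain ⟨Q, hQ⟩ := fixed_point (K := K) (F := K) (sW A B) (R - R' - T) (fun σ => by
    have h1 := hT σ
    rw [map_sub, map_sub]
    have h2 : act (sW A B) (rs K σ) R = R + (act (sW A B) (rs K σ) R' - R') +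
        (act (sW A B) (rs K σ) T - T) := by
      rw [← h1]; abel
    rw [h2]; abel)
  refine ⟨Q, act_inj (sW A B) (incl K K (Sep K)) ?_⟩
  rw [map_nsmul, hQ, map_sub, ← hR, ← hR', smul_sub, hT2, sub_zero, two_nsmul]
  abel

/-- A finitely generated abelian group of rank `r` has a surjective homomorphism to `(ℤ / 2) ^ r`. -/
theorem exists_surj {G : Type} [AddCommGroup G] (hfg : AddGroup.FG G) :
    ∃ f : G →+ (Fin (Module.finrank ℤ G) → ZMod 2), Function.Surjective f := by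
  haveI hM : Module.Finite ℤ G := Module.Finite.iff_addGroup_fg.2 hfg
  obtain ⟨r, hr⟩ : ∃ r : ℕ, r = Module.finrank ℤ G := ⟨_, rfl⟩
  have h1 : Module.finrank ℤ (G ⧸ Submodule.torsion ℤ G) = r := by
    rw [hr]
    exact finrank_quotient_eq_of_le_torsion le_rfl
  haveI : Module.Finite ℤ (G ⧸ Submodule.torsion ℤ G) := inferInstance
  haveI : Module.Free ℤ (G ⧸ Submodule.torsion ℤ G) := inferInstance
  have b : Module.Basis (Fin r) ℤ (G ⧸ Submodule.torsion ℤ G) :=
    (Module.finBasis ℤ (G ⧸ Submodule.torsion ℤ G)).reindex (finCongr h1)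
  rw [← hr]
  refine ⟨{ toFun := fun x i => ((b.repr (Submodule.Quotient.mk x) i : ℤ) : ZMod 2)
            map_zero' := ?_
            map_add' := ?_ }, ?_⟩
  · funext i
    simp
  · intro x y
    funext i
    simp
  · intro c
    obtain ⟨x, hx⟩ := Submodule.Quotient.mk_surjective (Submodule.torsion ℤ G)
      (∑ i, ((c i).val : ℤ) • b i)
    refine ⟨x, ?_⟩
    funext i
    show ((b.repr (Submodule.Quotient.mk x) i : ℤ) : ZMod 2) = c i
    rw [hx]
    simp [Finsupp.single_apply]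

/-- The rank of the group of points. -/
noncomputable def rk {K : Type} [Field K] (W : WeierstrassCurve K) : ℕ := Module.finrank ℤ (Pt W K)

theorem rk_of {K : Type} [Field K] [NumberField K] {A B : K} (hd : 4 * A ^ 3 + 27 * B ^ 2 ≠ 0)
    {S : Type} [Finite S] {d : ℕ} (hS : Nat.card S ≤ 2 ^ d) (φ : Pt (sW A B) K → S)
    (hφ : ∀ P P', φ P = φ P' → ∃ R R' T : Pt (sW A B) (Sep K),
      R + R = act (sW A B) (incl K K (Sep K)) P ∧ R' + R' = act (sW A B) (incl K K (Sep K)) P' ∧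
      (2 : ℕ) • T = 0 ∧ ∀ σ : Sep K ≃ₐ[K] Sep K,
        (act (sW A B) (rs K σ) R - R) - (act (sW A B) (rs K σ) R' - R') =
          act (sW A B) (rs K σ) T - T) : rk (sW A B) ≤ d := by
  obtain ⟨f, hf⟩ := exists_surj (Pool.Agent.N273.PQ.mw K A B hd)
  obtain ⟨g, hg⟩ := hf.hasRightInverse
  have hinj : Function.Injective fun c => φ (g c) := by
    intro c c' hc
    obtain ⟨R, R', T, h1, h2, h3, h4⟩ := hφ _ _ hc
    obtain ⟨Q, hQ⟩ := div_of h1 h2 h3 h4
    have h1 : f (g c) - f (g c') = 0 := by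
      rw [← map_sub, hQ, map_nsmul]
      funext i
      show (2 : ℕ) • (f Q i) = 0
      rw [nsmul_eq_mul]
      have : ((2 : ℕ) : ZMod 2) = 0 := by decide
      rw [this, zero_mul]
    rw [hg, hg] at h1
    exact sub_eq_zero.1 h1
  have h2 := Nat.card_le_card_of_injective _ hinj
  rw [Nat.card_eq_fintype_card, Fintype.card_fun, ZMod.card, Fintype.card_fin] at h2
  exact (Nat.pow_le_pow_iff_right (by norm_num)).1 (h2.trans hS)

/-- **The rank is at most the dimension of the 2-Selmer group.** -/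
theorem rk_le {A B : ℚ} (hd : 4 * A ^ 3 + 27 * B ^ 2 ≠ 0) {d : ℕ}
    (h : Nat.card (Sel2 (sW A B)) = 2 ^ d) : rk (sW A B) ≤ d := by
  haveI : Finite (Sel2 (sW A B)) := Nat.finite_of_card_ne_zero (by rw [h]; positivity)
  choose R hR hsel using kum hd
  refine rk_of hd (S := Sel2 (sW A B)) h.le
    (fun P => Quotient.mk (selSetoid (sW A B)) ⟨_, hsel P⟩) fun P P' h => ?_
  obtain ⟨T, hT2, hT⟩ := Quotient.exact h
  exact ⟨R P, R P', T, hR P, hR P', hT2, hT⟩

/-- Rank zero: finitely many points. -/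
theorem fin_of_rk {K : Type} [Field K] [NumberField K] {A B : K} (hd : 4 * A ^ 3 + 27 * B ^ 2 ≠ 0)
    (h : rk (sW A B) = 0) : Finite (Pt (sW A B) K) := by
  haveI hM : Module.Finite ℤ (Pt (sW A B) K) :=
    Module.Finite.iff_addGroup_fg.2 (Pool.Agent.N273.PQ.mw K A B hd)
  have h1 : Module.finrank ℤ (Pt (sW A B) K) = 0 := h
  rw [Module.finrank_eq_zero_iff_isTorsion] at h1
  exact Module.finite_of_fg_torsion _ h1

end Pool.Agent.H62.PR
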