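import Pool.Agent.H62.PR.Gf0

/-!
# Project PR (helper62): the quadratic twists of almost all curves of a family
-/

set_option autoImplicit false
set_option linter.all false

open Polynomial IsDedekindDomain WeierstrassCurve WeierstrassCurve.Affine NumberField
open Pool.Agent.TH115.GD
open scoped Classical IntermediateField

namespace Pool.Agent.H62.PR

open Pool.Agent.N874.PP (Tup chA chB gq tau Two Ev Sq1 U0 sW IsBeta Rt)
open Pool.Agent.N874.PM (PLoc Lies SelR ShaR)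
open Pool.Agent.N922.PQ

/-! ### The constant -/

theorem cd_succ (d : ℕ) : Cd (d + 1) = Cd d * (2 / (2 ^ (d + 1) - 1)) := by
  unfold Cd
  rw [Finset.prod_range_succ]
  ring

theorem cd0_ge : (0.2097 : ℝ) ≤ Cd 0 := by
  obtain ⟨c, hc⟩ : ∃ c : ℝ, c = Cd 0 := ⟨_, rfl⟩
  have h0 : 0 ≤ c := by rw [hc]; exact cd_nonneg 0
  have h1 : Cd 1 = c * 2 := by rw [cd_succ, ← hc]; norm_num
  have h2 : Cd 2 = c * (4 / 3) := by rw [cd_succ, h1]; norm_num; ring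
  have h3 : Cd 3 = c * (8 / 21) := by rw [cd_succ, h2]; norm_num; ring
  have h4 : Cd 4 = c * (16 / 315) := by rw [cd_succ, h3]; norm_num; ring
  have ht : ∀ n : ℕ, Cd (n + 4) ≤ (c * (16 / 315)) * (2 / 31) ^ n := by
    intro n
    induction n with
    | zero => rw [zero_add, h4, pow_zero, mul_one]
    | succ n ih =>
      rw [show n + 1 + 4 = (n + 4) + 1 by ring, cd_succ, pow_succ (2 / 31 : ℝ) n, ← mul_assoc]
      have h5 : (2 : ℝ) / (2 ^ (n + 4 + 1) - 1) ≤ 2 / 31 := by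
        have h6 : (32 : ℝ) ≤ 2 ^ (n + 4 + 1) := by
          calc (32 : ℝ) = 2 ^ 5 := by norm_num
            _ ≤ 2 ^ (n + 4 + 1) := pow_le_pow_right₀ (by norm_num) (by omega)
        exact div_le_div_of_nonneg_left (by norm_num) (by norm_num) (by linarith)
      have h6 : (0 : ℝ) ≤ 2 / (2 ^ (n + 4 + 1) - 1) := by
        refine div_nonneg (by norm_num) ?_
        have : (1 : ℝ) ≤ 2 ^ (n + 4 + 1) := one_le_pow₀ (by norm_num)
        linarith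
      exact mul_le_mul ih h5 h6 (by positivity)
  have hg : Summable fun n : ℕ => (c * (16 / 315)) * (2 / 31 : ℝ) ^ n :=
    (summable_geometric_of_lt_one (by norm_num) (by norm_num)).mul_left _
  have h5 : ∑' n, Cd (n + 4) ≤ (c * (16 / 315)) * (31 / 29) := by
    have h6 : Summable fun n => Cd (n + 4) := (summable_nat_add_iff 4).2 cd_summable
    refine (h6.tsum_le_tsum ht hg).trans (le_of_eq ?_)
    rw [tsum_mul_left, tsum_geometric_of_lt_one (by norm_num) (by norm_num)]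
    norm_num
  have h6 := cd_summable.sum_add_tsum_nat_add 4
  rw [Pool.Agent.H70.PR.eul_S.tsum_eq, Finset.sum_range_succ, Finset.sum_range_succ,
    Finset.sum_range_succ, Finset.sum_range_succ, Finset.sum_range_zero, h1, h2, h3, ← hc] at h6
  rw [← hc]
  linarith

/-! ### Divisors -/

theorem prod_inj {S : Finset ℤ} (hS : PS S) {J J' : Finset ℤ} (hJ : J ⊆ S) (hJ' : J' ⊆ S)
    (h : ∏ Q ∈ J, Q = ∏ Q ∈ J', Q) : J = J' := by
  have hm : ∀ J ⊆ S, ∀ Q ∈ S, Q ∣ ∏ Q ∈ J, Q ↔ Q ∈ J := by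
    intro J hJ Q hQ
    constructor
    · intro h
      by_contra hQJ
      exact not_dvd_prod (fun Q' hQ' => (hS Q' (hJ hQ')).1) (hS Q hQ).1 hQJ h
    · exact fun h => Finset.dvd_prod_of_mem (fun Q : ℤ => Q) h
  ext Q
  constructor
  · intro hQ
    rw [← hm J' hJ' Q (hJ hQ), ← h, hm J hJ Q (hJ hQ)]
    exact hQ
  · intro hQ
    rw [← hm J hJ Q (hJ' hQ), h, hm J' hJ' Q (hJ' hQ)]
    exact hQ

theorem dvd_form {S : Finset ℤ} (hS : PS S) {d : ℤ} (hd : d ∣ ∏ Q ∈ S, Q) :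
    ∃ J ⊆ S, d = ∏ Q ∈ J, Q ∨ d = -∏ Q ∈ J, Q := by
  obtain ⟨J, hJ⟩ : ∃ J : Finset ℤ, J = S.filter fun Q => Q ∣ d := ⟨_, rfl⟩
  have hJS : J ⊆ S := by rw [hJ]; exact Finset.filter_subset _ _
  refine ⟨J, hJS, ?_⟩
  have h1 : ∏ Q ∈ J, Q ∣ d := prod_dvd (fun Q hQ => hS Q (hJS hQ)) fun Q hQ => by
    rw [hJ] at hQ
    exact (Finset.mem_filter.1 hQ).2
  obtain ⟨e, he⟩ := h1
  have hJ0 : (∏ Q ∈ J, Q) ≠ 0 := by
    rw [Finset.prod_ne_zero_iff]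
    exact fun Q hQ => (hS Q (hJS hQ)).1.2.ne_zero
  have h2 : e ∣ ∏ Q ∈ S \ J, Q := by
    have h3 : (∏ Q ∈ J, Q) * e ∣ (∏ Q ∈ J, Q) * ∏ Q ∈ S \ J, Q := by
      rw [← he, mul_comm (∏ Q ∈ J, Q), Finset.prod_sdiff hJS]
      exact hd
    exact (mul_dvd_mul_iff_left hJ0).1 h3
  have h3 : IsCoprime e (∏ Q ∈ S \ J, Q) := by
    refine IsCoprime.prod_right fun Q hQ => ?_
    obtain ⟨hQS, hQJ⟩ := Finset.mem_sdiff.1 hQ
    refine IsCoprime.symm ((hS Q hQS).1.2.irreducible.coprime_iff_not_dvd.2 fun h => hQJ ?_)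
    rw [hJ]
    refine Finset.mem_filter.2 ⟨hQS, ?_⟩
    rw [he]
    exact h.mul_left _
  have h4 : IsUnit e := h3.isUnit_of_dvd' dvd_rfl h2
  rcases Int.isUnit_iff.1 h4 with rfl | rfl
  · left
    rw [he, mul_one]
  · right
    rw [he, mul_neg, mul_one]

theorem ncard_divs {S : Finset ℤ} (hS : PS S) (R : ℤ → Prop) :
    {d : ℤ | d ∣ ∏ Q ∈ S, Q ∧ R d}.Finite ∧ {d : ℤ | d ∣ ∏ Q ∈ S, Q ∧ R d}.ncard =
      (S.powerset.filter fun J => R (∏ Q ∈ J, Q)).card +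
        (S.powerset.filter fun J => R (-∏ Q ∈ J, Q)).card := by
  have hpos : ∀ J ⊆ S, 0 < ∏ Q ∈ J, Q := fun J hJ =>
    Finset.prod_pos fun Q hQ => (hS Q (hJ hQ)).1.1
  have e : {d : ℤ | d ∣ ∏ Q ∈ S, Q ∧ R d} =
      ((((S.powerset.filter fun J => R (∏ Q ∈ J, Q)).image fun J => ∏ Q ∈ J, Q) ∪
        ((S.powerset.filter fun J => R (-∏ Q ∈ J, Q)).image fun J => -∏ Q ∈ J, Q) :
          Finset ℤ) : Set ℤ) := by
    ext d
    rw [Finset.mem_coe, Finset.mem_union, Finset.mem_image, Finset.mem_image]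
    constructor
    · rintro ⟨h1, h2⟩
      obtain ⟨J, hJ, rfl | rfl⟩ := dvd_form hS h1
      · exact Or.inl ⟨J, Finset.mem_filter.2 ⟨Finset.mem_powerset.2 hJ, h2⟩, rfl⟩
      · exact Or.inr ⟨J, Finset.mem_filter.2 ⟨Finset.mem_powerset.2 hJ, h2⟩, rfl⟩
    · rintro (⟨J, hJ, rfl⟩ | ⟨J, hJ, rfl⟩)
      · obtain ⟨h1, h2⟩ := Finset.mem_filter.1 hJ
        exact ⟨Finset.prod_dvd_prod_of_subset _ _ _ (Finset.mem_powerset.1 h1), h2⟩
      · obtain ⟨h1, h2⟩ := Finset.mem_filter.1 hJ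
        exact ⟨(neg_dvd).2 (Finset.prod_dvd_prod_of_subset _ _ _ (Finset.mem_powerset.1 h1)), h2⟩
  rw [e]
  refine ⟨Finset.finite_toSet _, ?_⟩
  rw [Set.ncard_coe_finset, Finset.card_union_of_disjoint, Finset.card_image_of_injOn,
    Finset.card_image_of_injOn]
  · intro J hJ J' hJ' h
    have h1 := Finset.mem_powerset.1 (Finset.mem_filter.1 (Finset.mem_coe.1 hJ)).1
    have h1' := Finset.mem_powerset.1 (Finset.mem_filter.1 (Finset.mem_coe.1 hJ')).1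
    exact prod_inj hS h1 h1' (neg_injective h)
  · intro J hJ J' hJ' h
    have h1 := Finset.mem_powerset.1 (Finset.mem_filter.1 (Finset.mem_coe.1 hJ)).1
    have h1' := Finset.mem_powerset.1 (Finset.mem_filter.1 (Finset.mem_coe.1 hJ')).1
    exact prod_inj hS h1 h1' h
  · rw [Finset.disjoint_left]
    intro d hd hd'
    obtain ⟨J, hJ, rfl⟩ := Finset.mem_image.1 hd
    obtain ⟨J', hJ', h⟩ := Finset.mem_image.1 hd'
    have h1 := hpos J (Finset.mem_powerset.1 (Finset.mem_filter.1 hJ).1)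
    have h2 := hpos J' (Finset.mem_powerset.1 (Finset.mem_filter.1 hJ').1)
    omega

/-! ### Good curves -/

/-- The good curves. -/
def Gq (S : Finset ℤ) (ε : ℝ) (p : ℤ × ℤ) : Prop :=
  ¬ Bd S ∅ S p.1 p.2 ∧ Dist S ε p ∧ ∀ J ⊆ S, ∃ d : ℕ, selN p.1 p.2 (∏ Q ∈ J, Q) = 2 ^ d

theorem lj_card {S : Finset ℤ} (Λ : AddSubgroup ({Q : ℤ // Q ∈ S} → ZMod 2 × ZMod 2))
    (J : Finset {Q : ℤ // Q ∈ S}) : ∃ d : ℕ,
      Nat.card {l : {Q : ℤ // Q ∈ S} → ZMod 2 × ZMod 2 // l ∈ Λ ∧ l ∈ LJ J} = 2 ^ d := by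
  refine ⟨Module.finrank (ZMod 2)
    (Pool.Agent.H72.PR.MC.MJ (AddSubgroup.toZModSubmodule 2 Λ) J), ?_⟩
  have h4 : Nat.card (Pool.Agent.H72.PR.MC.MJ (AddSubgroup.toZModSubmodule 2 Λ) J) =
      2 ^ Module.finrank (ZMod 2) (Pool.Agent.H72.PR.MC.MJ (AddSubgroup.toZModSubmodule 2 Λ) J) := by
    rw [Module.natCard_eq_pow_finrank (K := ZMod 2), Nat.card_zmod]
  rw [← h4]
  exact Nat.card_congr (Equiv.subtypeEquivRight fun l =>
    (Pool.Agent.H72.PR.MC.mem_MJ (AddSubgroup.toZModSubmodule 2 Λ) J l).symm)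

theorem distB3 {R : ℤ × ℤ → Prop} (hR : ∀ p, R p → (4 : ℤ) ∣ p.1 - p.2 ∨ p.1 % 4 = 3)
    {T : Finset ℤ} {A B : ℤ → ℤ} (hT : GoodT T A B) (hlow : Low R T A B) (ε : ℝ) (hε : 0 < ε) :
    ∃ n₀ : ℕ, ∀ (S : Finset ℤ) (s : ℤ → ℤ), GoodS S s → Disjoint S T → n₀ ≤ S.card →
    ∃ X₀ : ℕ, ∀ X ≥ X₀, (1 - ε) * ((FF R X S s T A B).ncard : ℝ) ≤
      ({p ∈ FF R X S s T A B | Gq S ε p}.ncard : ℝ) := by
  obtain ⟨K', hK'⟩ := core hR hT hlow
  obtain ⟨n₁, hn₁⟩ := hK' (min ε 1 / 2) (by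
    have : 0 < min ε 1 := lt_min hε one_pos
    positivity)
  obtain ⟨n₂, hn₂⟩ := mc (min ε 1 / 2) K' (by
    have : 0 < min ε 1 := lt_min hε one_pos
    positivity)
  refine ⟨max n₁ n₂, fun S s hS hdis hcard => ?_⟩
  obtain ⟨X₀, hX₀⟩ := hn₁ S s hS hdis ((le_max_left _ _).trans hcard)
  refine ⟨X₀, fun X hX => ?_⟩
  obtain ⟨G, hG, hGc, Λ, hΛ, hfm⟩ := hX₀ X hX
  have hcS : Fintype.card {Q : ℤ // Q ∈ S} = S.card := Fintype.card_coe S
  have h1 := hn₂ {Q : ℤ // Q ∈ S} {p : ℤ × ℤ // p ∈ G} (by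
    rw [hcS]; exact (le_max_right _ _).trans hcard) Λ (fun ω => (hΛ ω).iso)
    (fun ω => by rw [hcS]; exact (hΛ ω).big) hfm
  rw [hcS, Fintype.card_coe] at h1
  have h0 : 0 < min ε 1 := lt_min hε one_pos
  have he1 : min ε 1 ≤ ε := min_le_left _ _
  have he2 : min ε 1 ≤ 1 := min_le_right _ _
  have h2 : (Nat.card {ω : {p : ℤ × ℤ // p ∈ G} // ∀ d : ℕ,
      |(Nat.card {J : Finset {Q : ℤ // Q ∈ S} // Nat.card {l : {Q : ℤ // Q ∈ S} → ZMod 2 × ZMod 2 //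
        l ∈ Λ ω ∧ l ∈ LJ J} = 2 ^ d} : ℝ) - Cd d * 2 ^ S.card| ≤ min ε 1 / 2 * 2 ^ S.card}) ≤
      {p ∈ FF R X S s T A B | Gq S ε p}.ncard := by
    rw [← Nat.card_coe_set_eq]
    haveI : Finite {p ∈ FF R X S s T A B | Gq S ε p} :=
      ((ff_fin R X S s T A B).subset fun p hp => hp.1).to_subtype
    refine Nat.card_le_card_of_injective (fun ω => ⟨ω.1.1, (hG _ ω.1.2).1, (hG _ ω.1.2).2,
      fun d => ?_, fun J hJ => ?_⟩) ?_
    · have h3 := ω.2 d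
      have h4 : Nat.card {J : Finset {Q : ℤ // Q ∈ S} //
          Nat.card {l : {Q : ℤ // Q ∈ S} → ZMod 2 × ZMod 2 // l ∈ Λ ω.1 ∧ l ∈ LJ J} = 2 ^ d} =
          (S.powerset.filter fun J => selN ω.1.1.1 ω.1.1.2 (∏ Q ∈ J, Q) = 2 ^ d).card := by
        have h5 := card_J (S := S) fun _ D => selN ω.1.1.1 ω.1.1.2 D = 2 ^ d
        refine Eq.trans (Nat.card_congr (Equiv.subtypeEquivRight fun J => ?_)) (h5.trans (by congr))
        rw [(hΛ ω.1).sel J]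
      rw [h4] at h3
      refine h3.trans (mul_le_mul_of_nonneg_right ?_ (by positivity))
      linarith
    · obtain ⟨d, hd⟩ := lj_card (Λ ω.1) (Finset.univ.filter fun Q : {Q : ℤ // Q ∈ S} => (Q : ℤ) ∈ J)
      refine ⟨d, ?_⟩
      have hprod : ∀ J : Finset {Q : ℤ // Q ∈ S}, ∏ Q ∈ vl J, Q = ∏ Q ∈ J, (Q : ℤ) := fun J =>
        Finset.prod_image fun x _ y _ h => Subtype.ext h
      have h3 : vl (Finset.univ.filter fun Q : {Q : ℤ // Q ∈ S} => (Q : ℤ) ∈ J) = J := by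
        ext Q
        rw [mem_vl]
        constructor
        · rintro ⟨h, h2⟩
          exact (Finset.mem_filter.1 h2).2
        · intro h
          exact ⟨hJ h, Finset.mem_filter.2 ⟨Finset.mem_univ _, h⟩⟩
      rw [← h3, hprod, (hΛ ω.1).sel]
      exact hd
    · intro ω ω' h
      simp only [Subtype.mk.injEq] at h
      exact Subtype.ext (Subtype.ext h)
  have h3 : (1 - min ε 1 / 2) * (G.card : ℝ) ≤ ({p ∈ FF R X S s T A B | Gq S ε p}.ncard : ℝ) :=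
    h1.trans (by exact_mod_cast h2)
  refine le_trans ?_ h3
  have h5 : (0 : ℝ) ≤ ((FF R X S s T A B).ncard : ℝ) := Nat.cast_nonneg _
  calc (1 - ε) * ((FF R X S s T A B).ncard : ℝ)
      ≤ ((1 - min ε 1 / 2) * (1 - min ε 1 / 2)) * ((FF R X S s T A B).ncard : ℝ) := by
        refine mul_le_mul_of_nonneg_right ?_ h5
        nlinarith
    _ = (1 - min ε 1 / 2) * ((1 - min ε 1 / 2) * ((FF R X S s T A B).ncard : ℝ)) := by ring
    _ ≤ _ := mul_le_mul_of_nonneg_left hGc (by linarith)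

/-- The other curves. -/
def Bq (S : Finset ℤ) (ε : ℝ) (p : ℤ × ℤ) : Prop := ¬ Gq S ε p

theorem few_bq (ε : ℝ) (hε : 0 < ε) : ∃ n₀ : ℕ, ∀ S : Finset ℤ, PS S → n₀ ≤ S.card →
    ∃ X₀ : ℕ, ∀ X ≥ X₀, (((EX S X).filter (Bq S ε)).card : ℝ) ≤ ε * (EX S X).card := by
  have hR : ∀ p, R3 p → (4 : ℤ) ∣ p.1 - p.2 ∨ p.1 % 4 = 3 := fun p hp => Or.inr hp
  obtain ⟨k₁, h₁⟩ := distB3 hR (goodT (t := 1) (by norm_num)) (low3 (by norm_num)) ε hε
  obtain ⟨k₂, h₂⟩ := distB3 hR (goodT (t := 2) (by norm_num)) (low3 (by norm_num)) ε hε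
  refine ⟨max k₁ k₂, fun S hS hcard => ?_⟩
  have hdis := ps_disj hS
  obtain ⟨X₀, hX₀⟩ := fib_bound hS (fun _ _ => True) (fun _ _ => Bq S ε) ε (by
    intro s hs t ht
    have h3 : ∃ X₀ : ℕ, ∀ X ≥ X₀, (1 - ε) * ((FF R3 X S s T0 TA (TB t)).ncard : ℝ) ≤
      ({p ∈ FF R3 X S s T0 TA (TB t) | Gq S ε p}.ncard : ℝ) := by
      rcases ht with rfl | rfl
      · exact h₁ S s hs hdis ((le_max_left _ _).trans hcard)
      · exact h₂ S s hs hdis ((le_max_right _ _).trans hcard)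
    obtain ⟨X₀, h4⟩ := h3
    refine ⟨X₀, fun X hX Y _ => ?_⟩
    have h5 := h4 X hX
    have hfin := ff_fin R3 X S s T0 TA (TB t)
    have h6 : {p ∈ FF R3 X S s T0 TA (TB t) | Gq S ε p}.ncard +
        {p ∈ FF R3 X S s T0 TA (TB t) | Bq S ε p}.ncard =
          (FF R3 X S s T0 TA (TB t)).ncard := by
      rw [← Set.ncard_union_eq ?_ (hfin.subset fun p hp => hp.1) (hfin.subset fun p hp => hp.1)]
      · congr 1
        ext p
        simp only [Set.mem_union, Set.mem_setOf_eq, Bq]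
        tauto
      · rw [Set.disjoint_left]
        rintro p ⟨-, hp⟩ ⟨-, hp'⟩
        exact hp' hp
    have h7 : ({p ∈ FF R3 X S s T0 TA (TB t) | Gq S ε p}.ncard : ℝ) +
        ({p ∈ FF R3 X S s T0 TA (TB t) | Bq S ε p}.ncard : ℝ) =
          ((FF R3 X S s T0 TA (TB t)).ncard : ℝ) := by exact_mod_cast h6
    linarith)
  exact ⟨X₀, fun X hX => hX₀ X hX 0 trivial⟩

end Pool.Agent.H62.PR
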