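import Pool.Agent.H62.PR.Gf1

/-!
# Project PR (helper62): the quadratic twists of almost all curves of a family, ordered by height
-/

set_option autoImplicit false
set_option linter.all false

open Polynomial IsDedekindDomain WeierstrassCurve WeierstrassCurve.Affine NumberField
open Pool.Agent.TH115.GD
open scoped Classical IntermediateField

namespace Pool.Agent.H62.PR

open Pool.Agent.N874.PP (Tup chA chB gq tau Two Ev Sq1 U0 sW IsBeta Rt)
open Pool.Agent.N874.PM (PLoc Lies SelR ShaR)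
open Pool.Agent.N922.PQ

theorem selN_neg (a b D : ℤ) : selN a b (-D) = selN a (-b) D := by
  unfold selN
  have e1 : a * (-D) ^ 2 = a * D ^ 2 := by ring
  have e2 : b * (-D) ^ 3 = -b * D ^ 3 := by ring
  rw [e1, e2]

theorem par_J (hPARA : S_PARA) {S : Finset ℤ} (hS : PS S) {p : ℤ × ℤ} (hp : Cu S p)
    (hnb : ¬ Bd S ∅ S p.1 p.2) {J : Finset ℤ} (hJ : J ⊆ S) {d d' : ℕ}
    (h1 : selN p.1 p.2 (∏ Q ∈ J, Q) = 2 ^ d) (h3 : selN p.1 (-p.2) (∏ Q ∈ J, Q) = 2 ^ d') :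
    d % 2 ≠ d' % 2 := by
  obtain ⟨X, hX1, hX2⟩ : ∃ X : ℕ, p.1 ≤ X ^ 2 ∧ |p.2| ≤ X ^ 3 := by
    refine ⟨p.1.natAbs + p.2.natAbs + 1, ?_, ?_⟩
    · have h5 : p.1 ≤ (p.1.natAbs : ℤ) := Int.le_natAbs
      push_cast
      nlinarith [abs_nonneg p.1, abs_nonneg p.2, le_abs_self p.1]
    · push_cast
      have h6 : (1 : ℤ) ≤ |p.1| + |p.2| + 1 := by
        have := abs_nonneg p.1
        have := abs_nonneg p.2
        linarith
      calc |p.2| ≤ |p.1| + |p.2| + 1 := by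
            have := abs_nonneg p.1
            linarith
        _ = (|p.1| + |p.2| + 1) ^ 1 := (pow_one _).symm
        _ ≤ (|p.1| + |p.2| + 1) ^ 3 := pow_le_pow_right₀ h6 (by norm_num)
  have hE := (fib hS (X := X) hp).symm ▸ (show p ∈ {q : ℤ × ℤ | q ∈ EX S X ∧
    (q.1 % ∏ Q ∈ S, Q, q.2 % 3) = (p.1 % ∏ Q ∈ S, Q, p.2 % 3)} from
      ⟨mem_EX.2 ⟨hp, hX1, hX2⟩, rfl⟩)
  have hE' := (fib hS (X := X) (cu_neg hp)).symm ▸ (show (p.1, -p.2) ∈ {q : ℤ × ℤ | q ∈ EX S X ∧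
    (q.1 % ∏ Q ∈ S, Q, q.2 % 3) = (p.1 % ∏ Q ∈ S, Q, (-p.2) % 3)} from
      ⟨mem_EX.2 ⟨cu_neg hp, hX1, by rw [abs_neg]; exact hX2⟩, rfl⟩)
  have ht : (p.2 % 3) % 3 ≠ 0 := by
    have := hp.b3
    omega
  have ht' : ((-p.2) % 3) % 3 ≠ 0 := by
    have := hp.b3
    omega
  exact par_flip hPARA (goodS_of hS hp) (goodT ht) (goodT ht') hE.1 hE'.1 hp.a4 hnb hJ h1 h3

/-- The statement on the twists by the divisors of `∏ Q ∈ S, Q`. -/
def TwG (S : Finset ℤ) (ε : ℝ) (p : ℤ × ℤ) : Prop :=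
  (∀ 𝒟 : Set ℕ, |({d : ℤ | d ∣ ∏ Q ∈ S, Q ∧ ∃ r ∈ 𝒟, selN p.1 p.2 d = 2 ^ r}.ncard : ℝ) -
    (∑' r : 𝒟, Cd r) * 2 ^ (S.card + 1)| ≤ ε * 2 ^ (S.card + 1)) ∧
  {d : ℤ | d ∣ ∏ Q ∈ S, Q ∧ ∃ r, Even r ∧ selN p.1 p.2 d = 2 ^ r}.ncard = 2 ^ S.card ∧
  {d : ℤ | d ∣ ∏ Q ∈ S, Q ∧ ∃ r, Odd r ∧ selN p.1 p.2 d = 2 ^ r}.ncard = 2 ^ S.card

theorem pow2_inj {r r' N : ℕ} (h : N = 2 ^ r) (h' : N = 2 ^ r') : r = r' :=
  Nat.pow_right_injective (le_refl 2) (h.symm.trans h')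

theorem twG_of (ε : ℝ) (hε : 0 < ε) : ∃ ε' : ℝ, 0 < ε' ∧ ∀ (S : Finset ℤ), PS S →
    ∀ p : ℤ × ℤ, Cu S p → Gq S ε' p → Gq S ε' (p.1, -p.2) → TwG S ε p := by
  obtain ⟨ε', hε', htv⟩ := tv (α := ℤ) ε hε
  refine ⟨ε', hε', fun S hS p hp h h' => ?_⟩
  obtain ⟨hnb, hd, hex⟩ := h
  obtain ⟨hnb', hd', hex'⟩ := h'
  have hall := ncard_divs hS fun _ => True
  have e0 : {d : ℤ | d ∣ ∏ Q ∈ S, Q ∧ True} = {d : ℤ | d ∣ ∏ Q ∈ S, Q} := by
    ext d
    simp
  have hcard : {d : ℤ | d ∣ ∏ Q ∈ S, Q}.ncard = 2 ^ (S.card + 1) := by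
    rw [← e0, hall.2]
    simp [pow_succ]
    ring
  have hcardR : ({d : ℤ | d ∣ ∏ Q ∈ S, Q}.ncard : ℝ) = 2 ^ (S.card + 1) := by
    rw [hcard]
    push_cast
    ring
  have hfin : {d : ℤ | d ∣ ∏ Q ∈ S, Q}.Finite := by
    rw [← e0]
    exact hall.1
  refine ⟨fun 𝒟 => ?_, ?_, ?_⟩
  · have h1 := htv {d : ℤ | d ∣ ∏ Q ∈ S, Q} (fun d r => selN p.1 p.2 d = 2 ^ r) hfin
      (fun d r r' h h' => pow2_inj h h') (fun r => by
        have e : {d ∈ {d : ℤ | d ∣ ∏ Q ∈ S, Q} | selN p.1 p.2 d = 2 ^ r} =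
            {d : ℤ | d ∣ ∏ Q ∈ S, Q ∧ selN p.1 p.2 d = 2 ^ r} := rfl
        have e3 : {d : ℤ | d ∣ ∏ Q ∈ S, Q ∧ selN p.1 p.2 d = 2 ^ r}.ncard =
            (S.powerset.filter fun J => selN p.1 p.2 (∏ Q ∈ J, Q) = 2 ^ r).card +
            (S.powerset.filter fun J => selN p.1 (-p.2) (∏ Q ∈ J, Q) = 2 ^ r).card := by
          refine (ncard_divs hS fun d => selN p.1 p.2 d = 2 ^ r).2.trans ?_
          refine congrArg₂ (· + ·) (congrArg Finset.card (Finset.ext fun J => ?_))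
            (congrArg Finset.card (Finset.ext fun J => ?_))
          · simp only [Finset.mem_filter]
          · simp only [Finset.mem_filter, selN_neg]
        rw [e, e3, hcardR]
        have h2 := hd r
        have h3 := hd' r
        simp only at h2 h3
        push_cast
        rw [pow_succ]
        rw [abs_le] at *
        constructor <;> linarith [h2.1, h2.2, h3.1, h3.2]) 𝒟
    rw [hcardR] at h1
    exact h1
  · rw [(ncard_divs hS fun d => ∃ r, Even r ∧ selN p.1 p.2 d = 2 ^ r).2, ← Finset.card_powerset,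
      ← Finset.card_filter_add_card_filter_not (s := S.powerset)
        (fun J => ∃ r, Even r ∧ selN p.1 p.2 (∏ Q ∈ J, Q) = 2 ^ r)]
    congr 2
    refine Finset.filter_congr fun J hJ => ?_
    rw [Finset.mem_powerset] at hJ
    rw [selN_neg]
    obtain ⟨d, hd⟩ := hex J hJ
    obtain ⟨d', hd'⟩ := hex' J hJ
    have hne := par_J para hS hp hnb hJ hd hd'
    constructor
    · rintro ⟨r, hr, h1⟩ ⟨r', hr', h2⟩
      have e1 := pow2_inj hd' h1
      have e2 := pow2_inj hd h2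
      subst e1
      subst e2
      rw [Nat.even_iff] at hr hr'
      omega
    · intro h
      refine ⟨d', ?_, hd'⟩
      have h1 : ¬ Even d := fun h1 => h ⟨d, h1, hd⟩
      rw [Nat.even_iff] at h1 ⊢
      omega
  · rw [(ncard_divs hS fun d => ∃ r, Odd r ∧ selN p.1 p.2 d = 2 ^ r).2, ← Finset.card_powerset,
      ← Finset.card_filter_add_card_filter_not (s := S.powerset)
        (fun J => ∃ r, Odd r ∧ selN p.1 p.2 (∏ Q ∈ J, Q) = 2 ^ r)]
    congr 2
    refine Finset.filter_congr fun J hJ => ?_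
    rw [Finset.mem_powerset] at hJ
    rw [selN_neg]
    obtain ⟨d, hd⟩ := hex J hJ
    obtain ⟨d', hd'⟩ := hex' J hJ
    have hne := par_J para hS hp hnb hJ hd hd'
    constructor
    · rintro ⟨r, hr, h1⟩ ⟨r', hr', h2⟩
      have e1 := pow2_inj hd' h1
      have e2 := pow2_inj hd h2
      subst e1
      subst e2
      rw [Nat.odd_iff] at hr hr'
      omega
    · intro h
      refine ⟨d', ?_, hd'⟩
      have h1 : ¬ Odd d := fun h1 => h ⟨d, h1, hd⟩
      rw [Nat.odd_iff] at h1 ⊢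
      omega

/-- The base curves of height at most `x`. -/
def CuH (S : Finset ℤ) (x : ℝ) : Set (ℤ × ℤ) := {p | Cu S p ∧ Ht x p}

theorem main3 (ε : ℝ) (hε : 0 < ε) : ∃ n₀ : ℕ, ∀ S : Finset ℤ, PS S → n₀ ≤ S.card →
    ∃ c : ℝ, 0 < c ∧ ∃ x₀ : ℝ, ∀ x ≥ x₀, (AllC x).Finite ∧ 0 < (AllC x).ncard ∧
      c * ((AllC x).ncard : ℝ) ≤ ((CuH S x ∩ AllC x).ncard : ℝ) ∧
      (1 - ε) * ((CuH S x ∩ AllC x).ncard : ℝ) ≤
        ({p ∈ CuH S x ∩ AllC x | TwG S ε p}.ncard : ℝ) := by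
  obtain ⟨ε₁, hε₁, htw⟩ := twG_of ε hε
  obtain ⟨e, he⟩ : ∃ e : ℝ, e = min ε₁ (ε / 4) := ⟨_, rfl⟩
  have he0 : 0 < e := by rw [he]; exact lt_min hε₁ (by linarith)
  have he1 : e ≤ ε₁ := by rw [he]; exact min_le_left _ _
  have he2 : e ≤ ε / 4 := by rw [he]; exact min_le_right _ _
  obtain ⟨n₀, hbad⟩ := few_bq e he0
  obtain ⟨C, hC, hbox⟩ := few_box Pool.Agent.H29.PR.BoxD.boxd
  obtain ⟨c, hc, hlow⟩ := ex_low
  refine ⟨n₀, fun S hS hcard => ?_⟩
  obtain ⟨η, hηe⟩ : ∃ η : ℝ, η = min (1 / 2) (1 / (2 * C)) := ⟨_, rfl⟩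
  have hη : 0 < η := by
    rw [hηe]
    exact lt_min (by norm_num) (by positivity)
  have hη1 : η ≤ 1 / 2 := by
    rw [hηe]
    exact min_le_left _ _
  have hηC : C * η ≤ 1 / 2 := by
    have h1 : η ≤ 1 / (2 * C) := by
      rw [hηe]
      exact min_le_right _ _
    calc C * η ≤ C * (1 / (2 * C)) := mul_le_mul_of_nonneg_left h1 hC.le
      _ = 1 / 2 := by field_simp
  obtain ⟨X₁, hX₁⟩ := hbad S hS hcard
  obtain ⟨X₂, hX₂⟩ := hbox S hS η hη (by linarith)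
  obtain ⟨X₃, hX₃⟩ := hlow S hS
  obtain ⟨P, hP⟩ : ∃ P : ℝ, P = ∏ Q ∈ S, (Q : ℝ) ^ 2 := ⟨_, rfl⟩
  have hP0 : 0 < P := by rw [hP]; exact ps_prod hS
  obtain ⟨w₀, hw₀⟩ : ∃ w₀ : ℝ, w₀ = max (2 / η) (max X₁ (max X₂ X₃)) := ⟨_, rfl⟩
  have hw₀0 : 1 ≤ w₀ := by
    rw [hw₀]
    refine le_max_of_le_left ?_
    rw [le_div_iff₀ hη]
    linarith
  refine ⟨c / (18 * P), by positivity, w₀ ^ 6, fun x hx => ?_⟩
  have hx1 : 1 ≤ x := le_trans (one_le_pow₀ hw₀0) hx
  have hx0 : 0 < x := by linarith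
  obtain ⟨u, hu⟩ : ∃ u : ℝ, u = x ^ ((6 : ℝ)⁻¹) := ⟨_, rfl⟩
  have hu0 : 0 < u := by rw [hu]; positivity
  have hu6 : u ^ 6 = x := by
    rw [hu]
    have := Real.rpow_inv_natCast_pow (n := 6) hx0.le (by norm_num)
    exact_mod_cast this
  have hu5 : u ^ 5 = x ^ (5 / 6 : ℝ) := by
    rw [hu, ← Real.rpow_natCast, ← Real.rpow_mul hx0.le]
    norm_num
  have huw : w₀ ≤ u := by
    rw [← hu6] at hx
    exact (pow_le_pow_iff_left₀ (by linarith) hu0.le (by norm_num)).1 hx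
  obtain ⟨N, hN⟩ : ∃ N : ℕ, N = ⌈u⌉₊ := ⟨_, rfl⟩
  obtain ⟨N', hN'⟩ : ∃ N' : ℕ, N' = ⌊u⌋₊ := ⟨_, rfl⟩
  have hN1 : u ≤ N := by rw [hN]; exact Nat.le_ceil _
  have hN2 : (N : ℝ) < u + 1 := by rw [hN]; exact Nat.ceil_lt_add_one hu0.le
  have hN3 : (N' : ℝ) ≤ u := by rw [hN']; exact Nat.floor_le hu0.le
  have hN4 : u < (N' : ℝ) + 1 := by rw [hN']; exact Nat.lt_floor_add_one _
  have hmax : ∀ {y : ℝ}, y ≤ w₀ → y ≤ N := fun h => h.trans (huw.trans hN1)
  have hNX₁ : X₁ ≤ N := by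
    have : (X₁ : ℝ) ≤ N := hmax (by rw [hw₀]; exact (le_max_left _ _).trans (le_max_right _ _))
    exact_mod_cast this
  have hNX₂ : X₂ ≤ N := by
    have : (X₂ : ℝ) ≤ N := hmax (by
      rw [hw₀]
      exact (le_max_left _ _).trans ((le_max_right _ _).trans (le_max_right _ _)))
    exact_mod_cast this
  have hNX₃ : X₃ ≤ N := by
    have : (X₃ : ℝ) ≤ N := hmax (by
      rw [hw₀]
      exact (le_max_right _ _).trans ((le_max_right _ _).trans (le_max_right _ _)))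
    exact_mod_cast this
  have hNN : (1 - η) * (N : ℝ) ≤ N' ∧ N' ≤ N := by
    refine ⟨?_, ?_⟩
    · have h2 : 2 / η ≤ u := le_trans (by rw [hw₀]; exact le_max_left _ _) huw
      have h3 : 2 ≤ u * η := (div_le_iff₀ hη).1 h2
      have h7 : (1 - η) * (N : ℝ) ≤ (1 - η) * (u + 1) :=
        mul_le_mul_of_nonneg_left hN2.le (by linarith)
      nlinarith
    · have : (N' : ℝ) ≤ N := hN3.trans hN1
      exact_mod_cast this
  have hiff : ∀ p : ℤ × ℤ, 0 < p.1 → (Ht x p ↔ ((p.1 : ℝ) ≤ u ^ 2 ∧ |(p.2 : ℝ)| ≤ u ^ 3)) := by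
    intro p hp
    have h1 := ht_iff hu0.le (D := 1) one_pos (p := p) hp
    simp only [one_pow, mul_one, Int.cast_one, div_one] at h1
    rw [← h1, hu6]
    rfl
  have hsub : CuH S x ⊆ ((EX S N : Finset (ℤ × ℤ)) : Set (ℤ × ℤ)) := by
    rintro p ⟨hp, hht⟩
    obtain ⟨h1, h2⟩ := (hiff p hp.pos).1 hht
    refine Finset.mem_coe.2 (mem_EX.2 ⟨hp, ?_, ?_⟩)
    · have h5 := h1.trans (pow_le_pow_left₀ hu0.le hN1 2)
      exact_mod_cast h5
    · have h5 := h2.trans (pow_le_pow_left₀ hu0.le hN1 3)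
      exact_mod_cast h5
  have hCfin : (CuH S x).Finite := (Finset.finite_toSet _).subset hsub
  have hinter : CuH S x ∩ AllC x = CuH S x := by
    refine Set.inter_eq_left.2 ?_
    rintro p ⟨hp, hht⟩
    exact ⟨hp.sq.ne_zero, hht⟩
  obtain ⟨h4, h5⟩ := allC_bound hx1
  -- many base curves
  have hmany : ((EX S N).card : ℝ) ≤ 2 * ((CuH S x).ncard : ℝ) := by
    have h1 := hX₂ N hNX₂ N' hNN
    have h2 : (EX S N).card ≤ (CuH S x).ncard + ((EX S N).filter (Ob N')).card := by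
      have h3 : ((EX S N : Finset (ℤ × ℤ)) : Set (ℤ × ℤ)) ⊆
          CuH S x ∪ (((EX S N).filter (Ob N') : Finset (ℤ × ℤ)) : Set (ℤ × ℤ)) := by
        intro p hp
        have hp' := mem_EX.1 (Finset.mem_coe.1 hp)
        by_cases hob : Ob N' p
        · exact Or.inr (Finset.mem_coe.2 (Finset.mem_filter.2 ⟨hp, hob⟩))
        · left
          unfold Ob at hob
          push Not at hob
          refine ⟨hp'.1, (hiff p hp'.1.pos).2 ⟨?_, ?_⟩⟩
          · have h5 : ((p.1 : ℤ) : ℝ) ≤ (N' : ℝ) ^ 2 := by exact_mod_cast hob.1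
            exact h5.trans (pow_le_pow_left₀ (by positivity) hN3 2)
          · have h5 : |((p.2 : ℤ) : ℝ)| ≤ (N' : ℝ) ^ 3 := by exact_mod_cast hob.2
            exact h5.trans (pow_le_pow_left₀ (by positivity) hN3 3)
      have h6 := Set.ncard_le_ncard h3 (hCfin.union (Finset.finite_toSet _))
      rw [Set.ncard_coe_finset] at h6
      refine h6.trans ((Set.ncard_union_le _ _).trans ?_)
      rw [Set.ncard_coe_finset]
    have h3 : ((EX S N).card : ℝ) ≤ ((CuH S x).ncard : ℝ) +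
        (((EX S N).filter (Ob N')).card : ℝ) := by exact_mod_cast h2
    have h6 : C * η * ((EX S N).card : ℝ) ≤ 1 / 2 * (EX S N).card :=
      mul_le_mul_of_nonneg_right hηC (Nat.cast_nonneg _)
    linarith
  rw [hinter]
  refine ⟨h4, ?_, ?_, ?_⟩
  · rw [Set.ncard_pos h4]
    refine ⟨(1, 1), by norm_num, ?_, ?_⟩
    · simpa using hx1
    · simpa using hx1
  · have h1 := hX₃ N hNX₃
    rw [← hP] at h1
    have h2 : u ^ 5 ≤ (N : ℝ) ^ 5 := pow_le_pow_left₀ hu0.le hN1 5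
    have h3 : c * u ^ 5 ≤ P * ((EX S N).card : ℝ) :=
      (mul_le_mul_of_nonneg_left h2 hc.le).trans h1
    rw [← hu5] at h5
    have h6 : c / (18 * P) * ((AllC x).ncard : ℝ) ≤ c / (18 * P) * (9 * u ^ 5) :=
      mul_le_mul_of_nonneg_left h5 (by positivity)
    have h7 : c / (18 * P) * (9 * u ^ 5) = (c * u ^ 5) / (2 * P) := by
      field_simp
      ring
    have h8 : (c * u ^ 5) / (2 * P) ≤ ((CuH S x).ncard : ℝ) := by
      rw [div_le_iff₀ (by positivity)]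
      have h9 : P * ((EX S N).card : ℝ) ≤ P * (2 * ((CuH S x).ncard : ℝ)) :=
        mul_le_mul_of_nonneg_left hmany hP0.le
      linarith
    linarith
  · -- almost all the base curves are good
    have h1 := hX₁ N hNX₁
    have hbadset : (CuH S x).ncard ≤ {p ∈ CuH S x | TwG S ε p}.ncard +
        2 * ((EX S N).filter (Bq S e)).card := by
      have h2 : CuH S x ⊆ {p ∈ CuH S x | TwG S ε p} ∪
          ((((EX S N).filter (Bq S e) : Finset (ℤ × ℤ)) : Set (ℤ × ℤ)) ∪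
          ((((EX S N).filter (Bq S e)).image (fun p => (p.1, -p.2)) : Finset (ℤ × ℤ)) :
            Set (ℤ × ℤ))) := by
        intro p hp
        by_cases hb : Bq S e p
        · exact Or.inr (Or.inl (Finset.mem_coe.2 (Finset.mem_filter.2
            ⟨Finset.mem_coe.1 (hsub hp), hb⟩)))
        · by_cases hb' : Bq S e (p.1, -p.2)
          · refine Or.inr (Or.inr (Finset.mem_coe.2 (Finset.mem_image.2
              ⟨(p.1, -p.2), Finset.mem_filter.2 ⟨?_, hb'⟩, by simp⟩)))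
            obtain ⟨h2, h3, h4⟩ := mem_EX.1 (Finset.mem_coe.1 (hsub hp))
            exact mem_EX.2 ⟨cu_neg h2, h3, by rw [abs_neg]; exact h4⟩
          · left
            refine ⟨hp, htw S hS p hp.1 ?_ ?_⟩
            · have h2 : Gq S e p := not_not.1 hb
              refine ⟨h2.1, fun d => (h2.2.1 d).trans ?_, h2.2.2⟩
              exact mul_le_mul_of_nonneg_right he1 (by positivity)
            · have h2 : Gq S e (p.1, -p.2) := not_not.1 hb'
              refine ⟨h2.1, fun d => (h2.2.1 d).trans ?_, h2.2.2⟩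
              exact mul_le_mul_of_nonneg_right he1 (by positivity)
      have h3 := Set.ncard_le_ncard h2 ((hCfin.subset fun p hp => hp.1).union
        ((Finset.finite_toSet _).union (Finset.finite_toSet _)))
      refine h3.trans ((Set.ncard_union_le _ _).trans (Nat.add_le_add_left
        ((Set.ncard_union_le _ _).trans ?_) _))
      rw [Set.ncard_coe_finset, Set.ncard_coe_finset]
      have h4 := Finset.card_image_le (s := (EX S N).filter (Bq S e))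
        (f := fun p : ℤ × ℤ => (p.1, -p.2))
      omega
    have h2 : ((CuH S x).ncard : ℝ) ≤ ({p ∈ CuH S x | TwG S ε p}.ncard : ℝ) +
        2 * (((EX S N).filter (Bq S e)).card : ℝ) := by exact_mod_cast hbadset
    have h3 : 2 * (((EX S N).filter (Bq S e)).card : ℝ) ≤ ε * ((CuH S x).ncard : ℝ) := by
      calc 2 * (((EX S N).filter (Bq S e)).card : ℝ) ≤ 2 * (e * (EX S N).card) := by linarith
        _ ≤ 2 * (ε / 4 * (EX S N).card) := by
            have := mul_le_mul_of_nonneg_right he2 (Nat.cast_nonneg (α := ℝ) (EX S N).card)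
            linarith
        _ = ε / 2 * (EX S N).card := by ring
        _ ≤ ε / 2 * (2 * ((CuH S x).ncard : ℝ)) := mul_le_mul_of_nonneg_left hmany (by linarith)
        _ = _ := by ring
    linarith

end Pool.Agent.H62.PR
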