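import Pool.Agent.H62.PR.Stm

/-!
# Project PR (helper62): the lattice of a class which ramifies at the degree two primes over `Q ∈ J`
-/

set_option autoImplicit false
set_option linter.all false

open IsDedekindDomain NumberField WithZero Polynomial
open scoped Classical

namespace Pool.Agent.H62.PR

open Pool.Agent.N874.PP (Tup chA chB gq tau Two Ev Sq1 U0)
open Pool.Agent.N922.PQ
open Pool.Agent.N301.PQ (co_crd crd_inj crd_add crd_smul crd_C crd_theta mapO exO theta_ex mem_P1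
  mem_P2 mem_both poly_mem int_iff)

/-- The two primes over `Q`. -/
structure TwoP {L O : Type} [Field L] [CommRing O] [IsDedekindDomain O] [Algebra O L]
    [IsFractionRing O L] (a b : ℤ) (θ : L) (Q : ℤ) (𝔭 𝔮 : HeightOneSpectrum O) : Prop where
  pr : IsPr Q
  op : Ov Q 𝔭
  oq : Ov Q 𝔮
  tp : 𝔭.valuation L θ < 1
  tq : 𝔮.valuation L θ = 1
  all : ∀ 𝔓 : HeightOneSpectrum O, Ov Q 𝔓 → 𝔓 = 𝔭 ∨ 𝔓 = 𝔮
  qb : Q ∣ b
  ns : ∀ z : ℤ, ¬ Q ∣ z ^ 2 + a

section val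

variable {L O : Type} [Field L] [NumberField L] [CommRing O] [IsDedekindDomain O] [Algebra O L]
  [IsFractionRing O L] [IsIntegralClosure O ℤ L]

theorem int_of_val (O : Type) [CommRing O] [IsDedekindDomain O] [Algebra O L]
    [IsFractionRing O L] [IsIntegralClosure O ℤ L] {x : L}
    (h : ∀ 𝔓 : HeightOneSpectrum O, 𝔓.valuation L x ≤ 1) : IsIntegral ℤ x := by
  obtain ⟨z, hz⟩ := HeightOneSpectrum.mem_integers_of_valuation_le_one L x h
  exact (int_iff O _).2 ⟨z, hz⟩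

theorem val_of_int {x : L} (h : IsIntegral ℤ x) (𝔓 : HeightOneSpectrum O) :
    𝔓.valuation L x ≤ 1 := by
  obtain ⟨z, hz⟩ := (int_iff O _).1 h
  rw [← hz]
  exact 𝔓.valuation_le_one z

theorem exp_of_ne {c : ℤᵐ⁰} (h : c ≠ 0) : ∃ n : ℤ, c = exp n := ⟨log c, (exp_log h).symm⟩

theorem val_exp {𝔓 : HeightOneSpectrum O} {x : L} (h : x ≠ 0) : ∃ n : ℤ, 𝔓.valuation L x = exp n :=
  exp_of_ne ((Valuation.ne_zero_iff _).2 h)

theorem sq_le_exp_one {c : ℤᵐ⁰} (h : c ^ 2 ≤ exp 1) : c ≤ 1 := by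
  by_cases h0 : c = 0
  · rw [h0]; exact zero_le
  obtain ⟨n, rfl⟩ := exp_of_ne h0
  rw [← exp_nsmul, exp_le_exp] at h
  rw [← exp_zero, exp_le_exp]
  simp at h
  omega

theorem le_exp_neg {c : ℤᵐ⁰} (h : c < 1) : c ≤ exp (-1) := by
  by_cases h0 : c = 0
  · rw [h0]; exact zero_le
  obtain ⟨n, rfl⟩ := exp_of_ne h0
  rw [← exp_zero, exp_lt_exp] at h
  rw [exp_le_exp]
  omega

/-- A ball. -/
def Ball (c : HeightOneSpectrum O → ℤᵐ⁰) : Submodule O L where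
  carrier := {y | ∀ 𝔓 : HeightOneSpectrum O, 𝔓.valuation L y ^ 2 ≤ c 𝔓}
  add_mem' := by
    intro x y hx hy 𝔓
    have h1 := 𝔓.valuation L |>.map_add x y
    rcases le_max_iff.1 h1 with h | h
    · exact (pow_le_pow_left₀ zero_le h 2).trans (hx 𝔓)
    · exact (pow_le_pow_left₀ zero_le h 2).trans (hy 𝔓)
  zero_mem' := by
    intro 𝔓
    rw [map_zero, zero_pow two_ne_zero]
    exact zero_le
  smul_mem' := by
    intro r x hx 𝔓
    rw [Algebra.smul_def, map_mul, mul_pow]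
    have h1 : 𝔓.valuation L (algebraMap O L r) ^ 2 ≤ 1 :=
      pow_le_one₀ zero_le (𝔓.valuation_le_one r)
    calc _ ≤ 1 * 𝔓.valuation L x ^ 2 := mul_le_mul_left h1 _
      _ ≤ c 𝔓 := by rw [one_mul]; exact hx 𝔓

theorem mem_ball {c : HeightOneSpectrum O → ℤᵐ⁰} {y : L} :
    y ∈ Ball (L := L) c ↔ ∀ 𝔓 : HeightOneSpectrum O, 𝔓.valuation L y ^ 2 ≤ c 𝔓 := Iff.rfl

/-- The elements `y` with `y ^ 2 / α` integral. -/
noncomputable def M0 (O : Type) [CommRing O] [IsDedekindDomain O] [Algebra O L]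
    [IsFractionRing O L] (α : L) : Submodule O L :=
  Ball fun 𝔓 => 𝔓.valuation L α

/-- The elements `y` with `y ^ 2 / α` integral up to the primes in `R`. -/
noncomputable def II (R : Set (HeightOneSpectrum O)) (α : L) : Submodule O L :=
  Ball fun 𝔓 => 𝔓.valuation L α * (if 𝔓 ∈ R then exp 1 else 1)

variable {R : Set (HeightOneSpectrum O)} {α : L}

theorem mem_M0 (hα : α ≠ 0) {y : L} : y ∈ M0 O α ↔ IsIntegral ℤ (y ^ 2 / α) := by
  constructor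
  · intro h
    refine int_of_val O fun 𝔓 => ?_
    rw [map_div₀, map_pow]
    exact div_le_one_of_le₀ (h 𝔓) zero_le
  · intro h 𝔓
    have h1 := val_of_int h 𝔓
    rw [map_div₀, map_pow] at h1
    exact (div_le_one₀ (zero_lt_iff.2 ((Valuation.ne_zero_iff _).2 hα))).1 h1

theorem M0_le : M0 O α ≤ II R α := by
  intro y hy 𝔓
  refine (hy 𝔓).trans ?_
  show 𝔓.valuation L α ≤ 𝔓.valuation L α * _
  split_ifs with h
  · calc 𝔓.valuation L α = 𝔓.valuation L α * exp 0 := by rw [exp_zero, mul_one]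
      _ ≤ 𝔓.valuation L α * exp 1 := mul_le_mul_right (by rw [exp_le_exp]; norm_num) _
  · rw [mul_one]

theorem F1 (hα : α ≠ 0) {y m : L} (hy : y ∈ II R α) (hm : m ∈ M0 O α) :
    IsIntegral ℤ (y * m / α) := by
  refine int_of_val O fun 𝔓 => ?_
  apply sq_le_exp_one
  have hv : 𝔓.valuation L α ≠ 0 := (Valuation.ne_zero_iff _).2 hα
  have e : (𝔓.valuation L (y * m / α)) ^ 2 =
      (𝔓.valuation L y ^ 2 / 𝔓.valuation L α) * (𝔓.valuation L m ^ 2 / 𝔓.valuation L α) := by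
    rw [map_div₀, map_mul]
    field_simp
  rw [e]
  have h1 : 𝔓.valuation L y ^ 2 / 𝔓.valuation L α ≤ exp 1 := by
    rw [div_le_iff₀ (zero_lt_iff.2 hv), mul_comm]
    refine (hy 𝔓).trans ?_
    show 𝔓.valuation L α * _ ≤ _
    refine mul_le_mul_right ?_ _
    split_ifs
    · exact le_rfl
    · rw [← exp_zero, exp_le_exp]; norm_num
  have h2 : 𝔓.valuation L m ^ 2 / 𝔓.valuation L α ≤ 1 := div_le_one_of_le₀ (hm 𝔓) zero_le
  calc _ ≤ exp 1 * 1 := mul_le_mul' h1 h2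
    _ = exp 1 := mul_one _

/-- An element of `M0` of maximal valuation. -/
theorem exM (hα : α ≠ 0) (hE : ∀ 𝔓 : HeightOneSpectrum O, 𝔓 ∉ R → Ev 𝔓 α)
    (𝔓 : HeightOneSpectrum O) : ∃ m ∈ M0 O α,
      𝔓.valuation L α ≤ 𝔓.valuation L m ^ 2 * (if 𝔓 ∈ R then exp 1 else 1) := by
  obtain ⟨n, hn⟩ := val_exp (𝔓 := 𝔓) hα
  obtain ⟨s, hs, hs'⟩ : ∃ s : L, 𝔓.valuation L s ^ 2 ≤ 𝔓.valuation L α ∧
      𝔓.valuation L α ≤ 𝔓.valuation L s ^ 2 * (if 𝔓 ∈ R then exp 1 else 1) := by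
    by_cases hR : 𝔓 ∈ R
    · obtain ⟨s, hs⟩ := 𝔓.valuation_surjective L (exp (n / 2))
      refine ⟨s, ?_, ?_⟩
      · rw [hs, hn, ← exp_nsmul, exp_le_exp]
        simp
        omega
      · rw [if_pos hR, hs, hn, ← exp_nsmul, ← exp_add, exp_le_exp]
        simp
        omega
    · obtain ⟨y, hy⟩ := hE 𝔓 hR
      exact ⟨y, hy.ge, by rw [if_neg hR, mul_one]; exact hy.le⟩
  have hv : 𝔓.valuation L α ≠ 0 := (Valuation.ne_zero_iff _).2 hα
  obtain ⟨c, d, hd⟩ := 𝔓.exists_primeCompl_mul_eq_of_integer (s ^ 2 / α) (by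
    rw [map_div₀, map_pow]
    exact div_le_one_of_le₀ hs zero_le)
  have hd1 : 𝔓.valuation L (algebraMap O L (d : O)) = 1 :=
    𝔓.valuation_eq_one_iff_notMem.mpr d.2
  refine ⟨algebraMap O L (d : O) * s, ?_, ?_⟩
  · rw [mem_M0 hα]
    have e : (algebraMap O L (d : O) * s) ^ 2 / α = algebraMap O L ((d : O) * c) := by
      rw [map_mul, ← hd]
      ring
    rw [e]
    exact (int_iff O _).2 ⟨_, rfl⟩
  · rw [map_mul, hd1, one_mul]
    exact hs'

theorem F2 (hα : α ≠ 0) (hE : ∀ 𝔓 : HeightOneSpectrum O, 𝔓 ∉ R → Ev 𝔓 α) {y : L}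
    (hy : ∀ m ∈ M0 O α, IsIntegral ℤ (y * m / α)) : y ∈ II R α := by
  intro 𝔓
  obtain ⟨m, hm, hm'⟩ := exM (R := R) hα hE 𝔓
  have hv : 𝔓.valuation L α ≠ 0 := (Valuation.ne_zero_iff _).2 hα
  have hm0 : 𝔓.valuation L m ≠ 0 := by
    intro h0
    rw [h0, zero_pow two_ne_zero, zero_mul] at hm'
    exact hv (le_zero_iff.1 hm')
  have h1 := val_of_int (hy m hm) 𝔓
  rw [map_div₀, map_mul] at h1
  have h2 : (𝔓.valuation L y * 𝔓.valuation L m) ≤ 𝔓.valuation L α :=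
    (div_le_one₀ (zero_lt_iff.2 hv)).1 h1
  have h3 : (𝔓.valuation L y * 𝔓.valuation L m) ^ 2 ≤ 𝔓.valuation L α ^ 2 :=
    pow_le_pow_left₀ zero_le h2 2
  rw [mul_pow] at h3
  have hm2 : 0 < 𝔓.valuation L m ^ 2 := zero_lt_iff.2 (pow_ne_zero 2 hm0)
  refine le_of_mul_le_mul_right ?_ hm2
  calc 𝔓.valuation L y ^ 2 * 𝔓.valuation L m ^ 2 ≤ 𝔓.valuation L α ^ 2 := h3
    _ = 𝔓.valuation L α * 𝔓.valuation L α := sq _
    _ ≤ 𝔓.valuation L α * (𝔓.valuation L m ^ 2 * (if 𝔓 ∈ R then exp 1 else 1)) :=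
        mul_le_mul_right hm' _
    _ = 𝔓.valuation L α * (if 𝔓 ∈ R then exp 1 else 1) * 𝔓.valuation L m ^ 2 := by
        rw [mul_assoc, mul_comm (𝔓.valuation L m ^ 2)]

end val

end Pool.Agent.H62.PR
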