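import Pool.Agent.H62.PR.Lat1
import Pool.Graph.R_pool_sql_team_seeded_63374d34.N966.PQ.Base

/-!
# Project PR (helper62): calculations modulo `Q`
-/

set_option autoImplicit false
set_option linter.all false

open IsDedekindDomain NumberField WithZero Polynomial
open scoped Classical

namespace Pool.Agent.H62.PR

open Pool.Agent.N874.PP (Tup chA chB gq tau Two Ev Sq1 U0)
open Pool.Agent.N922.PQ
open Pool.Agent.N301.PQ (co_crd crd_inj crd_add crd_smul crd_C crd_theta mapO exO theta_ex mem_P1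
  mem_P2 mem_both poly_mem int_iff)

section twoP

variable {L O : Type} [Field L] [NumberField L] [CommRing O] [IsDedekindDomain O] [Algebra O L]
  [IsFractionRing O L] [IsIntegralClosure O ℤ L] {a b : ℤ} {θ : L} {Q : ℤ}
  {𝔭 𝔮 : HeightOneSpectrum O}

theorem TwoP.ne (h : TwoP a b θ Q 𝔭 𝔮) : 𝔭 ≠ 𝔮 := by
  rintro rfl
  have := h.tp
  rw [h.tq] at this
  exact lt_irrefl _ this

theorem ov_lt {𝔓 : HeightOneSpectrum O} (h : Ov Q 𝔓) : 𝔓.valuation L (Q : L) < 1 := by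
  rw [← mapO (O := O) Q]
  exact (𝔓.valuation_lt_one_iff_mem _).2 h

theorem ov_eq {𝔓 : HeightOneSpectrum O} (h : ¬ Ov Q 𝔓) : 𝔓.valuation L (Q : L) = 1 := by
  rw [← mapO (O := O) Q]
  exact 𝔓.valuation_eq_one_iff_notMem.2 h

theorem TwoP.not_dvd_a (h : TwoP a b θ Q 𝔭 𝔮) : ¬ Q ∣ a := by
  intro h1
  apply h.ns 0
  simpa using h1

theorem TwoP.thp (h : TwoP a b θ Q 𝔭 𝔮) (hc : IsCub a b θ) :
    𝔭.valuation L θ ≤ 𝔭.valuation L (Q : L) := by
  have ha : 𝔭.valuation L (a : L) = 1 :=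
    Pool.Agent.N966.PQ.val_eq h.pr.2 h.op h.not_dvd_a
  have h1 : 𝔭.valuation L (θ ^ 2 + (a : L)) = 1 := by
    have h2 : 𝔭.valuation L (θ ^ 2) < 𝔭.valuation L (a : L) := by
      rw [ha, map_pow]
      exact pow_lt_one₀ zero_le h.tp two_ne_zero
    rw [Valuation.map_add_eq_of_lt_right _ h2, ha]
  have h2 : θ * (θ ^ 2 + (a : L)) = -(b : L) := by
    linear_combination hc.root
  have h3 : 𝔭.valuation L θ = 𝔭.valuation L (b : L) := by
    have := congrArg (𝔭.valuation L) h2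
    rw [map_mul, h1, mul_one, Valuation.map_neg] at this
    exact this
  rw [h3]
  obtain ⟨c, hc'⟩ := h.qb
  rw [hc', Int.cast_mul, map_mul]
  calc _ ≤ 𝔭.valuation L (Q : L) * 1 :=
        mul_le_mul_right (Pool.Agent.N966.PQ.val_le 𝔭 c) _
    _ = _ := mul_one _

variable (hI : S_INT) (hc : IsCub a b θ) (hsq : Squarefree (dsc a b))

include hI hc hsq in
/-- An integral element which is small at both primes is divisible by `Q`. -/
theorem TwoP.div (h : TwoP a b θ Q 𝔭 𝔮) {x : L} (hx : IsIntegral ℤ x)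
    (h1 : 𝔭.valuation L x < 1) (h2 : 𝔮.valuation L x < 1) :
    ∃ y : L, IsIntegral ℤ y ∧ x = (Q : L) * y := by
  obtain ⟨z, rfl⟩ := (int_iff O _).1 hx
  obtain ⟨t, ht⟩ := theta_ex O hc
  have ht1 : t ∈ 𝔭.asIdeal := by
    rw [← Pool.Agent.N301.PQ.val_lt_mem (L := L), ht]; exact h.tp
  have ht2 : t ^ 2 + (a : O) ∈ 𝔮.asIdeal := by
    have h3 : t * (t ^ 2 + (a : O)) ∈ 𝔮.asIdeal := by
      have e : t * (t ^ 2 + (a : O)) = -(b : O) := by
        apply IsFractionRing.injective O L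
        rw [map_mul, map_add, map_pow, mapO, map_neg, mapO, ht]
        linear_combination hc.root
      rw [e]
      exact neg_mem ((poly_mem h.pr.2 h.oq b).2 h.qb)
    refine (𝔮.isPrime.mem_or_mem h3).resolve_left fun h4 => ?_
    have h5 := (Pool.Agent.N301.PQ.val_lt_mem (L := L) 𝔮 t).2 h4
    rw [ht, h.tq] at h5
    exact lt_irrefl _ h5
  obtain ⟨v, hv⟩ := exO hI hc hsq z
  obtain ⟨d0, d1, d2⟩ := mem_both h.pr.2 h.ns ht h.op h.oq ht1 ht2 hv
    ((𝔭.valuation_lt_one_iff_mem _).1 h1) ((𝔮.valuation_lt_one_iff_mem _).1 h2)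
  obtain ⟨c0, e0⟩ := d0
  obtain ⟨c1, e1⟩ := d1
  obtain ⟨c2, e2⟩ := d2
  refine ⟨(c0 : L) + (c1 : L) * θ + (c2 : L) * θ ^ 2, ?_, ?_⟩
  · exact (hI L a b θ hc hsq _).2 ⟨![c0, c1, c2], by simp [Crd]⟩
  · rw [hv, e0, e1, e2]
    push_cast
    ring

include hI hc hsq in
/-- An integral element which is small at the prime of degree one. -/
theorem TwoP.div0 (h : TwoP a b θ Q 𝔭 𝔮) {x : L} {v : Fin 3 → ℤ} (hv : Crd θ v x)
    (h1 : 𝔭.valuation L x < 1) : Q ∣ v 0 := by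
  have hx : IsIntegral ℤ x := (hI L a b θ hc hsq _).2 ⟨v, hv⟩
  obtain ⟨z, rfl⟩ := (int_iff O _).1 hx
  obtain ⟨t, ht⟩ := theta_ex O hc
  have ht1 : t ∈ 𝔭.asIdeal := by
    rw [← Pool.Agent.N301.PQ.val_lt_mem (L := L), ht]; exact h.tp
  exact (mem_P1 h.pr.2 ht h.op ht1 hv).1 ((𝔭.valuation_lt_one_iff_mem _).1 h1)

end twoP

section mod

variable {L : Type} [Field L] [CharZero L] {a b : ℤ} {θ : L}

/-- The product in coordinates. -/
theorem crd_mul (h : IsCub a b θ) {v w : Fin 3 → ℤ} {x y : L} (hv : Crd θ v x)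
    (hw : Crd θ w y) : Crd θ ![v 0 * w 0 - b * (v 1 * w 2 + v 2 * w 1),
      v 0 * w 1 + v 1 * w 0 - a * (v 1 * w 2 + v 2 * w 1) - b * (v 2 * w 2),
      v 0 * w 2 + v 1 * w 1 + v 2 * w 0 - a * (v 2 * w 2)] (x * y) := by
  have hr := h.root
  unfold Crd at *
  rw [hv, hw]
  simp only [Matrix.cons_val_zero, Matrix.cons_val_one, Matrix.cons_val]
  push_cast
  linear_combination ((v 1 : L) * (w 2 : L) + (v 2 : L) * (w 1 : L) + (v 2 : L) * (w 2 : L) * θ) * hr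

end mod

end Pool.Agent.H62.PR
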