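import Pool.Agent.H62.PR.Lat3

/-!
# Project PR (helper62): the lattice is unimodular
-/

set_option autoImplicit false
set_option linter.all false

open IsDedekindDomain NumberField WithZero Polynomial
open scoped Classical

namespace Pool.Agent.H62.PR

open Pool.Agent.N874.PP (Tup chA chB gq tau Two Ev Sq1 U0)
open Pool.Agent.N922.PQ
open Pool.Agent.N301.PQ (co_crd crd_inj crd_add crd_smul crd_C crd_theta mapO exO theta_ex mem_P1
  mem_P2 mem_both poly_mem int_iff)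

theorem basis_of (L O : Type) [Field L] [NumberField L] [CommRing O] [IsDedekindDomain O]
    [Algebra O L] [IsFractionRing O L] [IsIntegralClosure O ℤ L] (hr : Module.finrank ℚ L = 3)
    (M : Submodule ℤ L) {m1 m2 : L} (h1 : m1 ≠ 0) (h2 : m2 ≠ 0)
    (hm1 : ∀ y ∈ M, IsIntegral ℤ (y * m1)) (hm2 : ∀ z : L, IsIntegral ℤ z → z * m2 ∈ M) :
    ∃ e : Fin 3 → L, LinearIndependent ℚ e ∧ (∀ i, e i ∈ M) ∧
      ∀ y ∈ M, ∃ c : Fin 3 → ℤ, y = ∑ i, (c i : L) * e i := by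
  haveI hfin : Module.Finite ℤ O := IsIntegralClosure.finite ℤ ℚ L O
  haveI hN0 : IsNoetherian ℤ O := isNoetherian_of_isNoetherianRing_of_finite ℤ O
  let N : Submodule ℤ L := LinearMap.range ((Algebra.linearMap O L).restrictScalars ℤ)
  haveI hN : IsNoetherian ℤ N :=
    isNoetherian_of_surjective ((Algebra.linearMap O L).restrictScalars ℤ).rangeRestrict
      (LinearMap.range_eq_top.2 (LinearMap.surjective_rangeRestrict _))
  let φ : L →ₗ[ℤ] L := LinearMap.mulRight ℤ m1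
  have hφ : Function.Injective φ := fun x y h => mul_right_cancel₀ h1 h
  have hle : M.map φ ≤ N := by
    rintro _ ⟨y, hy, rfl⟩
    obtain ⟨z, hz⟩ := (int_iff O _).1 (hm1 y hy)
    exact ⟨z, hz⟩
  haveI hM' : IsNoetherian ℤ (M.map φ) := isNoetherian_of_le hle
  haveI hMN : IsNoetherian ℤ M :=
    isNoetherian_of_linearEquiv (Submodule.equivMapOfInjective φ hφ M).symm
  haveI h3 : Module.Finite ℤ M := inferInstance
  haveI : Module.IsTorsionFree ℤ L := inferInstance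
  haveI : Module.IsTorsionFree ℤ M := inferInstance
  haveI : Module.Free ℤ M := inferInstance
  let B := Module.Free.chooseBasis ℤ M
  have hli : LinearIndependent ℤ (fun i => (B i : L)) :=
    B.linearIndependent.map' M.subtype (Submodule.ker_subtype M)
  have hliK : LinearIndependent ℚ (fun i => (B i : L)) :=
    (LinearIndependent.iff_fractionRing ℤ ℚ).1 hli
  have hsum : ∀ y ∈ M, ∃ c : Module.Free.ChooseBasisIndex ℤ M → ℤ,
      y = ∑ i, (c i : L) * (B i : L) := by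
    intro y hy'
    refine ⟨fun i => B.repr ⟨y, hy'⟩ i, ?_⟩
    have h4 := congrArg (Subtype.val) (B.sum_repr ⟨y, hy'⟩)
    have h5 : ((∑ i, (B.repr ⟨y, hy'⟩) i • B i : M) : L) =
        ∑ i, ((B.repr ⟨y, hy'⟩ i : ℤ) : L) * (B i : L) := by
      rw [Submodule.coe_sum]
      refine Finset.sum_congr rfl fun i _ => ?_
      rw [Submodule.coe_smul, zsmul_eq_mul]
    exact h4.symm.trans h5
  have hspanI : ∀ y ∈ M, y ∈ Submodule.span ℚ (Set.range fun i => (B i : L)) := by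
    intro y hy
    obtain ⟨c, hc'⟩ := hsum y hy
    rw [hc']
    refine Submodule.sum_mem _ fun i _ => ?_
    have : ((c i : ℤ) : L) * (B i : L) = ((c i : ℤ) : ℚ) • (B i : L) := by
      rw [Algebra.smul_def, map_intCast]
    rw [this]
    exact Submodule.smul_mem _ _ (Submodule.subset_span ⟨i, rfl⟩)
  have hspan : ⊤ ≤ Submodule.span ℚ (Set.range fun i => (B i : L)) := by
    intro x _
    have halg : Algebra.IsAlgebraic ℤ L := (IsFractionRing.comap_isAlgebraic_iff (A := ℤ)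
      (K := ℚ) (C := L)).2 inferInstance
    obtain ⟨n, hn, hint⟩ := (halg.isAlgebraic (x / m2)).exists_integral_multiple
    have hzy := hm2 _ hint
    have hnL : ((n : ℤ) : L) ≠ 0 := by exact_mod_cast hn
    have hx : x = ((n : ℚ)⁻¹) • ((n • (x / m2)) * m2) := by
      rw [zsmul_eq_mul, Algebra.smul_def, map_inv₀, map_intCast]
      field_simp
    rw [hx]
    exact Submodule.smul_mem _ _ (hspanI _ hzy)
  have hcard : Fintype.card (Module.Free.ChooseBasisIndex ℤ M) = 3 := by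
    rw [← Module.finrank_eq_card_basis (Module.Basis.mk hliK hspan), hr]
  let E : Fin 3 ≃ Module.Free.ChooseBasisIndex ℤ M := (Fintype.equivFinOfCardEq hcard).symm
  refine ⟨fun i => (B (E i) : L), hliK.comp E E.injective, fun i => (B (E i)).2, ?_⟩
  intro y hy
  obtain ⟨c, hc'⟩ := hsum y hy
  refine ⟨fun i => c (E i), ?_⟩
  rw [hc', ← E.sum_comp]

/-- `e` is a basis of a lattice which is unimodular for `c₂(x y / α)` and integral for
`D c₁(x y / α)`. -/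
structure UL {L : Type} [Field L] [CharZero L] {a b : ℤ} {θ : L} (h : IsCub a b θ) (e : Fin 3 → L)
    (α : L) (D : ℤ) : Prop where
  li : LinearIndependent ℚ e
  g : ∀ i j, ∃ c : ℤ, (c : ℚ) = h.co 2 (e i * e j / α)
  b : ∀ i j, ∃ c : ℤ, (c : ℚ) = (D : ℚ) * h.co 1 (e i * e j / α)
  dual : ∀ y : L, (∀ i, ∃ c : ℤ, (c : ℚ) = h.co 2 (e i * y / α)) →
    ∃ c : Fin 3 → ℤ, y = ∑ i, (c i : L) * e i

section lat

variable {L O : Type} [Field L] [NumberField L] [CommRing O] [IsDedekindDomain O] [Algebra O L]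
  [IsFractionRing O L] [IsIntegralClosure O ℤ L] {a b : ℤ} {θ α : L} {J : Finset ℤ}
  {𝔭 𝔮 : ℤ → HeightOneSpectrum O} {g : ℤ → L}
  (hI : S_INT) (hc : IsCub a b θ) (hsq : Squarefree (dsc a b))
  (hT : TwD a b θ α J 𝔭 𝔮 g)

include hI hc hsq in
theorem TwoP.vq {Q : ℤ} {𝔭 𝔮 : HeightOneSpectrum O} (h : TwoP a b θ Q 𝔭 𝔮) :
    exp (-1) ≤ 𝔮.valuation L (Q : L) := by
  obtain ⟨π, hπ⟩ := 𝔮.intValuation_exists_uniformizer
  have hπ' : 𝔮.valuation L (algebraMap O L π) = exp (-1) := by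
    rw [𝔮.valuation_of_algebraMap, hπ]
  have h1 : IsIntegral ℤ (algebraMap O L π * θ) :=
    ((int_iff O _).2 ⟨π, rfl⟩).mul (theta_int hc)
  obtain ⟨y, hy, e⟩ := h.div hI hc hsq h1 (by
    rw [map_mul]
    calc _ ≤ 1 * 𝔭.valuation L θ := mul_le_mul_left (𝔭.valuation_le_one π) _
      _ < 1 := by rw [one_mul]; exact h.tp) (by
    rw [map_mul, hπ', h.tq, mul_one, ← exp_zero, exp_lt_exp]
    norm_num)
  have e2 : exp (-1) = 𝔮.valuation L (Q : L) * 𝔮.valuation L y := by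
    rw [← map_mul, ← e, map_mul, hπ', h.tq, mul_one]
  rw [e2]
  calc _ ≤ 𝔮.valuation L (Q : L) * 1 := mul_le_mul_right (val_of_int hy _) _
    _ = _ := mul_one _

include hI hc hsq in
theorem int_of_co2 {x : L} (h0 : ∃ c : ℤ, hc.co 2 x = (c : ℚ))
    (h1 : ∃ c : ℤ, hc.co 2 (θ * x) = (c : ℚ)) (h2 : ∃ c : ℤ, hc.co 2 (θ ^ 2 * x) = (c : ℚ)) :
    IsIntegral ℤ x := by
  obtain ⟨c0, hc0⟩ := h0
  obtain ⟨c1, hc1⟩ := h1
  obtain ⟨c2, hc2⟩ := h2
  rw [(Pool.Agent.N227.PQ.co_th hc _).1] at hc1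
  rw [(Pool.Agent.N227.PQ.co_th hc _).2, hc0] at hc2
  rw [hI L a b θ hc hsq]
  refine ⟨![c2 + a * c0, c1, c0], ?_⟩
  have e1 := Pool.Agent.N227.PQ.eq_co hc x
  rw [Crd]
  conv_lhs => rw [e1]
  rw [hc0, hc1, show hc.co 0 x = ((c2 + a * c0 : ℤ) : ℚ) by
    push_cast; linarith]
  simp

include hc in
theorem M0_theta {m : L} (hm : m ∈ M0 O α) : θ * m ∈ M0 O α := by
  obtain ⟨t, ht⟩ := theta_ex O hc
  rw [← ht, ← Algebra.smul_def]
  exact Submodule.smul_mem _ _ hm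

include hI hc hsq hT in
/-- The products of the vectors `g`. -/
theorem TwD.gg {Q Q' : ℤ} (hQ : Q ∈ J) (hQ' : Q' ∈ J) (hne : Q ≠ Q') :
    ∃ c : ℤ, hc.co 2 (g Q' * (g Q / (Q : L)) / α) = (Q' : ℚ) * c := by
  obtain ⟨z, hz, e⟩ := hT.f2 hI hc hsq hQ' (hT.gm Q hQ)
  obtain ⟨z', hz', e'⟩ := hT.f2 hI hc hsq hQ (hT.gm Q' hQ')
  have hQ0 : (Q : L) ≠ 0 := by exact_mod_cast (hT.pr hQ).1.ne'
  have h1 : g Q' * (g Q / (Q : L)) / α = z' := by
    apply mul_left_cancel₀ hQ0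
    rw [← e']
    field_simp
  have h2 : (Q : L) * z' = (Q' : L) * z := by
    rw [← e, ← e', mul_comm (g Q)]
  obtain ⟨v, -, hv⟩ := co_int hI hc hsq hz
  obtain ⟨v', -, hv'⟩ := co_int hI hc hsq hz'
  have h3 := congrArg (hc.co 2) h2
  rw [Pool.Agent.N227.PQ.co_int_smul, Pool.Agent.N227.PQ.co_int_smul, hv, hv'] at h3
  have h4 : Q * v' 2 = Q' * v 2 := by exact_mod_cast h3
  have h5 : Q' ∣ v' 2 :=
    (isCoprime_of (hT.pr hQ) (hT.pr hQ') hne).symm.dvd_of_dvd_mul_left ⟨v 2, h4⟩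
  obtain ⟨c, hc'⟩ := h5
  refine ⟨c, ?_⟩
  rw [h1, hv', hc']
  push_cast
  ring

include hI hc hsq hT in
theorem TwD.gdiv {Q : ℤ} (hQ : Q ∈ J) : g Q / (Q : L) ∈ MU hc α J 𝔮 g := by
  have hQ0 : (Q : L) ≠ 0 := by exact_mod_cast (hT.pr hQ).1.ne'
  obtain ⟨x, hx, e⟩ := hT.gq Q hQ
  have hα := hT.ne
  have e1 : (g Q / (Q : L)) ^ 2 / α = (D1 J Q : L) * θ / (Q : L) + x := by
    have : (g Q / (Q : L)) ^ 2 / α = (g Q ^ 2 / α) / (Q : L) ^ 2 := by
      field_simp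
    rw [this, e]
    field_simp
  constructor
  · intro 𝔓
    change _ ≤ 𝔓.valuation L α * (if 𝔓 ∈ RR J 𝔮 then exp 1 else 1)
    have hv : 𝔓.valuation L α ≠ 0 := (Valuation.ne_zero_iff _).2 hα
    have e2 : 𝔓.valuation L (g Q / (Q : L)) ^ 2 =
        𝔓.valuation L α * 𝔓.valuation L ((g Q / (Q : L)) ^ 2 / α) := by
      rw [map_div₀ _ _ α, map_pow, mul_div_cancel₀ _ hv]
    rw [e2]
    refine mul_le_mul_right ?_ _
    have hle : (1 : ℤᵐ⁰) ≤ (if 𝔓 ∈ RR J 𝔮 then exp 1 else 1) := by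
      split_ifs
      · rw [← exp_zero, exp_le_exp]; norm_num
      · exact le_rfl
    by_cases hOv : Ov Q 𝔓
    · rw [e1]
      have hD1 : 𝔓.valuation L (D1 J Q : L) ≤ 1 := Pool.Agent.N966.PQ.val_le 𝔓 _
      rcases (hT.two Q hQ).all 𝔓 hOv with rfl | rfl
      · refine le_trans (Valuation.map_add _ _ _) (max_le ?_ ?_)
        · refine le_trans ?_ hle
          rw [map_div₀, map_mul]
          refine div_le_one_of_le₀ ?_ zero_le
          calc _ ≤ 1 * (𝔭 Q).valuation L θ := mul_le_mul_left hD1 _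
            _ ≤ _ := by rw [one_mul]; exact (hT.two Q hQ).thp hc
        · exact (val_of_int hx _).trans hle
      · refine le_trans (Valuation.map_add _ _ _) (max_le ?_ ?_)
        · rw [if_pos ⟨Q, hQ, rfl⟩, map_div₀, map_mul, (hT.two Q hQ).tq, mul_one]
          have h3 := (hT.two Q hQ).vq hI hc hsq
          have h4 : (𝔮 Q).valuation L (Q : L) ≠ 0 := (Valuation.ne_zero_iff _).2 hQ0
          rw [div_le_iff₀ (zero_lt_iff.2 h4)]
          refine hD1.trans ?_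
          calc (1 : ℤᵐ⁰) = exp 1 * exp (-1) := by rw [← exp_add]; simp
            _ ≤ _ := mul_le_mul_right h3 _
        · exact (val_of_int hx _).trans hle
    · refine le_trans ?_ hle
      have e3 : (g Q / (Q : L)) ^ 2 / α = (g Q ^ 2 / α) / (Q : L) ^ 2 := by
        field_simp
      rw [e3, map_div₀ _ _ ((Q : L) ^ 2), map_pow _ (Q : L), ov_eq hOv, one_pow, div_one]
      exact M0_le1 hα (hT.gm Q hQ) 𝔓
  · intro Q' hQ'
    by_cases hne : Q = Q'
    · subst hne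
      obtain ⟨v, -, hv⟩ := co_int hI hc hsq hx
      refine ⟨v 2, ?_⟩
      have e4 : g Q * (g Q / (Q : L)) / α = (D1 J Q : L) * θ + (Q : L) * x := by
        have : g Q * (g Q / (Q : L)) / α = (g Q ^ 2 / α) / (Q : L) := by
          field_simp
        rw [this, e]
        field_simp
      rw [e4, map_add, Pool.Agent.N227.PQ.co_int_smul, Pool.Agent.N227.PQ.co_int_smul, hv,
        co_crd hc (v := ![0, 1, 0]) (by simp [Crd]) 2]
      simp
    · exact hT.gg hI hc hsq hQ hQ' hne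

include hI hc hsq hT in
/-- Self-duality. -/
theorem TwD.dual {y : L} (hy : ∀ m ∈ MU hc α J 𝔮 g, ∃ c : ℤ, hc.co 2 (m * y / α) = (c : ℚ)) :
    y ∈ MU hc α J 𝔮 g := by
  have hα := hT.ne
  constructor
  · refine F2 (R := RR J 𝔮) hα hT.ev' fun m hm => ?_
    have hm1 := M0_theta hc hm
    have hm2 := M0_theta hc hm1
    have h0 := hy m (hT.M0_le_MU hI hc hsq m hm)
    have h1 := hy _ (hT.M0_le_MU hI hc hsq _ hm1)
    have h2 := hy _ (hT.M0_le_MU hI hc hsq _ hm2)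
    refine int_of_co2 hI hc hsq ?_ ?_ ?_
    · rw [mul_comm y m]; exact h0
    · rw [show θ * (y * m / α) = θ * m * y / α by ring]; exact h1
    · rw [show θ ^ 2 * (y * m / α) = θ * (θ * m) * y / α by ring]; exact h2
  · intro Q hQ
    have hQ0 : (Q : L) ≠ 0 := by exact_mod_cast (hT.pr hQ).1.ne'
    obtain ⟨c, h1⟩ := hy _ (hT.gdiv hI hc hsq hQ)
    refine ⟨c, ?_⟩
    have e : g Q * y / α = (Q : L) * (g Q / (Q : L) * y / α) := by
      field_simp
    rw [e, Pool.Agent.N227.PQ.co_int_smul, h1]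

include hI hc hsq hT in
theorem TwD.co_MU {y y' : L} (hy : y ∈ MU hc α J 𝔮 g) (hy' : y' ∈ MU hc α J 𝔮 g) :
    (∃ c : ℤ, hc.co 2 (y * y' / α) = (c : ℚ)) ∧
    ∃ c : ℤ, (((∏ Q ∈ J, Q : ℤ) : ℚ)) * hc.co 1 (y * y' / α) = (c : ℚ) := by
  have hint := (hT.f4 hy.1 hy'.1).1
  obtain ⟨v, hv, hv'⟩ := co_int hI hc hsq hint
  have h2 : ∀ Q ∈ J, Q ∣ v 2 := by
    intro Q hQ
    obtain ⟨k, x, hx, e, -⟩ := hT.f5 hI hc hsq hQ hy
    obtain ⟨k', x', hx', e', -⟩ := hT.f5 hI hc hsq hQ hy'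
    exact (hT.f6 hI hc hsq hQ hy hy' hx hx' e e' hv).2.2
  obtain ⟨c, hc'⟩ := prod_dvd_of (fun Q hQ => hT.pr hQ) h2
  have hD0 : ((∏ Q ∈ J, Q : ℤ) : ℚ) ≠ 0 := by
    have : (∏ Q ∈ J, Q : ℤ) ≠ 0 := Finset.prod_ne_zero_iff.2 fun Q hQ => (hT.pr hQ).1.ne'
    exact_mod_cast this
  constructor
  · refine ⟨c, ?_⟩
    have h3 := hv' 2
    rw [Pool.Agent.N227.PQ.co_int_smul, hc'] at h3
    apply mul_left_cancel₀ hD0
    rw [h3]
    push_cast
    ring
  · refine ⟨v 1, ?_⟩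
    rw [← hv' 1, Pool.Agent.N227.PQ.co_int_smul]

include hI hc hsq hT in
/-- A basis of the lattice. -/
theorem TwD.basis : ∃ e : Fin 3 → L, UL hc e α (∏ Q ∈ J, Q) ∧
    (∀ i, e i ∈ MU hc α J 𝔮 g) ∧
    ∀ y ∈ MU hc α J 𝔮 g, ∃ c : Fin 3 → ℤ, y = ∑ i, (c i : L) * e i := by
  have hα := hT.ne
  -- a nonzero element of `M0`
  obtain ⟨m, hm, hm0⟩ : ∃ m ∈ M0 O α, m ≠ 0 := by
    have halg : Algebra.IsAlgebraic ℤ L := (IsFractionRing.comap_isAlgebraic_iff (A := ℤ)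
      (K := ℚ) (C := L)).2 inferInstance
    obtain ⟨n, hn, hint⟩ := (halg.isAlgebraic α).exists_integral_multiple
    have hnL : ((n : ℤ) : L) ≠ 0 := by exact_mod_cast hn
    refine ⟨(n : L) * α, ?_, mul_ne_zero hnL hα⟩
    rw [mem_M0 hα]
    have e : ((n : L) * α) ^ 2 / α = (n : L) * (n • α) := by
      rw [zsmul_eq_mul]
      field_simp
    rw [e]
    exact (isIntegral_algebraMap (R := ℤ) (x := n)).mul hint
  obtain ⟨e, hli, he, hbas⟩ := basis_of L O hc.rank (MU hc α J 𝔮 g) (m1 := m / α) (m2 := m)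
    (div_ne_zero hm0 hα) hm0 (fun y hy => by
      rw [← mul_div_assoc]
      exact F1 hα hy.1 hm) (fun z hz => by
      apply hT.M0_le_MU hI hc hsq
      obtain ⟨w, rfl⟩ := (int_iff O _).1 hz
      rw [← Algebra.smul_def]
      exact Submodule.smul_mem _ _ hm)
  refine ⟨e, ⟨hli, fun i j => ?_, fun i j => ?_, fun y hy => ?_⟩, he, hbas⟩
  · obtain ⟨c, h1⟩ := (hT.co_MU hI hc hsq (he i) (he j)).1
    exact ⟨c, h1.symm⟩
  · obtain ⟨c, h1⟩ := (hT.co_MU hI hc hsq (he i) (he j)).2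
    exact ⟨c, h1.symm⟩
  · apply hbas
    apply hT.dual hI hc hsq
    intro m hm
    obtain ⟨c, rfl⟩ := hbas m hm
    choose d hd using hy
    refine ⟨∑ i, c i * d i, ?_⟩
    rw [Finset.sum_mul, Finset.sum_div, map_sum]
    push_cast
    refine Finset.sum_congr rfl fun i _ => ?_
    rw [show (c i : L) * e i * y / α = (c i : L) * (e i * y / α) by ring,
      Pool.Agent.N227.PQ.co_int_smul, hd]

end lat

end Pool.Agent.H62.PR
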