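import Pool.Agent.H62.PR.Lat5

/-!
# Project PR (helper62): local conditions of the tuple, statements of parts
-/

set_option autoImplicit false
set_option linter.all false

open IsDedekindDomain NumberField WithZero Polynomial Matrix
open scoped Classical

namespace Pool.Agent.H62.PR

open Pool.Agent.N874.PP (Tup chA chB gq tau Two Ev Sq1 U0)
open Pool.Agent.N922.PQ

/-- Part EXG. Existence of the vector `g`. Take `s` from `Sq1`, `r ∈ O` with `r ^ 2 = D` modulo `𝔮`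
(`r = z` or `z θ`, because `θ ^ 2 = - a` modulo `𝔮` and `- a` is not a square modulo `Q`), `t ∉ 𝔮`
with `t s ^ 2 / α` integral (as in `exM` of `Lat1`), `c ∈ O` with `c θ t = 1` modulo `𝔮`,
`g = c θ t r s`; at `𝔭` use `TwoP.thp`, at `𝔮` `TwoP.vq` of `Lat4`. -/
def S_EXG : Prop := ∀ (L O : Type) [Field L] [NumberField L] [CommRing O] [IsDedekindDomain O]
  [Algebra O L] [IsFractionRing O L] [IsIntegralClosure O ℤ L] (a b : ℤ) (θ : L),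
  IsCub a b θ → Squarefree (dsc a b) → ∀ (Q : ℤ) (𝔭 𝔮 : HeightOneSpectrum O),
  TwoP a b θ Q 𝔭 𝔮 → Q % 8 = 1 → ∀ (α : L) (D : ℤ), α ≠ 0 → ¬ Q ∣ D →
  Sq1 𝔮 (α * ((Q : L) * θ)) →
  ∃ g ∈ M0 O α, ∃ x : L, IsIntegral ℤ x ∧ g ^ 2 / α = (Q : L) * (D : L) * θ + (Q : L) ^ 2 * x

/-- Part LOC0. Type 0. As in `N301/PQ/TTV.lean` (`ttv`): `x₁, x₂ ∈ M0` with `x₁ ^ 2 / α = 1` at `𝔭`,
`0` at `𝔮` and conversely; the coordinates `ξ`, `ξ'` of `x₁ + x₂`, `x₁ - x₂` satisfy the hypotheses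
of `Pool.Agent.N774.PQ.prm` (independent modulo `Q` because `c₂((x₁ ^ 2 - x₂ ^ 2) / α)`, which is
`ξ ⬝ JJ ξ'`, is not divisible by `Q`). -/
def S_LOC0 : Prop := ∀ (L O : Type) [Field L] [NumberField L] [CommRing O] [IsDedekindDomain O]
  [Algebra O L] [IsFractionRing O L] [IsIntegralClosure O ℤ L] (a b : ℤ) (θ : L)
  (hc : IsCub a b θ), Squarefree (dsc a b) →
  ∀ (α : L) (J : Finset ℤ) (𝔭 𝔮 : ℤ → HeightOneSpectrum O) (g : ℤ → L),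
  TwD a b θ α J 𝔭 𝔮 g → ∀ (e : Fin 3 → L) (B : Fin 3 → Fin 3 → ℤ), NB hc α (∏ Q ∈ J, Q) e B →
  (∀ y ∈ MU hc α J 𝔮 g, ∃ c : Fin 3 → ℤ, y = ∑ i, (c i : L) * e i) →
  (∀ i, e i ∈ MU hc α J 𝔮 g) →
  chA (tup B) = a * (∏ Q ∈ J, Q) ^ 2 → chB (tup B) = b * (∏ Q ∈ J, Q) ^ 3 →
  ∀ (Q : ℤ) (𝔭' 𝔮' : HeightOneSpectrum O), TwoP a b θ Q 𝔭' 𝔮' → Q % 8 = 1 → Q ∉ J →
  (∀ 𝔓 : HeightOneSpectrum O, Ov Q 𝔓 → Sq1 𝔓 α) →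
  ∀ s : ℤ, Q ∣ a * (∏ Q ∈ J, Q) ^ 2 - s → C0 Q s (tup B)

/-- Part LOC1. Type 1. `θ` is not a square at `𝔮'`, so `Sq1 𝔮' (α θ)` (library part `S_CLS` with
`ϖ = Q θ`, see `core2` of `N922/PQ/Core.lean`); as in `N301/PQ/TTV.lean` (`stepB`) there is
`ε ∈ M0` with `ε ^ 2 / α = θ` at `𝔮'` and `0` at `𝔭'`, hence (`TwoP.div`) `ε ^ 2 / α = θ + Q x`;
`ξ` = coordinates of `ε`, `ζ` = coordinates of `D θ ε`, `D = ∏ Q ∈ J, Q`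
(`mat (tup B) *ᵥ ξ = JJ *ᵥ ζ`; `(θ ^ 2 + a) e i ε / α` is small at both primes). -/
def S_LOC1 : Prop := ∀ (L O : Type) [Field L] [NumberField L] [CommRing O] [IsDedekindDomain O]
  [Algebra O L] [IsFractionRing O L] [IsIntegralClosure O ℤ L] (a b : ℤ) (θ : L)
  (hc : IsCub a b θ), Squarefree (dsc a b) →
  ∀ (α : L) (J : Finset ℤ) (𝔭 𝔮 : ℤ → HeightOneSpectrum O) (g : ℤ → L),
  TwD a b θ α J 𝔭 𝔮 g → ∀ (e : Fin 3 → L) (B : Fin 3 → Fin 3 → ℤ), NB hc α (∏ Q ∈ J, Q) e B →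
  (∀ y ∈ MU hc α J 𝔮 g, ∃ c : Fin 3 → ℤ, y = ∑ i, (c i : L) * e i) →
  (∀ i, e i ∈ MU hc α J 𝔮 g) →
  ∀ (Q : ℤ) (𝔭' 𝔮' : HeightOneSpectrum O), TwoP a b θ Q 𝔭' 𝔮' → Q % 8 = 1 → Q ∉ J →
  (∀ 𝔓 : HeightOneSpectrum O, Ov Q 𝔓 → Ev 𝔓 α) → ¬ Sq1 𝔮' α →
  ∀ s : ℤ, Q ∣ a * (∏ Q ∈ J, Q) ^ 2 - s → C1 Q s (tup B)

end Pool.Agent.H62.PR
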