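import Pool.Agent.H62.PR.Loc0

/-!
# Project PR (helper62): local conditions of the tuple at the ramified primes
-/

set_option autoImplicit false
set_option linter.all false

open IsDedekindDomain NumberField WithZero Polynomial Matrix
open scoped Classical

namespace Pool.Agent.H62.PR

open Pool.Agent.N874.PP (Tup chA chB gq tau Two Ev Sq1 U0)
open Pool.Agent.N922.PQ
open Pool.Agent.N301.PQ (co_crd crd_inj crd_add crd_smul crd_C crd_theta mapO exO theta_ex mem_P1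
  mem_P2 mem_both poly_mem int_iff)

section pair

variable {L : Type} [Field L] [NumberField L] {a b : ℤ} {θ α : L} {e : Fin 3 → L} {D : ℤ}
  {hc : IsCub a b θ} {B : Fin 3 → Fin 3 → ℤ}

theorem NB.symm (h : NB hc α D e B) (i j : Fin 3) : B i j = B j i := by
  have h1 := h.b i j
  rw [mul_comm (e i), h.b j i] at h1
  exact_mod_cast h1.symm

theorem NB.mat_eq (h : NB hc α D e B) (i j : Fin 3) : mat (tup B) i j = B i j := by
  have h1 := h.symm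
  have h2 := h.tr
  fin_cases i <;> fin_cases j <;>
    simp [Pool.Agent.H62.PR.mat, tup, h2, h1 1 0, h1 2 0, h1 2 1]

theorem bil (φ : L →ₗ[ℚ] ℚ) (α : L) (e : Fin 3 → L) (ξ ζ : Fin 3 → ℤ) :
    φ ((∑ i, (ξ i : L) * e i) * (∑ i, (ζ i : L) * e i) / α) =
      ∑ i, ∑ j, (ξ i : ℚ) * (ζ j : ℚ) * φ (e i * e j / α) := by
  have h1 : (∑ i, (ξ i : L) * e i) * (∑ i, (ζ i : L) * e i) / α =
      ∑ i, ∑ j, ((ξ i : ℚ) * (ζ j : ℚ)) • (e i * e j / α) := by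
    rw [Finset.sum_mul_sum, Finset.sum_div]
    refine Finset.sum_congr rfl fun i _ => ?_
    rw [Finset.sum_div]
    refine Finset.sum_congr rfl fun j _ => ?_
    rw [Rat.smul_def]
    push_cast
    ring
  rw [h1, map_sum]
  refine Finset.sum_congr rfl fun i _ => ?_
  rw [map_sum]
  refine Finset.sum_congr rfl fun j _ => ?_
  rw [map_smul, smul_eq_mul]

/-- The pairing in coordinates. -/
theorem NB.co2 (h : NB hc α D e B) (ξ ζ : Fin 3 → ℤ) :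
    hc.co 2 ((∑ i, (ξ i : L) * e i) * (∑ i, (ζ i : L) * e i) / α) =
      ((ξ ⬝ᵥ JJ *ᵥ ζ : ℤ) : ℚ) := by
  rw [bil]
  simp only [h.g]
  simp only [dotProduct, mulVec, Fin.sum_univ_three]
  push_cast
  ring

theorem NB.co1 (h : NB hc α D e B) (ξ ζ : Fin 3 → ℤ) :
    (D : ℚ) * hc.co 1 ((∑ i, (ξ i : L) * e i) * (∑ i, (ζ i : L) * e i) / α) =
      ((ξ ⬝ᵥ mat (tup B) *ᵥ ζ : ℤ) : ℚ) := by
  rw [bil]
  have h1 : ∀ i j, ((mat (tup B) i j : ℤ) : ℚ) = (D : ℚ) * hc.co 1 (e i * e j / α) := fun i j => by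
    rw [h.mat_eq, h.b]
  simp only [dotProduct, mulVec, Fin.sum_univ_three]
  push_cast
  simp only [h1]
  ring

theorem NB.co2' (h : NB hc α D e B) (i : Fin 3) (ζ : Fin 3 → ℤ) :
    hc.co 2 (e i * (∑ i, (ζ i : L) * e i) / α) = (((JJ *ᵥ ζ) i : ℤ) : ℚ) := by
  have h1 := h.co2 (Pi.single i 1) ζ
  rw [single_one_dotProduct] at h1
  rw [← h1]
  congr 3
  rw [Finset.sum_eq_single i]
  · simp
  · intro j _ hj
    simp [Pi.single_eq_of_ne hj]
  · simp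

theorem NB.co1' (h : NB hc α D e B) (i : Fin 3) (ζ : Fin 3 → ℤ) :
    (D : ℚ) * hc.co 1 (e i * (∑ i, (ζ i : L) * e i) / α) =
      (((mat (tup B) *ᵥ ζ) i : ℤ) : ℚ) := by
  have h1 := h.co1 (Pi.single i 1) ζ
  rw [single_one_dotProduct] at h1
  rw [← h1]
  congr 4
  rw [Finset.sum_eq_single i]
  · simp
  · intro j _ hj
    simp [Pi.single_eq_of_ne hj]
  · simp

end pair

section loc

variable {L O : Type} [Field L] [NumberField L] [CommRing O] [IsDedekindDomain O] [Algebra O L]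
  [IsFractionRing O L] [IsIntegralClosure O ℤ L] {a b : ℤ} {θ α : L} {J : Finset ℤ}
  {𝔭 𝔮 : ℤ → HeightOneSpectrum O} {g : ℤ → L}
  (hI : S_INT) (hc : IsCub a b θ) (hsq : Squarefree (dsc a b))
  (hT : TwD a b θ α J 𝔭 𝔮 g) {e : Fin 3 → L} {B : Fin 3 → Fin 3 → ℤ}
  (hB : NB hc α (∏ Q ∈ J, Q) e B)
  (hsp : ∀ y ∈ MU hc α J 𝔮 g, ∃ c : Fin 3 → ℤ, y = ∑ i, (c i : L) * e i)
  (hm : ∀ i, e i ∈ MU hc α J 𝔮 g)

include hc in
theorem co2_th : hc.co 2 θ = 0 ∧ hc.co 1 θ = 1 ∧ hc.co 1 (θ ^ 2) = 0 ∧ hc.co 2 (θ ^ 2 * θ) = 0 := by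
  have h1 : Crd θ ![0, 1, 0] θ := by simp [Crd]
  have h2 : Crd θ ![0, 0, 1] (θ ^ 2) := by simp [Crd]
  have h3 := crd_theta hc h2
  refine ⟨?_, ?_, ?_, ?_⟩
  · rw [co_crd hc h1]; simp
  · rw [co_crd hc h1]; simp
  · rw [co_crd hc h2]; simp
  · rw [mul_comm, co_crd hc h3]; simp

include hI hc hsq hT hB hsp hm in
/-- Type 2. -/
theorem loc2 (hA : chA (tup B) = a * (∏ Q ∈ J, Q) ^ 2) {Q : ℤ} (hQ : Q ∈ J) {s : ℤ}
    (hs : Q ∣ a * D1 J Q ^ 2 - s) : C2 Q s (tup B) := by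
  have hα := hT.ne
  have hQ0 : (Q : L) ≠ 0 := by exact_mod_cast (hT.pr hQ).1.ne'
  have hth := theta_int hc
  have hgm := M0_theta hc (hT.gm Q hQ)
  obtain ⟨ξ, hξ⟩ := hsp _ (hT.M0_le_MU hI hc hsq _ hgm)
  obtain ⟨x0, hx0, e0⟩ := hT.gq Q hQ
  obtain ⟨c1, c2, c3, c4⟩ := co2_th hc
  -- `k i`
  choose k x hx hk hk' using fun i => hT.f5 hI hc hsq hQ (hm i)
  have hJξ : ∀ i, (JJ *ᵥ ξ) i = k i := by
    intro i
    have h1 := hB.co2' i ξ
    rw [← hξ] at h1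
    have h2 : e i * (θ * g Q) / α = θ * (g Q * e i / α) := by ring
    rw [h2, (Pool.Agent.N227.PQ.co_th hc _).1, hk' i] at h1
    exact_mod_cast h1.symm
  refine ⟨ξ, ?_, ?_, ?_, ?_, ?_⟩
  · -- `ξ` is not divisible by `Q`
    by_contra hcon
    push Not at hcon
    obtain ⟨ζ, hζ⟩ := hsp _ (hT.gdiv hI hc hsq hQ)
    have h1 := hB.co2 ξ ζ
    rw [← hξ, ← hζ] at h1
    have h2 : θ * g Q * (g Q / (Q : L)) / α = (D1 J Q : L) * (θ ^ 2) + (Q : L) * (θ * x0) := by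
      have : θ * g Q * (g Q / (Q : L)) / α = θ * (g Q ^ 2 / α) / (Q : L) := by
        field_simp
      rw [this, e0]
      field_simp
    obtain ⟨v, -, hv⟩ := co_int hI hc hsq (hth.mul hx0)
    have c5 : hc.co 2 (θ ^ 2) = 1 := by
      rw [co_crd hc (v := ![0, 0, 1]) (by simp [Crd])]; simp
    rw [h2, map_add, Pool.Agent.N227.PQ.co_int_smul, Pool.Agent.N227.PQ.co_int_smul, c5, hv] at h1
    have h3 : D1 J Q + Q * v 2 = ξ ⬝ᵥ JJ *ᵥ ζ := by
      rw [mul_one] at h1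
      exact_mod_cast h1
    apply not_dvd_D1 (fun P hP => hT.pr hP) hQ
    have h4 : Q ∣ ξ ⬝ᵥ JJ *ᵥ ζ := by
      rw [dotProduct]
      exact Finset.dvd_sum fun i _ => Dvd.dvd.mul_right (hcon i) _
    have h5 : D1 J Q = ξ ⬝ᵥ JJ *ᵥ ζ - Q * v 2 := by rw [← h3]; ring
    rw [h5]
    exact dvd_sub h4 (dvd_mul_right _ _)
  · have h1 := hB.co2 ξ ξ
    rw [← hξ] at h1
    have h2 : θ * g Q * (θ * g Q) / α = ((Q * D1 J Q : ℤ) : L) * (θ ^ 2 * θ) +
        ((Q ^ 2 : ℤ) : L) * (θ ^ 2 * x0) := by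
      have : θ * g Q * (θ * g Q) / α = θ ^ 2 * (g Q ^ 2 / α) := by ring
      rw [this, e0]
      push_cast
      ring
    obtain ⟨v, -, hv⟩ := co_int hI hc hsq ((hth.pow 2).mul hx0)
    rw [h2, map_add, Pool.Agent.N227.PQ.co_int_smul, Pool.Agent.N227.PQ.co_int_smul, c4, hv] at h1
    have h3 : Q ^ 2 * v 2 = ξ ⬝ᵥ JJ *ᵥ ξ := by
      rw [mul_zero, zero_add] at h1
      exact_mod_cast h1
    rw [← h3]
    exact dvd_mul_right _ _
  · intro i j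
    rw [hB.mat_eq, hJξ, hJξ]
    obtain ⟨v, hv, hv'⟩ := co_int hI hc hsq (hT.f4 (hm i).1 (hm j).1).1
    have h1 := (hT.f6 hI hc hsq hQ (hm i) (hm j) (hx i) (hx j) (hk i) (hk j) hv).2.1
    have h2 : v 1 = B i j := by
      have h3 := hB.b i j
      have h4 := hv' 1
      rw [Pool.Agent.N227.PQ.co_int_smul] at h4
      rw [h4] at h3
      exact_mod_cast h3
    rw [← h2]
    exact h1
  · intro i
    have h1 := hB.co1' i ξ
    rw [← hξ] at h1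
    have h2 : e i * (θ * g Q) / α = (k i : L) * θ ^ 2 + (Q : L) * (θ * x i) := by
      have : e i * (θ * g Q) / α = θ * (g Q * e i / α) := by ring
      rw [this, hk i]
      ring
    obtain ⟨v, -, hv⟩ := co_int hI hc hsq (hth.mul (hx i))
    rw [h2, map_add, Pool.Agent.N227.PQ.co_int_smul, Pool.Agent.N227.PQ.co_int_smul, c3, hv] at h1
    have h3 : (∏ Q ∈ J, Q) * (Q * v 1) = (mat (tup B) *ᵥ ξ) i := by
      rw [mul_zero, zero_add] at h1
      exact_mod_cast h1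
    rw [← h3, ← D1_mul hQ]
    exact ⟨D1 J Q * v 1, by ring⟩
  · rw [hA, ← D1_mul hQ]
    obtain ⟨c, hc'⟩ := hs
    refine ⟨c, ?_⟩
    linear_combination Q ^ 2 * hc'

end loc

end Pool.Agent.H62.PR
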