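import Mathlib

/-!
# Project PR (helper62): averaging over pairs and nearly equal boxes
-/

set_option autoImplicit false
set_option linter.all false

open scoped Classical

namespace Pool.Agent.H62.PR

theorem avg {α β : Type} (E : Finset α) (𝒥 : Finset β) (ι : α → α)
    (hι : ∀ p ∈ E, ι p ∈ E) (hιι : ∀ p, ι (ι p) = p) (dm : α → β → Prop) (c ε η : ℝ)
    (hc : 0 ≤ c) (hc1 : c ≤ 1) (hε : 0 ≤ ε) (hη : 0 ≤ η) (G : Finset α) (hGE : G ⊆ E)
    (hG : (1 - ε) * (E.card : ℝ) ≤ G.card)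
    (hpair : ∀ p ∈ G, ι p ∈ G → |((𝒥.filter fun J => dm p J).card : ℝ) +
      ((𝒥.filter fun J => dm (ι p) J).card : ℝ) - 2 * c * 𝒥.card| ≤ 2 * ε * 𝒥.card)
    (EJ : β → Finset α) (hEJ : ∀ J ∈ 𝒥, EJ J ⊆ E)
    (hEη : ∀ J ∈ 𝒥, (E.card : ℝ) - (EJ J).card ≤ η * E.card) :
    |∑ J ∈ 𝒥, (((EJ J).filter fun p => dm p J).card : ℝ) - c * ∑ J ∈ 𝒥, ((EJ J).card : ℝ)| ≤
      (2 * η + 3 * ε) * (𝒥.card * E.card) := by
  obtain ⟨n, hn⟩ : ∃ n : α → ℝ, n = fun p => ((𝒥.filter fun J => dm p J).card : ℝ) := ⟨_, rfl⟩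
  obtain ⟨N, hN⟩ : ∃ N : ℝ, N = (𝒥.card : ℝ) := ⟨_, rfl⟩
  obtain ⟨e, he⟩ : ∃ e : ℝ, e = (E.card : ℝ) := ⟨_, rfl⟩
  have hN0 : 0 ≤ N := by rw [hN]; positivity
  have he0 : 0 ≤ e := by rw [he]; positivity
  have hn0 : ∀ p, 0 ≤ n p := fun p => by rw [hn]; positivity
  have hnN : ∀ p, n p ≤ N := fun p => by
    rw [hn, hN]
    show ((𝒥.filter fun J => dm p J).card : ℝ) ≤ 𝒥.card
    exact_mod_cast Finset.card_filter_le _ _
  -- double counting
  have hW : ∑ J ∈ 𝒥, ((E.filter fun p => dm p J).card : ℝ) = ∑ p ∈ E, n p := by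
    have h1 : ∀ J, ((E.filter fun p => dm p J).card : ℝ) = ∑ p ∈ E, if dm p J then (1 : ℝ) else 0 := by
      intro J
      rw [Finset.sum_boole]
    have h2 : ∀ p, n p = ∑ J ∈ 𝒥, if dm p J then (1 : ℝ) else 0 := by
      intro p
      rw [hn, Finset.sum_boole]
    simp_rw [h1, h2]
    exact Finset.sum_comm
  have hinv : ∑ p ∈ E, n (ι p) = ∑ p ∈ E, n p :=
    Finset.sum_nbij' ι ι hι hι (fun p _ => hιι p) (fun p _ => hιι p) fun p _ => rfl
  have hinvG : ∑ p ∈ E, (if ι p ∈ G then (0 : ℝ) else 1) = ∑ p ∈ E, (if p ∈ G then (0 : ℝ) else 1) :=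
    Finset.sum_nbij' ι ι hι hι (fun p _ => hιι p) (fun p _ => hιι p) fun p _ => rfl
  have hGs : ∑ p ∈ E, (if p ∈ G then (0 : ℝ) else 1) ≤ ε * e := by
    have h1 : ∑ p ∈ E, (if p ∈ G then (0 : ℝ) else 1) = e - G.card := by
      have h2 : ∀ p, (if p ∈ G then (0 : ℝ) else 1) = 1 - (if p ∈ G then 1 else 0) := by
        intro p
        split_ifs <;> ring
      simp_rw [h2]
      rw [Finset.sum_sub_distrib, Finset.sum_const, nsmul_eq_mul, mul_one, ← he, Finset.sum_boole]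
      congr 3
      ext p
      rw [Finset.mem_filter]
      exact ⟨fun h => h.2, fun h => ⟨hGE h, h⟩⟩
    rw [h1]
    rw [← he] at hG
    linarith
  have hpt : ∀ p ∈ E, |n p + n (ι p) - 2 * c * N| ≤ 2 * ε * N +
      (2 * N) * (if p ∈ G then (0 : ℝ) else 1) + (2 * N) * (if ι p ∈ G then (0 : ℝ) else 1) := by
    intro p hp
    have h0 : |n p + n (ι p) - 2 * c * N| ≤ 2 * N := by
      rw [abs_le]
      have h1 := hn0 p
      have h2 := hnN p
      have h3 := hn0 (ι p)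
      have h4 := hnN (ι p)
      have h5 : 0 ≤ c * N := mul_nonneg hc hN0
      have h6 : c * N ≤ N := mul_le_of_le_one_left hN0 hc1
      constructor <;> nlinarith
    have h7 : 0 ≤ ε * N := mul_nonneg hε hN0
    by_cases h1 : p ∈ G
    · by_cases h2 : ι p ∈ G
      · rw [if_pos h1, if_pos h2, mul_zero, add_zero, add_zero]
        have := hpair p h1 h2
        rw [← hN] at this
        rw [hn]
        exact this
      · rw [if_neg h2]
        split_ifs
        linarith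
    · rw [if_neg h1]
      split_ifs <;> linarith
  have hW2 : |∑ p ∈ E, n p - c * (N * e)| ≤ 3 * ε * (N * e) := by
    have h1 : |2 * (∑ p ∈ E, n p - c * (N * e))| ≤ 6 * ε * (N * e) := by
      have h2 : 2 * (∑ p ∈ E, n p - c * (N * e)) = ∑ p ∈ E, (n p + n (ι p) - 2 * c * N) := by
        rw [Finset.sum_sub_distrib, Finset.sum_add_distrib, hinv, Finset.sum_const, nsmul_eq_mul,
          ← he]
        ring
      rw [h2]
      calc |∑ p ∈ E, (n p + n (ι p) - 2 * c * N)| ≤ ∑ p ∈ E, |n p + n (ι p) - 2 * c * N| :=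
            Finset.abs_sum_le_sum_abs _ _
        _ ≤ ∑ p ∈ E, (2 * ε * N + (2 * N) * (if p ∈ G then (0 : ℝ) else 1) +
            (2 * N) * (if ι p ∈ G then (0 : ℝ) else 1)) := Finset.sum_le_sum hpt
        _ = e * (2 * ε * N) + (2 * N) * ∑ p ∈ E, (if p ∈ G then (0 : ℝ) else 1) +
            (2 * N) * ∑ p ∈ E, (if ι p ∈ G then (0 : ℝ) else 1) := by
          rw [Finset.sum_add_distrib, Finset.sum_add_distrib, Finset.sum_const, nsmul_eq_mul,
            Finset.mul_sum, Finset.mul_sum, ← he]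
        _ ≤ e * (2 * ε * N) + (2 * N) * (ε * e) + (2 * N) * (ε * e) := by
          rw [hinvG]
          have := mul_le_mul_of_nonneg_left hGs (show (0 : ℝ) ≤ 2 * N by positivity)
          linarith
        _ = _ := by ring
    rw [abs_mul, abs_of_pos (by norm_num : (0 : ℝ) < 2)] at h1
    linarith
  -- nearly equal boxes
  have hV : ∑ J ∈ 𝒥, (e - ((EJ J).card : ℝ)) ≤ N * (η * e) := by
    calc ∑ J ∈ 𝒥, (e - ((EJ J).card : ℝ)) ≤ ∑ J ∈ 𝒥, η * e := by
          refine Finset.sum_le_sum fun J hJ => ?_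
          rw [he]
          exact hEη J hJ
      _ = _ := by rw [Finset.sum_const, nsmul_eq_mul, ← hN]
  have hV1 : ∑ J ∈ 𝒥, ((EJ J).card : ℝ) = N * e - ∑ J ∈ 𝒥, (e - ((EJ J).card : ℝ)) := by
    rw [Finset.sum_sub_distrib, Finset.sum_const, nsmul_eq_mul, ← hN]
    ring
  have hV0 : 0 ≤ ∑ J ∈ 𝒥, (e - ((EJ J).card : ℝ)) := by
    refine Finset.sum_nonneg fun J hJ => ?_
    rw [he, sub_nonneg]
    exact_mod_cast Finset.card_le_card (hEJ J hJ)
  have hd1 : ∑ J ∈ 𝒥, ((E.filter fun p => dm p J).card : ℝ) -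
      ∑ J ∈ 𝒥, (((EJ J).filter fun p => dm p J).card : ℝ) ≤ ∑ J ∈ 𝒥, (e - ((EJ J).card : ℝ)) := by
    rw [← Finset.sum_sub_distrib]
    refine Finset.sum_le_sum fun J hJ => ?_
    have h1 : (E.filter fun p => dm p J).card ≤ ((EJ J).filter fun p => dm p J).card +
        (E \ EJ J).card := by
      refine (Finset.card_le_card ?_).trans (Finset.card_union_le _ _)
      intro p hp
      rw [Finset.mem_filter] at hp
      rw [Finset.mem_union, Finset.mem_filter, Finset.mem_sdiff]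
      by_cases h : p ∈ EJ J
      · exact Or.inl ⟨h, hp.2⟩
      · exact Or.inr ⟨hp.1, h⟩
    have h2 : (E \ EJ J).card + (EJ J).card = E.card := by
      rw [Finset.card_sdiff_add_card_eq_card (hEJ J hJ)]
    have h3 : ((E.filter fun p => dm p J).card : ℝ) ≤ ((EJ J).filter fun p => dm p J).card +
        (E \ EJ J).card := by exact_mod_cast h1
    have h4 : ((E \ EJ J).card : ℝ) + (EJ J).card = e := by rw [he]; exact_mod_cast h2
    linarith
  have hd0 : 0 ≤ ∑ J ∈ 𝒥, ((E.filter fun p => dm p J).card : ℝ) -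
      ∑ J ∈ 𝒥, (((EJ J).filter fun p => dm p J).card : ℝ) := by
    rw [← Finset.sum_sub_distrib]
    refine Finset.sum_nonneg fun J hJ => ?_
    rw [sub_nonneg]
    exact_mod_cast Finset.card_le_card (Finset.filter_subset_filter _ (hEJ J hJ))
  rw [hW] at hd1 hd0
  rw [← hN, ← he, hV1]
  have hW3 := abs_le.1 hW2
  generalize ∑ J ∈ 𝒥, (e - ((EJ J).card : ℝ)) = v at *
  generalize ∑ p ∈ E, n p = w at *
  generalize ∑ J ∈ 𝒥, (((EJ J).filter fun p => dm p J).card : ℝ) = u at *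
  have h5 : 0 ≤ c * v := mul_nonneg hc hV0
  have h6 : c * v ≤ v := mul_le_of_le_one_left hV0 hc1
  rw [abs_le]
  constructor
  · nlinarith
  · nlinarith

end Pool.Agent.H62.PR
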