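import Pool.Agent.H62.PR.Slice1
import Pool.Agent.H35.PR.Slice

/-!
# Project PR (helper62): `S_MCK2`; the proof is that of `S_MCK` by helper35 (`H35/PR/Slice.lean`),
which gives the exact parity, too
-/

set_option autoImplicit false
set_option linter.all false

open Finset
open scoped BigOperators symmDiff

namespace Pool.Agent.H62.PR.Slice2

open Pool.Agent.H62.PR (Cd LJ S_EUL S_MC S_MCK S_MCK2 SliceOK)
open Pool.Agent.H72.PR.MC
open Pool.Agent.H35.PR.Slice

noncomputable section

variable {ι : Type} [Fintype ι]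

attribute [local instance] Classical.propDecidable

/-- `oneK` of helper35 with the exact parity -/
theorem oneK' (hEUL : S_EUL) (S : Submodule F2 (ι → F2 × F2))
    (hq : ∀ l ∈ S, ∑ i, (l i).1 * (l i).2 = 0) (hd : Fintype.card ι ≤ Module.finrank F2 S)
    (k : ℕ) (hk : 0 < k) (hc : Fintype.card ι = 2 * k) (δ : ℝ) (hδ : 0 < δ)
    (hA1 : (((powersetCard k (Finset.univ : Finset ι)).filter fun J =>
      ¬ ∀ l ∈ MJ S J, l ≠ 0 → TyW δ (Wk k J) (zs l)).card : ℝ) ≤
      δ * (powersetCard k (Finset.univ : Finset ι)).card)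
    (hA2 : (((powersetCard (k + 1) (Finset.univ : Finset ι)).filter fun J =>
      ¬ ∀ l ∈ MJ S J, l ≠ 0 → TyW δ (Wk k J) (zs l)).card : ℝ) ≤
      δ * (powersetCard (k + 1) (Finset.univ : Finset ι)).card) :
    ∃ π : ℕ, π < 2 ∧ (∀ J : Finset ι, J.card = k → Module.finrank F2 (MJ S J) % 2 = π) ∧ ∀ d : ℕ,
    |((Finset.univ.filter fun J : Finset ι => J.card = k ∧ Module.finrank F2 (MJ S J) = d).card : ℝ) -
      (if d % 2 = π then 2 * Cd d else 0) * (Nat.choose (2 * k) k : ℝ)| ≤
        144 * δ * (Nat.choose (2 * k) k : ℝ) := by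
  set D : Finset ι → ℕ := fun J => Module.finrank F2 (MJ S J) with hD
  have h1 : ∀ J i, i ∈ ZJ S J → D (J ∆ {i}) = D J + 1 ∧ i ∉ ZJ S (J ∆ {i}) :=
    fun J i hi => flip_vanish S hq hd J i hi
  have h2 : ∀ J i, i ∉ ZJ S J → D (J ∆ {i}) + 1 = D J ∧ i ∈ ZJ S (J ∆ {i}) :=
    fun J i hi => flip_nonvanish S hq J i hi
  set C : ℝ := (Nat.choose (2 * k) k : ℝ) with hC
  have hCpos : 0 < C := by
    rw [hC]; exact_mod_cast Nat.choose_pos (by omega)
  have hkpos : (0 : ℝ) < k := by exact_mod_cast hk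
  have hc1 : ((powersetCard k (Finset.univ : Finset ι)).card : ℝ) = C := by
    rw [Finset.card_powersetCard, Finset.card_univ, hc]
  have hc2 : ((k : ℝ) + 1) * ((powersetCard (k + 1) (Finset.univ : Finset ι)).card : ℝ) = k * C := by
    rw [Finset.card_powersetCard, Finset.card_univ, hc]
    have h3 := Nat.choose_succ_right_eq (2 * k) k
    have h4 := congrArg (Nat.cast : ℕ → ℝ) h3
    rw [show 2 * k - k = k by omega] at h4
    push_cast at h4
    rw [hC]
    linarith
  set T : Finset (Finset ι) := Finset.univ.filter fun J =>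
      ¬ ∀ l ∈ MJ S J, l ≠ 0 → TyW δ (Wk k J) (zs l) with hT
  have hsumW : ∑ J ∈ Ak ι k, ((Wk k J).card : ℝ) = 2 * k * C := by
    rw [Ak_sum, Finset.sum_congr rfl fun J hJ => by rw [Wk_card1 k hc J hJ],
      Finset.sum_congr (s₁ := powersetCard (k + 1) _) rfl fun J hJ => by rw [Wk_card2 k J hJ],
      Finset.sum_const, Finset.sum_const, nsmul_eq_mul, nsmul_eq_mul, hc1]
    push_cast
    linarith
  have hsumT : ∑ J ∈ Ak ι k, (if J ∈ T then ((Wk k J).card : ℝ) else 0) ≤ 2 * δ * k * C := by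
    rw [Ak_sum, Finset.sum_congr rfl fun J hJ => by rw [Wk_card1 k hc J hJ],
      Finset.sum_congr (s₁ := powersetCard (k + 1) _) rfl fun J hJ => by rw [Wk_card2 k J hJ],
      ← Finset.sum_filter, ← Finset.sum_filter,
      Finset.sum_const, Finset.sum_const, nsmul_eq_mul, nsmul_eq_mul]
    have e1 : ∀ m, (powersetCard m (Finset.univ : Finset ι)).filter (fun J => J ∈ T) =
        (powersetCard m (Finset.univ : Finset ι)).filter (fun J =>
      ¬ ∀ l ∈ MJ S J, l ≠ 0 → TyW δ (Wk k J) (zs l)) := by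
      intro m
      refine Finset.filter_congr fun J _ => ?_
      simp only [hT, Finset.mem_filter, Finset.mem_univ, true_and]
    rw [e1, e1]
    rw [hc1] at hA1
    have e2 := mul_le_mul_of_nonneg_right hA1 hkpos.le
    have e3 := mul_le_mul_of_nonneg_right hA2 (show (0 : ℝ) ≤ (k : ℝ) + 1 by positivity)
    push_cast
    have e4 : δ * ((powersetCard (k + 1) (Finset.univ : Finset ι)).card : ℝ) * ((k : ℝ) + 1) =
        δ * (k * C) := by rw [← hc2]; ring
    linarith
  set p : ℕ → ℝ := fun d => PW D (Ak ι k) (Wk k) d / (2 * k * C) with hp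
  have hps : HasSum p 1 := by
    set M := Finset.univ.sup D with hM
    have hle : ∀ J, D J < M + 1 := fun J =>
      Nat.lt_succ_of_le (Finset.le_sup (f := D) (Finset.mem_univ J))
    have h1 : ∑ d ∈ range (M + 1), p d = 1 := by
      simp only [hp]
      rw [← Finset.sum_div, div_eq_one_iff_eq (by positivity), ← hsumW]
      simp only [PW]
      exact Finset.sum_fiberwise_of_maps_to (s := Ak ι k) (t := range (M + 1)) (g := D)
        (fun J _ => by simpa using hle J) (fun J => ((Wk k J).card : ℝ))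
    rw [← h1]
    apply hasSum_sum_of_ne_finset_zero
    intro d hd
    simp only [hp]
    rw [div_eq_zero_iff]
    left
    rw [PW, Finset.filter_false_of_mem, Finset.sum_empty]
    intro J _ h
    apply hd
    rw [Finset.mem_range, ← h]
    exact hle J
  have hE : ∀ N, ∑ d ∈ range N, |p d * (1 / 2) ^ d - p (d + 1) * (1 - (1 / 2) ^ (d + 1))| ≤
      6 * δ := by
    intro N
    have hB := partBW D (ZJ S) (Ak ι k) (Wk k) (Ak_flip k) h1 h2 δ hδ.le T
      (fun J _ hJ => typ_devW S J (Wk k J) δ hδ.le (by simpa [hT] using hJ)) N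
    have h3 : (2 * k * C) * ∑ d ∈ range N,
        |p d * (1 / 2) ^ d - p (d + 1) * (1 - (1 / 2) ^ (d + 1))| ≤ (2 * k * C) * (6 * δ) := by
      calc _ = ∑ d ∈ range N, |PW D (Ak ι k) (Wk k) d * (1 / 2) ^ d -
            PW D (Ak ι k) (Wk k) (d + 1) * (1 - (1 / 2) ^ (d + 1))| := by
            rw [Finset.mul_sum]
            refine Finset.sum_congr rfl fun d _ => ?_
            rw [← abs_of_pos (a := (2 * k * C : ℝ)) (by positivity), ← abs_mul]
            congr 1
            simp only [hp]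
            field_simp
        _ ≤ _ := hB
        _ ≤ _ := by
            rw [Finset.sum_add_distrib, ← Finset.mul_sum, hsumW]
            linarith
    exact le_of_mul_le_mul_left h3 (by positivity)
  have hmain := partC p hps (6 * δ) hE hEUL
  refine ⟨(D ∅ + k) % 2, Nat.mod_lt _ (by norm_num), fun J hJ => by
    have := parity D (ZJ S) h1 h2 J
    rw [hJ] at this
    exact this, fun d => ?_⟩
  split_ifs with hpar
  · have h3 : PW D (Ak ι k) (Wk k) d =
        k * ((Finset.univ.filter fun J : Finset ι => J.card = k ∧ D J = d).card : ℝ) := by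
      rw [PW]
      have e1 : (Ak ι k).filter (fun J => D J = d) =
          Finset.univ.filter fun J : Finset ι => J.card = k ∧ D J = d := by
        ext J
        simp only [Ak, Finset.mem_filter, Finset.mem_univ, true_and]
        constructor
        · rintro ⟨h | h, h'⟩
          · exact ⟨h, h'⟩
          · exfalso
            have := parity D (ZJ S) h1 h2 J
            rw [h, h'] at this
            omega
        · rintro ⟨h, h'⟩
          exact ⟨Or.inl h, h'⟩
      rw [e1, Finset.sum_congr rfl (g := fun _ => (k : ℝ))]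
      · rw [Finset.sum_const, nsmul_eq_mul]; ring
      · intro J hJ
        rw [Wk_card1 k hc J (by
          rw [Finset.mem_powersetCard_univ]; exact (Finset.mem_filter.mp hJ).2.1)]
    have h4 : ((Finset.univ.filter fun J : Finset ι => J.card = k ∧ D J = d).card : ℝ) =
        2 * C * p d := by
      simp only [hp]
      rw [h3]; field_simp
    rw [h4, show 2 * C * p d - 2 * Cd d * C = 2 * C * (p d - Cd d) by ring, abs_mul,
      abs_of_pos (a := 2 * C) (by positivity)]
    have h5 := mul_le_mul_of_nonneg_left (hmain d) (show (0 : ℝ) ≤ 2 * C by positivity)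
    linarith
  · have h3 : (Finset.univ.filter fun J : Finset ι => J.card = k ∧ D J = d) = ∅ := by
      rw [Finset.filter_eq_empty_iff]
      rintro J _ ⟨h, h'⟩
      have := parity D (ZJ S) h1 h2 J
      rw [h, h'] at this
      exact hpar this
    rw [h3]
    simp only [Finset.card_empty, Nat.cast_zero, zero_mul, sub_zero, abs_zero]
    positivity

/-- Part MCK2. -/
theorem mck2 (hEUL : S_EUL) : S_MCK2 := by
  intro ε K hε
  set δ : ℝ := ε / 144 with hδdef
  have hδ : 0 < δ := by positivity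
  set K' : ℝ := max K 0 with hK'
  have hK'0 : 0 ≤ K' := le_max_right _ _
  refine ⟨⌈K' / (2 * δ ^ 3 * ε)⌉₊ + 1, ?_⟩
  intro ι Ω _ _ k hn hc Λ hq hcard hK
  have hn0 : 0 < k := by omega
  have hkpos : (0 : ℝ) < k := by exact_mod_cast hn0
  set S : Ω → Submodule F2 (ι → F2 × F2) := fun ω => AddSubgroup.toZModSubmodule 2 (Λ ω) with hS
  have hmem : ∀ ω l, l ∈ S ω ↔ l ∈ Λ ω := fun ω l => Iff.rfl
  have hSq : ∀ ω, ∀ l ∈ S ω, ∑ i, (l i).1 * (l i).2 = 0 := hq
  have hSd : ∀ ω, Fintype.card ι ≤ Module.finrank F2 (S ω) := by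
    intro ω
    have h1 : Nat.card (S ω) = 2 ^ Module.finrank F2 (S ω) := by
      rw [Module.natCard_eq_pow_finrank (K := F2), Nat.card_zmod]
    have h2 : 2 ^ Fintype.card ι ≤ Nat.card (S ω) := hcard ω
    rw [h1] at h2
    exact (Nat.pow_le_pow_iff_right (by norm_num)).mp h2
  have hSK : ∀ J Z : Finset ι, (2 : ℝ) ^ Fintype.card ι *
      ((Finset.univ.filter fun ω => ∃ l ∈ MJ (S ω) J, l ≠ 0 ∧ zs l = Z).card : ℝ) ≤
        K' * Fintype.card Ω := by
    intro J Z
    have h1 := hK J Z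
    have h2 : Nat.card {ω : Ω // ∃ l ∈ Λ ω, l ∈ LJ J ∧ l ≠ 0 ∧ ∀ i, l i = 0 ↔ i ∈ Z} =
        (Finset.univ.filter fun ω => ∃ l ∈ MJ (S ω) J, l ≠ 0 ∧ zs l = Z).card := by
      rw [Nat.card_eq_fintype_card, Fintype.card_subtype]
      congr 1
      ext ω
      simp only [Finset.mem_filter, Finset.mem_univ, true_and]
      constructor
      · rintro ⟨l, h1, h2, h3, h4⟩
        refine ⟨l, (mem_MJ _ _ _).mpr ⟨h1, h2⟩, h3, ?_⟩
        ext i; rw [mem_zs]; exact h4 i
      · rintro ⟨l, h1, h3, h4⟩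
        refine ⟨l, ((mem_MJ _ _ _).mp h1).1, ((mem_MJ _ _ _).mp h1).2, h3, fun i => ?_⟩
        rw [← h4, mem_zs]
    rw [h2] at h1
    refine h1.trans ?_
    exact mul_le_mul_of_nonneg_right (le_max_left _ _) (by positivity)
  have hAne1 : 0 < (powersetCard k (Finset.univ : Finset ι)).card := by
    rw [Finset.card_powersetCard, Finset.card_univ, hc]
    exact Nat.choose_pos (by omega)
  have hAne2 : 0 < (powersetCard (k + 1) (Finset.univ : Finset ι)).card := by
    rw [Finset.card_powersetCard, Finset.card_univ, hc]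
    exact Nat.choose_pos (by omega)
  have hM1 := markovW Ω K' δ hδ hK'0 _ hAne1 (Wk k) k hn0 (Wk_card1 k hc) S hSK
  have hM2 := markovW Ω K' δ hδ hK'0 _ hAne2 (Wk k) (k + 1) (by omega) (Wk_card2 k) S hSK
  set Bad1 := Finset.univ.filter fun ω => δ * (powersetCard k (Finset.univ : Finset ι)).card <
      (((powersetCard k (Finset.univ : Finset ι)).filter fun J =>
        ¬ ∀ l ∈ MJ (S ω) J, l ≠ 0 → TyW δ (Wk k J) (zs l)).card : ℝ) with hBad1
  set Bad2 := Finset.univ.filter fun ω => δ * (powersetCard (k + 1) (Finset.univ : Finset ι)).card <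
      (((powersetCard (k + 1) (Finset.univ : Finset ι)).filter fun J =>
        ¬ ∀ l ∈ MJ (S ω) J, l ≠ 0 → TyW δ (Wk k J) (zs l)).card : ℝ) with hBad2
  have hkK : K' / (4 * δ ^ 3 * k) ≤ ε / 2 := by
    have h2 := Nat.le_ceil (K' / (2 * δ ^ 3 * ε))
    have h3 : ((⌈K' / (2 * δ ^ 3 * ε)⌉₊ : ℕ) : ℝ) ≤ k := by
      exact_mod_cast (by omega : ⌈K' / (2 * δ ^ 3 * ε)⌉₊ ≤ k)
    have h1 : K' / (2 * δ ^ 3 * ε) ≤ k := by linarith
    rw [div_le_iff₀ (by positivity)] at h1 ⊢
    linarith
  have hkK2 : K' / (4 * δ ^ 3 * ((k + 1 : ℕ) : ℝ)) ≤ ε / 2 := by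
    refine le_trans ?_ hkK
    apply div_le_div_of_nonneg_left hK'0 (by positivity)
    push_cast
    have : (0 : ℝ) < 4 * δ ^ 3 := by positivity
    nlinarith
  have hBadle : ((Bad1 ∪ Bad2).card : ℝ) ≤ ε * Fintype.card Ω := by
    have e1 : ((Bad1 ∪ Bad2).card : ℝ) ≤ Bad1.card + Bad2.card := by
      exact_mod_cast Finset.card_union_le _ _
    have e2 := mul_le_mul_of_nonneg_right hkK (show (0 : ℝ) ≤ Fintype.card Ω by positivity)
    have e3 := mul_le_mul_of_nonneg_right hkK2 (show (0 : ℝ) ≤ Fintype.card Ω by positivity)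
    linarith
  have hMJ : ∀ ω (J : Finset ι), Nat.card {l : ι → ZMod 2 × ZMod 2 // l ∈ Λ ω ∧ l ∈ LJ J} =
      2 ^ Module.finrank F2 (MJ (S ω) J) := by
    intro ω J
    have h4 : Nat.card (MJ (S ω) J) = 2 ^ Module.finrank F2 (MJ (S ω) J) := by
      rw [Module.natCard_eq_pow_finrank (K := F2), Nat.card_zmod]
    rw [← h4]
    exact Nat.card_congr (Equiv.subtypeEquivRight fun l => (mem_MJ (S ω) J l).symm)
  have hgood : ∀ ω ∉ Bad1 ∪ Bad2, ∃ π : ℕ, SliceOK ε k (Λ ω) π := by
    intro ω hω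
    rw [Finset.mem_union, not_or] at hω
    obtain ⟨π, hπ2, hπp, hπ⟩ := oneK' hEUL (S ω) (hSq ω) (hSd ω) k hn0 hc δ hδ (by
      have := hω.1
      simp only [hBad1, Finset.mem_filter, Finset.mem_univ, true_and, not_lt] at this
      exact this) (by
      have := hω.2
      simp only [hBad2, Finset.mem_filter, Finset.mem_univ, true_and, not_lt] at this
      exact this)
    refine ⟨π, hπ2, fun J hJ d hd => ?_, fun J => ⟨_, hMJ ω J⟩, fun d => ?_⟩
    · rw [hMJ] at hd
      have hd' : Module.finrank F2 (MJ (S ω) J) = d := Nat.pow_right_injective (le_refl 2) hd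
      rw [← hd']
      exact hπp J hJ
    have h2 : Nat.card {J : Finset ι // J.card = k ∧
        Nat.card {l : ι → ZMod 2 × ZMod 2 // l ∈ Λ ω ∧ l ∈ LJ J} = 2 ^ d} =
        (Finset.univ.filter fun J : Finset ι =>
          J.card = k ∧ Module.finrank F2 (MJ (S ω) J) = d).card := by
      rw [Nat.card_eq_fintype_card, Fintype.card_subtype]
      congr 1
      ext J
      simp only [Finset.mem_filter, Finset.mem_univ, true_and]
      have h3 : Nat.card {l : ι → ZMod 2 × ZMod 2 // l ∈ Λ ω ∧ l ∈ LJ J} =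
          2 ^ Module.finrank F2 (MJ (S ω) J) := by
        have h4 : Nat.card (MJ (S ω) J) = 2 ^ Module.finrank F2 (MJ (S ω) J) := by
          rw [Module.natCard_eq_pow_finrank (K := F2), Nat.card_zmod]
        rw [← h4]
        exact Nat.card_congr (Equiv.subtypeEquivRight fun l => (mem_MJ (S ω) J l).symm)
      rw [h3]
      exact ⟨fun h => ⟨h.1, Nat.pow_right_injective (le_refl 2) h.2⟩,
        fun h => ⟨h.1, by rw [h.2]⟩⟩
    rw [h2]
    refine (hπ d).trans (le_of_eq ?_)
    simp only [hδdef]; ring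
  have hfin : ((Bad1 ∪ Bad2)ᶜ.card : ℝ) ≤
      (Nat.card {ω : Ω // ∃ π : ℕ, SliceOK ε k (Λ ω) π} : ℝ) := by
    rw [Nat.card_eq_fintype_card, Fintype.card_subtype]
    have := Finset.card_le_card (s := (Bad1 ∪ Bad2)ᶜ) (t := Finset.univ.filter fun ω =>
      ∃ π : ℕ, SliceOK ε k (Λ ω) π) (by
      intro ω hω
      rw [Finset.mem_compl] at hω
      simp only [Finset.mem_filter, Finset.mem_univ, true_and]
      exact hgood ω hω)
    exact_mod_cast this
  refine le_trans ?_ hfin
  rw [Finset.card_compl, Nat.cast_sub (Finset.card_le_univ _)]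
  linarith

end

end Pool.Agent.H62.PR.Slice2
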