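import Pool.Agent.H62.PR.Fin3
import Pool.Agent.H62.PR.Slice2
import Pool.Agent.H62.PR.Nat1

/-!
# Project PR (helper62): the distribution on the slices, and the parity
-/

set_option autoImplicit false
set_option linter.all false

open Polynomial IsDedekindDomain WeierstrassCurve WeierstrassCurve.Affine NumberField
open Pool.Agent.TH115.GD
open scoped Classical IntermediateField

namespace Pool.Agent.H62.PR

open Pool.Agent.N874.PP (Tup chA chB gq tau Two Ev Sq1 U0 sW IsBeta Rt)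
open Pool.Agent.N874.PM (PLoc Lies SelR ShaR)
open Pool.Agent.N922.PQ

/-- The ranks of the twists by the `∏ Q ∈ J, Q`, `J ⊆ S` with `k` elements, have parity `π` and the
distribution of Poonen and Rains up to `ε`. -/
structure SlS (S : Finset ℤ) (ε : ℝ) (k : ℕ) (p : ℤ × ℤ) (π : ℕ) : Prop where
  lt : π < 2
  par : ∀ J ∈ S.powersetCard k, ∃ d, selN p.1 p.2 (∏ Q ∈ J, Q) = 2 ^ d ∧ d % 2 = π
  dist : ∀ d : ℕ, |(((S.powersetCard k).filter fun J =>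
      selN p.1 p.2 (∏ Q ∈ J, Q) = 2 ^ d).card : ℝ) -
    (if d % 2 = π then 2 * Cd d else 0) * (Nat.choose (2 * k) k : ℝ)| ≤
      ε * (Nat.choose (2 * k) k : ℝ)

theorem mck2 : S_MCK2 := Pool.Agent.H62.PR.Slice2.mck2 Pool.Agent.H70.PR.eul_S

theorem card_k {S : Finset ℤ} (k : ℕ) (R : ℤ → Prop) :
    Nat.card {J : Finset {Q : ℤ // Q ∈ S} // J.card = k ∧ R (∏ Q ∈ J, (Q : ℤ))} =
      ((S.powersetCard k).filter fun J => R (∏ Q ∈ J, Q)).card := by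
  rw [card_J (S := S) fun c D => c = k ∧ R D, Finset.powersetCard_eq_filter, Finset.filter_filter]
  congr

theorem slice {R : ℤ × ℤ → Prop} (hR : ∀ p, R p → (4 : ℤ) ∣ p.1 - p.2 ∨ p.1 % 4 = 3)
    {T : Finset ℤ} {A B : ℤ → ℤ} (hT : GoodT T A B) (hlow : Low R T A B) (ε : ℝ) (hε : 0 < ε) :
    ∃ k₀ : ℕ, ∀ (k : ℕ) (S : Finset ℤ) (s : ℤ → ℤ), k₀ ≤ k → GoodS S s → Disjoint S T →
    S.card = 2 * k → ∃ X₀ : ℕ, ∀ X ≥ X₀, (1 - ε) * ((FF R X S s T A B).ncard : ℝ) ≤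
      ({p ∈ FF R X S s T A B | ¬ Bd S ∅ S p.1 p.2 ∧ ∃ π, SlS S ε k p π}.ncard : ℝ) := by
  have h0 : 0 < min ε 1 := lt_min hε one_pos
  have he1 : min ε 1 ≤ ε := min_le_left _ _
  have he2 : min ε 1 ≤ 1 := min_le_right _ _
  obtain ⟨K', hK'⟩ := core hR hT hlow
  obtain ⟨n₁, hn₁⟩ := hK' (min ε 1 / 2) (by positivity)
  obtain ⟨n₂, hn₂⟩ := mck2 (min ε 1 / 2) K' (by positivity)
  refine ⟨max n₁ n₂, fun k S s hk hS hdis hcard => ?_⟩
  have hk1 : n₁ ≤ S.card := by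
    have := (le_max_left _ _).trans hk
    omega
  obtain ⟨X₀, hX₀⟩ := hn₁ S s hS hdis hk1
  refine ⟨X₀, fun X hX => ?_⟩
  obtain ⟨G, hG, hGc, Λ, hΛ, hfm⟩ := hX₀ X hX
  have hcS : Fintype.card {Q : ℤ // Q ∈ S} = S.card := Fintype.card_coe S
  have h1 := hn₂ {Q : ℤ // Q ∈ S} {p : ℤ × ℤ // p ∈ G} k ((le_max_right _ _).trans hk)
    (by rw [hcS, hcard]) Λ (fun ω => (hΛ ω).iso) (fun ω => by rw [hcS]; exact (hΛ ω).big) hfm
  rw [Fintype.card_coe] at h1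
  have h2 : (Nat.card {ω : {p : ℤ × ℤ // p ∈ G} // ∃ π : ℕ, SliceOK (min ε 1 / 2) k (Λ ω) π}) ≤
      {p ∈ FF R X S s T A B | ¬ Bd S ∅ S p.1 p.2 ∧ ∃ π, SlS S ε k p π}.ncard := by
    rw [← Nat.card_coe_set_eq]
    haveI : Finite {p ∈ FF R X S s T A B | ¬ Bd S ∅ S p.1 p.2 ∧ ∃ π, SlS S ε k p π} :=
      ((ff_fin R X S s T A B).subset fun p hp => hp.1).to_subtype
    refine Nat.card_le_card_of_injective (fun ω => ⟨ω.1.1, (hG _ ω.1.2).1, (hG _ ω.1.2).2, ?_⟩) ?_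
    · obtain ⟨π, hπ, hpar, hex, hd⟩ := ω.2
      have hprod : ∀ J : Finset {Q : ℤ // Q ∈ S}, ∏ Q ∈ vl J, Q = ∏ Q ∈ J, (Q : ℤ) := fun J =>
        Finset.prod_image fun x _ y _ h => Subtype.ext h
      have hcard' : ∀ J : Finset {Q : ℤ // Q ∈ S}, (vl J).card = J.card := fun J =>
        Finset.card_image_of_injective _ Subtype.val_injective
      refine ⟨π, hπ, fun J hJ => ?_, fun d => ?_⟩
      · rw [Finset.mem_powersetCard] at hJ
        have h3 : vl (Finset.univ.filter fun Q : {Q : ℤ // Q ∈ S} => (Q : ℤ) ∈ J) = J := by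
          ext Q
          rw [mem_vl]
          constructor
          · rintro ⟨h, h2⟩
            exact (Finset.mem_filter.1 h2).2
          · intro h
            exact ⟨hJ.1 h, Finset.mem_filter.2 ⟨Finset.mem_univ _, h⟩⟩
        obtain ⟨d, hd'⟩ := hex (Finset.univ.filter fun Q : {Q : ℤ // Q ∈ S} => (Q : ℤ) ∈ J)
        refine ⟨d, ?_, hpar _ ?_ d hd'⟩
        · rw [← h3, hprod, (hΛ ω.1).sel]
          exact hd'
        · rw [← hcard', h3]
          exact hJ.2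
      · have h3 := hd d
        have h4 : Nat.card {J : Finset {Q : ℤ // Q ∈ S} // J.card = k ∧
            Nat.card {l : {Q : ℤ // Q ∈ S} → ZMod 2 × ZMod 2 // l ∈ Λ ω.1 ∧ l ∈ LJ J} = 2 ^ d} =
            ((S.powersetCard k).filter fun J =>
              selN ω.1.1.1 ω.1.1.2 (∏ Q ∈ J, Q) = 2 ^ d).card := by
          have h5 := card_k (S := S) k fun D => selN ω.1.1.1 ω.1.1.2 D = 2 ^ d
          refine Eq.trans (Nat.card_congr (Equiv.subtypeEquivRight fun J => ?_)) (h5.trans (by congr))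
          rw [(hΛ ω.1).sel J]
        rw [h4] at h3
        refine h3.trans (mul_le_mul_of_nonneg_right ?_ (by positivity))
        linarith
    · intro ω ω' h
      simp only [Subtype.mk.injEq] at h
      exact Subtype.ext (Subtype.ext h)
  have h3 : (1 - min ε 1 / 2) * (G.card : ℝ) ≤
      ({p ∈ FF R X S s T A B | ¬ Bd S ∅ S p.1 p.2 ∧ ∃ π, SlS S ε k p π}.ncard : ℝ) :=
    h1.trans (by exact_mod_cast h2)
  refine le_trans ?_ h3
  have h5 : (0 : ℝ) ≤ ((FF R X S s T A B).ncard : ℝ) := Nat.cast_nonneg _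
  calc (1 - ε) * ((FF R X S s T A B).ncard : ℝ)
      ≤ ((1 - min ε 1 / 2) * (1 - min ε 1 / 2)) * ((FF R X S s T A B).ncard : ℝ) := by
        refine mul_le_mul_of_nonneg_right ?_ h5
        nlinarith
    _ = (1 - min ε 1 / 2) * ((1 - min ε 1 / 2) * ((FF R X S s T A B).ncard : ℝ)) := by ring
    _ ≤ _ := mul_le_mul_of_nonneg_left hGc (by linarith)

/-- The parity of the twists by `D` and `- D`. -/
theorem par_flip (hPARA : S_PARA) {a b : ℤ} {X : ℕ} {S T : Finset ℤ} {s A B B' : ℤ → ℤ}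
    (hS : GoodS S s) (hT : GoodT T A B) (hT' : GoodT T A B') (hF : Fam X S s T A B a b)
    (hF' : Fam X S s T A B' a (-b)) (h4 : a % 4 = 3) (hnb : ¬ Bd S ∅ S a b) {J : Finset ℤ}
    (hJ : J ⊆ S) {d d' : ℕ} (hd : selN a b (∏ Q ∈ J, Q) = 2 ^ d)
    (hd' : selN a (-b) (∏ Q ∈ J, Q) = 2 ^ d') : d % 2 ≠ d' % 2 := by
  obtain ⟨L, iF, iN, θ, 𝔮, hc, h𝔮, hinj⟩ := exists_dat hS hT hF hnb
  have hprod : ∀ J : Finset {Q : ℤ // Q ∈ S}, ∏ Q ∈ vl J, Q = ∏ Q ∈ J, (Q : ℤ) := fun J =>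
    Finset.prod_image fun x _ y _ h => Subtype.ext h
  have h3 : vl (Finset.univ.filter fun Q : {Q : ℤ // Q ∈ S} => (Q : ℤ) ∈ J) = J := by
    ext Q
    rw [mem_vl]
    constructor
    · rintro ⟨h, h2⟩
      exact (Finset.mem_filter.1 h2).2
    · intro h
      exact ⟨hJ h, Finset.mem_filter.2 ⟨Finset.mem_univ _, h⟩⟩
  exact hPARA L a b θ X S T s A B B' 𝔮 hc hS hT hT' hF hF' h4 h𝔮 hinj
    (Finset.univ.filter fun Q : {Q : ℤ // Q ∈ S} => (Q : ℤ) ∈ J) (∏ Q ∈ J, Q)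
    (by rw [← hprod, h3]) d d' hd hd'

end Pool.Agent.H62.PR
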