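import Pool.Agent.H62.PR.Nat2
import Pool.Agent.H89.PR.Fam3
import Pool.Agent.H89.PR.Para
import Pool.Agent.H70.PR.Rec2
import Pool.Agent.H70.PR.Isq
import Pool.Agent.H70.PR.L2d
import Pool.Agent.H66.PR.Parl
import Pool.Agent.H66.PR.Pri
import Pool.Agent.H29.PR.BoxD

/-!
# Project PR (helper62): the curves `y ^ 2 = x ^ 3 + a x + b` which are twisted
-/

set_option autoImplicit false
set_option linter.all false

open Polynomial IsDedekindDomain WeierstrassCurve WeierstrassCurve.Affine NumberField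
open Pool.Agent.TH115.GD
open scoped Classical IntermediateField

namespace Pool.Agent.H62.PR

open Pool.Agent.N874.PP (Tup chA chB gq tau Two Ev Sq1 U0 sW IsBeta Rt)
open Pool.Agent.N874.PM (PLoc Lies SelR ShaR)
open Pool.Agent.N922.PQ

/-- The curves. -/
structure Cu (S : Finset ℤ) (p : ℤ × ℤ) : Prop where
  pos : 0 < p.1
  a4 : p.1 % 4 = 3
  a3 : p.1 % 3 = 2
  b2 : p.2 % 2 = 1
  b3 : p.2 % 3 ≠ 0
  sq : Squarefree (4 * p.1 ^ 3 + 27 * p.2 ^ 2)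
  s : ∀ Q ∈ S, Q ∣ p.2 ∧ ∀ z : ℤ, ¬ Q ∣ z ^ 2 + p.1

theorem cu_neg {S : Finset ℤ} {p : ℤ × ℤ} (h : Cu S p) : Cu S (p.1, -p.2) where
  pos := h.pos
  a4 := h.a4
  a3 := h.a3
  b2 := by
    have := h.b2
    show (-p.2) % 2 = 1
    omega
  b3 := by
    have := h.b3
    show (-p.2) % 3 ≠ 0
    omega
  sq := by
    have := h.sq
    show Squarefree (4 * p.1 ^ 3 + 27 * (-p.2) ^ 2)
    rwa [neg_sq]
  s := fun Q hQ => ⟨(dvd_neg).2 (h.s Q hQ).1, (h.s Q hQ).2⟩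

/-- The curves in a box. -/
noncomputable def EX (S : Finset ℤ) (X : ℕ) : Finset (ℤ × ℤ) :=
  ((Finset.Icc (0 : ℤ) (X ^ 2)) ×ˢ (Finset.Icc (-(X : ℤ) ^ 3) (X ^ 3))).filter fun p => Cu S p

theorem mem_EX {S : Finset ℤ} {X : ℕ} {p : ℤ × ℤ} :
    p ∈ EX S X ↔ Cu S p ∧ p.1 ≤ X ^ 2 ∧ |p.2| ≤ X ^ 3 := by
  unfold EX
  rw [Finset.mem_filter, Finset.mem_product, Finset.mem_Icc, Finset.mem_Icc, abs_le]
  constructor
  · rintro ⟨⟨⟨h1, h2⟩, h3⟩, h4⟩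
    exact ⟨h4, h2, h3⟩
  · rintro ⟨h4, h2, h3⟩
    exact ⟨⟨⟨h4.pos.le, h2⟩, h3⟩, h4⟩

def TA (P : ℤ) : ℤ := if P = 3 then 2 else 1

def TB (t P : ℤ) : ℤ := if P = 3 then t else 1

/-- The primes at which we fix the residues. -/
def T0 : Finset ℤ := {2, 3}

theorem goodT {t : ℤ} (ht : t % 3 ≠ 0) : GoodT T0 TA (TB t) := by
  refine ⟨by simp [T0], by simp [T0], fun P hP => ?_⟩
  have hP' : P = 2 ∨ P = 3 := by simpa [T0] using hP
  rcases hP' with rfl | rfl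
  · refine ⟨⟨by norm_num, Int.prime_two⟩, fun z h => ?_⟩
    have e : z ^ 3 + TA 2 * z + TB t 2 = z ^ 3 + z + 1 := by
      simp [TA, TB]
    rw [e] at h
    have h1 : z % 2 = 0 ∨ z % 2 = 1 := by omega
    have h2 := Int.emod_eq_zero_of_dvd h
    rcases h1 with h1 | h1 <;> simp [pow_succ, Int.add_emod, Int.mul_emod, h1] at h2
  · refine ⟨⟨by norm_num, Int.prime_three⟩, fun z h => ?_⟩
    have e : z ^ 3 + TA 3 * z + TB t 3 = z ^ 3 + 2 * z + t := by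
      simp [TA, TB]
    rw [e] at h
    have h1 : (3 : ℤ) ∣ z ^ 3 + 2 * z := by
      have h1 : z % 3 = 0 ∨ z % 3 = 1 ∨ z % 3 = 2 := by omega
      apply Int.dvd_of_emod_eq_zero
      rcases h1 with h1 | h1 | h1 <;> simp [pow_succ, Int.add_emod, Int.mul_emod, h1]
    have h2 : (3 : ℤ) ∣ t := (dvd_add_right h1).1 h
    exact ht (Int.emod_eq_zero_of_dvd h2)

/-- The set `S` consists of primes `1` modulo `8`. -/
def PS (S : Finset ℤ) : Prop := ∀ Q ∈ S, IsPr Q ∧ Q % 8 = 1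

theorem ps_disj {S : Finset ℤ} (hS : PS S) : Disjoint S T0 := by
  rw [Finset.disjoint_left]
  intro Q hQ hT
  have h1 := (hS Q hQ).2
  have hP' : Q = 2 ∨ Q = 3 := by simpa [T0] using hT
  omega

theorem prod_dvd {S : Finset ℤ} (hS : PS S) {x : ℤ} (h : ∀ Q ∈ S, Q ∣ x) : ∏ Q ∈ S, Q ∣ x := by
  refine Finset.prod_dvd_of_coprime ?_ h
  intro Q hQ Q' hQ' hne
  have h1 : Q.natAbs.Coprime Q'.natAbs :=
    Int.isCoprime_iff_gcd_eq_one.1 (isCoprime_of (hS Q hQ).1 (hS Q' hQ').1 hne)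
  exact Int.isCoprime_iff_gcd_eq_one.2 h1

theorem goodS_of {S : Finset ℤ} (hS : PS S) {p : ℤ × ℤ} (hp : Cu S p) :
    GoodS S fun _ => p.1 % ∏ Q ∈ S, Q := by
  intro Q hQ
  refine ⟨(hS Q hQ).1, (hS Q hQ).2, fun z h => (hp.s Q hQ).2 z ?_⟩
  have h1 : Q ∣ p.1 - p.1 % ∏ Q ∈ S, Q :=
    (Finset.dvd_prod_of_mem (fun Q : ℤ => Q) hQ).trans (Int.dvd_self_sub_emod)
  have h2 : z ^ 2 + p.1 = z ^ 2 + p.1 % (∏ Q ∈ S, Q) + (p.1 - p.1 % ∏ Q ∈ S, Q) := by ring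
  rw [h2]
  exact dvd_add h h1

/-- The curves with given residues. -/
theorem fib {S : Finset ℤ} (hS : PS S) {X : ℕ} {p : ℤ × ℤ} (hp : Cu S p) :
    FF R3 X S (fun _ => p.1 % ∏ Q ∈ S, Q) T0 TA (TB (p.2 % 3)) =
      {q : ℤ × ℤ | q ∈ EX S X ∧ (q.1 % ∏ Q ∈ S, Q, q.2 % 3) = (p.1 % ∏ Q ∈ S, Q, p.2 % 3)} := by
  have hG := goodS_of hS hp
  have hP0 : 0 < ∏ Q ∈ S, Q := Finset.prod_pos fun Q hQ => (hS Q hQ).1.1
  ext q
  constructor
  · rintro ⟨hF, h4⟩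
    have e3 := hF.ta 3 (by simp [T0])
    have e3' := hF.tb 3 (by simp [T0])
    have e2 := hF.tb 2 (by simp [T0])
    simp only [TA, TB, if_true] at e3 e3'
    have e2' : (2 : ℤ) ∣ q.2 - 1 := by simpa [TB] using e2
    refine ⟨mem_EX.2 ⟨⟨hF.pa, h4, by omega, by omega, ?_, hF.sq, fun Q hQ => ⟨hF.rb Q hQ,
      fun z h => (hG Q hQ).2.2 z ?_⟩⟩, hF.da, hF.db⟩, ?_⟩
    · have := hp.b3
      omega
    · have h1 := hF.ra Q hQ
      have h2 : z ^ 2 + p.1 % (∏ Q ∈ S, Q) = z ^ 2 + q.1 - (q.1 - p.1 % ∏ Q ∈ S, Q) := by ring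
      show Q ∣ z ^ 2 + p.1 % (∏ Q ∈ S, Q)
      rw [h2]
      exact dvd_sub h h1
    · have h1 : ∏ Q ∈ S, Q ∣ q.1 - p.1 % ∏ Q ∈ S, Q := prod_dvd hS hF.ra
      have h2 : q.1 % ∏ Q ∈ S, Q = p.1 % ∏ Q ∈ S, Q := by
        have h3 := Int.emod_emod_of_dvd p.1 (dvd_refl (∏ Q ∈ S, Q))
        have h4 := Int.emod_eq_emod_iff_emod_sub_eq_zero.2 (Int.emod_eq_zero_of_dvd h1)
        rw [h4, h3]
      rw [h2]
      congr 1
      omega
  · rintro ⟨hq, he⟩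
    obtain ⟨hc, h1, h2⟩ := mem_EX.1 hq
    rw [Prod.mk.injEq] at he
    refine ⟨⟨hc.pos, h1, h2, fun Q hQ => ?_, fun Q hQ => (hc.s Q hQ).1, fun P hP => ?_,
      fun P hP => ?_, hc.sq⟩, hc.a4⟩
    · show Q ∣ q.1 - p.1 % ∏ Q ∈ S, Q
      rw [← he.1]
      exact (Finset.dvd_prod_of_mem (fun Q : ℤ => Q) hQ).trans (Int.dvd_self_sub_emod)
    · have hP' : P = 2 ∨ P = 3 := by simpa [T0] using hP
      rcases hP' with rfl | rfl
      · have := hc.a4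
        show (2 : ℤ) ∣ q.1 - TA 2
        simp only [TA]
        norm_num
        omega
      · have := hc.a3
        show (3 : ℤ) ∣ q.1 - TA 3
        simp only [TA, if_true]
        omega
    · have hP' : P = 2 ∨ P = 3 := by simpa [T0] using hP
      rcases hP' with rfl | rfl
      · have := hc.b2
        show (2 : ℤ) ∣ q.2 - TB (p.2 % 3) 2
        simp only [TB]
        norm_num
        omega
      · have := he.2
        show (3 : ℤ) ∣ q.2 - TB (p.2 % 3) 3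
        simp only [TB, if_true]
        omega

theorem sum_fib {α β : Type} (E : Finset α) (f : α → β) (P : α → Prop) (δ : ℝ)
    (h : ∀ p ∈ E, ((E.filter fun q => f q = f p ∧ P q).card : ℝ) ≤
      δ * (E.filter fun q => f q = f p).card) :
    ((E.filter P).card : ℝ) ≤ δ * E.card := by
  have h1 : (E.filter P).card = ∑ r ∈ E.image f, (E.filter fun q => f q = r ∧ P q).card := by
    rw [Finset.card_eq_sum_card_fiberwise (f := f) (t := E.image f) (s := E.filter P)]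
    · refine Finset.sum_congr rfl fun r _ => ?_
      congr 1
      ext q
      simp only [Finset.mem_filter]
      tauto
    · intro q hq
      exact Finset.mem_coe.2 (Finset.mem_image_of_mem f (Finset.mem_filter.1 (Finset.mem_coe.1 hq)).1)
  have h2 : E.card = ∑ r ∈ E.image f, (E.filter fun q => f q = r).card :=
    Finset.card_eq_sum_card_image f E
  rw [h1, h2]
  push_cast
  rw [Finset.mul_sum]
  refine Finset.sum_le_sum fun r hr => ?_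
  obtain ⟨p, hp, rfl⟩ := Finset.mem_image.1 hr
  exact h p hp

theorem low3 {t : ℤ} (ht : t % 3 ≠ 0) : Low R3 T0 TA (TB t) :=
  Pool.Agent.H89.PR.fam3 T0 TA (TB t) (goodT ht)

/-- Bounds in all the classes give a bound for the family. -/
theorem fib_bound {S : Finset ℤ} (hS : PS S) (V : ℕ → ℕ → Prop) (P : ℕ → ℕ → ℤ × ℤ → Prop) (δ : ℝ)
    (h : ∀ s : ℤ → ℤ, GoodS S s → ∀ t : ℤ, t = 1 ∨ t = 2 → ∃ X₀ : ℕ, ∀ X ≥ X₀, ∀ Y, V X Y →
      ({p ∈ FF R3 X S s T0 TA (TB t) | P X Y p}.ncard : ℝ) ≤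
        δ * ((FF R3 X S s T0 TA (TB t)).ncard : ℝ)) :
    ∃ X₀ : ℕ, ∀ X ≥ X₀, ∀ Y, V X Y →
      (((EX S X).filter (P X Y)).card : ℝ) ≤ δ * (EX S X).card := by
  have hex : ∀ r : ℤ × ℤ, ∃ X₀ : ℕ, GoodS S (fun _ => r.1) → (r.2 = 1 ∨ r.2 = 2) →
      ∀ X ≥ X₀, ∀ Y, V X Y →
      ({p ∈ FF R3 X S (fun _ => r.1) T0 TA (TB r.2) | P X Y p}.ncard : ℝ) ≤
        δ * ((FF R3 X S (fun _ => r.1) T0 TA (TB r.2)).ncard : ℝ) := by
    intro r
    by_cases h1 : GoodS S (fun _ => r.1) ∧ (r.2 = 1 ∨ r.2 = 2)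
    · obtain ⟨X₀, hX⟩ := h _ h1.1 _ h1.2
      exact ⟨X₀, fun _ _ => hX⟩
    · exact ⟨0, fun h2 h3 => absurd ⟨h2, h3⟩ h1⟩
  choose Z hZ using hex
  have hP0 : 0 < ∏ Q ∈ S, Q := Finset.prod_pos fun Q hQ => (hS Q hQ).1.1
  refine ⟨((Finset.Icc 0 (∏ Q ∈ S, Q)) ×ˢ (Finset.Icc (0 : ℤ) 2)).sup Z, fun X hX Y hV => ?_⟩
  refine sum_fib (EX S X) (fun q => (q.1 % ∏ Q ∈ S, Q, q.2 % 3)) (P X Y) δ fun p hp => ?_
  have hc := (mem_EX.1 hp).1
  have h3 : p.2 % 3 = 1 ∨ p.2 % 3 = 2 := by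
    have := hc.b3
    omega
  have hYX : X ≥ Z (p.1 % ∏ Q ∈ S, Q, p.2 % 3) := by
    refine le_trans (Finset.le_sup (f := Z) ?_) hX
    rw [Finset.mem_product, Finset.mem_Icc, Finset.mem_Icc]
    exact ⟨⟨Int.emod_nonneg _ hP0.ne', (Int.emod_lt_of_pos _ hP0).le⟩, by omega, by omega⟩
  have h4 := hZ (p.1 % ∏ Q ∈ S, Q, p.2 % 3) (goodS_of hS hc) h3 X hYX Y hV
  have e1 : {q : ℤ × ℤ | q ∈ EX S X ∧ (q.1 % ∏ Q ∈ S, Q, q.2 % 3) = (p.1 % ∏ Q ∈ S, Q, p.2 % 3)}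
      = (((EX S X).filter fun q => (q.1 % ∏ Q ∈ S, Q, q.2 % 3) =
        (p.1 % ∏ Q ∈ S, Q, p.2 % 3) : Finset (ℤ × ℤ)) : Set (ℤ × ℤ)) := by
    ext q
    simp only [Set.mem_setOf_eq, Finset.coe_filter]
  have e2 : {q ∈ {q : ℤ × ℤ | q ∈ EX S X ∧ (q.1 % ∏ Q ∈ S, Q, q.2 % 3) =
      (p.1 % ∏ Q ∈ S, Q, p.2 % 3)} | P X Y q}
      = (((EX S X).filter fun q => (q.1 % ∏ Q ∈ S, Q, q.2 % 3) =
        (p.1 % ∏ Q ∈ S, Q, p.2 % 3) ∧ P X Y q : Finset (ℤ × ℤ)) : Set (ℤ × ℤ)) := by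
    ext q
    simp only [Set.mem_setOf_eq, Finset.coe_filter]
    tauto
  rw [fib hS hc, e2, e1, Set.ncard_coe_finset, Set.ncard_coe_finset] at h4
  convert h4

end Pool.Agent.H62.PR
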