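import Pool.Agent.H62.PR.Nat3

/-!
# Project PR (helper62): the good curves, and nearly equal boxes
-/

set_option autoImplicit false
set_option linter.all false

open Polynomial IsDedekindDomain WeierstrassCurve WeierstrassCurve.Affine NumberField
open Pool.Agent.TH115.GD
open scoped Classical IntermediateField

namespace Pool.Agent.H62.PR

open Pool.Agent.N874.PP (Tup chA chB gq tau Two Ev Sq1 U0 sW IsBeta Rt)
open Pool.Agent.N874.PM (PLoc Lies SelR ShaR)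
open Pool.Agent.N922.PQ

theorem t_mod {t : ℤ} (ht : t = 1 ∨ t = 2) : t % 3 ≠ 0 := by omega

/-- The good curves. -/
def Gd (S : Finset ℤ) (ε : ℝ) (k : ℕ) (p : ℤ × ℤ) : Prop :=
  ¬ Bd S ∅ S p.1 p.2 ∧ ∃ π, SlS S ε k p π

/-- The other curves. -/
def Bk (S : Finset ℤ) (ε : ℝ) (k : ℕ) (p : ℤ × ℤ) : Prop := ¬ Gd S ε k p

/-- Outside the box. -/
def Ob (Y : ℕ) (p : ℤ × ℤ) : Prop := ¬ (p.1 ≤ (Y : ℤ) ^ 2 ∧ |p.2| ≤ (Y : ℤ) ^ 3)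

theorem few_bad (ε : ℝ) (hε : 0 < ε) : ∃ k₀ : ℕ, ∀ k ≥ k₀, ∀ S : Finset ℤ, PS S →
    S.card = 2 * k → ∃ X₀ : ℕ, ∀ X ≥ X₀,
      (((EX S X).filter (Bk S ε k)).card : ℝ) ≤ ε * (EX S X).card := by
  have hR : ∀ p, R3 p → (4 : ℤ) ∣ p.1 - p.2 ∨ p.1 % 4 = 3 := fun p hp => Or.inr hp
  obtain ⟨k₁, h₁⟩ := slice hR (goodT (t := 1) (by norm_num)) (low3 (by norm_num)) ε hε
  obtain ⟨k₂, h₂⟩ := slice hR (goodT (t := 2) (by norm_num)) (low3 (by norm_num)) ε hε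
  refine ⟨max k₁ k₂, fun k hk S hS hcard => ?_⟩
  have hdis := ps_disj hS
  obtain ⟨X₀, hX₀⟩ := fib_bound hS (fun _ _ => True) (fun _ _ => Bk S ε k) ε (by
    intro s hs t ht
    have h3 : ∃ X₀ : ℕ, ∀ X ≥ X₀, (1 - ε) * ((FF R3 X S s T0 TA (TB t)).ncard : ℝ) ≤
      ({p ∈ FF R3 X S s T0 TA (TB t) | ¬ Bd S ∅ S p.1 p.2 ∧ ∃ π, SlS S ε k p π}.ncard : ℝ) := by
      rcases ht with rfl | rfl
      · exact h₁ k S s ((le_max_left _ _).trans hk) hs hdis hcard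
      · exact h₂ k S s ((le_max_right _ _).trans hk) hs hdis hcard
    obtain ⟨X₀, h4⟩ := h3
    refine ⟨X₀, fun X hX Y _ => ?_⟩
    have h5 := h4 X hX
    have hfin := ff_fin R3 X S s T0 TA (TB t)
    have h6 : {p ∈ FF R3 X S s T0 TA (TB t) | Gd S ε k p}.ncard +
        {p ∈ FF R3 X S s T0 TA (TB t) | Bk S ε k p}.ncard =
          (FF R3 X S s T0 TA (TB t)).ncard := by
      rw [← Set.ncard_union_eq ?_ (hfin.subset fun p hp => hp.1) (hfin.subset fun p hp => hp.1)]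
      · congr 1
        ext p
        simp only [Set.mem_union, Set.mem_setOf_eq, Bk]
        tauto
      · rw [Set.disjoint_left]
        rintro p ⟨-, hp⟩ ⟨-, hp'⟩
        exact hp' hp
    have h7 : ({p ∈ FF R3 X S s T0 TA (TB t) | Gd S ε k p}.ncard : ℝ) +
        ({p ∈ FF R3 X S s T0 TA (TB t) | Bk S ε k p}.ncard : ℝ) =
          ((FF R3 X S s T0 TA (TB t)).ncard : ℝ) := by exact_mod_cast h6
    have h8 : (1 - ε) * ((FF R3 X S s T0 TA (TB t)).ncard : ℝ) ≤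
      ({p ∈ FF R3 X S s T0 TA (TB t) | Gd S ε k p}.ncard : ℝ) := h5
    linarith)
  exact ⟨X₀, fun X hX => hX₀ X hX 0 trivial⟩

theorem ps_prod {S : Finset ℤ} (hS : PS S) : 0 < ∏ Q ∈ S, (Q : ℝ) ^ 2 :=
  Finset.prod_pos fun Q hQ => by
    have : (0 : ℝ) < Q := by exact_mod_cast (hS Q hQ).1.1
    positivity

theorem few_box (hBOXD : S_BOXD) : ∃ C : ℝ, 0 < C ∧ ∀ S : Finset ℤ, PS S → ∀ η : ℝ, 0 < η →
    η < 1 → ∃ X₀ : ℕ, ∀ X ≥ X₀, ∀ Y : ℕ, (1 - η) * (X : ℝ) ≤ (Y : ℝ) ∧ Y ≤ X →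
      (((EX S X).filter (Ob Y)).card : ℝ) ≤ C * η * (EX S X).card := by
  obtain ⟨c₁, hc₁, h₁⟩ := low3 (t := 1) (by norm_num)
  obtain ⟨c₂, hc₂, h₂⟩ := low3 (t := 2) (by norm_num)
  obtain ⟨C, hC, hbox⟩ := hBOXD
  obtain ⟨c, hc⟩ : ∃ c : ℝ, c = min c₁ c₂ := ⟨_, rfl⟩
  have hc0 : 0 < c := by rw [hc]; exact lt_min hc₁ hc₂
  refine ⟨C / c, by positivity, fun S hS η hη hη1 => ?_⟩
  have hdis := ps_disj hS
  have hP := ps_prod hS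
  refine fib_bound hS (fun X Y => (1 - η) * (X : ℝ) ≤ (Y : ℝ) ∧ Y ≤ X)
    (fun X Y => Ob Y) (C / c * η) ?_
  intro s hs t ht
  have h3 : ∃ X₀ : ℕ, ∀ X ≥ X₀, c * (X : ℝ) ^ 5 ≤
      ((∏ Q ∈ S, (Q : ℝ) ^ 2)) * ((FF R3 X S s T0 TA (TB t)).ncard : ℝ) := by
    rcases ht with rfl | rfl
    · obtain ⟨X₀, h⟩ := h₁ S s hs hdis
      refine ⟨X₀, fun X hX => le_trans (mul_le_mul_of_nonneg_right ?_ (by positivity)) (h X hX)⟩
      rw [hc]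
      exact min_le_left _ _
    · obtain ⟨X₀, h⟩ := h₂ S s hs hdis
      refine ⟨X₀, fun X hX => le_trans (mul_le_mul_of_nonneg_right ?_ (by positivity)) (h X hX)⟩
      rw [hc]
      exact min_le_right _ _
  obtain ⟨X₁, hX₁⟩ := h3
  obtain ⟨X₂, hX₂⟩ := hbox S s hs η hη hη1
  refine ⟨max X₁ X₂, fun X hX Y hV => ?_⟩
  have h4 := hX₁ X ((le_max_left _ _).trans hX)
  have h5 := hX₂ X ((le_max_right _ _).trans hX) Y hV.1 hV.2 T0 TA (TB t)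
  obtain ⟨P, hPe⟩ : ∃ P : ℝ, P = ∏ Q ∈ S, (Q : ℝ) ^ 2 := ⟨_, rfl⟩
  rw [← hPe] at h4 h5 hP
  have h6 : ({p ∈ FF R3 X S s T0 TA (TB t) | Ob Y p}.ncard : ℝ)
      ≤ ({p : ℤ × ℤ | Fam X S s T0 TA (TB t) p.1 p.2 ∧
        ¬ (p.1 ≤ (Y : ℤ) ^ 2 ∧ |p.2| ≤ (Y : ℤ) ^ 3)}.ncard : ℝ) := by
    have hfin : {p : ℤ × ℤ | Fam X S s T0 TA (TB t) p.1 p.2 ∧
        ¬ (p.1 ≤ (Y : ℤ) ^ 2 ∧ |p.2| ≤ (Y : ℤ) ^ 3)}.Finite := by
      refine (ff_fin (fun _ => True) X S s T0 TA (TB t)).subset ?_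
      rintro p ⟨hp, -⟩
      exact ⟨hp, trivial⟩
    have hsub : {p ∈ FF R3 X S s T0 TA (TB t) | Ob Y p} ⊆
        {p : ℤ × ℤ | Fam X S s T0 TA (TB t) p.1 p.2 ∧
        ¬ (p.1 ≤ (Y : ℤ) ^ 2 ∧ |p.2| ≤ (Y : ℤ) ^ 3)} := by
      rintro p ⟨hp, hp'⟩
      exact ⟨hp.1, hp'⟩
    exact_mod_cast Set.ncard_le_ncard hsub hfin
  refine h6.trans (le_of_mul_le_mul_left (h5.trans ?_) hP)
  calc C * η * (X : ℝ) ^ 5 = C / c * η * (c * (X : ℝ) ^ 5) := by field_simp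
    _ ≤ C / c * η * (P * ((FF R3 X S s T0 TA (TB t)).ncard : ℝ)) :=
        mul_le_mul_of_nonneg_left h4 (by positivity)
    _ = _ := by ring

theorem exists_s {S : Finset ℤ} (hS : PS S) : ∃ s : ℤ → ℤ, GoodS S s := by
  have h : ∀ Q : ℤ, ∃ s : ℤ, Q ∈ S → ∀ z : ℤ, ¬ Q ∣ z ^ 2 + s := by
    intro Q
    by_cases hQ : Q ∈ S
    · obtain ⟨h1, h2⟩ := hS Q hQ
      obtain ⟨n, hn⟩ : ∃ n : ℕ, n = Q.natAbs := ⟨_, rfl⟩
      have hnQ : (n : ℤ) = Q := by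
        rw [hn, Int.natCast_natAbs, abs_of_pos h1.1]
      have hnp : n.Prime := by
        rw [hn]
        exact Int.prime_iff_natAbs_prime.1 h1.2
      haveI : Fact n.Prime := ⟨hnp⟩
      have h2' : ringChar (ZMod n) ≠ 2 := by
        rw [ZMod.ringChar_zmod_n]
        omega
      obtain ⟨a, ha⟩ := FiniteField.exists_nonsquare h2'
      refine ⟨-(a.val : ℤ), fun _ z hz => ha ?_⟩
      rw [← hnQ, ← ZMod.intCast_zmod_eq_zero_iff_dvd] at hz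
      push_cast at hz
      rw [ZMod.natCast_val, ZMod.cast_id', id] at hz
      exact ⟨(z : ZMod n), by linear_combination -hz⟩
    · exact ⟨0, fun h => absurd h hQ⟩
  choose s hs using h
  exact ⟨s, fun Q hQ => ⟨(hS Q hQ).1, (hS Q hQ).2, hs Q hQ⟩⟩

theorem ex_low : ∃ c : ℝ, 0 < c ∧ ∀ S : Finset ℤ, PS S → ∃ X₀ : ℕ, ∀ X ≥ X₀,
    c * (X : ℝ) ^ 5 ≤ (∏ Q ∈ S, (Q : ℝ) ^ 2) * ((EX S X).card : ℝ) := by
  obtain ⟨c₁, hc₁, h₁⟩ := low3 (t := 1) (by norm_num)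
  refine ⟨c₁, hc₁, fun S hS => ?_⟩
  obtain ⟨s, hs⟩ := exists_s hS
  obtain ⟨X₀, hX₀⟩ := h₁ S s hs (ps_disj hS)
  refine ⟨X₀, fun X hX => (hX₀ X hX).trans (mul_le_mul_of_nonneg_left ?_ (ps_prod hS).le)⟩
  rw [← Set.ncard_coe_finset]
  have h2 : FF R3 X S s T0 TA (TB 1) ⊆ ((EX S X : Finset (ℤ × ℤ)) : Set (ℤ × ℤ)) := by
    rintro q ⟨hF, h4⟩
    have e3 := hF.ta 3 (by simp [T0])
    have e3' := hF.tb 3 (by simp [T0])
    have e2 := hF.tb 2 (by simp [T0])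
    simp only [TA, TB, if_true] at e3 e3'
    have e2' : (2 : ℤ) ∣ q.2 - 1 := by simpa [TB] using e2
    refine Finset.mem_coe.2 (mem_EX.2 ⟨⟨hF.pa, h4, by omega, by omega, by omega, hF.sq,
      fun Q hQ => ⟨hF.rb Q hQ, fun z h => (hs Q hQ).2.2 z ?_⟩⟩, hF.da, hF.db⟩)
    have h1 := hF.ra Q hQ
    have h2 : z ^ 2 + s Q = z ^ 2 + q.1 - (q.1 - s Q) := by ring
    rw [h2]
    exact dvd_sub h h1
  exact_mod_cast Set.ncard_le_ncard h2 (Finset.finite_toSet _)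

end Pool.Agent.H62.PR
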