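import Pool.Agent.H62.PR.Nat4

/-!
# Project PR (helper62): the family, ordered by height
-/

set_option autoImplicit false
set_option linter.all false

open Polynomial IsDedekindDomain WeierstrassCurve WeierstrassCurve.Affine NumberField
open Pool.Agent.TH115.GD
open scoped Classical IntermediateField

namespace Pool.Agent.H62.PR

open Pool.Agent.N874.PP (Tup chA chB gq tau Two Ev Sq1 U0 sW IsBeta Rt)
open Pool.Agent.N874.PM (PLoc Lies SelR ShaR)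
open Pool.Agent.N922.PQ

/-- The twist. -/
def tw (J : Finset ℤ) (p : ℤ × ℤ) : ℤ × ℤ := (p.1 * (∏ Q ∈ J, Q) ^ 2, p.2 * (∏ Q ∈ J, Q) ^ 3)

/-- The family. -/
def Fa (S : Finset ℤ) (k : ℕ) : Set (ℤ × ℤ) :=
  {q | ∃ J ∈ S.powersetCard k, ∃ p : ℤ × ℤ, Cu S p ∧ q = tw J p}

/-- The height is at most `x`. -/
def Ht (x : ℝ) (q : ℤ × ℤ) : Prop := |(q.1 : ℝ)| ^ 3 ≤ x ∧ (q.2 : ℝ) ^ 2 ≤ x

theorem cu_ndvd {S : Finset ℤ} {p : ℤ × ℤ} (hp : Cu S p) {Q : ℤ} (hQ : Q ∈ S) : ¬ Q ∣ p.1 := by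
  intro h
  apply (hp.s Q hQ).2 0
  rwa [zero_pow two_ne_zero, zero_add]

theorem tw_mem {S : Finset ℤ} (hS : PS S) {J : Finset ℤ} (hJ : J ⊆ S) {p : ℤ × ℤ} (hp : Cu S p)
    {Q : ℤ} (hQ : Q ∈ S) : Q ∣ (tw J p).1 ↔ Q ∈ J := by
  constructor
  · intro h
    by_contra hQJ
    rcases (hS Q hQ).1.2.dvd_or_dvd h with h | h
    · exact cu_ndvd hp hQ h
    · exact not_dvd_prod (fun Q' hQ' => (hS Q' (hJ hQ')).1) (hS Q hQ).1 hQJ
        ((hS Q hQ).1.2.dvd_of_dvd_pow h)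
  · intro h
    exact Dvd.dvd.mul_left ((Finset.dvd_prod_of_mem (fun Q : ℤ => Q) h).trans
      (dvd_pow_self _ two_ne_zero)) _

theorem tw_inj {S : Finset ℤ} (hS : PS S) {J J' : Finset ℤ} (hJ : J ⊆ S) (hJ' : J' ⊆ S)
    {p p' : ℤ × ℤ} (hp : Cu S p) (hp' : Cu S p') (h : tw J p = tw J' p') : J = J' ∧ p = p' := by
  have e : J = J' := by
    ext Q
    constructor
    · intro hQ
      rw [← tw_mem hS hJ' hp' (hJ hQ), ← h, tw_mem hS hJ hp (hJ hQ)]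
      exact hQ
    · intro hQ
      rw [← tw_mem hS hJ hp (hJ' hQ), h, tw_mem hS hJ' hp' (hJ' hQ)]
      exact hQ
  subst e
  have hD : (∏ Q ∈ J, Q) ≠ 0 := by
    rw [Finset.prod_ne_zero_iff]
    exact fun Q hQ => (hS Q (hJ hQ)).1.2.ne_zero
  unfold tw at h
  rw [Prod.mk.injEq] at h
  exact ⟨rfl, Prod.ext (mul_right_cancel₀ (pow_ne_zero 2 hD) h.1)
    (mul_right_cancel₀ (pow_ne_zero 3 hD) h.2)⟩

/-- The number of the elements of the family. -/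
theorem fa_card {S : Finset ℤ} (hS : PS S) {k N : ℕ} {x : ℝ} (P : ℤ × ℤ → Prop)
    (hN : ∀ J ∈ S.powersetCard k, ∀ p, Cu S p → Ht x (tw J p) → p ∈ EX S N) :
    {q ∈ Fa S k | Ht x q ∧ P q}.Finite ∧ {q ∈ Fa S k | Ht x q ∧ P q}.ncard =
      ∑ J ∈ S.powersetCard k,
        (((EX S N).filter fun p => Ht x (tw J p)).filter fun p => P (tw J p)).card := by
  have e : {q ∈ Fa S k | Ht x q ∧ P q} = (((((S.powersetCard k).sigma fun J =>
      ((EX S N).filter fun p => Ht x (tw J p)).filter fun p => P (tw J p)).image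
        fun y => tw y.1 y.2 : Finset (ℤ × ℤ))) : Set (ℤ × ℤ)) := by
    ext q
    rw [Finset.mem_coe, Finset.mem_image]
    constructor
    · rintro ⟨⟨J, hJ, p, hp, rfl⟩, h1, h2⟩
      exact ⟨⟨J, p⟩, Finset.mem_sigma.2 ⟨hJ, Finset.mem_filter.2 ⟨Finset.mem_filter.2
        ⟨hN J hJ p hp h1, h1⟩, h2⟩⟩, rfl⟩
    · rintro ⟨⟨J, p⟩, h, rfl⟩
      obtain ⟨hJ, h1⟩ := Finset.mem_sigma.1 h
      obtain ⟨h2, h3⟩ := Finset.mem_filter.1 h1
      obtain ⟨h4, h5⟩ := Finset.mem_filter.1 h2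
      exact ⟨⟨J, hJ, p, (mem_EX.1 h4).1, rfl⟩, h5, h3⟩
  rw [e]
  refine ⟨Finset.finite_toSet _, ?_⟩
  rw [Set.ncard_coe_finset, Finset.card_image_of_injOn, Finset.card_sigma]
  rintro ⟨J, p⟩ h ⟨J', p'⟩ h' hxy
  obtain ⟨hJ, h1⟩ := Finset.mem_sigma.1 (Finset.mem_coe.1 h)
  obtain ⟨hJ', h1'⟩ := Finset.mem_sigma.1 (Finset.mem_coe.1 h')
  have hp := (mem_EX.1 (Finset.mem_filter.1 (Finset.mem_filter.1 h1).1).1).1
  have hp' := (mem_EX.1 (Finset.mem_filter.1 (Finset.mem_filter.1 h1').1).1).1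
  obtain ⟨e1, e2⟩ := tw_inj hS (Finset.mem_powersetCard.1 hJ).1 (Finset.mem_powersetCard.1 hJ').1
    hp hp' hxy
  simp only at e1 e2
  subst e1
  subst e2
  rfl

theorem cd_nonneg (d : ℕ) : 0 ≤ Cd d := by
  unfold Cd
  refine mul_nonneg (Real.iInf_nonneg fun N => Finset.prod_nonneg fun j _ => by positivity)
    (Finset.prod_nonneg fun i _ => div_nonneg zero_le_two ?_)
  have : (1 : ℝ) ≤ 2 ^ (i + 1) := one_le_pow₀ (by norm_num)
  linarith

theorem cd_le_one (d : ℕ) : Cd d ≤ 1 :=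
  le_hasSum Pool.Agent.H70.PR.eul_S d fun j _ => cd_nonneg j

/-- Two good curves which are twists of each other by `- 1`. -/
theorem pair (hPARA : S_PARA) {S : Finset ℤ} (hS : PS S) {ε : ℝ} {k : ℕ} (hc : S.card = 2 * k)
    {p : ℤ × ℤ} (hp : Cu S p) (h : Gd S ε k p) (h' : Gd S ε k (p.1, -p.2)) (d : ℕ) :
    |(((S.powersetCard k).filter fun J => selN p.1 p.2 (∏ Q ∈ J, Q) = 2 ^ d).card : ℝ) +
      (((S.powersetCard k).filter fun J => selN p.1 (-p.2) (∏ Q ∈ J, Q) = 2 ^ d).card : ℝ) -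
      2 * Cd d * (S.powersetCard k).card| ≤ 2 * ε * (S.powersetCard k).card := by
  obtain ⟨hnb, π, hπ⟩ := h
  obtain ⟨hnb', π', hπ'⟩ := h'
  have hcc : (S.powersetCard k).card = Nat.choose (2 * k) k := by
    rw [Finset.card_powersetCard, hc]
  have hne : π ≠ π' := by
    obtain ⟨J, hJ⟩ : (S.powersetCard k).Nonempty := by
      rw [← Finset.card_pos, hcc]
      exact Nat.choose_pos (by omega)
    obtain ⟨d₁, h1, h2⟩ := hπ.par J hJ
    obtain ⟨d₂, h3, h4⟩ := hπ'.par J hJ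
    rw [← h2, ← h4]
    -- a box
    obtain ⟨X, hX1, hX2⟩ : ∃ X : ℕ, p.1 ≤ X ^ 2 ∧ |p.2| ≤ X ^ 3 := by
      refine ⟨p.1.natAbs + p.2.natAbs + 1, ?_, ?_⟩
      · have h5 : p.1 ≤ (p.1.natAbs : ℤ) := Int.le_natAbs
        push_cast
        nlinarith [abs_nonneg p.1, abs_nonneg p.2, le_abs_self p.1]
      · push_cast
        have h6 : (1 : ℤ) ≤ |p.1| + |p.2| + 1 := by
          have := abs_nonneg p.1
          have := abs_nonneg p.2
          linarith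
        calc |p.2| ≤ |p.1| + |p.2| + 1 := by
              have := abs_nonneg p.1
              linarith
          _ = (|p.1| + |p.2| + 1) ^ 1 := (pow_one _).symm
          _ ≤ (|p.1| + |p.2| + 1) ^ 3 := pow_le_pow_right₀ h6 (by norm_num)
    have hE := (fib hS (X := X) hp).symm ▸ (show p ∈ {q : ℤ × ℤ | q ∈ EX S X ∧
      (q.1 % ∏ Q ∈ S, Q, q.2 % 3) = (p.1 % ∏ Q ∈ S, Q, p.2 % 3)} from
        ⟨mem_EX.2 ⟨hp, hX1, hX2⟩, rfl⟩)
    have hE' := (fib hS (X := X) (cu_neg hp)).symm ▸ (show (p.1, -p.2) ∈ {q : ℤ × ℤ | q ∈ EX S X ∧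
      (q.1 % ∏ Q ∈ S, Q, q.2 % 3) = (p.1 % ∏ Q ∈ S, Q, (-p.2) % 3)} from
        ⟨mem_EX.2 ⟨cu_neg hp, hX1, by rw [abs_neg]; exact hX2⟩, rfl⟩)
    have ht : (p.2 % 3) % 3 ≠ 0 := by
      have := hp.b3
      omega
    have ht' : ((-p.2) % 3) % 3 ≠ 0 := by
      have := hp.b3
      omega
    exact par_flip hPARA (goodS_of hS hp) (goodT ht) (goodT ht') hE.1 hE'.1 hp.a4 hnb
      (Finset.mem_powersetCard.1 hJ).1 h1 h3
  have h1 := hπ.dist d
  have h2 := hπ'.dist d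
  rw [hcc]
  have hlt := hπ.lt
  have hlt' := hπ'.lt
  have hd : d % 2 < 2 := Nat.mod_lt _ (by norm_num)
  simp only at h1 h2
  by_cases h3 : d % 2 = π
  · have h4 : d % 2 ≠ π' := fun h4 => hne (h3.symm.trans h4)
    rw [if_pos h3] at h1
    rw [if_neg h4] at h2
    rw [abs_le] at *
    constructor <;> linarith [h1.1, h1.2, h2.1, h2.2]
  · have h4 : d % 2 = π' := by omega
    rw [if_neg h3] at h1
    rw [if_pos h4] at h2
    rw [abs_le] at *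
    constructor <;> linarith [h1.1, h1.2, h2.1, h2.2]

end Pool.Agent.H62.PR
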