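import Pool.Agent.H62.PR.Nat5

/-!
# Project PR (helper62): the Poonen-Rains distribution in families ordered by height
-/

set_option autoImplicit false
set_option linter.all false

open Polynomial IsDedekindDomain WeierstrassCurve WeierstrassCurve.Affine NumberField
open Pool.Agent.TH115.GD
open scoped Classical IntermediateField

namespace Pool.Agent.H62.PR

open Pool.Agent.N874.PP (Tup chA chB gq tau Two Ev Sq1 U0 sW IsBeta Rt)
open Pool.Agent.N874.PM (PLoc Lies SelR ShaR)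
open Pool.Agent.N922.PQ

theorem exists_delta (k : ℕ) (hk : 1 ≤ k) (η : ℝ) (hη : 0 < η) :
    ∃ δ : ℝ, 0 < δ ∧ ((1 + δ) ^ k) ^ 2 ≤ 1 + η / 2 := by
  have h1 : (1 : ℝ) < 1 + η / 2 := by linarith
  have hk0 : ((k * 2 : ℕ) : ℝ)⁻¹ > 0 := by
    have : 0 < k * 2 := by omega
    positivity
  refine ⟨(1 + η / 2) ^ (((k * 2 : ℕ) : ℝ)⁻¹) - 1, ?_, ?_⟩
  · have := Real.one_lt_rpow h1 hk0
    linarith
  · rw [add_sub_cancel, ← pow_mul, Real.rpow_inv_natCast_pow (by linarith) (by omega)]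

/-- The products of `k` nearly equal primes are nearly equal. -/
theorem prod_bd {S : Finset ℤ} (hS : PS S) {k : ℕ} {δ : ℝ}
    (hδ : ∀ Q ∈ S, ∀ Q' ∈ S, (Q : ℝ) ≤ (1 + δ) * (Q' : ℝ)) {Q₀ : ℤ}
    (hQ₀ : Q₀ ∈ S) {J : Finset ℤ} (hJ : J ∈ S.powersetCard k) :
    (((∏ Q ∈ J, Q : ℤ)) : ℝ) ≤ (1 + δ) ^ k * (Q₀ : ℝ) ^ k ∧
      (Q₀ : ℝ) ^ k ≤ (1 + δ) ^ k * (((∏ Q ∈ J, Q : ℤ)) : ℝ) := by
  obtain ⟨h1, h2⟩ := Finset.mem_powersetCard.1 hJ
  have hpos : ∀ Q ∈ S, (0 : ℝ) < Q := fun Q hQ => by exact_mod_cast (hS Q hQ).1.1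
  push_cast
  constructor
  · rw [← mul_pow]
    calc ∏ Q ∈ J, (Q : ℝ) ≤ ∏ Q ∈ J, ((1 + δ) * (Q₀ : ℝ)) :=
          Finset.prod_le_prod (fun Q hQ => (hpos Q (h1 hQ)).le) fun Q hQ => hδ Q (h1 hQ) Q₀ hQ₀
      _ = _ := by rw [Finset.prod_const, h2]
  · calc (Q₀ : ℝ) ^ k = ∏ Q ∈ J, (Q₀ : ℝ) := by rw [Finset.prod_const, h2]
      _ ≤ ∏ Q ∈ J, ((1 + δ) * (Q : ℝ)) :=
          Finset.prod_le_prod (fun Q _ => (hpos Q₀ hQ₀).le) fun Q hQ => hδ Q₀ hQ₀ Q (h1 hQ)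
      _ = _ := by rw [Finset.prod_mul_distrib, Finset.prod_const, h2]

/-- The boxes. -/
theorem ht_iff {u : ℝ} (hu : 0 ≤ u) {D : ℤ} (hD : 0 < D) {p : ℤ × ℤ} (hp : 0 < p.1) :
    (|(((p.1 * D ^ 2 : ℤ)) : ℝ)| ^ 3 ≤ u ^ 6 ∧ (((p.2 * D ^ 3 : ℤ)) : ℝ) ^ 2 ≤ u ^ 6) ↔
      ((p.1 : ℝ) ≤ (u / D) ^ 2 ∧ |(p.2 : ℝ)| ≤ (u / D) ^ 3) := by
  have hD' : (0 : ℝ) < D := by exact_mod_cast hD
  have hp' : (0 : ℝ) < p.1 := by exact_mod_cast hp
  have e1 : |(((p.1 * D ^ 2 : ℤ)) : ℝ)| = (p.1 : ℝ) * (D : ℝ) ^ 2 := by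
    push_cast
    exact abs_of_pos (by positivity)
  have e2 : (((p.2 * D ^ 3 : ℤ)) : ℝ) ^ 2 = (|(p.2 : ℝ)| * (D : ℝ) ^ 3) ^ 2 := by
    push_cast
    rw [mul_pow, mul_pow, sq_abs]
  rw [e1, e2, show u ^ 6 = (u ^ 2) ^ 3 by ring, pow_le_pow_iff_left₀ (by positivity)
    (by positivity) (by norm_num), show (u ^ 2) ^ 3 = (u ^ 3) ^ 2 by ring,
    pow_le_pow_iff_left₀ (by positivity) (by positivity) (by norm_num), div_pow, div_pow,
    le_div_iff₀ (by positivity), le_div_iff₀ (by positivity)]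

/-- **The distribution of Poonen and Rains up to `ε` in a family ordered by height.** -/
theorem main (hPARA : S_PARA) (hBOXD : S_BOXD) (ε : ℝ) (hε : 0 < ε) :
    ∃ k₀ : ℕ, ∀ k ≥ k₀, ∃ δ : ℝ, 0 < δ ∧ ∀ S : Finset ℤ, PS S → S.card = 2 * k →
    (∀ Q ∈ S, ∀ Q' ∈ S, (Q : ℝ) ≤ (1 + δ) * (Q' : ℝ)) → ∃ c : ℝ, 0 < c ∧ ∃ x₀ : ℝ,
    ∀ x ≥ x₀, {q ∈ Fa S k | Ht x q}.Finite ∧
      c * x ^ (5 / 6 : ℝ) ≤ ({q ∈ Fa S k | Ht x q}.ncard : ℝ) ∧
      ∀ d : ℕ, |({q ∈ Fa S k | Ht x q ∧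
          Nat.card (Sel2 (sW (q.1 : ℚ) (q.2 : ℚ))) = 2 ^ d}.ncard : ℝ) -
        Cd d * ({q ∈ Fa S k | Ht x q}.ncard : ℝ)| ≤ ε * ({q ∈ Fa S k | Ht x q}.ncard : ℝ) := by
  obtain ⟨e, he⟩ : ∃ e : ℝ, e = min ε 1 / 16 := ⟨_, rfl⟩
  have he0 : 0 < e := by
    rw [he]
    have : 0 < min ε 1 := lt_min hε one_pos
    positivity
  have he1 : 16 * e ≤ ε := by
    have := min_le_left ε 1
    linarith
  have he2 : 16 * e ≤ 1 := by
    have := min_le_right ε 1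
    linarith
  obtain ⟨k₀, hbad⟩ := few_bad e he0
  obtain ⟨C, hC, hbox⟩ := few_box hBOXD
  obtain ⟨c, hc, hlow⟩ := ex_low
  refine ⟨max k₀ 1, fun k hk => ?_⟩
  have hk1 : 1 ≤ k := (le_max_right _ _).trans hk
  obtain ⟨η, hηe⟩ : ∃ η : ℝ, η = min (1 / 2) (e / C) := ⟨_, rfl⟩
  have hη : 0 < η := by
    rw [hηe]
    exact lt_min (by norm_num) (by positivity)
  have hη1 : η ≤ 1 / 2 := by
    rw [hηe]
    exact min_le_left _ _
  have hηC : C * η ≤ e := by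
    have h1 : η ≤ e / C := by
      rw [hηe]
      exact min_le_right _ _
    calc C * η ≤ C * (e / C) := mul_le_mul_of_nonneg_left h1 hC.le
      _ = e := by field_simp
  obtain ⟨δ, hδ, hδk⟩ := exists_delta k hk1 η hη
  refine ⟨δ, hδ, fun S hS hcard hSδ => ?_⟩
  obtain ⟨Q₀, hQ₀⟩ : S.Nonempty := by
    rw [← Finset.card_pos]
    omega
  obtain ⟨X₁, hX₁⟩ := hbad k ((le_max_left _ _).trans hk) S hS hcard
  obtain ⟨X₂, hX₂⟩ := hbox S hS η hη (by linarith)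
  obtain ⟨X₃, hX₃⟩ := hlow S hS
  obtain ⟨D₀, hD₀⟩ : ∃ D₀ : ℝ, D₀ = (Q₀ : ℝ) ^ k := ⟨_, rfl⟩
  have hQ0 : (0 : ℝ) < Q₀ := by exact_mod_cast (hS Q₀ hQ₀).1.1
  have hD0 : 0 < D₀ := by rw [hD₀]; positivity
  obtain ⟨ρ, hρ⟩ : ∃ ρ : ℝ, ρ = (1 + δ) ^ k := ⟨_, rfl⟩
  have hρ1 : 1 ≤ ρ := by rw [hρ]; exact one_le_pow₀ (by linarith)
  rw [← hρ] at hδk
  obtain ⟨P, hP⟩ : ∃ P : ℝ, P = ∏ Q ∈ S, (Q : ℝ) ^ 2 := ⟨_, rfl⟩
  have hP0 : 0 < P := by rw [hP]; exact ps_prod hS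
  -- the bound for the height
  obtain ⟨w₀, hw₀⟩ : ∃ w₀ : ℝ, w₀ = max (4 * ρ / η) (max X₁ (max X₂ X₃)) := ⟨_, rfl⟩
  have hw₀0 : 0 < w₀ := by
    rw [hw₀]
    exact lt_max_of_lt_left (by positivity)
  refine ⟨c / (4 * P * D₀ ^ 5), by positivity, (D₀ * w₀) ^ 6, fun x hx => ?_⟩
  have hx0 : 0 < x := lt_of_lt_of_le (by positivity) hx
  obtain ⟨u, hu⟩ : ∃ u : ℝ, u = x ^ ((6 : ℝ)⁻¹) := ⟨_, rfl⟩
  have hu0 : 0 < u := by rw [hu]; positivity
  have hu6 : u ^ 6 = x := by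
    rw [hu]
    have := Real.rpow_inv_natCast_pow (n := 6) hx0.le (by norm_num)
    exact_mod_cast this
  have hu5 : u ^ 5 = x ^ (5 / 6 : ℝ) := by
    rw [hu, ← Real.rpow_natCast, ← Real.rpow_mul hx0.le]
    norm_num
  have huw : D₀ * w₀ ≤ u := by
    rw [← hu6] at hx
    exact (pow_le_pow_iff_left₀ (by positivity) hu0.le (by norm_num)).1 hx
  obtain ⟨w, hw⟩ : ∃ w : ℝ, w = u / D₀ := ⟨_, rfl⟩
  have hw0 : 0 < w := by rw [hw]; positivity
  have hww : w₀ ≤ w := by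
    rw [hw, le_div_iff₀ hD0]
    linarith
  obtain ⟨N, hN⟩ : ∃ N : ℕ, N = ⌈ρ * w⌉₊ := ⟨_, rfl⟩
  obtain ⟨N', hN'⟩ : ∃ N' : ℕ, N' = ⌊w / ρ⌋₊ := ⟨_, rfl⟩
  have hρ0 : 0 < ρ := by linarith
  have hN1 : ρ * w ≤ N := by rw [hN]; exact Nat.le_ceil _
  have hN2 : (N : ℝ) < ρ * w + 1 := by rw [hN]; exact Nat.ceil_lt_add_one (by positivity)
  have hN3 : (N' : ℝ) ≤ w / ρ := by rw [hN']; exact Nat.floor_le (by positivity)
  have hN4 : w / ρ < (N' : ℝ) + 1 := by rw [hN']; exact Nat.lt_floor_add_one _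
  have hwN : w ≤ N := by nlinarith
  have hmax : ∀ {y : ℝ}, y ≤ w₀ → y ≤ N := fun h => h.trans (hww.trans hwN)
  have hNX₁ : X₁ ≤ N := by
    have : (X₁ : ℝ) ≤ N := hmax (by rw [hw₀]; exact (le_max_left _ _).trans (le_max_right _ _))
    exact_mod_cast this
  have hNX₂ : X₂ ≤ N := by
    have : (X₂ : ℝ) ≤ N := hmax (by
      rw [hw₀]
      exact (le_max_left _ _).trans ((le_max_right _ _).trans (le_max_right _ _)))
    exact_mod_cast this
  have hNX₃ : X₃ ≤ N := by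
    have : (X₃ : ℝ) ≤ N := hmax (by
      rw [hw₀]
      exact (le_max_right _ _).trans ((le_max_right _ _).trans (le_max_right _ _)))
    exact_mod_cast this
  have hNN : (1 - η) * (N : ℝ) ≤ N' ∧ N' ≤ N := by
    have h1 : w / ρ ≤ w := div_le_self hw0.le hρ1
    refine ⟨?_, ?_⟩
    · have h2 : 4 * ρ / η ≤ w := le_trans (by rw [hw₀]; exact le_max_left _ _) hww
      have h3 : 4 * ρ ≤ w * η := (div_le_iff₀ hη).1 h2
      -- (1 - η) (ρ w + 1) ≤ w / ρ - 1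
      have h4 : (1 - η) * (ρ * w + 1) + 1 ≤ w / ρ := by
        rw [le_div_iff₀ hρ0]
        have h5 : (1 - η) * ρ ^ 2 ≤ 1 - η / 2 := by
          calc (1 - η) * ρ ^ 2 ≤ (1 - η) * (1 + η / 2) :=
                mul_le_mul_of_nonneg_left hδk (by linarith)
            _ ≤ 1 - η / 2 := by nlinarith
        have h6 : (1 - η) * ρ ^ 2 * w ≤ (1 - η / 2) * w := mul_le_mul_of_nonneg_right h5 hw0.le
        nlinarith
      have h7 : (1 - η) * (N : ℝ) ≤ (1 - η) * (ρ * w + 1) :=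
        mul_le_mul_of_nonneg_left hN2.le (by linarith)
      linarith
    · have : (N' : ℝ) ≤ N := hN3.trans (h1.trans hwN)
      exact_mod_cast this
  -- the products
  have hJpos : ∀ J ∈ S.powersetCard k, 0 < ∏ Q ∈ J, Q := fun J hJ =>
    Finset.prod_pos fun Q hQ => (hS Q ((Finset.mem_powersetCard.1 hJ).1 hQ)).1.1
  have hJb : ∀ J ∈ S.powersetCard k, u / (((∏ Q ∈ J, Q : ℤ)) : ℝ) ≤ ρ * w ∧
      w / ρ ≤ u / (((∏ Q ∈ J, Q : ℤ)) : ℝ) := by
    intro J hJ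
    obtain ⟨h1, h2⟩ := prod_bd hS hSδ hQ₀ hJ
    rw [← hρ, ← hD₀] at h1 h2
    have h3 : (0 : ℝ) < (((∏ Q ∈ J, Q : ℤ)) : ℝ) := by exact_mod_cast hJpos J hJ
    generalize (((∏ Q ∈ J, Q : ℤ)) : ℝ) = y at *
    rw [hw]
    constructor
    · rw [div_le_iff₀ h3]
      calc u = u / D₀ * D₀ := by field_simp
        _ ≤ u / D₀ * (ρ * y) := mul_le_mul_of_nonneg_left h2 (by positivity)
        _ = _ := by ring
    · rw [div_le_iff₀ hρ0, div_mul_eq_mul_div, div_le_div_iff₀ hD0 h3]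
      calc u * y ≤ u * (ρ * D₀) := mul_le_mul_of_nonneg_left h1 hu0.le
        _ = _ := by ring
  have hEN : ∀ J ∈ S.powersetCard k, ∀ p, Cu S p → Ht x (tw J p) → p ∈ EX S N := by
    intro J hJ p hp hht
    unfold Ht tw at hht
    rw [← hu6] at hht
    obtain ⟨h1, h2⟩ := (ht_iff hu0.le (hJpos J hJ) hp.pos).1 hht
    have h3 : u / (((∏ Q ∈ J, Q : ℤ)) : ℝ) ≤ N := (hJb J hJ).1.trans hN1
    have h4 : 0 ≤ u / (((∏ Q ∈ J, Q : ℤ)) : ℝ) := by
      have : (0 : ℝ) < (((∏ Q ∈ J, Q : ℤ)) : ℝ) := by exact_mod_cast hJpos J hJ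
      positivity
    refine mem_EX.2 ⟨hp, ?_, ?_⟩
    · have h5 := h1.trans (pow_le_pow_left₀ h4 h3 2)
      exact_mod_cast h5
    · have h5 := h2.trans (pow_le_pow_left₀ h4 h3 3)
      exact_mod_cast h5
  have hEN' : ∀ J ∈ S.powersetCard k, ∀ p ∈ EX S N, ¬ Ob N' p → Ht x (tw J p) := by
    intro J hJ p hp hob
    unfold Ob at hob
    push Not at hob
    have hpc := (mem_EX.1 hp).1
    unfold Ht tw
    rw [← hu6]
    have h3 : (N' : ℝ) ≤ u / (((∏ Q ∈ J, Q : ℤ)) : ℝ) := hN3.trans (hJb J hJ).2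
    refine (ht_iff hu0.le (hJpos J hJ) hpc.pos).2 ⟨?_, ?_⟩
    · have h5 : ((p.1 : ℤ) : ℝ) ≤ (N' : ℝ) ^ 2 := by exact_mod_cast hob.1
      exact h5.trans (pow_le_pow_left₀ (by positivity) h3 2)
    · have h5 : |((p.2 : ℤ) : ℝ)| ≤ (N' : ℝ) ^ 3 := by exact_mod_cast hob.2
      exact h5.trans (pow_le_pow_left₀ (by positivity) h3 3)
  -- the cardinalities
  have e1 : {q ∈ Fa S k | Ht x q ∧ True} = {q ∈ Fa S k | Ht x q} := by
    ext q
    simp
  have hcard1 : {q ∈ Fa S k | Ht x q}.Finite ∧ {q ∈ Fa S k | Ht x q}.ncard =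
      ∑ J ∈ S.powersetCard k, ((EX S N).filter fun p => Ht x (tw J p)).card := by
    obtain ⟨h1, h2⟩ := fa_card hS (fun _ => True) hEN
    rw [e1] at h1 h2
    refine ⟨h1, h2.trans (Finset.sum_congr rfl fun J _ => ?_)⟩
    congr 1
    ext p
    simp
  have hEJ : ∀ J ∈ S.powersetCard k, ((EX S N).card : ℝ) -
      (((EX S N).filter fun p => Ht x (tw J p)).card : ℝ) ≤ e * (EX S N).card := by
    intro J hJ
    have h1 := hX₂ N hNX₂ N' hNN
    have h2 : (EX S N).card ≤ ((EX S N).filter fun p => Ht x (tw J p)).card +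
        ((EX S N).filter (Ob N')).card := by
      refine (Finset.card_le_card ?_).trans (Finset.card_union_le _ _)
      intro p hp
      rw [Finset.mem_union, Finset.mem_filter, Finset.mem_filter]
      by_cases h : Ob N' p
      · exact Or.inr ⟨hp, h⟩
      · exact Or.inl ⟨hp, hEN' J hJ p hp h⟩
    have h3 : ((EX S N).card : ℝ) ≤ (((EX S N).filter fun p => Ht x (tw J p)).card : ℝ) +
        (((EX S N).filter (Ob N')).card : ℝ) := by exact_mod_cast h2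
    have h4 : C * η * ((EX S N).card : ℝ) ≤ e * (EX S N).card :=
      mul_le_mul_of_nonneg_right hηC (Nat.cast_nonneg _)
    linarith
  have hsumEJ : ((S.powersetCard k).card : ℝ) * ((EX S N).card : ℝ) ≤
      2 * ∑ J ∈ S.powersetCard k, (((EX S N).filter fun p => Ht x (tw J p)).card : ℝ) := by
    have h1 : ∀ J ∈ S.powersetCard k, (1 / 2 : ℝ) * (EX S N).card ≤
        (((EX S N).filter fun p => Ht x (tw J p)).card : ℝ) := by
      intro J hJ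
      have h2 := hEJ J hJ
      have h3 : e * ((EX S N).card : ℝ) ≤ (1 / 2 : ℝ) * (EX S N).card :=
        mul_le_mul_of_nonneg_right (by linarith) (Nat.cast_nonneg _)
      linarith
    have h4 := Finset.sum_le_sum h1
    rw [Finset.sum_const, nsmul_eq_mul] at h4
    linarith
  have hccpos : 1 ≤ (S.powersetCard k).card := by
    rw [Finset.card_powersetCard, hcard]
    exact Nat.choose_pos (by omega)
  refine ⟨hcard1.1, ?_, fun d => ?_⟩
  · rw [hcard1.2]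
    push_cast
    have h1 := hX₃ N hNX₃
    rw [← hP] at h1
    have h2 : ((EX S N).card : ℝ) ≤ ((S.powersetCard k).card : ℝ) * ((EX S N).card : ℝ) := by
      have h3 : (1 : ℝ) ≤ (S.powersetCard k).card := by exact_mod_cast hccpos
      exact le_mul_of_one_le_left (Nat.cast_nonneg _) h3
    have h4 : w ^ 5 ≤ (N : ℝ) ^ 5 := pow_le_pow_left₀ hw0.le hwN 5
    have h5 : c * w ^ 5 ≤ P * ((EX S N).card : ℝ) :=
      (mul_le_mul_of_nonneg_left h4 hc.le).trans h1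
    have h6 : c / (4 * P * D₀ ^ 5) * x ^ (5 / 6 : ℝ) = (c * w ^ 5) / (4 * P) := by
      rw [← hu5, hw]
      field_simp
    rw [h6, div_le_iff₀ (by positivity)]
    have h7 : 0 ≤ ∑ J ∈ S.powersetCard k,
        (((EX S N).filter fun p => Ht x (tw J p)).card : ℝ) := by positivity
    generalize ∑ J ∈ S.powersetCard k, (((EX S N).filter fun p => Ht x (tw J p)).card : ℝ) = z at *
    have h8 : ((EX S N).card : ℝ) ≤ 2 * z := h2.trans hsumEJ
    nlinarith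
  · have hcard2 : {q ∈ Fa S k | Ht x q ∧
        Nat.card (Sel2 (sW (q.1 : ℚ) (q.2 : ℚ))) = 2 ^ d}.ncard = ∑ J ∈ S.powersetCard k,
          (((EX S N).filter fun p => Ht x (tw J p)).filter fun p =>
            selN p.1 p.2 (∏ Q ∈ J, Q) = 2 ^ d).card := by
      refine (fa_card hS (fun q => Nat.card (Sel2 (sW (q.1 : ℚ) (q.2 : ℚ))) = 2 ^ d) hEN).2.trans
        (Finset.sum_congr rfl fun J _ => ?_)
      refine congrArg Finset.card (Finset.ext fun p => ?_)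
      simp only [Finset.mem_filter, selN, tw]
    rw [hcard2, hcard1.2]
    push_cast
    have h1 := avg (EX S N) (S.powersetCard k) (fun p => (p.1, -p.2)) (by
        intro p hp
        obtain ⟨h1, h2, h3⟩ := mem_EX.1 hp
        exact mem_EX.2 ⟨cu_neg h1, h2, by rw [abs_neg]; exact h3⟩) (by
        intro p
        simp)
      (fun p J => selN p.1 p.2 (∏ Q ∈ J, Q) = 2 ^ d) (Cd d) e e (cd_nonneg d) (cd_le_one d) he0.le
      he0.le ((EX S N).filter fun p => Gd S e k p) (Finset.filter_subset _ _) (by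
        have h2 := hX₁ N hNX₁
        have h3 := Finset.card_filter_add_card_filter_not (s := EX S N) (Gd S e k)
        have h4 : (((EX S N).filter fun p => Gd S e k p).card : ℝ) +
            (((EX S N).filter (Bk S e k)).card : ℝ) = (EX S N).card := by
          rw [← h3]
          push_cast
          congr
        linarith)
      (by
        intro p hp hp'
        obtain ⟨h2, h3⟩ := Finset.mem_filter.1 hp
        obtain ⟨h4, h5⟩ := Finset.mem_filter.1 hp'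
        have h6 := pair hPARA hS hcard (mem_EX.1 h2).1 h3 h5 d
        convert h6)
      (fun J => (EX S N).filter fun p => Ht x (tw J p)) (fun J _ => Finset.filter_subset _ _) hEJ
    have h3 : (2 * e + 3 * e) * (((S.powersetCard k).card : ℝ) * ((EX S N).card : ℝ)) ≤
        ε * ∑ J ∈ S.powersetCard k, (((EX S N).filter fun p => Ht x (tw J p)).card : ℝ) := by
      have h4 := mul_le_mul_of_nonneg_left hsumEJ (show 0 ≤ 2 * e + 3 * e by positivity)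
      refine h4.trans ?_
      have h5 : 0 ≤ ∑ J ∈ S.powersetCard k,
        (((EX S N).filter fun p => Ht x (tw J p)).card : ℝ) := by positivity
      generalize ∑ J ∈ S.powersetCard k,
        (((EX S N).filter fun p => Ht x (tw J p)).card : ℝ) = z at *
      nlinarith
    refine le_trans (le_of_eq ?_) (h1.trans h3)
    congr 2
    refine Finset.sum_congr rfl fun J _ => ?_
    congr

end Pool.Agent.H62.PR
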