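import Pool.Agent.H62.PR.Nat6
import Pool.Agent.H62.PR.Fin4

/-!
# Project PR (helper62): all parts together
-/

set_option autoImplicit false
set_option linter.all false

open Polynomial IsDedekindDomain WeierstrassCurve WeierstrassCurve.Affine NumberField
open Pool.Agent.TH115.GD
open scoped Classical IntermediateField

namespace Pool.Agent.H62.PR

open Pool.Agent.N874.PP (Tup chA chB gq tau Two Ev Sq1 U0 sW IsBeta Rt)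
open Pool.Agent.N874.PM (PLoc Lies SelR ShaR)
open Pool.Agent.N922.PQ

theorem para : S_PARA :=
  Pool.Agent.H89.PR.para Pool.Agent.H88.PR.sun_fin Pool.Agent.H66.PR.L2I.l2i
    (Pool.Agent.H6.PR.sela Pool.Agent.H93.PR.fwd (Pool.Agent.H25.PR.Rev.rev Pool.Agent.H70.GM.gm)
      Pool.Agent.H25.PR.eqv)
    Pool.Agent.H70.PR.l2d Pool.Agent.H70.PR.isq Pool.Agent.H70.PR.rec2 Pool.Agent.H66.PR.Parl.parl

theorem main' (ε : ℝ) (hε : 0 < ε) :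
    ∃ k₀ : ℕ, ∀ k ≥ k₀, ∃ δ : ℝ, 0 < δ ∧ ∀ S : Finset ℤ, PS S → S.card = 2 * k →
    (∀ Q ∈ S, ∀ Q' ∈ S, (Q : ℝ) ≤ (1 + δ) * (Q' : ℝ)) → ∃ c : ℝ, 0 < c ∧ ∃ x₀ : ℝ,
    ∀ x ≥ x₀, {q ∈ Fa S k | Ht x q}.Finite ∧
      c * x ^ (5 / 6 : ℝ) ≤ ({q ∈ Fa S k | Ht x q}.ncard : ℝ) ∧
      ∀ d : ℕ, |({q ∈ Fa S k | Ht x q ∧
          Nat.card (Sel2 (sW (q.1 : ℚ) (q.2 : ℚ))) = 2 ^ d}.ncard : ℝ) -
        Cd d * ({q ∈ Fa S k | Ht x q}.ncard : ℝ)| ≤ ε * ({q ∈ Fa S k | Ht x q}.ncard : ℝ) :=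
  main para Pool.Agent.H29.PR.BoxD.boxd ε hε

end Pool.Agent.H62.PR
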