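import Pool.Agent.H62.PR.Nat7

/-!
# Project PR (helper62): total variation, and all curves
-/

set_option autoImplicit false
set_option linter.all false

open Polynomial IsDedekindDomain WeierstrassCurve WeierstrassCurve.Affine NumberField
open Pool.Agent.TH115.GD
open scoped Classical IntermediateField

namespace Pool.Agent.H62.PR

open Pool.Agent.N874.PP (Tup chA chB gq tau Two Ev Sq1 U0 sW IsBeta Rt)
open Pool.Agent.N874.PM (PLoc Lies SelR ShaR)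
open Pool.Agent.N922.PQ

theorem cd_summable : Summable Cd := Pool.Agent.H70.PR.eul_S.summable

/-- Total variation. -/
theorem tv {α : Type} (ε : ℝ) (hε : 0 < ε) : ∃ ε' : ℝ, 0 < ε' ∧ ∀ (F : Set α) (n : α → ℕ → Prop),
    F.Finite → (∀ q d d', n q d → n q d' → d = d') →
    (∀ d : ℕ, |({q ∈ F | n q d}.ncard : ℝ) - Cd d * (F.ncard : ℝ)| ≤ ε' * (F.ncard : ℝ)) →
    ∀ 𝒟 : Set ℕ, |({q ∈ F | ∃ d ∈ 𝒟, n q d}.ncard : ℝ) -
      (∑' d : 𝒟, Cd d) * (F.ncard : ℝ)| ≤ ε * (F.ncard : ℝ) := by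
  obtain ⟨M, hM⟩ : ∃ M : ℕ, 1 - ε / 4 < ∑ d ∈ Finset.range M, Cd d := by
    have h1 := Pool.Agent.H70.PR.eul_S.tendsto_sum_nat
    exact ((tendsto_order.1 h1).1 (1 - ε / 4) (by linarith)).exists
  refine ⟨ε / (4 * (M + 1)), by positivity, fun F n hF hn hd 𝒟 => ?_⟩
  obtain ⟨N, hN⟩ : ∃ N : ℝ, N = (F.ncard : ℝ) := ⟨_, rfl⟩
  have hN0 : 0 ≤ N := by rw [hN]; positivity
  rw [← hN] at hd ⊢
  -- lower bounds
  have key : ∀ 𝒜 : Set ℕ, (∑ d ∈ (Finset.range M).filter (· ∈ 𝒜), Cd d) * N - ε / 4 * N ≤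
      ({q ∈ F | ∃ d ∈ 𝒜, n q d}.ncard : ℝ) := by
    intro 𝒜
    have h1 : ∑ d ∈ (Finset.range M).filter (· ∈ 𝒜), {q ∈ F | n q d}.ncard ≤
        {q ∈ F | ∃ d ∈ 𝒜, n q d}.ncard := by
      have e : ∀ d, {q ∈ F | n q d}.ncard = (hF.toFinset.filter fun q => n q d).card := by
        intro d
        rw [← Set.ncard_coe_finset]
        congr 1
        ext q
        simp
      have e' : {q ∈ F | ∃ d ∈ 𝒜, n q d}.ncard =
          (hF.toFinset.filter fun q => ∃ d ∈ 𝒜, n q d).card := by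
        rw [← Set.ncard_coe_finset]
        congr 1
        ext q
        simp
      rw [e', Finset.sum_congr rfl fun d _ => e d, ← Finset.card_biUnion]
      · refine Finset.card_le_card fun q hq => ?_
        obtain ⟨d, hd, hq⟩ := Finset.mem_biUnion.1 hq
        obtain ⟨h1, h2⟩ := Finset.mem_filter.1 hq
        exact Finset.mem_filter.2 ⟨h1, d, (Finset.mem_filter.1 hd).2, h2⟩
      · intro d _ d' _ hne
        refine Finset.disjoint_left.2 fun q hq hq' => hne ?_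
        exact hn q d d' (Finset.mem_filter.1 hq).2 (Finset.mem_filter.1 hq').2
    have h2 : ∑ d ∈ (Finset.range M).filter (· ∈ 𝒜), (Cd d * N - ε / (4 * (M + 1)) * N) ≤
        ∑ d ∈ (Finset.range M).filter (· ∈ 𝒜), ({q ∈ F | n q d}.ncard : ℝ) := by
      refine Finset.sum_le_sum fun d _ => ?_
      have := (abs_le.1 (hd d)).1
      linarith
    have h3 : ∑ d ∈ (Finset.range M).filter (· ∈ 𝒜), ({q ∈ F | n q d}.ncard : ℝ) ≤
        ({q ∈ F | ∃ d ∈ 𝒜, n q d}.ncard : ℝ) := by exact_mod_cast h1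
    refine le_trans ?_ (h2.trans h3)
    rw [Finset.sum_sub_distrib, Finset.sum_const, nsmul_eq_mul, Finset.sum_mul]
    have h4 : (((Finset.range M).filter (· ∈ 𝒜)).card : ℝ) ≤ M + 1 := by
      have : ((Finset.range M).filter (· ∈ 𝒜)).card ≤ M := by
        refine (Finset.card_filter_le _ _).trans ?_
        rw [Finset.card_range]
      have h5 : (((Finset.range M).filter (· ∈ 𝒜)).card : ℝ) ≤ M := by exact_mod_cast this
      linarith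
    have h6 : (((Finset.range M).filter (· ∈ 𝒜)).card : ℝ) * (ε / (4 * (M + 1)) * N) ≤
        (M + 1) * (ε / (4 * (M + 1)) * N) := mul_le_mul_of_nonneg_right h4 (by positivity)
    have h7 : ((M : ℝ) + 1) * (ε / (4 * (M + 1)) * N) = ε / 4 * N := by field_simp
    linarith
  -- the sums
  have hsum : ∑' d : 𝒟, Cd d = ∑' d, 𝒟.indicator Cd d := tsum_subtype 𝒟 Cd
  have hsi : Summable (𝒟.indicator Cd) := cd_summable.indicator 𝒟
  have hsplit : ∀ 𝒜 : Set ℕ, ∑ d ∈ (Finset.range M).filter (· ∈ 𝒜), Cd d =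
      ∑ d ∈ Finset.range M, 𝒜.indicator Cd d := by
    intro 𝒜
    rw [Finset.sum_filter]
    rfl
  have hle : ∑ d ∈ Finset.range M, 𝒟.indicator Cd d ≤ ∑' d, 𝒟.indicator Cd d :=
    hsi.sum_le_tsum _ fun d _ => Set.indicator_nonneg (fun d _ => cd_nonneg d) d
  have htail : ∑' d, 𝒟.indicator Cd d ≤ ∑ d ∈ Finset.range M, 𝒟.indicator Cd d + ε / 4 := by
    have h1 : Summable (𝒟ᶜ.indicator Cd) := cd_summable.indicator _
    have h2 : ∑ d ∈ Finset.range M, 𝒟ᶜ.indicator Cd d ≤ ∑' d, 𝒟ᶜ.indicator Cd d :=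
      h1.sum_le_tsum _ fun d _ => Set.indicator_nonneg (fun d _ => cd_nonneg d) d
    have h3 : ∑' d, 𝒟.indicator Cd d + ∑' d, 𝒟ᶜ.indicator Cd d = 1 := by
      rw [← hsi.tsum_add h1, ← Pool.Agent.H70.PR.eul_S.tsum_eq]
      congr 1
      funext d
      by_cases h : d ∈ 𝒟
      · simp [h]
      · simp [h]
    have h4 : ∑ d ∈ Finset.range M, 𝒟.indicator Cd d + ∑ d ∈ Finset.range M, 𝒟ᶜ.indicator Cd d =
        ∑ d ∈ Finset.range M, Cd d := by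
      rw [← Finset.sum_add_distrib]
      refine Finset.sum_congr rfl fun d _ => ?_
      by_cases h : d ∈ 𝒟
      · simp [h]
      · simp [h]
    linarith
  have h1 := key 𝒟
  have h2 := key 𝒟ᶜ
  rw [hsplit] at h1 h2
  have h3 : ∑ d ∈ Finset.range M, 𝒟.indicator Cd d + ∑ d ∈ Finset.range M, 𝒟ᶜ.indicator Cd d =
      ∑ d ∈ Finset.range M, Cd d := by
    rw [← Finset.sum_add_distrib]
    refine Finset.sum_congr rfl fun d _ => ?_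
    by_cases h : d ∈ 𝒟
    · simp [h]
    · simp [h]
  have h4 : ({q ∈ F | ∃ d ∈ 𝒟, n q d}.ncard : ℝ) + ({q ∈ F | ∃ d ∈ 𝒟ᶜ, n q d}.ncard : ℝ) ≤ N := by
    rw [hN]
    have h5 : {q ∈ F | ∃ d ∈ 𝒟, n q d}.ncard + {q ∈ F | ∃ d ∈ 𝒟ᶜ, n q d}.ncard ≤ F.ncard := by
      rw [← Set.ncard_union_eq ?_ (hF.subset fun q hq => hq.1) (hF.subset fun q hq => hq.1)]
      · exact Set.ncard_le_ncard (Set.union_subset (fun q hq => hq.1) (fun q hq => hq.1)) hF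
      · rw [Set.disjoint_left]
        rintro q ⟨-, d, hd, h⟩ ⟨-, d', hd', h'⟩
        exact hd' (hn q d d' h h' ▸ hd)
    exact_mod_cast h5
  rw [hsum]
  generalize ∑' d, 𝒟.indicator Cd d = s at *
  generalize ∑ d ∈ Finset.range M, 𝒟.indicator Cd d = s₁ at *
  generalize ∑ d ∈ Finset.range M, 𝒟ᶜ.indicator Cd d = s₂ at *
  generalize ({q ∈ F | ∃ d ∈ 𝒟, n q d}.ncard : ℝ) = a at *
  generalize ({q ∈ F | ∃ d ∈ 𝒟ᶜ, n q d}.ncard : ℝ) = b at *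
  have h5 : s * N ≤ (s₁ + ε / 4) * N := mul_le_mul_of_nonneg_right htail hN0
  have h6 : s₁ * N ≤ s * N := mul_le_mul_of_nonneg_right hle hN0
  have h7 : (1 - ε / 4) * N ≤ (s₁ + s₂) * N := mul_le_mul_of_nonneg_right (by linarith) hN0
  have h8 : 0 ≤ ε * N := by positivity
  rw [abs_le]
  constructor <;> nlinarith

/-- All curves. -/
def AllC (x : ℝ) : Set (ℤ × ℤ) := {q | 4 * q.1 ^ 3 + 27 * q.2 ^ 2 ≠ 0 ∧ Ht x q}

theorem allC_bound {x : ℝ} (hx : 1 ≤ x) :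
    (AllC x).Finite ∧ ((AllC x).ncard : ℝ) ≤ 9 * x ^ (5 / 6 : ℝ) := by
  obtain ⟨u, hu⟩ : ∃ u : ℝ, u = x ^ ((6 : ℝ)⁻¹) := ⟨_, rfl⟩
  have hx0 : 0 < x := by linarith
  have hu0 : 0 < u := by rw [hu]; positivity
  have hu6 : u ^ 6 = x := by
    rw [hu]
    have := Real.rpow_inv_natCast_pow (n := 6) hx0.le (by norm_num)
    exact_mod_cast this
  have hu5 : u ^ 5 = x ^ (5 / 6 : ℝ) := by
    rw [hu, ← Real.rpow_natCast, ← Real.rpow_mul hx0.le]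
    norm_num
  have hu1 : 1 ≤ u := by
    rw [hu]
    exact Real.one_le_rpow hx (by norm_num)
  obtain ⟨m, hm⟩ : ∃ m : ℕ, m = ⌊u ^ 2⌋₊ := ⟨_, rfl⟩
  obtain ⟨n, hn⟩ : ∃ n : ℕ, n = ⌊u ^ 3⌋₊ := ⟨_, rfl⟩
  have hm1 : (m : ℝ) ≤ u ^ 2 := by rw [hm]; exact Nat.floor_le (by positivity)
  have hn1 : (n : ℝ) ≤ u ^ 3 := by rw [hn]; exact Nat.floor_le (by positivity)
  have hsub : AllC x ⊆ (((Finset.Icc (-(m : ℤ)) m) ×ˢ (Finset.Icc (-(n : ℤ)) n) :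
      Finset (ℤ × ℤ)) : Set (ℤ × ℤ)) := by
    rintro q ⟨-, h1, h2⟩
    rw [← hu6] at h1 h2
    have h3 : |(q.1 : ℝ)| ≤ u ^ 2 := by
      rw [show u ^ 6 = (u ^ 2) ^ 3 by ring] at h1
      exact (pow_le_pow_iff_left₀ (abs_nonneg _) (by positivity) (by norm_num)).1 h1
    have h4 : |(q.2 : ℝ)| ≤ u ^ 3 := by
      rw [show u ^ 6 = (u ^ 3) ^ 2 by ring, ← sq_abs] at h2
      exact (pow_le_pow_iff_left₀ (abs_nonneg _) (by positivity) (by norm_num)).1 h2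
    have h5 : |q.1| ≤ m := by
      rw [hm, Int.abs_eq_natAbs]
      have : (q.1.natAbs : ℝ) ≤ u ^ 2 := by
        rw [← Int.cast_natCast, ← Int.abs_eq_natAbs, Int.cast_abs]
        exact h3
      exact_mod_cast Nat.le_floor this
    have h6 : |q.2| ≤ n := by
      rw [hn, Int.abs_eq_natAbs]
      have : (q.2.natAbs : ℝ) ≤ u ^ 3 := by
        rw [← Int.cast_natCast, ← Int.abs_eq_natAbs, Int.cast_abs]
        exact h4
      exact_mod_cast Nat.le_floor this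
    rw [Finset.mem_coe, Finset.mem_product, Finset.mem_Icc, Finset.mem_Icc]
    exact ⟨abs_le.1 h5, abs_le.1 h6⟩
  refine ⟨(Finset.finite_toSet _).subset hsub, ?_⟩
  have h1 := Set.ncard_le_ncard hsub (Finset.finite_toSet _)
  rw [Set.ncard_coe_finset, Finset.card_product, Int.card_Icc, Int.card_Icc] at h1
  have h2 : ((m : ℤ) + 1 - -(m : ℤ)).toNat = 2 * m + 1 := by omega
  have h3 : ((n : ℤ) + 1 - -(n : ℤ)).toNat = 2 * n + 1 := by omega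
  rw [h2, h3] at h1
  have h4 : ((AllC x).ncard : ℝ) ≤ (2 * m + 1) * (2 * n + 1) := by exact_mod_cast h1
  have h5 : (1 : ℝ) ≤ u ^ 2 := one_le_pow₀ hu1
  have h6 : (1 : ℝ) ≤ u ^ 3 := one_le_pow₀ hu1
  calc ((AllC x).ncard : ℝ) ≤ (2 * m + 1) * (2 * n + 1) := h4
    _ ≤ (3 * u ^ 2) * (3 * u ^ 3) := by
        refine mul_le_mul (by linarith) (by linarith) (by positivity) (by positivity)
    _ = 9 * x ^ (5 / 6 : ℝ) := by rw [← hu5]; ring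

theorem fa_ell {S : Finset ℤ} (hS : PS S) {k : ℕ} {q : ℤ × ℤ} (hq : q ∈ Fa S k) :
    4 * q.1 ^ 3 + 27 * q.2 ^ 2 ≠ 0 := by
  obtain ⟨J, hJ, p, hp, rfl⟩ := hq
  have hD : (∏ Q ∈ J, Q) ≠ 0 := by
    rw [Finset.prod_ne_zero_iff]
    exact fun Q hQ => (hS Q ((Finset.mem_powersetCard.1 hJ).1 hQ)).1.2.ne_zero
  have e : 4 * (tw J p).1 ^ 3 + 27 * (tw J p).2 ^ 2 =
      (∏ Q ∈ J, Q) ^ 6 * (4 * p.1 ^ 3 + 27 * p.2 ^ 2) := by
    unfold tw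
    ring
  rw [e]
  exact mul_ne_zero (pow_ne_zero 6 hD) hp.sq.ne_zero

/-- The main theorem, with total variation. -/
theorem main2 (ε : ℝ) (hε : 0 < ε) :
    ∃ k₀ : ℕ, ∀ k ≥ k₀, ∃ δ : ℝ, 0 < δ ∧ ∀ S : Finset ℤ, PS S → S.card = 2 * k →
    (∀ Q ∈ S, ∀ Q' ∈ S, (Q : ℝ) ≤ (1 + δ) * (Q' : ℝ)) → ∃ c : ℝ, 0 < c ∧ ∃ x₀ : ℝ,
    ∀ x ≥ x₀, (AllC x).Finite ∧ 0 < (AllC x).ncard ∧
      c * ((AllC x).ncard : ℝ) ≤ ((Fa S k ∩ AllC x).ncard : ℝ) ∧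
      ∀ 𝒟 : Set ℕ, |({q ∈ Fa S k ∩ AllC x | ∃ d ∈ 𝒟,
          Nat.card (Sel2 (sW (q.1 : ℚ) (q.2 : ℚ))) = 2 ^ d}.ncard : ℝ) -
        (∑' d : 𝒟, Cd d) * ((Fa S k ∩ AllC x).ncard : ℝ)| ≤
          ε * ((Fa S k ∩ AllC x).ncard : ℝ) := by
  obtain ⟨ε', hε', htv⟩ := tv (α := ℤ × ℤ) ε hε
  obtain ⟨k₀, hk₀⟩ := main' ε' hε'
  refine ⟨k₀, fun k hk => ?_⟩
  obtain ⟨δ, hδ, h⟩ := hk₀ k hk
  refine ⟨δ, hδ, fun S hS hcard hSδ => ?_⟩
  obtain ⟨c, hc, x₀, hx₀⟩ := h S hS hcard hSδ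
  refine ⟨c / 9, by positivity, max x₀ 1, fun x hx => ?_⟩
  obtain ⟨h1, h2, h3⟩ := hx₀ x ((le_max_left _ _).trans hx)
  have hx1 : 1 ≤ x := (le_max_right _ _).trans hx
  obtain ⟨h4, h5⟩ := allC_bound hx1
  have e1 : Fa S k ∩ AllC x = {q ∈ Fa S k | Ht x q} := by
    ext q
    constructor
    · rintro ⟨hq, hq'⟩
      exact ⟨hq, hq'.2⟩
    · rintro ⟨hq, hq'⟩
      exact ⟨hq, fa_ell hS hq, hq'⟩
  rw [e1]
  refine ⟨h4, ?_, ?_, ?_⟩
  · rw [Set.ncard_pos h4]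
    refine ⟨(1, 1), by norm_num, ?_, ?_⟩
    · simpa using hx1
    · simpa using hx1
  · refine le_trans ?_ h2
    calc c / 9 * ((AllC x).ncard : ℝ) ≤ c / 9 * (9 * x ^ (5 / 6 : ℝ)) :=
          mul_le_mul_of_nonneg_left h5 (by positivity)
      _ = c * x ^ (5 / 6 : ℝ) := by ring
  · refine htv {q ∈ Fa S k | Ht x q}
      (fun q d => Nat.card (Sel2 (sW (q.1 : ℚ) (q.2 : ℚ))) = 2 ^ d) h1 ?_ ?_
    · intro q d d' hd hd'
      exact Nat.pow_right_injective (le_refl 2) (hd.symm.trans hd')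
    · intro d
      have h6 := h3 d
      have e2 : {q ∈ {q ∈ Fa S k | Ht x q} | Nat.card (Sel2 (sW (q.1 : ℚ) (q.2 : ℚ))) = 2 ^ d} =
          {q ∈ Fa S k | Ht x q ∧ Nat.card (Sel2 (sW (q.1 : ℚ) (q.2 : ℚ))) = 2 ^ d} := by
        ext q
        simp only [Set.mem_setOf_eq]
        tauto
      rw [e2]
      exact h6

/-- Every rank occurs with positive proportion. -/
theorem pos2 (d : ℕ) : ∃ c : ℝ, 0 < c ∧ ∃ x₀ : ℝ, ∀ x ≥ x₀,
    c * ((AllC x).ncard : ℝ) ≤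
      ({q ∈ AllC x | Nat.card (Sel2 (sW (q.1 : ℚ) (q.2 : ℚ))) = 2 ^ d}.ncard : ℝ) := by
  have hCd := cd_pos inf_pos d
  obtain ⟨k₀, hk₀⟩ := main2 (Cd d / 2) (by positivity)
  obtain ⟨δ, hδ, h⟩ := hk₀ k₀ le_rfl
  obtain ⟨S, hcard, hS', hSδ⟩ := Pool.Agent.H66.PR.Pri.pri 3 (2 * k₀) δ hδ
  obtain ⟨c, hc, x₀, hx₀⟩ := h S (fun Q hQ => ⟨(hS' Q hQ).1, (hS' Q hQ).2.1⟩) hcard hSδ
  refine ⟨Cd d / 2 * c, by positivity, x₀, fun x hx => ?_⟩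
  obtain ⟨h1, h2, h3, h4⟩ := hx₀ x hx
  have h5 := (abs_le.1 (h4 {d})).1
  have e : ∑' d' : ({d} : Set ℕ), Cd d' = Cd d := by
    simp
  rw [e] at h5
  have h6 : ({q ∈ Fa S k₀ ∩ AllC x | ∃ d' ∈ ({d} : Set ℕ),
      Nat.card (Sel2 (sW (q.1 : ℚ) (q.2 : ℚ))) = 2 ^ d'}.ncard : ℝ) ≤
      ({q ∈ AllC x | Nat.card (Sel2 (sW (q.1 : ℚ) (q.2 : ℚ))) = 2 ^ d}.ncard : ℝ) := by
    have h7 : {q ∈ Fa S k₀ ∩ AllC x | ∃ d' ∈ ({d} : Set ℕ),
        Nat.card (Sel2 (sW (q.1 : ℚ) (q.2 : ℚ))) = 2 ^ d'} ⊆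
        {q ∈ AllC x | Nat.card (Sel2 (sW (q.1 : ℚ) (q.2 : ℚ))) = 2 ^ d} := by
      rintro q ⟨⟨-, hq⟩, d', hd', hq'⟩
      rw [Set.mem_singleton_iff] at hd'
      subst hd'
      exact ⟨hq, hq'⟩
    exact_mod_cast Set.ncard_le_ncard h7 (h1.subset fun q hq => hq.1)
  calc Cd d / 2 * c * ((AllC x).ncard : ℝ) = Cd d / 2 * (c * ((AllC x).ncard : ℝ)) := by ring
    _ ≤ Cd d / 2 * ((Fa S k₀ ∩ AllC x).ncard : ℝ) := mul_le_mul_of_nonneg_left h3 (by positivity)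
    _ ≤ _ := by linarith

end Pool.Agent.H62.PR
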