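import Pool.Agent.H62.PR.Stm

/-!
# Project PR (helper62): the 2-Selmer group of a twist and the subspaces of `∏ F₂²`,
# definitions and statements of parts
-/

set_option autoImplicit false
set_option linter.all false

open Polynomial IsDedekindDomain WeierstrassCurve WeierstrassCurve.Affine NumberField
open Pool.Agent.TH115.GD
open scoped Classical IntermediateField

namespace Pool.Agent.H62.PR

open Pool.Agent.N874.PP (Tup chA chB gq tau Two Ev Sq1 U0 sW IsBeta Rt)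
open Pool.Agent.N874.PM (PLoc Lies SelR ShaR)
open Pool.Agent.N922.PQ

/-- Continuous cocycles with values in the points of order two which are coboundaries (of arbitrary
points) over all completions of `ℚ`. -/
structure SelCoc (W : WeierstrassCurve ℚ) (f : (Sep ℚ ≃ₐ[ℚ] Sep ℚ) → Pt W (Sep ℚ)) : Prop where
  coc : IsCoc W f
  two : ∀ σ, (2 : ℕ) • f σ = 0
  fin : ∀ v : HeightOneSpectrum (𝓞 ℚ), LocTriv W (Comp (𝓞 ℚ) ℚ v) (Sep (Comp (𝓞 ℚ) ℚ v)) f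
  real : LocTriv W ℝ (Sep ℝ) f

/-- Two cocycles are equivalent if their difference is the coboundary of a point of order two. -/
def selSetoid (W : WeierstrassCurve ℚ) :
    Setoid {f : (Sep ℚ ≃ₐ[ℚ] Sep ℚ) → Pt W (Sep ℚ) // SelCoc W f} where
  r f g := ∃ T : Pt W (Sep ℚ), (2 : ℕ) • T = 0 ∧ ∀ σ, f.1 σ - g.1 σ = act W (rs ℚ σ) T - T
  iseqv :=
    { refl := fun f => ⟨0, smul_zero _, fun σ => by rw [map_zero, sub_self, sub_self]⟩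
      symm := by
        rintro f g ⟨T, h2, h⟩
        refine ⟨-T, by rw [smul_neg, h2, neg_zero], fun σ => ?_⟩
        rw [map_neg, ← neg_sub, h σ]
        abel
      trans := by
        rintro f g k ⟨T, h2, h⟩ ⟨T', h2', h'⟩
        refine ⟨T + T', by rw [smul_add, h2, h2', zero_add], fun σ => ?_⟩
        rw [map_add, ← sub_add_sub_cancel, h σ, h' σ]
        abel }

/-- The 2-Selmer group (as a set). -/
def Sel2 (W : WeierstrassCurve ℚ) : Type := Quotient (selSetoid W)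

section lam

variable {L : Type} [Field L] [NumberField L]

/-- The elements of square norm which satisfy the local condition at `2` and are unramified outside
the `𝔮 Q`, `Q ∈ S`. -/
def Mset (a b : ℤ) (θ : L) (S : Finset ℤ) (𝔮 : ℤ → HeightOneSpectrum (𝓞 L)) : Set L :=
  {α | α ≠ 0 ∧ IsSquare (Algebra.norm ℚ α) ∧ Loc2 a b θ α ∧
    ∀ 𝔓 : HeightOneSpectrum (𝓞 L), (∀ Q ∈ S, 𝔓 ≠ 𝔮 Q) → Ev 𝔓 α}

/-- The local classes at the `𝔮 Q`, `Q ∈ S`. -/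
noncomputable def psi (θ : L) (S : Finset ℤ) (𝔮 : ℤ → HeightOneSpectrum (𝓞 L)) (α : L) :
    {Q : ℤ // Q ∈ S} → ZMod 2 × ZMod 2 :=
  fun Q => cl (𝔮 Q) (((Q : ℤ) : L) * θ) α

end lam

/-- The hypotheses on the data. -/
structure Dt {L : Type} [Field L] [NumberField L] (a b : ℤ) (θ : L) (X : ℕ) (S T : Finset ℤ)
    (s A B : ℤ → ℤ) (𝔮 : ℤ → HeightOneSpectrum (𝓞 L)) : Prop where
  hc : IsCub a b θ
  hS : GoodS S s
  hT : GoodT T A B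
  hF : Fam X S s T A B a b
  h4 : (4 : ℤ) ∣ a - b ∨ a % 4 = 3
  hq : ∀ Q ∈ S, Ov Q (𝔮 Q) ∧ (𝔮 Q).valuation L θ = 1
  inj : ∀ α ∈ Mset a b θ S 𝔮, psi θ S 𝔮 α = 0 → IsSquare α

/-- The relation between a cocycle and an element of `L`: `f` is described by `β`, `h(t) = β(t) ^ 2`
and `α = h(D θ)`. -/
def Rel {L : Type} [Field L] [NumberField L] (a b D : ℤ) (θ : L)
    (f : (Sep ℚ ≃ₐ[ℚ] Sep ℚ) →
      Pt (sW (((a * D ^ 2 : ℤ)) : ℚ) (((b * D ^ 3 : ℤ)) : ℚ)) (Sep ℚ)) (α : L) : Prop :=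
  ∃ (β : Sep ℚ → Sep ℚ) (h : ℚ[X]),
    IsBeta (((a * D ^ 2 : ℤ)) : ℚ) (((b * D ^ 3 : ℤ)) : ℚ) f β ∧
    (∀ t : Sep ℚ, Rt (((a * D ^ 2 : ℤ)) : ℚ) (((b * D ^ 3 : ℤ)) : ℚ) t → aeval t h = β t ^ 2) ∧
    aeval ((D : L) * θ) h = α

/-- Part FWD. From a cocycle `f` one gets (library, `S_GB`, `S_GN`) `β`, `h` and `α = h(D θ)`;
`α ∈ Mset` and `psi α ∈ LJ J` (library: `S_GLR`, `S_GLR2`, `S_LOC1M`, `S_LOC2M`, `S_P3`; compare
`Pool/Agent/H62/QM/Sel.lean` and `Desc.lean`, with `M = ℚ`). -/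
def S_FWD : Prop := ∀ (L : Type) [Field L] [NumberField L] (a b : ℤ) (θ : L) (X : ℕ)
  (S T : Finset ℤ) (s A B : ℤ → ℤ) (𝔮 : ℤ → HeightOneSpectrum (𝓞 L)), Dt a b θ X S T s A B 𝔮 →
  ∀ (J : Finset {Q : ℤ // Q ∈ S}) (D : ℤ), D = ∏ Q ∈ J, (Q : ℤ) →
  ∀ f : (Sep ℚ ≃ₐ[ℚ] Sep ℚ) → Pt (sW (((a * D ^ 2 : ℤ)) : ℚ) (((b * D ^ 3 : ℤ)) : ℚ)) (Sep ℚ),
    SelCoc (sW (((a * D ^ 2 : ℤ)) : ℚ) (((b * D ^ 3 : ℤ)) : ℚ)) f →
    ∃ α ∈ Mset a b θ S 𝔮, Rel a b D θ f α ∧ psi θ S 𝔮 α ∈ LJ J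

/-- Part REV. Conversely from `α = h(D θ)` (part `S_COC`) one gets `f`, locally trivial by the parts
`S_PTR` and `S_T2` (at `2`), `S_I3` (at `3`), `S_GM` (`p ≥ 5`, not dividing `D`), `S_DP` (`p ∣ D`),
`S_RE` (at `∞`). For the completions: `Rat.HeightOneSpectrum.adicCompletion.padicEquiv` of Mathlib
gives `ℚ_[p] → v.adicCompletion ℚ`, and `PLoc` is functorial. -/
def S_REV : Prop := ∀ (L : Type) [Field L] [NumberField L] (a b : ℤ) (θ : L) (X : ℕ)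
  (S T : Finset ℤ) (s A B : ℤ → ℤ) (𝔮 : ℤ → HeightOneSpectrum (𝓞 L)), Dt a b θ X S T s A B 𝔮 →
  ∀ (J : Finset {Q : ℤ // Q ∈ S}) (D : ℤ), D = ∏ Q ∈ J, (Q : ℤ) →
  ∀ α ∈ Mset a b θ S 𝔮, psi θ S 𝔮 α ∈ LJ J →
    ∃ f : (Sep ℚ ≃ₐ[ℚ] Sep ℚ) → Pt (sW (((a * D ^ 2 : ℤ)) : ℚ) (((b * D ^ 3 : ℤ)) : ℚ)) (Sep ℚ),
      SelCoc (sW (((a * D ^ 2 : ℤ)) : ℚ) (((b * D ^ 3 : ℤ)) : ℚ)) f ∧ Rel a b D θ f α

/-- The 2-Selmer group of the twist by `D = ∏ Q ∈ J, Q` is the intersection of the image of `psi`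
with the coordinate Lagrangian `LJ J`. Part SELA: `S_FWD → S_REV → S_EQV → S_SEL`: two cocycles
are equivalent iff the product of the two `α` is a square (part `S_EQV`) iff `psi` is the same. -/
def S_SEL : Prop := ∀ (L : Type) [Field L] [NumberField L] (a b : ℤ) (θ : L) (X : ℕ)
  (S T : Finset ℤ) (s A B : ℤ → ℤ) (𝔮 : ℤ → HeightOneSpectrum (𝓞 L)), Dt a b θ X S T s A B 𝔮 →
  ∀ (J : Finset {Q : ℤ // Q ∈ S}) (D : ℤ), D = ∏ Q ∈ J, (Q : ℤ) →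
  Nat.card (Sel2 (sW (((a * D ^ 2 : ℤ)) : ℚ) (((b * D ^ 3 : ℤ)) : ℚ))) =
    Nat.card {l : {Q : ℤ // Q ∈ S} → ZMod 2 × ZMod 2 //
      (∃ α ∈ Mset a b θ S 𝔮, psi θ S 𝔮 α = l) ∧ l ∈ LJ J}

/-- Part LAM. The image of `psi` (see `core2` in `N922/PQ/Core.lean` for the group structure and for
isotropy, from `S_REC`, `S_CLS`, `S_EXQ`, `S_PLM`, all proved in the library, and part `S_SUN`,
`S_L2I` and `Ideal.absNorm (𝔮 Q).asIdeal = Q ^ 2` for the size; `psi` is injective modulo squares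
on `Mset` by `Dt.inj`). -/
def S_LAM : Prop := ∀ (L : Type) [Field L] [NumberField L] (a b : ℤ) (θ : L) (X : ℕ)
  (S T : Finset ℤ) (s A B : ℤ → ℤ) (𝔮 : ℤ → HeightOneSpectrum (𝓞 L)), Dt a b θ X S T s A B 𝔮 →
  ∃ Λ : AddSubgroup ({Q : ℤ // Q ∈ S} → ZMod 2 × ZMod 2),
    (∀ l, l ∈ Λ ↔ ∃ α ∈ Mset a b θ S 𝔮, psi θ S 𝔮 α = l) ∧
    (∀ l ∈ Λ, ∑ Q, (l Q).1 * (l Q).2 = 0) ∧ 2 ^ S.card ≤ Nat.card Λ

end Pool.Agent.H62.PR
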