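import Pool.Agent.H62.PR.Stm

/-!
# Project PR (helper62): the distribution on the slice of the sets with `k` elements, `n = 2 k`
-/

set_option autoImplicit false
set_option linter.all false

open scoped Classical

namespace Pool.Agent.H62.PR

/-- Part MCK. The version of `S_MC` for the subsets `J` with exactly `k` elements of a set with
`2 k` elements. For fixed `ω` the parity `π` of `dim (Λ ω ∩ LJ J)` is the same for all these `J`
(changing `J` at one place changes the dimension by one); given the parity the distribution is that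
of Poonen and Rains. Proof: for typical `(ω, J)` every `l ≠ 0` in `Λ ω ∩ LJ J` vanishes at about half
of the places in `J` and at about half of the places outside `J`; count the pairs `J ⊂ J ∪ {i}`
between the slices `k` and `k + 1` from both sides: with `x m d` the proportion in the slice `m`,
`x (k+1) (d+1) * (1 - 2^-(d+1)) = x k d * 2^-d` and `x k (d+1) * (1 - 2^-(d+1)) = x (k+1) d * 2^-d`
up to small errors, so `x k (d+2) / x k d = Cd (d+2) / Cd d`; and `∑ Cd d` over the even `d`, and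
over the odd `d`, is `1 / 2`. -/
def S_MCK : Prop := ∀ (ε K : ℝ), 0 < ε → ∃ n₀ : ℕ, ∀ (ι Ω : Type) [Fintype ι] [Fintype Ω] (k : ℕ),
  n₀ ≤ k → Fintype.card ι = 2 * k → ∀ Λ : Ω → AddSubgroup (ι → ZMod 2 × ZMod 2),
  (∀ ω, ∀ l ∈ Λ ω, ∑ i, (l i).1 * (l i).2 = 0) →
  (∀ ω, 2 ^ Fintype.card ι ≤ Nat.card (Λ ω)) →
  (∀ J Z : Finset ι, (2 : ℝ) ^ Fintype.card ι *
    (Nat.card {ω : Ω // ∃ l ∈ Λ ω, l ∈ LJ J ∧ l ≠ 0 ∧ ∀ i, l i = 0 ↔ i ∈ Z} : ℝ) ≤
      K * Fintype.card Ω) →
  (1 - ε) * (Fintype.card Ω : ℝ) ≤ (Nat.card {ω : Ω // ∃ π : ℕ, ∀ d : ℕ,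
    |(Nat.card {J : Finset ι // J.card = k ∧
        Nat.card {l : ι → ZMod 2 × ZMod 2 // l ∈ Λ ω ∧ l ∈ LJ J} = 2 ^ d} : ℝ)
      - (if d % 2 = π then 2 * Cd d else 0) * (Nat.choose (2 * k) k : ℝ)| ≤
        ε * (Nat.choose (2 * k) k : ℝ)} : ℝ)

end Pool.Agent.H62.PR
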