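import Pool.Agent.H62.PR.Slice0

/-!
# Project PR (helper62): `S_MCK` with the exact parity
-/

set_option autoImplicit false
set_option linter.all false

open scoped Classical

namespace Pool.Agent.H62.PR

/-- The distribution on the slice, with parity `π`. -/
def SliceOK {ι : Type} [Fintype ι] (ε : ℝ) (k : ℕ) (Λ : AddSubgroup (ι → ZMod 2 × ZMod 2))
    (π : ℕ) : Prop :=
  π < 2 ∧ (∀ J : Finset ι, J.card = k → ∀ d : ℕ,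
      Nat.card {l : ι → ZMod 2 × ZMod 2 // l ∈ Λ ∧ l ∈ LJ J} = 2 ^ d → d % 2 = π) ∧
    (∀ J : Finset ι, ∃ d : ℕ,
      Nat.card {l : ι → ZMod 2 × ZMod 2 // l ∈ Λ ∧ l ∈ LJ J} = 2 ^ d) ∧
    ∀ d : ℕ, |(Nat.card {J : Finset ι // J.card = k ∧
        Nat.card {l : ι → ZMod 2 × ZMod 2 // l ∈ Λ ∧ l ∈ LJ J} = 2 ^ d} : ℝ)
      - (if d % 2 = π then 2 * Cd d else 0) * (Nat.choose (2 * k) k : ℝ)| ≤
        ε * (Nat.choose (2 * k) k : ℝ)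

/-- Part MCK2. `S_MCK` with the exact parity. -/
def S_MCK2 : Prop := ∀ (ε K : ℝ), 0 < ε → ∃ n₀ : ℕ, ∀ (ι Ω : Type) [Fintype ι] [Fintype Ω] (k : ℕ),
  n₀ ≤ k → Fintype.card ι = 2 * k → ∀ Λ : Ω → AddSubgroup (ι → ZMod 2 × ZMod 2),
  (∀ ω, ∀ l ∈ Λ ω, ∑ i, (l i).1 * (l i).2 = 0) →
  (∀ ω, 2 ^ Fintype.card ι ≤ Nat.card (Λ ω)) →
  (∀ J Z : Finset ι, (2 : ℝ) ^ Fintype.card ι *
    (Nat.card {ω : Ω // ∃ l ∈ Λ ω, l ∈ LJ J ∧ l ≠ 0 ∧ ∀ i, l i = 0 ↔ i ∈ Z} : ℝ) ≤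
      K * Fintype.card Ω) →
  (1 - ε) * (Fintype.card Ω : ℝ) ≤ (Nat.card {ω : Ω // ∃ π : ℕ, SliceOK ε k (Λ ω) π} : ℝ)

end Pool.Agent.H62.PR
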