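import Pool.Graph.R_pool_sql_team_seeded_63374d34.N922.PQ.Final2

/-!
# Project PR (helper62): the Poonen-Rains distribution of 2-Selmer ranks. Statements of parts.

Notation as in the library project PQ (helper922): `N922/PQ/Def.lean` (tuples, `Fam`, `dsc`),
`N922/PQ/Lat.lean` (`IsCub`, `Crd`, `Ov`, `Loc2`, `PL2`), `N874/PP/Def.lean` (`Ev`, `Sq1`, `U0`),
`N874/PP/Gal.lean` (`sW`, `Rt`, `sg`, `rr`, `IsBeta`, `S_GP1` .. `S_GP4`, proved in `N630/PP/GP.lean`),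
`N874/PM/Stm.lean` (`PLoc`), `R_seed8/TH115/GD/Defs.lean` (`Pt`, `act`, `rs`, `IsCoc`, `LocTriv`, `Sep`).
-/

set_option autoImplicit false
set_option linter.all false

open Polynomial IsDedekindDomain WeierstrassCurve WeierstrassCurve.Affine NumberField
open Pool.Agent.TH115.GD
open scoped Classical IntermediateField

namespace Pool.Agent.H62.PR

open Pool.Agent.N874.PP (Tup chA chB gq tau Two Ev Sq1 U0 sW IsBeta Rt)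
open Pool.Agent.N874.PM (PLoc Lies SelR ShaR)
open Pool.Agent.N922.PQ

/-! ### Combinatorics -/

/-- The constants of Poonen and Rains for `p = 2`. -/
noncomputable def Cd (d : ℕ) : ℝ :=
  (⨅ N : ℕ, ∏ j ∈ Finset.range N, (1 + (1 / 2 : ℝ) ^ j)⁻¹) *
    ∏ i ∈ Finset.range d, (2 : ℝ) / (2 ^ (i + 1) - 1)

/-- Part EUL (Euler's identity). -/
def S_EUL : Prop := HasSum Cd 1

/-- The coordinate Lagrangian of `J`. -/
def LJ {ι : Type} (J : Finset ι) : Set (ι → ZMod 2 × ZMod 2) :=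
  {l | (∀ i ∈ J, (l i).2 = 0) ∧ ∀ i ∉ J, (l i).1 = 0}

/-- Part MC (Markov chain). `Λ ω` are maximal isotropic subspaces for the quadratic form
`∑ (l i).1 * (l i).2`. -/
def S_MC : Prop := ∀ (ε K : ℝ), 0 < ε → ∃ n₀ : ℕ, ∀ (ι Ω : Type) [Fintype ι] [Fintype Ω],
  n₀ ≤ Fintype.card ι → ∀ Λ : Ω → AddSubgroup (ι → ZMod 2 × ZMod 2),
  (∀ ω, ∀ l ∈ Λ ω, ∑ i, (l i).1 * (l i).2 = 0) →
  (∀ ω, 2 ^ Fintype.card ι ≤ Nat.card (Λ ω)) →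
  (∀ J Z : Finset ι, (2 : ℝ) ^ Fintype.card ι *
    (Nat.card {ω : Ω // ∃ l ∈ Λ ω, l ∈ LJ J ∧ l ≠ 0 ∧ ∀ i, l i = 0 ↔ i ∈ Z} : ℝ) ≤
      K * Fintype.card Ω) →
  (1 - ε) * (Fintype.card Ω : ℝ) ≤ (Nat.card {ω : Ω // ∀ d : ℕ,
    |(Nat.card {J : Finset ι // Nat.card {l : ι → ZMod 2 × ZMod 2 // l ∈ Λ ω ∧ l ∈ LJ J} = 2 ^ d} : ℝ)
      - Cd d * 2 ^ Fintype.card ι| ≤ ε * 2 ^ Fintype.card ι} : ℝ)

/-! ### Units -/

/-- Part SUN. Independent elements (modulo squares) of square norm with even valuations outside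
given primes of square norm. -/
def S_SUN : Prop := ∀ (L : Type) [Field L] [NumberField L], Module.finrank ℚ L = 3 →
  ∀ (n : ℕ) (𝔮 : Fin n → HeightOneSpectrum (𝓞 L)), Function.Injective 𝔮 →
  (∀ i, ∃ k : ℕ, Ideal.absNorm (𝔮 i).asIdeal = k ^ 2) →
  ∃ x : Fin (n + 1) → L, (∀ i, x i ≠ 0 ∧ IsSquare (Algebra.norm ℚ (x i)) ∧
      ∀ 𝔓 : HeightOneSpectrum (𝓞 L), (∀ j, 𝔓 ≠ 𝔮 j) → 𝔓.valuation L (x i) = 1) ∧
    ∀ c : Finset (Fin (n + 1)), IsSquare (∏ i ∈ c, x i) → c = ∅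

/-- Part L2I. The local condition at `2` has index two. -/
def S_L2I : Prop := ∀ (L : Type) [Field L] [NumberField L] (a b : ℤ) (θ : L), IsCub a b θ →
  (∀ z : ℤ, ¬ (2 : ℤ) ∣ z ^ 3 + a * z + b) → ((4 : ℤ) ∣ a - b ∨ a % 4 = 3) →
  ∀ x y : L, x ≠ 0 → y ≠ 0 → IsSquare (Algebra.norm ℚ x) → IsSquare (Algebra.norm ℚ y) →
    ¬ Loc2 a b θ x → ¬ Loc2 a b θ y → Loc2 a b θ (x * y)

/-! ### Cocycles -/

/-- Part COC. Existence of the cocycle. -/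
def S_COC : Prop := ∀ (K : Type) [Field K] (A B : K), (6 : K) ≠ 0 → 4 * A ^ 3 + 27 * B ^ 2 ≠ 0 →
  Irreducible (X ^ 3 + C A * X + C B : K[X]) → ∀ h : K[X],
  (∃ (L : Type) (_ : Field L) (_ : Algebra K L) (t : L), Rt A B t ∧ Module.finrank K L = 3 ∧
    aeval t h ≠ 0 ∧ IsSquare (Algebra.norm K (aeval t h))) →
  ∃ (f : (Sep K ≃ₐ[K] Sep K) → Pt (sW A B) (Sep K)) (β : Sep K → Sep K), IsCoc (sW A B) f ∧
    (∀ σ, (2 : ℕ) • f σ = 0) ∧ IsBeta A B f β ∧ ∀ t : Sep K, Rt A B t → aeval t h = β t ^ 2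

/-- Part EQV. Cohomologous cocycles and squares. -/
def S_EQV : Prop := ∀ (K : Type) [Field K] (A B : K), (6 : K) ≠ 0 → 4 * A ^ 3 + 27 * B ^ 2 ≠ 0 →
  Irreducible (X ^ 3 + C A * X + C B : K[X]) →
  ∀ (f f' : (Sep K ≃ₐ[K] Sep K) → Pt (sW A B) (Sep K)) (β β' : Sep K → Sep K) (h h' : K[X]),
  IsCoc (sW A B) f → (∀ σ, (2 : ℕ) • f σ = 0) → IsBeta A B f β →
  (∀ t : Sep K, Rt A B t → aeval t h = β t ^ 2) →
  IsCoc (sW A B) f' → (∀ σ, (2 : ℕ) • f' σ = 0) → IsBeta A B f' β' →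
  (∀ t : Sep K, Rt A B t → aeval t h' = β' t ^ 2) →
  ∀ (L : Type) [Field L] [Algebra K L] (t : L), Rt A B t → Module.finrank K L = 3 →
    ((∃ T : Pt (sW A B) (Sep K), (2 : ℕ) • T = 0 ∧
      ∀ σ, f σ - f' σ = act (sW A B) (rs K σ) T - T) ↔ IsSquare (aeval t h * aeval t h'))

/-- Part PTR. A class which comes from a point over `F` is trivial over `F`. -/
def S_PTR : Prop := ∀ (M F : Type) [Field M] [Field F] [Algebra M F] (A B : M), (6 : M) ≠ 0 →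
  4 * A ^ 3 + 27 * B ^ 2 ≠ 0 →
  ∀ f : (Sep M ≃ₐ[M] Sep M) → Pt (sW A B) (Sep M), IsCoc (sW A B) f → (∀ σ, (2 : ℕ) • f σ = 0) →
  ∀ (β : Sep M → Sep M) (h : M[X]), IsBeta A B f β →
    (∀ t : Sep M, Rt A B t → aeval t h = β t ^ 2) →
    PLoc F A B h → LocTriv (sW A B) F (Sep F) f

/-! ### Local conditions -/

/-- Part RE. The real place. -/
def S_RE : Prop := ∀ (L : Type) [Field L] [NumberField L] (A B : ℚ), 0 < A →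
  ∀ (t : L) (h : ℚ[X]), Rt A B t → Module.finrank ℚ L = 3 → aeval t h ≠ 0 →
  IsSquare (Algebra.norm ℚ (aeval t h)) → PLoc ℝ A B h

/-- Part GM. Primes `p ≥ 5` not dividing `D` (good or multiplicative reduction): unramified
classes come from points. -/
def S_GM : Prop := ∀ (L O : Type) [Field L] [NumberField L] [CommRing O] [IsDedekindDomain O]
  [Algebra O L] [IsFractionRing O L] [IsIntegralClosure O ℤ L] (a b D : ℤ) (θ : L),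
  IsCub a b θ → Squarefree (dsc a b) → ∀ (p : ℕ) [Fact p.Prime], 5 ≤ p → ¬ (p : ℤ) ∣ D →
  ∀ h : ℚ[X], aeval ((D : L) * θ) h ≠ 0 → IsSquare (Algebra.norm ℚ (aeval ((D : L) * θ) h)) →
    (∀ 𝔓 : HeightOneSpectrum O, Ov (p : ℤ) 𝔓 → Ev 𝔓 (aeval ((D : L) * θ) h)) →
    PLoc ℚ_[p] ((a * D ^ 2 : ℤ) : ℚ) ((b * D ^ 3 : ℤ) : ℚ) h

/-- Part I3. Odd primes modulo which the cubic polynomial has no zero. -/
def S_I3 : Prop := ∀ (L : Type) [Field L] [NumberField L] (a b D : ℤ) (θ : L),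
  IsCub a b θ → ∀ (p : ℕ) [Fact p.Prime], p ≠ 2 → ¬ (p : ℤ) ∣ D →
  (∀ z : ℤ, ¬ (p : ℤ) ∣ z ^ 3 + a * z + b) →
  ∀ h : ℚ[X], aeval ((D : L) * θ) h ≠ 0 → IsSquare (Algebra.norm ℚ (aeval ((D : L) * θ) h)) →
    PLoc ℚ_[p] ((a * D ^ 2 : ℤ) : ℚ) ((b * D ^ 3 : ℤ) : ℚ) h

/-- Part DP. Primes dividing the twist. -/
def S_DP : Prop := ∀ (L O : Type) [Field L] [NumberField L] [CommRing O] [IsDedekindDomain O]
  [Algebra O L] [IsFractionRing O L] [IsIntegralClosure O ℤ L] (a b D : ℤ) (θ : L),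
  IsCub a b θ → Squarefree (dsc a b) → ∀ (p : ℕ) [Fact p.Prime], p ≠ 2 → (p : ℤ) ∣ b →
  (∀ z : ℤ, ¬ (p : ℤ) ∣ z ^ 2 + a) → (p : ℤ) ∣ D → ¬ (p : ℤ) ^ 2 ∣ D →
  ∀ h : ℚ[X], aeval ((D : L) * θ) h ≠ 0 → IsSquare (Algebra.norm ℚ (aeval ((D : L) * θ) h)) →
    (∀ 𝔓 : HeightOneSpectrum O, Ov (p : ℤ) 𝔓 → 𝔓.valuation L θ = 1 →
      U0 𝔓 ((p : L) * θ) (aeval ((D : L) * θ) h)) →
    (∀ 𝔓 : HeightOneSpectrum O, Ov (p : ℤ) 𝔓 → 𝔓.valuation L θ < 1 →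
      Ev 𝔓 (aeval ((D : L) * θ) h)) →
    PLoc ℚ_[p] ((a * D ^ 2 : ℤ) : ℚ) ((b * D ^ 3 : ℤ) : ℚ) h

/-- Part T2. The prime `2`. -/
def S_T2 : Prop := ∀ a b D : ℤ, 0 < D → D % 8 = 1 → ∀ h : ℚ[X],
  PL2 a b ((h.comp (C (D : ℚ) * X)).map (algebraMap ℚ ℚ_[2])) →
    PLoc ℚ_[2] ((a * D ^ 2 : ℤ) : ℚ) ((b * D ^ 3 : ℤ) : ℚ) h

end Pool.Agent.H62.PR
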